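import Pool.Agent.Y698.Two
import Pool.Agent.TH936.CW.Eone

/-!
# Multiplication by `β = (1 - √-7) / 2`
-/

set_option autoImplicit false
set_option linter.unusedSectionVars false

open Filter
open scoped Topology PeriodPair

namespace Pool.Agent.J4.H67.AW

open Pool.Agent.Y698
open H667R3 Pool.Agent.W192.HK Pool.Agent.TH936.CM Pool.Agent.TH936.PU
open Pool.Agent.W245.EB (scL mem_scL wpExcept_eq)

variable {L : PeriodPair} {Ω : ℂ}

lemma bl_sq : bl ^ 2 = bl - 2 := by
  unfold bl
  linear_combination al_sq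

lemma al_eq : al = 1 - bl := by
  unfold bl
  ring

/-- multiplication by `β` -/
theorem mul_bl (hL : IsLat L RR Ω) {z : ℂ} (hz : bl * z ∉ L.lattice) :
    bl ^ 2 * ℘[L] (bl * z) = ℘[L] z + ℘[L] (z - tB Ω) - ℘[L] (tB Ω) := by
  have htA := tB_notMem hL
  have hper : ∀ z w : ℂ, z - w ∈ L.lattice → ℘[L] z = ℘[L] w := fun z w h => wp_per h
  set g : ℂ → ℂ := fun z => bl ^ 2 * ℘[L] (bl * z) - ℘[L] z - ℘[L] (z - tB Ω) with hg
  set G₀ : ℂ → ℂ := fun z => bl ^ 2 * ℘[L - (0 : ℂ)] (bl * z) - ℘[L - (0 : ℂ)] z -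
    ℘[L] (z - tB Ω) with hG₀
  have hnot : ∀ z : ℂ, z ∉ (scL L bl bl_ne).lattice → bl * z ∉ L.lattice ∧ z ∉ L.lattice ∧
      z - tB Ω ∉ L.lattice := by
    intro z hz
    have h1 : bl * z ∉ L.lattice := fun h => hz (mem_scL.2 h)
    refine ⟨h1, fun h => h1 ?_, fun h => h1 ?_⟩
    · have := hL.mul bR z h
      rwa [bR_coe] at this
    · have h2 := hL.mul bR _ h
      rw [bR_coe, mul_sub] at h2
      have h3 := add_mem h2 (tB_mem hL)
      rwa [sub_add_cancel] at h3
  have hdG : DifferentiableAt ℂ G₀ 0 := by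
    have h4 := (L.analyticAt_weierstrassPExcept 0).differentiableAt
    apply DifferentiableAt.sub
    · apply DifferentiableAt.sub
      · apply DifferentiableAt.const_mul
        have h5 : DifferentiableAt ℂ ℘[L - (0 : ℂ)] (bl * 0) := by rw [mul_zero]; exact h4
        exact DifferentiableAt.comp (0 : ℂ) h5 (by fun_prop)
      · exact h4
    · have h6 : (0 : ℂ) - tB Ω ∉ L.lattice := by
        rw [zero_sub]
        exact fun h => htA (isLat_neg_mem h)
      exact DifferentiableAt.comp (0 : ℂ) (f := fun z => z - tB Ω)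
        (hasDerivAt_weierstrassP L h6).differentiableAt (by fun_prop)
  have hev : ∀ᶠ z in 𝓝[≠] (0 : ℂ), z ∉ (scL L bl bl_ne).lattice := by
    filter_upwards [self_mem_nhdsWithin, mem_nhdsWithin_of_mem_nhds
      ((scL L bl bl_ne).compl_lattice_sdiff_singleton_mem_nhds 0)] with w hw hw'
    simp_all
  have heq : ∀ᶠ z in 𝓝[≠] (0 : ℂ), g z = G₀ z := by
    filter_upwards [self_mem_nhdsWithin] with z hz0
    have hz0' : z ≠ 0 := hz0
    simp only [hg, hG₀]
    rw [wpExcept_eq (mul_ne_zero bl_ne hz0'), wpExcept_eq hz0']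
    have := bl_ne
    field_simp
    ring
  have hconst := eq_of_periodic (scL L bl bl_ne) g ?_ ?_ G₀ hdG heq
  · have hzs : z ∉ (scL L bl bl_ne).lattice := fun h => hz (mem_scL.1 h)
    have hlim1 : Tendsto G₀ (𝓝[≠] 0) (𝓝 (G₀ 0)) :=
      (hdG.continuousAt.tendsto).mono_left nhdsWithin_le_nhds
    have hlim2 : Tendsto G₀ (𝓝[≠] 0) (𝓝 (g z)) := by
      refine tendsto_const_nhds.congr' ?_
      filter_upwards [hev, heq] with w hw1 hw2
      rw [← hw2]
      exact hconst z w hzs hw1
    have h1 := tendsto_nhds_unique hlim2 hlim1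
    simp only [hg, hG₀, mul_zero, zero_sub, L.weierstrassPExcept_zero, L.weierstrassP_neg] at h1
    linear_combination h1
  · intro z hz
    obtain ⟨h1, h2, h3⟩ := hnot z hz
    apply DifferentiableAt.sub
    · apply DifferentiableAt.sub
      · apply DifferentiableAt.const_mul
        exact DifferentiableAt.comp z (hasDerivAt_weierstrassP L h1).differentiableAt (by fun_prop)
      · exact (hasDerivAt_weierstrassP L h2).differentiableAt
    · exact DifferentiableAt.comp z (f := fun z => z - tB Ω)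
        (hasDerivAt_weierstrassP L h3).differentiableAt (by fun_prop)
  · intro z hz l hl
    have hl' : bl * l ∈ L.lattice := mem_scL.1 hl
    simp only [hg]
    have e1 : ℘[L] (bl * (z + l)) = ℘[L] (bl * z) := hper _ _ (by rwa [mul_add, add_sub_cancel_left])
    rw [e1]
    rcases ker_bl hL hl' with h | h
    · have e2 : ℘[L] (z + l) = ℘[L] z := hper _ _ (by rwa [add_sub_cancel_left])
      have e3 : ℘[L] (z + l - tB Ω) = ℘[L] (z - tB Ω) := hper _ _ (by
        have e : z + l - tB Ω - (z - tB Ω) = l := by ring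
        rwa [e])
      rw [e2, e3]
    · have e2 : ℘[L] (z + l) = ℘[L] (z - tB Ω) := hper _ _ (by
        have e : z + l - (z - tB Ω) = (l - tB Ω) + 2 * tB Ω := by ring
        rw [e]
        exact add_mem h (two_tB hL))
      have e3 : ℘[L] (z + l - tB Ω) = ℘[L] z := hper _ _ (by
        have e : z + l - tB Ω - z = l - tB Ω := by ring
        rwa [e])
      rw [e2, e3]
      ring

lemma tB_pts (hL : IsLat L RR Ω) {z : ℂ} (hz : bl * z ∉ L.lattice) :
    z ∉ L.lattice ∧ z - tB Ω ∉ L.lattice ∧ z + tB Ω ∉ L.lattice := by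
  refine ⟨fun h1 => hz (by
    have := hL.mul bR z h1
    rwa [bR_coe] at this), fun h1 => hz (by
    have h2 := hL.mul bR _ h1
    rw [bR_coe, mul_sub] at h2
    have h3 := add_mem h2 (tB_mem hL)
    rwa [sub_add_cancel] at h3), fun h1 => hz (by
    have h2 := hL.mul bR _ h1
    rw [bR_coe, mul_add] at h2
    have h3 := sub_mem h2 (tB_mem hL)
    rwa [add_sub_cancel_right] at h3)⟩

/-- multiplication by `β` in terms of `x` -/
lemma mul_bl_x (h : LD L Ω) {z : ℂ} (hz : bl * z ∉ L.lattice) :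
    Xx L (bl * z) * (bl ^ 2 * Xx L z - al) = Xx L z ^ 2 - bl ∧ bl ^ 2 * Xx L z - al ≠ 0 := by
  have hL := h.lat
  obtain ⟨hz0, hzm, hzp⟩ := tB_pts hL hz
  have hne : ℘[L] z - ℘[L] (tB Ω) ≠ 0 := by
    rw [sub_ne_zero, Ne, wp_eq_iff L hz0 (tB_notMem hL)]
    tauto
  have e3 : ℘[L] (z + tB Ω) = ℘[L] (z - tB Ω) := wp_per (by
    have e : z + tB Ω - (z - tB Ω) = 2 * tB Ω := by ring
    rw [e]
    exact two_tB hL)
  have hm := mul_bl hL hz
  -- the value at `z - t`
  have hval : 2 * ℘[L] (z - tB Ω) * (℘[L] z - ℘[L] (tB Ω)) ^ 2 =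
      (℘[L] z + ℘[L] (tB Ω)) * (2 * ℘[L] z * ℘[L] (tB Ω) - L.g₂ / 2) - L.g₃ := by
    by_cases h2z : 2 * z ∈ L.lattice
    · -- `z` is a point of order two
      have hz' : ℘'[L] z = 0 := dwp_half h2z
      have hcub := root_half hz0 h2z
      -- `z - tB` is the third point
      have h2z' : 2 * (z - tB Ω) ∈ L.lattice := by
        rw [mul_sub]
        exact sub_mem h2z (two_tB hL)
      have hcub' := root_half hzm h2z'
      have hA := root_half (tB_notMem hL) (two_tB hL)
      have nz : ℘[L] z ≠ ℘[L] (z - tB Ω) := by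
        intro h5
        rcases (wp_eq_iff L hz0 hzm).1 h5 with h6 | h6
        · apply tB_notMem hL
          have := sub_mem h2z h6
          convert this using 1
          ring
        · apply tB_notMem hL
          convert h6 using 1
          ring
      have nA : ℘[L] (tB Ω) ≠ ℘[L] (z - tB Ω) := by
        intro h5
        rcases (wp_eq_iff L (tB_notMem hL) hzm).1 h5 with h6 | h6
        · apply hz0
          convert h6 using 1
          ring
        · apply hz0
          have := sub_mem (two_tB hL) h6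
          convert this using 1
          ring
      set a := ℘[L] (tB Ω)
      set b := ℘[L] z
      set c := ℘[L] (z - tB Ω)
      have k1 : 4 * (b ^ 2 + b * a + a ^ 2) = L.g₂ := by
        apply mul_left_cancel₀ hne
        linear_combination hcub - hA
      have k2 : 4 * (b ^ 2 + b * c + c ^ 2) = L.g₂ := by
        apply mul_left_cancel₀ (sub_ne_zero.2 nz)
        linear_combination hcub - hcub'
      have k3 : a + b + c = 0 := by
        apply mul_left_cancel₀ (sub_ne_zero.2 nA)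
        linear_combination (1 / 4 : ℂ) * (k1 - k2)
      have k4 : c = -a - b := by linear_combination k3
      have k5 : L.g₃ = 4 * a ^ 3 - L.g₂ * a := by linear_combination -hA
      rw [k4, k5, ← k1]
      ring
    · have := wp_sum h2z (tB_notMem hL) hzp hzm
      rw [e3] at this
      linear_combination this
  have eb : ℘[L] (tB Ω) = (bl - 4) / 4 := by
    rw [h.eb, al_eq]
    ring
  rw [eb] at hm hval hne
  rw [h.g2, h.g3] at hval
  have hD : bl ^ 2 * Xx L z - al = bl ^ 2 * (℘[L] z - (bl - 4) / 4) := by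
    rw [al_eq]
    unfold Xx
    linear_combination (1 / 4 : ℂ) * (bl - 2) * bl_sq
  constructor
  swap
  · rw [hD]
    exact mul_ne_zero (pow_ne_zero 2 bl_ne) hne
  apply mul_right_cancel₀ hne
  rw [hD]
  unfold Xx
  set p := ℘[L] z
  set q := ℘[L] (z - tB Ω)
  have h6 : bl ^ 2 * ℘[L] (bl * z) = p + q - (bl - 4) / 4 := hm
  have h7 : (℘[L] (bl * z) + 1 / 4) * (bl ^ 2 * (p - (bl - 4) / 4)) * (p - (bl - 4) / 4) =
      (p + q - (bl - 4) / 4 + bl ^ 2 / 4) * (p - (bl - 4) / 4) ^ 2 := by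
    rw [← h6]
    ring
  rw [h7]
  linear_combination (1 / 2 : ℂ) * hval + (((p - (bl - 4) / 4) ^ 2) / 4 + p / 8 - 7 / 32) * bl_sq

/-- multiplication by `β` and the zeta function -/
theorem zeta_bl (h : LD L Ω) {z : ℂ} (hz : bl * z ∉ L.lattice) :
    bl * zeta L (bl * z) = zeta L z + zeta L (z + tB Ω) - zeta L (tB Ω) +
      (bl ^ 2 / 4 - 1 / 2) * z := by
  have hL := h.lat
  have hB := tB_notMem hL
  set g : ℂ → ℂ := fun z => bl * zeta L (bl * z) - (zeta L z + zeta L (z + tB Ω)) -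
    (bl ^ 2 / 4 - 1 / 2) * z with hg
  have hder : ∀ z, z ∉ (scL L bl bl_ne).lattice → HasDerivAt g 0 z := by
    intro z hz
    have hz' : bl * z ∉ L.lattice := fun h => hz (mem_scL.2 h)
    obtain ⟨hz0, hzm, hzp⟩ := tB_pts hL hz'
    have d1 : HasDerivAt (fun z => bl * zeta L (bl * z)) (bl * (-℘[L] (bl * z) * bl)) z := by
      have h0 : HasDerivAt (fun x : ℂ => bl * x) bl z := by
        simpa using (hasDerivAt_id z).const_mul bl
      exact ((hasDerivAt_zeta L hz').comp z h0).const_mul bl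
    have d2 : HasDerivAt (fun z => zeta L (z + tB Ω)) (-℘[L] (z + tB Ω)) z :=
      (hasDerivAt_zeta L hzp).comp_add_const z _
    have d3 : HasDerivAt (fun z => (bl ^ 2 / 4 - 1 / 2) * z) (bl ^ 2 / 4 - 1 / 2) z := by
      simpa using (hasDerivAt_id z).const_mul (bl ^ 2 / 4 - 1 / 2)
    refine ((d1.fun_sub ((hasDerivAt_zeta L hz0).fun_add d2)).fun_sub d3).congr_deriv ?_
    have e3 : ℘[L] (z + tB Ω) = ℘[L] (z - tB Ω) := wp_per (by
      have e : z + tB Ω - (z - tB Ω) = 2 * tB Ω := by ring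
      rw [e]
      exact two_tB hL)
    have hm := mul_bl hL hz'
    have eb : ℘[L] (tB Ω) = (bl - 4) / 4 := by
      rw [h.eb, al_eq]
      ring
    rw [eb] at hm
    rw [e3]
    linear_combination -hm - (1 / 4 : ℂ) * bl_sq
  have hc : ∀ z₁ z₂ : ℂ, bl * z₁ ∉ L.lattice → bl * z₂ ∉ L.lattice → g z₁ = g z₂ := by
    intro z₁ z₂ h1 h2
    exact (isOpen_compl (scL L bl bl_ne)).is_const_of_deriv_eq_zero
      (isPreconnected_compl (scL L bl bl_ne))
      (fun x hx => (hder x hx).differentiableAt.differentiableWithinAt)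
      (fun x hx => (hder x hx).deriv) (fun h => h1 (mem_scL.1 h)) (fun h => h2 (mem_scL.1 h))
  have hzn : bl * -z ∉ L.lattice := by
    rw [mul_neg]
    exact fun h => hz (isLat_neg_mem h)
  obtain ⟨hz0, hzm, hzp⟩ := tB_pts hL hz
  have h1 := hc z (-z) hz hzn
  simp only [hg] at h1
  have e1 : zeta L (bl * -z) = -zeta L (bl * z) := by rw [mul_neg, zeta_neg]
  have e2 : zeta L (-z + tB Ω) = -zeta L (z - tB Ω) := by
    rw [← zeta_neg]
    congr 1
    ring
  have e3 : zeta L (z + tB Ω) = zeta L (z - tB Ω) + eta L (2 * tB Ω) := by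
    rw [← zeta_add_coe L hzm (two_tB hL)]
    congr 1
    ring
  have e4 : eta L (2 * tB Ω) = 2 * zeta L (tB Ω) := by
    have h2 := zeta_add_coe L (z := -tB Ω) (fun h => hB (isLat_neg_mem h)) (two_tB hL)
    rw [zeta_neg] at h2
    have e : -tB Ω + 2 * tB Ω = tB Ω := by ring
    rw [e] at h2
    linear_combination -h2
  rw [e1, e2, zeta_neg] at h1
  linear_combination (1 / 2 : ℂ) * h1 - (1 / 2 : ℂ) * e3 - (1 / 2 : ℂ) * e4

/-- the coefficient is `1 / 4` -/
theorem p_quarter (h : LD L Ω) {p q : ℂ}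
    (hpq : ∀ l ∈ L.lattice, eta L l = p * l + q * (starRingEnd ℂ) l) : p = 1 / 4 := by
  have hL := h.lat
  have h1 : ∀ l ∈ L.lattice, (p * (bl ^ 2 - 2) - (bl ^ 2 / 4 - 1 / 2)) * l +
      q * (bl * (starRingEnd ℂ) bl - 2) * (starRingEnd ℂ) l = 0 := by
    intro l hl
    obtain ⟨z, hz⟩ : ∃ z, bl * z ∉ L.lattice := by
      refine ⟨bl⁻¹ * (L.ω₁ / 2), ?_⟩
      rw [mul_inv_cancel_left₀ bl_ne]
      exact L.ω₁_div_two_notMem_lattice
    have hbl : bl * l ∈ L.lattice := by
      have := hL.mul bR l hl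
      rwa [bR_coe] at this
    have hz' : bl * (z + l) ∉ L.lattice := by
      rw [mul_add]
      intro h
      exact hz ((add_mem_iff L hbl).1 h)
    obtain ⟨hz0, hzm, hzp⟩ := tB_pts hL hz
    have e1 := zeta_bl h hz
    have e2 := zeta_bl h hz'
    have e3 : z + l + tB Ω = z + tB Ω + l := by ring
    rw [mul_add, zeta_add_coe L hz hbl, hpq _ hbl, zeta_add_coe L hz0 hl, hpq l hl, e3,
      zeta_add_coe L hzp hl, hpq l hl, map_mul] at e2
    linear_combination e2 - e1
  obtain ⟨h2, h3⟩ := Pool.Agent.TH936.CW.lin_zero L h1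
  have h5 : bl ^ 2 - 2 ≠ 0 := by
    rw [bl_sq]
    intro h0
    have h6 : bl = 4 := by linear_combination h0
    have h7 := al_im_pos
    rw [al_eq, h6] at h7
    simp at h7
  apply mul_right_cancel₀ h5
  linear_combination h2

/-! ### multiplication by `α` -/

lemma tA_pts (hL : IsLat L RR Ω) {z : ℂ} (hz : al * z ∉ L.lattice) :
    z ∉ L.lattice ∧ z - tA Ω ∉ L.lattice ∧ z + tA Ω ∉ L.lattice := by
  refine ⟨fun h1 => hz (by
    have := hL.mul aR z h1
    rwa [aR_coe] at this), fun h1 => hz (by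
    have h2 := hL.mul aR _ h1
    rw [aR_coe, mul_sub] at h2
    have h3 := add_mem h2 (tA_mem hL)
    rwa [sub_add_cancel] at h3), fun h1 => hz (by
    have h2 := hL.mul aR _ h1
    rw [aR_coe, mul_add] at h2
    have h3 := sub_mem h2 (tA_mem hL)
    rwa [add_sub_cancel_right] at h3)⟩

/-- multiplication by `α` and the zeta function -/
theorem zeta_al (h : LD L Ω) {z : ℂ} (hz : al * z ∉ L.lattice) :
    al * zeta L (al * z) = zeta L z + zeta L (z + tA Ω) - zeta L (tA Ω) +
      (al ^ 2 / 4 - 1 / 2) * z := by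
  have hL := h.lat
  have hB := tA_notMem hL
  set g : ℂ → ℂ := fun z => al * zeta L (al * z) - (zeta L z + zeta L (z + tA Ω)) -
    (al ^ 2 / 4 - 1 / 2) * z with hg
  have hder : ∀ z, z ∉ (scL L al al_ne).lattice → HasDerivAt g 0 z := by
    intro z hz
    have hz' : al * z ∉ L.lattice := fun h => hz (mem_scL.2 h)
    obtain ⟨hz0, hzm, hzp⟩ := tA_pts hL hz'
    have d1 : HasDerivAt (fun z => al * zeta L (al * z)) (al * (-℘[L] (al * z) * al)) z := by
      have h0 : HasDerivAt (fun x : ℂ => al * x) al z := by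
        simpa using (hasDerivAt_id z).const_mul al
      exact ((hasDerivAt_zeta L hz').comp z h0).const_mul al
    have d2 : HasDerivAt (fun z => zeta L (z + tA Ω)) (-℘[L] (z + tA Ω)) z :=
      (hasDerivAt_zeta L hzp).comp_add_const z _
    have d3 : HasDerivAt (fun z => (al ^ 2 / 4 - 1 / 2) * z) (al ^ 2 / 4 - 1 / 2) z := by
      simpa using (hasDerivAt_id z).const_mul (al ^ 2 / 4 - 1 / 2)
    refine ((d1.fun_sub ((hasDerivAt_zeta L hz0).fun_add d2)).fun_sub d3).congr_deriv ?_
    have e3 : ℘[L] (z + tA Ω) = ℘[L] (z - tA Ω) := wp_per (by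
      have e : z + tA Ω - (z - tA Ω) = 2 * tA Ω := by ring
      rw [e]
      exact two_tA hL)
    have hm := mul_al hL hz'
    rw [h.ea] at hm
    rw [e3]
    linear_combination -hm - (1 / 4 : ℂ) * al_sq
  have hc : ∀ z₁ z₂ : ℂ, al * z₁ ∉ L.lattice → al * z₂ ∉ L.lattice → g z₁ = g z₂ := by
    intro z₁ z₂ h1 h2
    exact (isOpen_compl (scL L al al_ne)).is_const_of_deriv_eq_zero
      (isPreconnected_compl (scL L al al_ne))
      (fun x hx => (hder x hx).differentiableAt.differentiableWithinAt)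
      (fun x hx => (hder x hx).deriv) (fun h => h1 (mem_scL.1 h)) (fun h => h2 (mem_scL.1 h))
  have hzn : al * -z ∉ L.lattice := by
    rw [mul_neg]
    exact fun h => hz (isLat_neg_mem h)
  obtain ⟨hz0, hzm, hzp⟩ := tA_pts hL hz
  have h1 := hc z (-z) hz hzn
  simp only [hg] at h1
  have e1 : zeta L (al * -z) = -zeta L (al * z) := by rw [mul_neg, zeta_neg]
  have e2 : zeta L (-z + tA Ω) = -zeta L (z - tA Ω) := by
    rw [← zeta_neg]
    congr 1
    ring
  have e3 : zeta L (z + tA Ω) = zeta L (z - tA Ω) + eta L (2 * tA Ω) := by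
    rw [← zeta_add_coe L hzm (two_tA hL)]
    congr 1
    ring
  have e4 : eta L (2 * tA Ω) = 2 * zeta L (tA Ω) := by
    have h2 := zeta_add_coe L (z := -tA Ω) (fun h => hB (isLat_neg_mem h)) (two_tA hL)
    rw [zeta_neg] at h2
    have e : -tA Ω + 2 * tA Ω = tA Ω := by ring
    rw [e] at h2
    linear_combination -h2
  rw [e1, e2, zeta_neg] at h1
  linear_combination (1 / 2 : ℂ) * h1 - (1 / 2 : ℂ) * e3 - (1 / 2 : ℂ) * e4

end Pool.Agent.J4.H67.AW
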