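import Pool.Agent.J4.H67.AW.Ek
import Pool.Agent.TH936.CW.Lat
import Pool.Agent.TH936.PU.Dis

/-!
# The distribution relation for the Eisenstein-Kronecker numbers
-/

set_option autoImplicit false
set_option linter.unusedSectionVars false

open Filter
open scoped Topology PeriodPair

namespace Pool.Agent.J4.H67.AW

open H667R3 Pool.Agent.W192.HK Pool.Agent.TH936.CM Pool.Agent.TH936.PU
open Pool.Agent.TH936.CW (near Hh Hh_diff Mm Mm_an ek ek_per Dk TT TT_Dk lim_TT EK EK_per summ_gd gd
  gd_mul gg q_ne)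

variable {L : PeriodPair} {R : Subring ℂ} {Ω p q : ℂ}

lemma th_neg (c z w : ℂ) : th L p q (-c) (-z) (-w) = -th L p q c z w := by
  unfold th
  have e1 : -z + -w = -(z + w) := by ring
  have e2 : -((q * -c + p * -z) * -w) = -((q * c + p * z) * w) := by ring
  rw [e1, e2, sigma_neg, sigma_neg, sigma_neg]
  ring

/-- the regular part as an iterated derivative -/
lemma Fz_th (c : ℂ) {z : ℂ} (hz : z ∉ L.lattice) {n : ℕ} (hn : 0 < n) :
    Fz L p q c z n =ᶠ[𝓝[≠] 0] fun w => iteratedDeriv n (fun x => th L p q c x w) z := by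
  filter_upwards [near L, self_mem_nhdsWithin] with w h1 h4
  have hw0 : w ≠ 0 := h4
  have e1 : Qn L p q c z n w * Mm L p w = w * Fz L p q c z n w := by
    have := dsl_eq (f := fun w => Qn L p q c z n w * Mm L p w) w
    rw [this, QM_zero c hz hn, zero_add]
    rfl
  have e2 : Qn L p q c z n w * Mm L p w = w * iteratedDeriv n (fun x => th L p q c x w) z := by
    rw [Qn_eq c hz, ← iteratedDeriv_const_mul_field, ← iteratedDeriv_mul_const_field]
    congr 1
    funext x
    exact th_H c h1 x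
  rw [e1] at e2
  exact mul_left_cancel₀ hw0 e2

/-- the Eisenstein-Kronecker numbers are odd -/
theorem ek_neg {z : ℂ} (hz : z ∉ L.lattice) {n : ℕ} (hn : 0 < n) :
    ek L p q n (-z) = -ek L p q n z := by
  have hz' : -z ∉ L.lattice := fun h => hz (by simpa using neg_mem h)
  have e1 := ek_iter (p := p) (q := q) hz hn
  have e2 := ek_iter (p := p) (q := q) hz' hn
  rw [map_neg] at e2
  set c := (starRingEnd ℂ) z
  have a1 := Fz_an (L := L) (p := p) (q := q) c z n
  have a2 := Fz_an (L := L) (p := p) (q := q) (-c) (-z) n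
  have a3 : AnalyticAt ℂ (fun w => Fz L p q (-c) (-z) n (-w)) 0 := by
    have := an_mul a2 (-1)
    simpa using this
  have f1 := Fz_th (p := p) (q := q) c hz hn
  have f2 := Fz_th (p := p) (q := q) (-c) hz' hn
  have f3 : (fun w => Fz L p q (-c) (-z) n (-w)) =ᶠ[𝓝[≠] 0]
      fun w => (-1) ^ (n + 1) * Fz L p q c z n w := by
    have hneg := (tend_mul (b := -1) (by norm_num)).eventually f2
    filter_upwards [f1, hneg] with w b1 b2
    have e3 : (-1 : ℂ) * w = -w := by ring
    rw [e3] at b2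
    rw [b1, b2]
    have e4 : (fun x => th L p q (-c) x (-w)) = fun x => -th L p q c (-x) w := by
      funext x
      have := th_neg (L := L) (p := p) (q := q) c (-x) w
      rwa [neg_neg] at this
    rw [e4]
    have e5 : iteratedDeriv n (fun x => -th L p q c (-x) w) (-z) =
        -iteratedDeriv n (fun x => th L p q c (-x) w) (-z) := iteratedDeriv_fun_neg n _ _
    rw [e5, iteratedDeriv_comp_neg n (fun x => th L p q c x w), neg_neg, smul_eq_mul]
    ring
  have f4 : (fun w => Fz L p q (-c) (-z) n (-w)) =ᶠ[𝓝 0]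
      fun w => (-1) ^ (n + 1) * Fz L p q c z n w :=
    (ContinuousAt.eventuallyEq_nhds_iff_eventuallyEq_nhdsNE a3.continuousAt
      (analyticAt_const.mul a1).continuousAt).1 f3
  have f5 := f4.iteratedDeriv_eq n
  rw [iteratedDeriv_comp_neg n (Fz L p q (-c) (-z) n), neg_zero, iteratedDeriv_const_mul_field,
    ← e1, ← e2, smul_eq_mul] at f5
  have hf : (n.factorial : ℂ) ≠ 0 := by exact_mod_cast n.factorial_ne_zero
  have h1 : ((-1 : ℂ) ^ n * n.factorial) ≠ 0 := mul_ne_zero (pow_ne_zero _ (by norm_num)) hf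
  apply mul_left_cancel₀ h1
  linear_combination f5

/-- the factor of the distribution relation -/
noncomputable def mu (e : ℕ) (a : ℂ) : ℂ := gg e ((starRingEnd ℂ) a⁻¹) a⁻¹

lemma mu_eq (e : ℕ) (a : ℂ) : mu e a = a ^ (e + 1) / (starRingEnd ℂ) a ^ e := by
  unfold mu gg
  rw [map_inv₀, inv_inv, inv_pow]
  ring

lemma mu_ne (e : ℕ) {a : ℂ} (ha : a ≠ 0) : mu e a ≠ 0 := by
  rw [mu_eq]
  exact div_ne_zero (pow_ne_zero _ ha) (pow_ne_zero _ ((map_ne_zero _).2 ha))

/-- the distribution relation for the regularized series -/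
theorem EK_distA (hL : IsLat L R Ω) (e : ℕ) {δ : ℝ} (hδ : 0 < δ) (a : R) (ha : a ≠ 0)
    [Fintype (R ⧸ sp a)] (z : ℂ) :
    ∑ q : R ⧸ sp a, EK R Ω e δ (z + Ω * q.out / a) =
      mu e a * EK R Ω e (δ / Complex.normSq a) (a * z) := by
  have ha0 := coe_ne ha
  have hnr : 0 < Complex.normSq (a : ℂ) := Complex.normSq_pos.2 ha0
  have e1 : ∀ α : R, gd e δ (z + Ω * α / a) = mu e a * gd e (δ / Complex.normSq a)
      (a * z + Ω * α) := by
    intro α
    have h1 : z + Ω * α / a = (a : ℂ)⁻¹ * (a * z + Ω * α) := by field_simp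
    rw [h1, gd_mul]
    unfold mu
    congr 2
    rw [Complex.normSq_inv]
    rfl
  have hs : Summable (fun α : R => gd e δ (z + Ω * α / a)) := by
    refine ((summ_gd hL e (a * z) (δ := δ / Complex.normSq a) (by positivity)).mul_left
      (mu e a)).congr fun α => ?_
    rw [e1]
  have h2 := tsum_prtA a ha _ hs
  have h3 : ∑' α : R, gd e δ (z + Ω * α / a) = mu e a * EK R Ω e (δ / Complex.normSq a) (a * z) := by
    rw [tsum_congr e1, tsum_mul_left]
    rfl
  rw [← h3, h2]
  refine Finset.sum_congr rfl fun q _ => ?_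
  unfold EK
  refine tsum_congr fun β => ?_
  congr 1
  push_cast
  field_simp
  ring

lemma mul_notMem (hL : IsLat L R Ω) {a : R} (ha : a ≠ 0) {z : ℂ} (hz : a * z ∉ L.lattice) (b : R) :
    z + Ω * b / a ∉ L.lattice := by
  have ha0 := coe_ne ha
  intro h
  apply hz
  have h3 := hL.mul a _ h
  have e : (a : ℂ) * z = a * (z + Ω * b / a) - Ω * b := by
    field_simp
    ring
  rw [e]
  exact sub_mem h3 (hL.mem_mul _)

/-- the defect of the distribution relation -/
noncomputable def De (L : PeriodPair) (Ω p q : ℂ) (e : ℕ) (a : R) [Fintype (R ⧸ sp a)] (z : ℂ) : ℂ :=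
  ∑ s : R ⧸ sp a, ek L p q e (z + Ω * s.out / a) - mu e a * ek L p q e (a * z)

/-- the second difference of the defect is a constant -/
lemma De_diff (hL : IsLat L R Ω) (hpq : ∀ l ∈ L.lattice, eta L l = p * l + q * (starRingEnd ℂ) l)
    (e : ℕ) (a : R) (ha : a ≠ 0) [Fintype (R ⧸ sp a)] (t : ℂ) :
    ∃ K : ℂ, ∀ z : ℂ, (a : ℂ) * z ∉ L.lattice → (a : ℂ) * z + a * t ∉ L.lattice →
      (a : ℂ) * z - a * t ∉ L.lattice →
      De L Ω p q e a (z + t) + De L Ω p q e a (z - t) - 2 * De L Ω p q e a z = K := by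
  obtain ⟨C, hC⟩ := TT_Dk hpq e t
  obtain ⟨C', hC'⟩ := TT_Dk hpq e (a * t)
  refine ⟨mu e a * C' - Fintype.card (R ⧸ sp a) * C, fun z hz h1 h2 => ?_⟩
  have hnr : 0 < Complex.normSq (a : ℂ) := Complex.normSq_pos.2 (coe_ne ha)
  have hzs : ∀ s : R ⧸ sp a, z + Ω * s.out / a ∉ L.lattice := fun s => mul_notMem hL ha hz _
  have hzp : ∀ s : R ⧸ sp a, z + Ω * s.out / a + t ∉ L.lattice := fun s => by
    have := mul_notMem hL ha (z := z + t) (by rwa [mul_add]) s.out
    rwa [add_right_comm] at this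
  have hzm : ∀ s : R ⧸ sp a, z + Ω * s.out / a - t ∉ L.lattice := fun s => by
    have h3 := mul_notMem hL ha (z := z - t) (by rwa [mul_sub]) s.out
    have e : z - t + Ω * s.out / a = z + Ω * s.out / a - t := by ring
    rwa [e] at h3
  have l1 : Tendsto (fun δ : ℝ => mu e a * (EK R Ω e (δ / Complex.normSq a) (a * z + a * t) +
      EK R Ω e (δ / Complex.normSq a) (a * z - a * t) -
      2 * EK R Ω e (δ / Complex.normSq a) (a * z))) (𝓝[>] 0)
      (𝓝 (mu e a * TT L e ((starRingEnd ℂ) (a * z)) (a * t) (a * z))) := by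
    refine Tendsto.const_mul _ ?_
    refine (lim_TT hL e hz).comp (f := fun δ : ℝ => δ / Complex.normSq (a : ℂ)) ?_
    rw [tendsto_nhdsWithin_iff]
    constructor
    · have h7 : Continuous (fun δ : ℝ => δ / Complex.normSq (a : ℂ)) := by fun_prop
      have h8 := (h7.tendsto 0).mono_left (nhdsWithin_le_nhds (s := Set.Ioi 0))
      simpa using h8
    · filter_upwards [self_mem_nhdsWithin] with δ (hδ : 0 < δ)
      show 0 < δ / Complex.normSq (a : ℂ)
      positivity
  have l2 : Tendsto (fun δ : ℝ => ∑ s : R ⧸ sp a,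
      (EK R Ω e δ (z + Ω * s.out / a + t) + EK R Ω e δ (z + Ω * s.out / a - t) -
        2 * EK R Ω e δ (z + Ω * s.out / a))) (𝓝[>] 0)
      (𝓝 (∑ s : R ⧸ sp a, TT L e ((starRingEnd ℂ) (z + Ω * s.out / a)) t (z + Ω * s.out / a))) :=
    tendsto_finsetSum _ fun s _ => lim_TT hL e (hzs s)
  have hu := tendsto_nhds_unique l1 (l2.congr' (by
    filter_upwards [self_mem_nhdsWithin] with δ (hδ : 0 < δ)
    have d1 := EK_distA hL e hδ a ha (z + t)
    have d2 := EK_distA hL e hδ a ha (z - t)
    have d3 := EK_distA hL e hδ a ha z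
    rw [Finset.sum_sub_distrib, Finset.sum_add_distrib, ← Finset.mul_sum, d3]
    have e1 : ∑ s : R ⧸ sp a, EK R Ω e δ (z + Ω * s.out / a + t) =
        ∑ s : R ⧸ sp a, EK R Ω e δ (z + t + Ω * s.out / a) :=
      Finset.sum_congr rfl fun s _ => by congr 1; ring
    have e2 : ∑ s : R ⧸ sp a, EK R Ω e δ (z + Ω * s.out / a - t) =
        ∑ s : R ⧸ sp a, EK R Ω e δ (z - t + Ω * s.out / a) :=
      Finset.sum_congr rfl fun s _ => by congr 1; ring
    rw [e1, e2, d1, d2, mul_add (a : ℂ), mul_sub (a : ℂ)]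
    ring))
  rw [hC' _ hz h1 h2, Finset.sum_congr rfl (fun s _ => hC _ (hzs s) (hzp s) (hzm s)),
    ← Finset.mul_sum, Finset.sum_add_distrib, Finset.sum_const, Finset.card_univ,
    nsmul_eq_mul] at hu
  have hq : (q ^ e)⁻¹ ≠ 0 := inv_ne_zero (pow_ne_zero _ (q_ne hpq))
  have hu2 : mu e a * (Dk L p q e (a * z) (a * t) + C') = ∑ s : R ⧸ sp a,
      Dk L p q e (z + Ω * s.out / a) t + (Fintype.card (R ⧸ sp a) : ℂ) * C := by
    apply mul_left_cancel₀ hq
    linear_combination hu
  have hD : ∑ s : R ⧸ sp a, Dk L p q e (z + Ω * s.out / a) t =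
      ∑ s : R ⧸ sp a, ek L p q e (z + t + Ω * s.out / a) +
      ∑ s : R ⧸ sp a, ek L p q e (z - t + Ω * s.out / a) -
      2 * ∑ s : R ⧸ sp a, ek L p q e (z + Ω * s.out / a) := by
    rw [Finset.mul_sum, ← Finset.sum_add_distrib, ← Finset.sum_sub_distrib]
    refine Finset.sum_congr rfl fun s _ => ?_
    unfold Dk
    have e1 : z + Ω * s.out / a + t = z + t + Ω * s.out / a := by ring
    have e2 : z + Ω * s.out / a - t = z - t + Ω * s.out / a := by ring
    rw [e1, e2]
  rw [hD] at hu2
  unfold De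
  unfold Dk at hu2
  rw [mul_add (a : ℂ) z t, mul_sub (a : ℂ) z t]
  linear_combination -hu2

lemma De_per (hL : IsLat L R Ω) (hpq : ∀ l ∈ L.lattice, eta L l = p * l + q * (starRingEnd ℂ) l)
    (e : ℕ) (a : R) (ha : a ≠ 0) [Fintype (R ⧸ sp a)] {z w : ℂ} (hz : a * z ∉ L.lattice)
    (hw : w - z ∈ L.lattice) : De L Ω p q e a w = De L Ω p q e a z := by
  unfold De
  have e1 : ek L p q e (a * w) = ek L p q e (a * z) := by
    refine ek_per hpq e hz ?_
    rw [← mul_sub]
    exact hL.mul a _ hw
  rw [e1]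
  congr 1
  refine Finset.sum_congr rfl fun s _ => ?_
  refine ek_per hpq e (mul_notMem hL ha hz _) ?_
  rwa [add_sub_add_right_eq_sub]

lemma De_neg (hL : IsLat L R Ω) (hpq : ∀ l ∈ L.lattice, eta L l = p * l + q * (starRingEnd ℂ) l)
    {e : ℕ} (he : ∀ z, z ∉ L.lattice → ek L p q e (-z) = -ek L p q e z) (a : R) (ha : a ≠ 0)
    [Fintype (R ⧸ sp a)] {z : ℂ}
    (hz : a * z ∉ L.lattice) : De L Ω p q e a (-z) = -De L Ω p q e a z := by
  unfold De
  have e1 : (a : ℂ) * -z = -(a * z) := by ring
  rw [e1, he _ hz]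
  have e2 : ∑ s : R ⧸ sp a, ek L p q e (-z + Ω * s.out / a) =
      -∑ s : R ⧸ sp a, ek L p q e (z + Ω * s.out / a) := by
    rw [← Equiv.sum_comp (Equiv.neg (R ⧸ sp a)) (fun s => ek L p q e (-z + Ω * s.out / a)),
      ← Finset.sum_neg_distrib]
    refine Finset.sum_congr rfl fun s _ => ?_
    rw [← he _ (mul_notMem hL ha hz _)]
    have h5 : -z + Ω * (((-s : R ⧸ sp a).out : R) : ℂ) / a ∉ L.lattice := by
      refine mul_notMem hL ha ?_ _
      rw [e1]
      exact fun h => hz (by simpa using neg_mem h)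
    refine ek_per hpq e (z := -(z + Ω * s.out / a)) (fun h => mul_notMem hL ha hz s.out
      (by simpa using neg_mem h)) ?_
    have h1 : (-s).out - (-s.out) ∈ sp a := by
      have := out_mk (sp a) (-s.out)
      rw [map_neg, Ideal.Quotient.mk_out] at this
      have := neg_mem this
      rwa [neg_sub] at this
    rw [Ideal.mem_span_singleton'] at h1
    obtain ⟨b, hb⟩ := h1
    have e3 : -z + Ω * (((-s : R ⧸ sp a).out : R) : ℂ) / a - -(z + Ω * s.out / a) = Ω * b := by
      have h6 : (((-s : R ⧸ sp a).out : R) : ℂ) = b * a - s.out := by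
        have := congrArg (fun r : R => (r : ℂ)) hb
        push_cast at this
        linear_combination -this
      rw [h6]
      have := coe_ne ha
      field_simp
      ring
    rw [Equiv.neg_apply, e3]
    exact hL.mem_mul _
  rw [e2]
  ring

/-- **The distribution relation for the Eisenstein-Kronecker numbers.** -/
theorem ek_dist' (hL : IsLat L R Ω) (hpq : ∀ l ∈ L.lattice, eta L l = p * l + q * (starRingEnd ℂ) l)
    {e : ℕ} (he : ∀ z, z ∉ L.lattice → ek L p q e (-z) = -ek L p q e z) (a : R) (ha : a ≠ 0)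
    [Fintype (R ⧸ sp a)] {z : ℂ}
    (hz : a * z ∉ L.lattice) {N : ℕ} (hN : 0 < N) (hNz : (N : ℂ) * z ∈ L.lattice) :
    ∑ s : R ⧸ sp a, ek L p q e (z + Ω * s.out / a) = mu e a * ek L p q e (a * z) := by
  classical
  have ha0 := coe_ne ha
  set D := De L Ω p q e a with hD
  -- the second difference vanishes
  have hK : ∀ t z : ℂ, (a : ℂ) * z ∉ L.lattice → (a : ℂ) * z + a * t ∉ L.lattice →
      (a : ℂ) * z - a * t ∉ L.lattice →
      D (z + t) + D (z - t) - 2 * D z = 0 := by
    intro t
    obtain ⟨K, hK⟩ := De_diff hL hpq e a ha t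
    have hK0 : K = 0 := by
      obtain ⟨s, hs⟩ := exists_gen L {0, (a : ℂ) * t, -((a : ℂ) * t)}
      have e1 : (a : ℂ) * (2 * s / a) = 2 * s := by field_simp
      have g0 := (hs 0 (by simp)).1
      have g1 := (hs ((a : ℂ) * t) (by simp)).1
      have g2 := (hs (-((a : ℂ) * t)) (by simp)).1
      rw [add_zero] at g0
      rw [← sub_eq_add_neg] at g2
      set u := 2 * s / (a : ℂ) with hu
      have h1 := hK u (by rwa [e1]) (by rwa [e1]) (by rwa [e1])
      have hm : ∀ w : ℂ, w ∉ L.lattice → -w ∉ L.lattice := fun w hw h => hw (by simpa using neg_mem h)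
      have h2 := hK (-u) (by rw [mul_neg, e1]; exact hm _ g0)
        (by
          have := hm _ g2
          rw [mul_neg, e1]
          convert this using 1
          ring_nf)
        (by
          have := hm _ g1
          rw [mul_neg, e1]
          convert this using 1
          ring_nf)
      have k0 := De_neg hL hpq he a ha (z := u) (by rwa [e1])
      have k1 := De_neg hL hpq he a ha (z := u + t) (by rwa [mul_add, e1])
      have k2 := De_neg hL hpq he a ha (z := u - t) (by rwa [mul_sub, e1])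
      have e2 : -(u + t) = -u - t := by ring
      have e3 : -(u - t) = -u + t := by ring
      rw [e2] at k1
      rw [e3] at k2
      rw [k0, k1, k2] at h2
      linear_combination (-1 / 2 : ℂ) * h1 - (1 / 2 : ℂ) * h2
    intro z h1 h2 h3
    rw [← hK0]
    exact hK z h1 h2 h3
  -- a generic point
  obtain ⟨s, hs⟩ := exists_gen L ((Finset.range (N + 3)).image
    (fun j : ℕ => ((j : ℂ) - 1) * (a * z)) ∪ {-((a : ℂ) * z)})
  set u := 2 * s / (a : ℂ) with hu
  have e1 : (a : ℂ) * u = 2 * s := by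
    rw [hu]
    field_simp
  have hg : ∀ j : ℕ, j < N + 3 → a * (u + ((j : ℂ) - 1) * z) ∉ L.lattice := by
    intro j hj
    have := (hs (((j : ℂ) - 1) * (a * z)) (Finset.mem_union_left _
      (Finset.mem_image_of_mem _ (Finset.mem_range.2 hj)))).1
    have e : (a : ℂ) * (u + ((j : ℂ) - 1) * z) = 2 * s + ((j : ℂ) - 1) * (a * z) := by
      rw [mul_add, e1]
      ring
    rwa [e]
  have hu0 : (a : ℂ) * u ∉ L.lattice := by
    have := hg 1 (by omega)
    simpa using this
  have hup : (a : ℂ) * u + a * z ∉ L.lattice := by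
    have := hg 2 (by omega)
    have e : (a : ℂ) * (u + (((2 : ℕ) : ℂ) - 1) * z) = a * u + a * z := by push_cast; ring
    rwa [e] at this
  have hum : (a : ℂ) * u - a * z ∉ L.lattice := by
    have := hg 0 (by omega)
    have e : (a : ℂ) * (u + (((0 : ℕ) : ℂ) - 1) * z) = a * u - a * z := by push_cast; ring
    rwa [e] at this
  -- the progression
  have hprog : ∀ j : ℕ, j ≤ N + 1 → D (u + j * z) = D u + j * (D (u + z) - D u) := by
    intro j
    induction j using Nat.strong_induction_on with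
    | _ j ih =>
      intro hj
      rcases j with _ | _ | j
      · simp
      · simp
      · have h1 := ih j (by omega) (by omega)
        have h2 := ih (j + 1) (by omega) (by omega)
        have f1 := hg (j + 2) (by omega)
        have f2 := hg (j + 3) (by omega)
        have f3 := hg (j + 1) (by omega)
        push_cast at f1 f2 f3 h1 h2
        have h3 := hK z (u + (j + 1) * z) (by
            convert f1 using 1
            ring_nf) (by
            convert f2 using 1
            ring_nf) (by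
            convert f3 using 1
            ring_nf)
        have e2 : u + (j + 1) * z + z = u + (j + 2) * z := by ring
        have e3 : u + (j + 1) * z - z = u + j * z := by ring
        rw [e2, e3, h1, h2] at h3
        push_cast
        have e4 : (j : ℂ) + 1 + 1 = j + 2 := by ring
        rw [e4]
        linear_combination h3
  have hN1 := hprog N (by omega)
  have hN2 : D (u + N * z) = D u := by
    refine De_per hL hpq e a ha hu0 ?_
    rwa [add_sub_cancel_left]
  rw [hN2] at hN1
  have hNC : (N : ℂ) ≠ 0 := by exact_mod_cast hN.ne'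
  have h4 : D (u + z) - D u = 0 := by
    have : (N : ℂ) * (D (u + z) - D u) = 0 := by linear_combination -hN1
    exact (mul_eq_zero.1 this).resolve_left hNC
  have h5 := hK z u hu0 hup hum
  have h6 := hK u z hz (by rwa [add_comm]) (fun h => hum (by simpa using neg_mem h))
  have h7 := De_neg hL hpq he a ha (z := u - z) (by rwa [mul_sub])
  have e5 : -(u - z) = z - u := by ring
  rw [e5] at h7
  change D (z - u) = -D (u - z) at h7
  rw [add_comm z u, h7] at h6
  have h8 : D z = 0 := by
    linear_combination (-1 / 2 : ℂ) * h6 - (1 / 2 : ℂ) * h5 + h4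
  rw [hD] at h8
  unfold De at h8
  linear_combination h8

/-- **The distribution relation for the Eisenstein-Kronecker numbers.** -/
theorem ek_dist (hL : IsLat L R Ω) (hpq : ∀ l ∈ L.lattice, eta L l = p * l + q * (starRingEnd ℂ) l)
    {e : ℕ} (he : 0 < e) (a : R) (ha : a ≠ 0) [Fintype (R ⧸ sp a)] {z : ℂ}
    (hz : a * z ∉ L.lattice) {N : ℕ} (hN : 0 < N) (hNz : (N : ℂ) * z ∈ L.lattice) :
    ∑ s : R ⧸ sp a, ek L p q e (z + Ω * s.out / a) = mu e a * ek L p q e (a * z) :=
  ek_dist' hL hpq (fun _ hz => ek_neg hz he) a ha hz hN hNz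

end Pool.Agent.J4.H67.AW
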