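import Pool.Agent.J4.H67.AW.Pa
import Pool.Agent.Y698.Pra

/-!
# The Eisenstein-Kronecker number of order two modulo four
-/

set_option autoImplicit false
set_option linter.unusedSectionVars false

open Filter
open scoped Topology PeriodPair

namespace Pool.Agent.J4.H67.AW

open Pool.Agent.Y698 (LD Tb Yy al bl RR v_bl v_two_lt v_two al_mul_bl al_ne bl_ne al_sq tB tA
  two_coe tB_notMem tA_notMem dwp_half two_tA two_tB conj_al s7)
open H667R3 Pool.Agent.W192.HK Pool.Agent.TH936.CM Pool.Agent.TH936.PU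
open Pool.Agent.TH936.CW (Rw Rw_eq Rw_an near hasDerivAt_wp'_all zreg_an zreg_zero zreg_deriv
  Mm Mm_an Mm_deriv Dv Dv_C Dv_X0 Dv_X1 Dv_X2 Uu Aa Pp PP evz ev ev_add ev_mul ev_C ev_sum ev_X0
  ev_X1 ev_X2 rh ek E1 Tt Tt_zero)

variable {Γ : Type*} [LinearOrderedCommGroupWithZero Γ] {v : Valuation ℂ Γ}
variable {L : PeriodPair} {Ω p q : ℂ}

/-! ### the coefficients -/

lemma Mm_zero (L : PeriodPair) (p : ℂ) : Mm L p 0 = 1 := by
  unfold Mm
  rw [Tt_zero, inv_one]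

lemma Mm_neg (L : PeriodPair) (p w : ℂ) : Mm L p (-w) = Mm L p w := by
  unfold Mm Tt
  rw [Pi'_neg, neg_sq]

lemma rh_zero : rh L p 0 = 1 := by
  unfold rh
  rw [iteratedDeriv_zero, Mm_zero]

lemma rh_odd {j : ℕ} (hj : Odd j) : rh L p j = 0 := by
  unfold rh
  have h1 := iteratedDeriv_comp_neg j (Mm L p) 0
  have h2 : (fun w => Mm L p (-w)) = Mm L p := funext fun w => Mm_neg L p w
  rw [h2, neg_zero, hj.neg_one_pow, neg_one_smul] at h1
  linear_combination (1 / 2 : ℂ) * h1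

lemma Rw_zero (L : PeriodPair) : Rw L 0 = 0 := L.weierstrassPExcept_zero 0

lemma rh_two : rh L p 2 = p := by
  unfold rh
  have h0 : iteratedDeriv 2 (Mm L p) 0 = deriv (deriv (Mm L p)) 0 := by
    rw [iteratedDeriv_succ, iteratedDeriv_one]
  rw [h0, (Mm_deriv L p).deriv_eq]
  have hz := zreg_an L
  have d1 : HasDerivAt (fun w => p * w - zreg L w) (p - deriv (zreg L) 0) 0 := by
    have h1 := ((hasDerivAt_id (0 : ℂ)).const_mul p).sub hz.differentiableAt.hasDerivAt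
    rw [mul_one] at h1
    exact h1
  have d2 := ((Mm_an L p).differentiableAt.hasDerivAt).mul d1
  refine (d2.deriv).trans ?_
  have e1 : deriv (zreg L) 0 = 0 := by
    rw [(zreg_deriv L).eq_of_nhds, Rw_zero, neg_zero]
  rw [e1, zreg_zero, Mm_zero]
  ring

/-! ### the polynomials -/

lemma Dv_mul (p g : ℂ) (P Q : PP) : Dv p g (P * Q) = Dv p g P * Q + P * Dv p g Q := by
  rw [Derivation.leibniz, smul_eq_mul, smul_eq_mul]
  ring

lemma Dv_one (p g : ℂ) : Dv p g 1 = 0 := (Dv p g).map_one_eq_zero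

open MvPolynomial in
lemma Uu_one (p g : ℂ) : Uu p g 1 = X 0 := by
  unfold Uu Uu
  rw [Dv_one, mul_one, zero_add]

open MvPolynomial in
lemma Uu_two (p g : ℂ) : Uu p g 2 = -X 1 - C p + X 0 * X 0 := by
  have : Uu p g 2 = Dv p g (Uu p g 1) + X 0 * Uu p g 1 := rfl
  rw [this, Uu_one, Dv_X0]

open MvPolynomial in
lemma Uu_three (p g : ℂ) : Uu p g 3 = -X 2 - 3 * (X 0 * X 1) - 3 * (C p * X 0) + X 0 * (X 0 * X 0) := by
  have : Uu p g 3 = Dv p g (Uu p g 2) + X 0 * Uu p g 2 := rfl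
  rw [this, Uu_two, map_add, map_sub, map_neg, Dv_C, Dv_mul, Dv_X0, Dv_X1]
  ring

open MvPolynomial in
lemma Aa_three (L : PeriodPair) (p : ℂ) : Aa L p 3 = X 0 * (X 0 * X 0) - 3 * (X 0 * X 1) - X 2 := by
  unfold Aa
  have h1 : rh L p 1 = 0 := rh_odd (by decide)
  have h3 : rh L p 3 = 0 := rh_odd (by decide)
  have e0 : rh L p (3 - 3) = 1 := rh_zero
  have e1 : rh L p (3 - 1) = p := rh_two
  have e2 : rh L p (3 - 2) = 0 := h1
  have e3 : rh L p (3 - 0) = 0 := h3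
  rw [Finset.sum_range_succ, Finset.sum_range_succ, Finset.sum_range_succ, Finset.sum_range_one,
    e0, e1, e2, e3, Uu_one, Uu_three]
  have c1 : (3 : ℕ).choose 1 = 3 := rfl
  have c3 : (3 : ℕ).choose 3 = 1 := rfl
  rw [c1, c3]
  simp only [mul_zero, map_zero, zero_mul, Nat.cast_one, mul_one, map_one, one_mul, Nat.cast_ofNat,
    map_mul, zero_add, add_zero]
  have e4 : (C (3 : ℂ) : PP) = 3 := by
    exact map_ofNat C 3
  rw [e4]
  ring

open MvPolynomial in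
/-- the polynomial of the number of order two -/
lemma DDA (L : PeriodPair) (p : ℂ) : (Dv p L.g₂)^[2] (Aa L p 3) =
    6 * (X 0 * ((X 1 + C p) * (X 1 + C p))) - 3 * (X 0 * X 0 * X 2) + 3 * (X 1 * X 2) +
      6 * ((X 1 + C p) * X 2) - 3 * (X 0 * (C 6 * X 1 ^ 2 - C (L.g₂ / 2))) -
      C 12 * (X 1 * X 2) := by
  have h3 : Dv p L.g₂ (3 : PP) = 0 := by
    have : (3 : PP) = C (3 : ℂ) := (map_ofNat C 3).symm
    rw [this, Dv_C]
  show Dv p L.g₂ (Dv p L.g₂ (Aa L p 3)) = _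
  rw [Aa_three]
  have e1 : Dv p L.g₂ (X 0 * (X 0 * X 0) - 3 * (X 0 * X 1) - X 2) =
      3 * (X 0 * X 0) * (-X 1 - C p) - 3 * ((-X 1 - C p) * X 1) - 3 * (X 0 * X 2) -
        (C 6 * X 1 ^ 2 - C (L.g₂ / 2)) := by
    simp only [map_sub, Dv_mul, h3, Dv_X0, Dv_X1, Dv_X2]
    ring
  rw [e1]
  have h6 : (C (12 : ℂ) : PP) = 2 * C 6 := by
    have : (2 : PP) = C 2 := (map_ofNat C 2).symm
    rw [this, ← C_mul]
    norm_num
  simp only [map_sub, map_neg, Dv_mul, h3, Dv_X0, Dv_X1, Dv_X2, Dv_C, pow_two, h6]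
  ring

/-- the value shifted by one half -/
noncomputable def yh (L : PeriodPair) (p q z : ℂ) : ℂ := E1 L p q z - 1 / 2

/-- **The number of order two.** -/
theorem ek_two (h : LD L Ω) (hp : p = 1 / 4) (z : ℂ) : 2 * ek L p q 2 z =
    -4 * yh L p q z * Pool.Agent.Y698.Xx L z ^ 2 - 2 * Pool.Agent.Y698.Xx L z ^ 2 + 3 * yh L p q z * Pool.Agent.Y698.Xx L z + 3 / 2 * Pool.Agent.Y698.Xx L z +
      ℘'[L] z / 2 + 4 * yh L p q z + 2 - (yh L p q z ^ 2 + yh L p q z) * ℘'[L] z -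
      Pool.Agent.Y698.Xx L z * ℘'[L] z := by
  have e1 : ek L p q 2 z = 1 / 6 * evz L p q ((starRingEnd ℂ) z) z ((Dv p L.g₂)^[2] (Aa L p 3)) := by
    unfold ek Pp evz
    rw [ev_mul, ev_C]
    norm_num
  rw [e1, DDA, h.g2, hp]
  have e2 : Pool.Agent.TH936.CW.Xx L (1 / 4) q ((starRingEnd ℂ) z) z = yh L (1 / 4) q z + 1 / 2 := by
    unfold yh E1
    ring
  unfold evz ev
  simp only [map_add, map_sub, map_mul, map_pow, MvPolynomial.eval_X, MvPolynomial.eval_C,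
    map_ofNat]
  simp only [Matrix.cons_val_zero, Matrix.cons_val_one, Matrix.cons_val]
  rw [e2]
  unfold Pool.Agent.Y698.Xx
  ring

/-! ### the values of the first function -/

lemma inv_bl : bl⁻¹ = (1 - bl) / 2 := by
  have hb := bl_ne
  field_simp
  linear_combination (1 : ℂ) * bl_sq

lemma conj_bl : (starRingEnd ℂ) bl = al := by
  rw [← conj_al, Complex.conj_conj]

lemma dwp_ne {z : ℂ} (h2 : 2 * z ∉ L.lattice) : ℘'[L] z ≠ 0 := by
  have hz := two_mul_notMem_of L h2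
  rw [wp'_eq L hz]
  exact div_ne_zero (neg_ne_zero.2 (sigma_ne_zero L h2)) (pow_ne_zero _ (sigma_ne_zero L hz))

/-- duplication -/
lemma E1_two (h : LD L Ω) {z : ℂ} (h2 : 2 * z ∉ L.lattice) :
    E1 L p q (2 * z) = 2 * E1 L p q z + (6 * Pool.Agent.Y698.Xx L z ^ 2 - 3 * Pool.Agent.Y698.Xx L z - 4) / (2 * ℘'[L] z) := by
  have e1 := zeta_two L h2
  unfold E1 Pool.Agent.TH936.CW.Xx
  rw [e1, h.g2]
  have e2 : (starRingEnd ℂ) (2 * z) = 2 * (starRingEnd ℂ) z := by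
    rw [map_mul]
    congr 1
    exact map_ofNat _ 2
  have e3 : 6 * ℘[L] z ^ 2 - 35 / 4 / 2 = 6 * Pool.Agent.Y698.Xx L z ^ 2 - 3 * Pool.Agent.Y698.Xx L z - 4 := by
    unfold Pool.Agent.Y698.Xx
    ring
  rw [e2, e3]
  ring

lemma yh_two (h : LD L Ω) {z : ℂ} (h2 : 2 * z ∉ L.lattice) :
    yh L p q (2 * z) = 2 * yh L p q z + (Yy L z + 3 * Pool.Agent.Y698.Xx L z ^ 2 - Pool.Agent.Y698.Xx L z - 2) / ℘'[L] z := by
  have hp := dwp_ne h2
  unfold yh
  rw [E1_two h h2]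
  have e : ℘'[L] z = 2 * Yy L z + Pool.Agent.Y698.Xx L z := by
    unfold Yy
    ring
  rw [e] at hp ⊢
  field_simp
  ring

lemma v_num (v : Valuation ℂ Γ) (n : ℕ) [n.AtLeastTwo] : v (OfNat.ofNat n : ℂ) ≤ 1 := by
  have := v_nat v (OfNat.ofNat n)
  rwa [Nat.cast_ofNat] at this

/-- the values at the points of odd order are integral -/
theorem yh_int (h : LD L Ω) (hv : v al < 1)
    (hpq : ∀ l ∈ L.lattice, eta L l = p * l + q * (starRingEnd ℂ) l) {z : ℂ} (hz : Od L z) :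
    v (yh L p q z) ≤ 1 := by
  have key : ∀ m : ℕ, ∃ I : ℂ, v I ≤ 1 ∧ yh L p q (2 ^ m * z) = 2 ^ m * yh L p q z + I := by
    intro m
    induction m with
    | zero => exact ⟨0, by rw [map_zero]; exact zero_le, by simp⟩
    | succ m ih =>
      obtain ⟨I, hI, he⟩ := ih
      have hm := hz.pow m
      have hT := hm.tb hv
      have ix := hT.int h hv
      have iy := hT.y_int h hv
      obtain ⟨iu, -⟩ := hT.deriv h hv hm.two.ne
      have e1 : (2 : ℂ) ^ (m + 1) * z = 2 * (2 ^ m * z) := by ring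
      refine ⟨2 * I + (Yy L (2 ^ m * z) + 3 * Pool.Agent.Y698.Xx L (2 ^ m * z) ^ 2 - Pool.Agent.Y698.Xx L (2 ^ m * z) - 2) /
        ℘'[L] (2 ^ m * z), ?_, ?_⟩
      · refine v_add_le (v_mul_le (v_num v 2) hI) ?_
        rw [map_div₀, iu, div_one]
        exact v_sub_le (v_sub_le (v_add_le iy (v_mul_le (v_num v 3) (v_pow_le ix 2))) ix) (v_num v 2)
      · rw [e1, yh_two h hm.two.ne, he]
        ring
  obtain ⟨m, hm, hl⟩ := hz.per
  obtain ⟨I, hI, he⟩ := key m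
  have e1 : yh L p q (2 ^ m * z) = yh L p q z := by
    unfold yh
    congr 1
    refine Pool.Agent.TH936.CW.E1_per' hpq hz.ne ?_
    convert hl using 1
    ring
  rw [e1] at he
  have e2 : (1 - 2 ^ m) * yh L p q z = I := by linear_combination he
  have e3 : v (1 - (2 : ℂ) ^ m) = 1 := by
    have h1 : v ((2 : ℂ) ^ m) < 1 := by
      rw [map_pow]
      exact pow_lt_one₀ zero_le (v_two_lt hv) hm.ne'
    rw [Valuation.map_sub_eq_of_lt_left v (by rwa [map_one]), map_one]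
  rw [← e2, map_mul, e3, one_mul] at hI
  exact hI

/-- multiplication by `β` -/
lemma yh_bl (h : LD L Ω) (hp : p = 1 / 4) {u : ℂ} (hu : bl * u ∉ L.lattice) :
    yh L p q (bl * u) = (1 - bl) / 2 * (2 * yh L p q u + ss L Ω u) +
      (1 + bl) * ((1 - bl) / 2) ^ 2 := by
  have h1 := zeta_bl' h hu
  have hb := bl_ne
  unfold yh E1 Pool.Agent.TH936.CW.Xx
  rw [hp, map_mul, conj_bl, ← inv_bl]
  apply mul_left_cancel₀ hb
  have e1 : bl * bl⁻¹ = 1 := mul_inv_cancel₀ hb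
  have e2 : al * bl = 2 := al_mul_bl
  have e3 := inv_bl
  generalize bl⁻¹ = c at e1 e3 ⊢
  linear_combination h1 - (q * (starRingEnd ℂ) u) * e2 -
    (2 * (zeta L u - 1 / 4 * u - q * (starRingEnd ℂ) u - 1 / 2) + ss L Ω u) * e1 -
    ((1 + bl) * c) * e1 - (1 + bl) * e3 + (1 / 2 : ℂ) * bl_sq

/-- multiplication by `α` -/
lemma E1_al (h : LD L Ω) (hp : p = 1 / 4) {u : ℂ} (hu : al * u ∉ L.lattice) :
    al * E1 L p q (al * u) = 2 * E1 L p q u + ℘'[L] u / (2 * (Pool.Agent.Y698.Xx L u - (al - 3) / 4)) := by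
  have hL := h.lat
  obtain ⟨hz0, hzm, hzp⟩ := tA_pts hL hu
  have h1 := zeta_al h hu
  have h2 := zeta_add L hz0 (tA_notMem hL) hzp hzm
  have e1 : ℘'[L] (tA Ω) = 0 := dwp_half (two_tA hL)
  have e2 : ℘[L] u - ℘[L] (tA Ω) = Pool.Agent.Y698.Xx L u - (al - 3) / 4 := by
    rw [h.ea]
    unfold Pool.Agent.Y698.Xx
    ring
  rw [e1, e2, sub_zero] at h2
  unfold E1 Pool.Agent.TH936.CW.Xx
  rw [hp, map_mul, conj_al]
  have e3 : al * bl = 2 := al_mul_bl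
  linear_combination h1 + h2 - (q * (starRingEnd ℂ) u) * e3

/-- multiplication by `β` -/
lemma E1_bl (h : LD L Ω) (hp : p = 1 / 4) {u : ℂ} (hu : bl * u ∉ L.lattice) :
    bl * E1 L p q (bl * u) = 2 * E1 L p q u + ss L Ω u + 1 / 2 := by
  have h1 := zeta_bl' h hu
  have e2 : al * bl = 2 := al_mul_bl
  unfold E1 Pool.Agent.TH936.CW.Xx
  rw [hp, map_mul, conj_bl]
  linear_combination h1 - (q * (starRingEnd ℂ) u) * e2

/-- the slope and the derivative -/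
lemma ss_eq (h : LD L Ω) {u : ℂ} (hu : bl * u ∉ L.lattice) :
    Pool.Agent.Y698.Xx L u - (bl - 3) / 4 ≠ 0 ∧ (2 * ss L Ω u + 1) * (Pool.Agent.Y698.Xx L u - (bl - 3) / 4) = ℘'[L] u ∧
    (ss L Ω u ^ 2 + ss L Ω u) * (Pool.Agent.Y698.Xx L u - (bl - 3) / 4) = Pool.Agent.Y698.Xx L u ^ 2 + ((bl - 3) / 4 - 1) * Pool.Agent.Y698.Xx L u +
      (((bl - 3) / 4) ^ 2 - (bl - 3) / 4 / 2 - 2) := by
  have hL := h.lat
  obtain ⟨hz0, hzm, hzp⟩ := tB_pts hL hu
  have hd := x_ne hz0 (tB_notMem hL) hzp hzm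
  have hw := h.wei hz0
  rw [x_tB h] at hd
  refine ⟨hd, ?_, ?_⟩
  · unfold ss lam
    rw [x_tB h, y_tB h]
    have e : ℘'[L] u = 2 * Yy L u + Pool.Agent.Y698.Xx L u := by
      unfold Yy
      ring
    rw [e]
    generalize hr : (bl - 3) / 4 = r at *
    have e2 : -(bl - 3) / 8 = -(r / 2) := by
      rw [← hr]
      ring
    rw [e2]
    field_simp
    ring
  · unfold ss lam
    rw [x_tB h, y_tB h]
    have hr2 : -(bl - 3) / 8 = -(((bl - 3) / 4) / 2) := by ring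
    have hrr : 4 * ((bl - 3) / 4) ^ 3 - 3 * ((bl - 3) / 4) ^ 2 - 8 * ((bl - 3) / 4) - 4 = 0 := by
      linear_combination (1 / 16 : ℂ) * (bl - 11) * bl_sq
    rw [hr2]
    generalize (bl - 3) / 4 = r at *
    field_simp
    linear_combination (4 : ℂ) * hw + hrr

/-- the combination -/
noncomputable def Vv (L : PeriodPair) (p q u : ℂ) : ℂ :=
  E1 L p q (bl * u) - bl⁻¹ * E1 L p q (2 * u) - bl⁻¹ * E1 L p q u + bl⁻¹ ^ 2 * E1 L p q (al * u)

lemma Vv_eq (h : LD L Ω) (hp : p = 1 / 4) {u : ℂ} (h2 : 2 * u ∉ L.lattice) :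
    Vv L p q u * (Pool.Agent.Y698.Xx L u - 2) = -((1 - 2 * bl) * ((1 - bl) / 2) ^ 5 * (2 * ss L Ω u + 1)) := by
  have hL := h.lat
  have hub : bl * u ∉ L.lattice := by
    intro hc
    have := hL.mul Pool.Agent.Y698.aR _ hc
    rw [Pool.Agent.Y698.aR_coe, ← mul_assoc, al_mul_bl] at this
    exact h2 this
  have hua : al * u ∉ L.lattice := by
    intro hc
    have := hL.mul Pool.Agent.Y698.bR _ hc
    rw [Pool.Agent.Y698.bR_coe, ← mul_assoc, mul_comm bl al, al_mul_bl] at this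
    exact h2 this
  have hu := two_mul_notMem_of L h2
  have hP := dwp_ne h2
  obtain ⟨s1, s2, s3⟩ := ss_eq h hub
  have o := h.ode hu
  have hA : Pool.Agent.Y698.Xx L u - (al - 3) / 4 ≠ 0 := by
    obtain ⟨hz0, hzm, hzp⟩ := tA_pts hL hua
    have hd := x_ne hz0 (tA_notMem hL) hzp hzm
    have e : Pool.Agent.Y698.Xx L (tA Ω) = (al - 3) / 4 := by
      unfold Pool.Agent.Y698.Xx
      rw [h.ea]
      ring
    rwa [e] at hd
  have e1 : E1 L p q (bl * u) = bl⁻¹ * (2 * E1 L p q u + ss L Ω u + 1 / 2) := by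
    rw [← E1_bl h hp hub, inv_mul_cancel_left₀ bl_ne]
  have e2 : E1 L p q (al * u) = al⁻¹ * (2 * E1 L p q u +
      ℘'[L] u / (2 * (Pool.Agent.Y698.Xx L u - (al - 3) / 4))) := by
    rw [← E1_al h hp hua, inv_mul_cancel_left₀ al_ne]
  have e3 : al⁻¹ = bl / 2 := by
    have := al_ne
    field_simp
    linear_combination -al_mul_bl
  have e4 : bl⁻¹ ^ 2 * (bl / 2) = bl⁻¹ / 2 := by
    have := bl_ne
    field_simp
  have e5 : Vv L p q u = bl⁻¹ * (ss L Ω u + 1 / 2 - (6 * Pool.Agent.Y698.Xx L u ^ 2 - 3 * Pool.Agent.Y698.Xx L u - 4) /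
      (2 * ℘'[L] u) + ℘'[L] u / (4 * (Pool.Agent.Y698.Xx L u - (al - 3) / 4))) := by
    unfold Vv
    rw [e1, e2, E1_two h h2, e3]
    have e6 : bl⁻¹ ^ 2 * (bl / 2 * (2 * E1 L p q u + ℘'[L] u / (2 * (Pool.Agent.Y698.Xx L u - (al - 3) / 4)))) =
        bl⁻¹ / 2 * (2 * E1 L p q u + ℘'[L] u / (2 * (Pool.Agent.Y698.Xx L u - (al - 3) / 4))) := by
      rw [← mul_assoc, e4]
    rw [e6]
    field_simp
    ring
  rw [e5, inv_bl]
  have e7 : (al - 3) / 4 = -(bl + 2) / 4 := by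
    rw [al_eq]
    ring
  rw [e7] at hA ⊢
  set P := ℘'[L] u
  set X := Pool.Agent.Y698.Xx L u
  set s := ss L Ω u
  have f1 : P / (4 * (X - -(bl + 2) / 4)) = (X - 2) * (X - (bl - 3) / 4) / P := by
    rw [div_eq_div_iff (mul_ne_zero (by norm_num) hA) hP]
    linear_combination o + (1 / 4 : ℂ) * (X - 2) * bl_sq
  have f2 : 2 * s + 1 = 4 * (X - 2) * (X - -(bl + 2) / 4) / P := by
    rw [eq_div_iff hP]
    apply mul_right_cancel₀ s1
    have : (2 * s + 1) * P * (X - (bl - 3) / 4) = P ^ 2 := by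
      linear_combination P * s2
    rw [this]
    linear_combination o + (1 / 4 : ℂ) * (X - 2) * bl_sq
  have f3 : s + 1 / 2 = 2 * (X - 2) * (X - -(bl + 2) / 4) / P := by
    linear_combination (1 / 2 : ℂ) * f2
  rw [f1, f2, f3]
  field_simp
  linear_combination (88 + 116 * X + (-80) * X ^ 2 + 32 * bl + (-16) * bl * X + (-192) * bl ^ 2 +
    (-288) * bl ^ 2 * X + 192 * bl ^ 2 * X ^ 2 + 48 * bl ^ 3 + 264 * bl ^ 3 * X +
    (-144) * bl ^ 3 * X ^ 2 + 40 * bl ^ 4 + (-84) * bl ^ 4 * X + 32 * bl ^ 4 * X ^ 2 +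
    (-16) * bl ^ 5 + 8 * bl ^ 5 * X) * bl_sq

lemma tI_int {b s x Y : ℂ} (hb : v b ≤ 1) (hs : v s ≤ 1) (hx : v x ≤ 1) (hY : v Y ≤ 1) :
    v (tI b s x Y) ≤ 1 := by
  have h1 := (tI (A := v.integer) ⟨b, hb⟩ ⟨s, hs⟩ ⟨x, hx⟩ ⟨Y, hY⟩).2
  have h2 : ((tI (A := v.integer) ⟨b, hb⟩ ⟨s, hs⟩ ⟨x, hx⟩ ⟨Y, hY⟩ : v.integer) : ℂ) =
      tI b s x Y := by
    unfold tI
    push_cast
    rfl
  rw [h2] at h1
  exact h1

lemma Od.not_bl (h : LD L Ω) {u : ℂ} (hu : Od L u) : bl * u ∉ L.lattice := by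
  intro hc
  have := h.lat.mul Pool.Agent.Y698.aR _ hc
  rw [Pool.Agent.Y698.aR_coe, ← mul_assoc, al_mul_bl] at this
  exact hu.two.ne this

/-- **The Eisenstein-Kronecker number of order two modulo four.** -/
theorem ek2_mod (h : LD L Ω) (hv : v al < 1)
    (hpq : ∀ l ∈ L.lattice, eta L l = p * l + q * (starRingEnd ℂ) l) {u : ℂ} (hu : Od L u) :
    v (2 * ek L p q 2 (bl * u) - Vv L p q u) ≤ v 4 := by
  have hp := p_quarter h hpq
  have hL := h.lat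
  have hub := hu.not_bl h
  have h2 := hu.two.ne
  have hT := hu.tb hv
  have ix := hT.int h hv
  obtain ⟨iP, ix1⟩ := hT.deriv h hv h2
  have iY := yh_int h hv hpq hu
  obtain ⟨s1, s2, s3⟩ := ss_eq h hub
  have hx2 : v (Pool.Agent.Y698.Xx L u - 2) = 1 := by
    rw [Valuation.map_sub_eq_of_lt_left v (by rw [ix1]; exact v_two_lt hv), ix1]
  have hr : v ((bl - 3) / 4) < 1 := by
    rw [xR_eq, map_div₀, map_pow, v_bl hv, one_pow, div_one]
    exact v_two_lt hv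
  have hxr : v (Pool.Agent.Y698.Xx L u - (bl - 3) / 4) = 1 := by
    rw [Valuation.map_sub_eq_of_lt_left v (by rw [ix1]; exact hr), ix1]
  have is : v (ss L Ω u) ≤ 1 := by
    have iy := hT.y_int h hv
    unfold ss lam
    rw [x_tB h, y_tB h, map_div₀, hxr, div_one]
    exact v_sub_le iy (v_yR hv)
  have e1 := ek_two (q := q) h hp (bl * u)
  have hX := x_bl h hub
  have hD := deriv_bl h hub
  have hYb := yh_bl (q := q) h hp hub
  have hV := Vv_eq (q := q) h hp h2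
  have hb := bl_ne
  have hb2 : bl * ((1 - bl) / 2) = 1 := by
    rw [← inv_bl]
    exact mul_inv_cancel₀ hb
  have hX' : Pool.Agent.Y698.Xx L (bl * u) = (ss L Ω u ^ 2 + ss L Ω u + 1 - (bl - 3) / 4) * ((1 - bl) / 2) ^ 2 := by
    rw [← hX]
    have : bl ^ 2 * Pool.Agent.Y698.Xx L (bl * u) * ((1 - bl) / 2) ^ 2 =
        (bl * ((1 - bl) / 2)) ^ 2 * Pool.Agent.Y698.Xx L (bl * u) := by ring
    rw [this, hb2]
    ring
  have hP' : ℘'[L] (bl * u) = (2 * ss L Ω u + 1) * (2 * Pool.Agent.Y698.Xx L u + (bl - 3) / 4 - 1 -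
      ss L Ω u ^ 2 - ss L Ω u) * ((1 - bl) / 2) ^ 3 := by
    have g1 : bl ^ 2 * Pool.Agent.Y698.Xx L u - al = bl ^ 2 * (Pool.Agent.Y698.Xx L u - (bl - 3) / 4) := by
      rw [al_eq]
      linear_combination (1 / 4 : ℂ) * (bl - 2) * bl_sq
    rw [g1, ← s2] at hD
    have g2 : (2 * Pool.Agent.Y698.Xx L u + (bl - 3) / 4 - 1 - ss L Ω u ^ 2 - ss L Ω u) *
        (Pool.Agent.Y698.Xx L u - (bl - 3) / 4) * bl = bl * Pool.Agent.Y698.Xx L u ^ 2 - al ^ 2 * Pool.Agent.Y698.Xx L u + bl ^ 2 := by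
      rw [al_eq]
      linear_combination (-bl) * s3 + (-1 / 8 * bl + Pool.Agent.Y698.Xx L u / 2) * bl_sq
    rw [← g2] at hD
    have g3 : (Pool.Agent.Y698.Xx L u - (bl - 3) / 4) ^ 2 * bl ^ 4 ≠ 0 :=
      mul_ne_zero (pow_ne_zero _ s1) (pow_ne_zero _ hb)
    apply mul_right_cancel₀ g3
    have g4 : ℘'[L] (bl * u) * ((Pool.Agent.Y698.Xx L u - (bl - 3) / 4) ^ 2 * bl ^ 4) =
        ℘'[L] (bl * u) * (bl ^ 2 * (Pool.Agent.Y698.Xx L u - (bl - 3) / 4)) ^ 2 := by ring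
    rw [g4, hD]
    have g5 : (2 * ss L Ω u + 1) * (2 * Pool.Agent.Y698.Xx L u + (bl - 3) / 4 - 1 -
      ss L Ω u ^ 2 - ss L Ω u) * ((1 - bl) / 2) ^ 3 * ((Pool.Agent.Y698.Xx L u - (bl - 3) / 4) ^ 2 * bl ^ 4) =
      (2 * ss L Ω u + 1) * (2 * Pool.Agent.Y698.Xx L u + (bl - 3) / 4 - 1 -
      ss L Ω u ^ 2 - ss L Ω u) * (bl * ((1 - bl) / 2)) ^ 3 *
      ((Pool.Agent.Y698.Xx L u - (bl - 3) / 4) ^ 2 * bl) := by ring
    rw [g5, hb2]
    ring
  have hrel : Pool.Agent.Y698.Xx L u ^ 2 + ((bl - 3) / 4 - 1 - ss L Ω u ^ 2 - ss L Ω u) * Pool.Agent.Y698.Xx L u +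
      (((bl - 3) / 4) ^ 2 - (bl - 3) / 4 / 2 - 2 + (ss L Ω u ^ 2 + ss L Ω u) * ((bl - 3) / 4)) =
      0 := by
    linear_combination -s3
  have key := alg_id hrel hX' hP' hYb
  rw [← e1] at key
  have key2 : (2 * ek L p q 2 (bl * u) - Vv L p q u) * (Pool.Agent.Y698.Xx L u - 2) =
      tE bl (ss L Ω u) (Pool.Agent.Y698.Xx L u) (yh L p q u) := by
    rw [← key, sub_mul, hV]
    ring
  have k3 : v (tE bl (ss L Ω u) (Pool.Agent.Y698.Xx L u) (yh L p q u)) ≤ v 4 := by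
    have k4 := congrArg v (tE_eq (ss L Ω u) (Pool.Agent.Y698.Xx L u) (yh L p q u))
    rw [map_mul, map_pow, v_bl hv, one_pow, one_mul, map_mul] at k4
    rw [k4]
    exact mul_le_of_le_one_right' (tI_int (v_bl hv).le is ix iY)
  have k5 := congrArg v key2
  rw [map_mul, hx2, mul_one] at k5
  rw [k5]
  exact k3

end Pool.Agent.J4.H67.AW
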