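import Pool.Agent.J4.H67.AW.Pl
import Pool.Agent.TH936.CW.Eone

/-!
# The Eisenstein-Kronecker numbers of even order are congruent modulo four
-/

set_option autoImplicit false
set_option linter.unusedSectionVars false

open Filter
open scoped Topology PeriodPair

namespace Pool.Agent.J4.H67.AW

open Pool.Agent.Y698 (LD Tb Yy al bl RR)
open H667R3 Pool.Agent.W192.HK Pool.Agent.TH936.CM Pool.Agent.TH936.PU
open Pool.Agent.TH936.CW (Rw Rw_eq Rw_an near hasDerivAt_wp'_all zreg_an zreg_zero Hh Hh_diff Hh_ne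
  Mm Mm_an Dv Dv_C Uu Aa Pp PP evz evz_deriv evz_an ev ev_add ev_mul ev_C ev_sum iter_H rh ek
  iter_zmul cd Tt)

variable {Γ : Type*} [LinearOrderedCommGroupWithZero Γ] {v : Valuation ℂ Γ}
variable {L : PeriodPair} {Ω p q : ℂ}

lemma iter_comm (f : ℂ → ℂ) (i j : ℕ) :
    iteratedDeriv i (iteratedDeriv j f) = iteratedDeriv j (iteratedDeriv i f) := by
  simp only [iteratedDeriv_eq_iterate]
  rw [← Function.iterate_add_apply, ← Function.iterate_add_apply, add_comm]

lemma evz_iter (c : ℂ) (P : PP) (n : ℕ) : ∀ z, z ∉ L.lattice →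
    iteratedDeriv n (fun z => evz L p q c z P) z = evz L p q c z ((Dv p L.g₂)^[n] P) := by
  induction n with
  | zero =>
    intro z _
    rw [iteratedDeriv_zero]
    rfl
  | succ n ih =>
    intro z hz
    rw [iteratedDeriv_succ]
    have he : iteratedDeriv n (fun z => evz L p q c z P) =ᶠ[𝓝 z]
        fun z => evz L p q c z ((Dv p L.g₂)^[n] P) := by
      filter_upwards [(L.isClosed_lattice.isOpen_compl).mem_nhds hz] with u hu
      exact ih u hu
    rw [he.deriv_eq, (evz_deriv L p q hz c _).deriv, Function.iterate_succ_apply']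

/-- the shifted quotient -/
noncomputable def Qn (L : PeriodPair) (p q c z : ℂ) (n : ℕ) (w : ℂ) : ℂ :=
  ∑ j ∈ Finset.range (n + 1), (n.choose j * iteratedDeriv (n - j)
    (fun x => (Hh L p q c x)⁻¹) z) * iteratedDeriv j (Hh L p q c) (z + w)

lemma hh_cd (c z : ℂ) (n : ℕ) : ContDiffAt ℂ n (Hh L p q c) z :=
  ((Hh_diff L p q c).analyticAt z).contDiffAt

lemma hh_inv_cd (c : ℂ) {z : ℂ} (hz : z ∉ L.lattice) (n : ℕ) :
    ContDiffAt ℂ n (fun x => (Hh L p q c x)⁻¹) z :=
  (((Hh_diff L p q c).analyticAt z).inv (Hh_ne L p q c hz)).contDiffAt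

lemma Qn_eq (c : ℂ) {z : ℂ} (hz : z ∉ L.lattice) (n : ℕ) (w : ℂ) : Qn L p q c z n w =
    iteratedDeriv n (fun x => Hh L p q c (x + w) * (Hh L p q c x)⁻¹) z := by
  have h1 : ContDiffAt ℂ n (fun x => Hh L p q c (x + w)) z := by
    have h2 : Differentiable ℂ (fun x => Hh L p q c (x + w)) :=
      (Hh_diff L p q c).comp (by fun_prop)
    exact (h2.analyticAt z).contDiffAt
  rw [iteratedDeriv_fun_mul h1 (hh_inv_cd c hz n)]
  unfold Qn
  refine Finset.sum_congr rfl fun j _ => ?_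
  rw [iteratedDeriv_comp_add_const]
  ring

lemma iter_an' {f : ℂ → ℂ} {z : ℂ} (h : AnalyticAt ℂ f z) (n : ℕ) :
    AnalyticAt ℂ (iteratedDeriv n f) z := by
  rw [iteratedDeriv_eq_iterate]
  exact h.iterated_deriv n

lemma Qn_an (c z : ℂ) (n : ℕ) : AnalyticAt ℂ (Qn L p q c z n) 0 := by
  unfold Qn
  refine Finset.analyticAt_fun_sum _ fun j _ => analyticAt_const.mul ?_
  refine AnalyticAt.fun_comp (f := fun w : ℂ => z + w) (g := iteratedDeriv j (Hh L p q c)) ?_
    (by fun_prop)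
  exact iter_an' ((Hh_diff L p q c).analyticAt _) j

lemma Qn_iter (c : ℂ) {z : ℂ} (hz : z ∉ L.lattice) (n i : ℕ) :
    iteratedDeriv i (Qn L p q c z n) 0 = evz L p q c z ((Dv p L.g₂)^[n] (Uu p L.g₂ i)) := by
  rw [← evz_iter c _ n z hz]
  have he : (fun x => evz L p q c x (Uu p L.g₂ i)) =ᶠ[𝓝 z]
      fun x => iteratedDeriv i (Hh L p q c) x * (Hh L p q c x)⁻¹ := by
    filter_upwards [(L.isClosed_lattice.isOpen_compl).mem_nhds hz] with u hu
    rw [iter_H L p q c i u hu, mul_assoc, mul_inv_cancel₀ (Hh_ne L p q c hu), mul_one]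
  rw [he.iteratedDeriv_eq]
  have h1 : ContDiffAt ℂ n (iteratedDeriv i (Hh L p q c)) z :=
    (iter_an' ((Hh_diff L p q c).analyticAt z) i).contDiffAt
  rw [iteratedDeriv_fun_mul h1 (hh_inv_cd c hz n)]
  have e1 : Qn L p q c z n = fun w => ∑ j ∈ Finset.range (n + 1), (n.choose j * iteratedDeriv (n - j)
    (fun x => (Hh L p q c x)⁻¹) z) * iteratedDeriv j (Hh L p q c) (z + w) := rfl
  rw [e1, iteratedDeriv_fun_sum]
  · refine Finset.sum_congr rfl fun j _ => ?_
    rw [iteratedDeriv_const_mul_field, iteratedDeriv_comp_const_add]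
    simp only [add_zero]
    rw [iter_comm]
    ring
  · intro j _
    have h2 : AnalyticAt ℂ (fun w => (n.choose j * iteratedDeriv (n - j)
        (fun x => (Hh L p q c x)⁻¹) z) * iteratedDeriv j (Hh L p q c) (z + w)) 0 := by
      refine analyticAt_const.mul ?_
      refine AnalyticAt.fun_comp (f := fun w : ℂ => z + w) (g := iteratedDeriv j (Hh L p q c)) ?_
        (by fun_prop)
      exact iter_an' ((Hh_diff L p q c).analyticAt _) j
    exact h2.contDiffAt

lemma Dv_iter_sum (g : ℂ) {ι : Type*} (s : Finset ι) (a : ι → ℂ) (U : ι → PP) (n : ℕ) :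
    (Dv p g)^[n] (∑ i ∈ s, MvPolynomial.C (a i) * U i) =
      ∑ i ∈ s, MvPolynomial.C (a i) * (Dv p g)^[n] (U i) := by
  induction n with
  | zero => rfl
  | succ n ih =>
    rw [Function.iterate_succ_apply', ih, map_sum]
    refine Finset.sum_congr rfl fun i _ => ?_
    rw [Derivation.leibniz, Dv_C, smul_eq_mul, smul_zero, add_zero, Function.iterate_succ_apply']

/-- the derivatives at the origin -/
theorem QM_iter (c : ℂ) {z : ℂ} (hz : z ∉ L.lattice) (n m : ℕ) :
    iteratedDeriv m (fun w => Qn L p q c z n w * Mm L p w) 0 =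
      evz L p q c z ((Dv p L.g₂)^[n] (Aa L p m)) := by
  rw [iteratedDeriv_fun_mul (cd (Qn_an c z n) m) (cd (Mm_an L p) m)]
  unfold Aa
  rw [Dv_iter_sum]
  unfold evz
  rw [ev_sum]
  refine Finset.sum_congr rfl fun i _ => ?_
  rw [ev_mul, ev_C, Qn_iter c hz]
  unfold evz rh
  ring

lemma QM_zero (c : ℂ) {z : ℂ} (hz : z ∉ L.lattice) {n : ℕ} (hn : 0 < n) :
    Qn L p q c z n 0 * Mm L p 0 = 0 := by
  have h1 := QM_iter (p := p) (q := q) c hz n 0
  rw [iteratedDeriv_zero] at h1
  rw [h1]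
  obtain ⟨k, rfl⟩ : ∃ k, n = k + 1 := ⟨n - 1, by omega⟩
  have e1 : Aa L p 0 = MvPolynomial.C (rh L p 0) := by
    unfold Aa
    simp [Uu]
  have e2 : ∀ k : ℕ, (Dv p L.g₂)^[k] (0 : PP) = 0 := by
    intro k
    induction k with
    | zero => rfl
    | succ k ih => rw [Function.iterate_succ_apply', ih, map_zero]
  rw [e1, Function.iterate_succ_apply, Dv_C, e2]
  simp [evz, ev]

/-- the regular part -/
noncomputable def Fz (L : PeriodPair) (p q c z : ℂ) (n : ℕ) : ℂ → ℂ :=
  dslope (fun w => Qn L p q c z n w * Mm L p w) 0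

lemma Fz_an (c z : ℂ) (n : ℕ) : AnalyticAt ℂ (Fz L p q c z n) 0 :=
  dsl ((Qn_an c z n).mul (Mm_an L p))

/-- the Eisenstein-Kronecker numbers as derivatives -/
theorem ek_iter {z : ℂ} (hz : z ∉ L.lattice) {n : ℕ} (hn : 0 < n) :
    (n.factorial : ℂ) * ek L p q n z = iteratedDeriv n (Fz L p q ((starRingEnd ℂ) z) z n) 0 := by
  set c := (starRingEnd ℂ) z
  have h1 := QM_iter (p := p) (q := q) c hz n (n + 1)
  have h2 : (fun w => Qn L p q c z n w * Mm L p w) = fun w => w * Fz L p q c z n w := by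
    funext w
    have := dsl_eq (f := fun w => Qn L p q c z n w * Mm L p w) w
    rw [this, QM_zero c hz hn, zero_add]
    rfl
  rw [h2, iter_zmul (Fz_an c z n), Nat.add_sub_cancel] at h1
  have h3 : ek L p q n z = 1 / ((n + 1).factorial : ℂ) *
      evz L p q c z ((Dv p L.g₂)^[n] (Aa L p (n + 1))) := by
    unfold ek Pp evz
    rw [ev_mul, ev_C]
  rw [h3, ← h1, Nat.factorial_succ]
  have hf : (n.factorial : ℂ) ≠ 0 := by exact_mod_cast n.factorial_ne_zero
  have hn' : (n : ℂ) + 1 ≠ 0 := by exact_mod_cast n.succ_ne_zero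
  push_cast
  field_simp

/-- the quotient of the functions `H` and the theta function -/
lemma th_H (c : ℂ) {w : ℂ} (hw : w ∉ L.lattice) (x : ℂ) :
    Hh L p q c (x + w) * (Hh L p q c x)⁻¹ * Mm L p w = w * th L p q c x w := by
  have s2 := sigma_ne_zero L hw
  have hw0 : w ≠ 0 := by
    rintro rfl
    exact hw (zero_mem _)
  have hPi : Pi' L w ≠ 0 := by
    intro h
    apply s2
    rw [sigma_eq_mul, h, mul_zero]
  unfold Hh Mm Tt th
  rw [sigma_eq_mul L w]
  have e1 : Complex.exp (-((q * c + p * x) * w)) = Complex.exp (-(q * c * (x + w)) -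
      p * (x + w) ^ 2 / 2) * (Complex.exp (-(q * c * x) - p * x ^ 2 / 2))⁻¹ *
      (Complex.exp (-(p * w ^ 2 / 2)))⁻¹ := by
    rw [← Complex.exp_neg, ← Complex.exp_neg, ← Complex.exp_add, ← Complex.exp_add]
    congr 1
    ring
  rw [e1]
  have n1 := Complex.exp_ne_zero (-(q * c * x) - p * x ^ 2 / 2)
  have n2 := Complex.exp_ne_zero (-(p * w ^ 2 / 2))
  by_cases hx : sigma L x = 0
  · rw [hx]
    simp
  · field_simp

/-- the regular part near the origin -/
lemma Fz_eq (h : LD L Ω) (hp : p = 1 / 4) (c : ℂ) {z : ℂ} (hz : z ∉ L.lattice) {n : ℕ}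
    (hn : 0 < n) : Fz L p q c z n =ᶠ[𝓝[≠] 0] fun w => th L p q c z w * evp L z w (Bz n) := by
  filter_upwards [near L, (near_add hz).filter_mono nhdsWithin_le_nhds,
    (near_sub hz).filter_mono nhdsWithin_le_nhds, self_mem_nhdsWithin] with w h1 h2 h3 h4
  have hw0 : w ≠ 0 := h4
  have e1 : Qn L p q c z n w * Mm L p w = w * Fz L p q c z n w := by
    have := dsl_eq (f := fun w => Qn L p q c z n w * Mm L p w) w
    rw [this, QM_zero c hz hn, zero_add]
    rfl
  have e2 : Qn L p q c z n w * Mm L p w = w * (th L p q c z w * evp L z w (Bz n)) := by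
    rw [Qn_eq c hz, ← th_iter (q := q) h hp c h1 n z hz h2 h3, ← iteratedDeriv_const_mul_field,
      ← iteratedDeriv_mul_const_field]
    congr 1
    funext x
    exact th_H c h1 x
  rw [e1] at e2
  exact mul_left_cancel₀ hw0 e2

/-- **The Eisenstein-Kronecker numbers of even order at a point of odd order are congruent modulo
four.** -/
theorem ek_mod (h : LD L Ω) (hv : v al < 1)
    (hpq : ∀ l ∈ L.lattice, eta L l = p * l + q * (starRingEnd ℂ) l) {z : ℂ} (hz : Od L z) (m : ℕ) :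
    v (((2 * m + 2).factorial : ℂ) * ek L p q (2 * m + 2) z - 2 * ek L p q 2 z) ≤ v 4 := by
  have hp := p_quarter h hpq
  have hτ := tt_co L
  have hT := hz.tb hv
  have ix := hT.int h hv
  have iy := hT.y_int h hv
  set c := (starRingEnd ℂ) z with hc
  have hth : LL v (tt L) (fun w => th L p q c z w) :=
    ⟨1, (th_int h hv hpq hz).congr (Eventually.of_forall fun w => by simp [hc])⟩
  have hd := tt_dint v h
  have hdd := tt_ddint v h
  have hF2a := Fz_an (L := L) (p := p) (q := q) c z 2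
  have hFa := Fz_an (L := L) (p := p) (q := q) c z (2 * m + 2)
  have hF2e := Fz_eq (q := q) h hp c hz.ne (n := 2) (by norm_num)
  have hFe := Fz_eq (q := q) h hp c hz.ne (n := 2 * m + 2) (by omega)
  have hF2 : II v (tt L) (Fz L p q c z 2) :=
    ((hth.mul hτ (evp_ll h hv ix iy (Bz 2))).congr hF2e).reg hτ hF2a (EventuallyEq.refl _ _)
  obtain ⟨C, hC⟩ := Bz_even m
  -- the difference
  set E : ℂ → ℂ := fun w => (Fz L p q c z (2 * m + 2) w - Fz L p q c z 2 w) / 4 with hE
  have hEa : AnalyticAt ℂ E 0 := (hFa.sub hF2a).div_const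
  have hEe : E =ᶠ[𝓝[≠] 0] fun w => th L p q c z w * evp L z w C := by
    filter_upwards [hF2e, hFe] with w a1 a2
    simp only [hE]
    rw [a1, a2, hC, map_add, map_mul, map_ofNat]
    ring
  have hEI : II v (tt L) E :=
    ((hth.mul hτ (evp_ll h hv ix iy C)).congr hEe).reg hτ hEa (EventuallyEq.refl _ _)
  have i1 : v (iteratedDeriv (2 * m + 2) E 0) ≤ 1 :=
    (hEI.iter hτ hd (2 * m + 2)).value hτ (iter_an hEa _) (EventuallyEq.refl _ _)
  have i2 := hF2.even hF2a hτ hd hdd m
  have e1 : iteratedDeriv (2 * m + 2) (Fz L p q c z (2 * m + 2)) 0 =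
      iteratedDeriv (2 * m + 2) (Fz L p q c z 2) 0 + 4 * iteratedDeriv (2 * m + 2) E 0 := by
    have e2 : Fz L p q c z (2 * m + 2) = fun w => Fz L p q c z 2 w + 4 * E w := by
      funext w
      simp only [hE]
      ring
    have e3 : iteratedDeriv (2 * m + 2) (fun w => Fz L p q c z 2 w + 4 * E w) 0 =
        iteratedDeriv (2 * m + 2) (Fz L p q c z 2) 0 +
          iteratedDeriv (2 * m + 2) (fun w => 4 * E w) 0 :=
      iteratedDeriv_add hF2a.contDiffAt (analyticAt_const.mul hEa).contDiffAt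
    rw [iteratedDeriv_const_mul_field] at e3
    rw [← e3, ← e2]
  have e4 := ek_iter (p := p) (q := q) hz.ne (n := 2) (by norm_num)
  have e5 := ek_iter (p := p) (q := q) hz.ne (n := 2 * m + 2) (by omega)
  rw [Nat.factorial_two] at e4
  push_cast at e4
  rw [e4, e5, ← hc, e1]
  have e6 : iteratedDeriv (2 * m + 2) (Fz L p q c z 2) 0 + 4 * iteratedDeriv (2 * m + 2) E 0 -
      iteratedDeriv 2 (Fz L p q c z 2) 0 = (iteratedDeriv (2 * m + 2) (Fz L p q c z 2) 0 -
      iteratedDeriv 2 (Fz L p q c z 2) 0) + 4 * iteratedDeriv (2 * m + 2) E 0 := by ring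
  rw [e6]
  refine Valuation.map_add_le v i2 ?_
  rw [map_mul]
  exact mul_le_of_le_one_right' i1

end Pool.Agent.J4.H67.AW
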