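import Pool.Agent.Y698.SG.Wn

/-!
# Functionals on periodic functions with a distribution relation
-/

set_option autoImplicit false
set_option linter.unusedSectionVars false

open Filter
open scoped Topology PeriodPair

namespace Pool.Agent.J4.H67.AW

open Pool.Agent.Y698 Pool.Agent.Y698.SG
open H667R3 Pool.Agent.W192.HK Pool.Agent.TH936.CM Pool.Agent.TH936.PU

open Classical in
/-- functionals with a distribution relation -/
structure Fl (κ : RR → ℂ) (W : RR → (RR → ℂ) → ℂ) : Prop where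
  add : ∀ n : RR, n ≠ 0 → ∀ φ φ' : RR → ℂ, W n (fun m => φ m + φ' m) = W n φ + W n φ'
  smul : ∀ n : RR, n ≠ 0 → ∀ (c : ℂ) (φ : RR → ℂ), W n (fun m => c * φ m) = c * W n φ
  dist : ∀ n q : RR, Go n → Go q → ∀ φ : RR → ℂ, Pe n φ → W (q * n) φ = κ q * W n φ
  mult : ∀ n q : RR, Go n → Go q → ∀ φ : RR → ℂ, Pe n φ →
    W (q * n) (fun m => if m ∈ sp q then φ m else 0) = W n (fun m => φ (q * m))

variable {κ : RR → ℂ} {W : RR → (RR → ℂ) → ℂ}

lemma Fl.sum (hW : Fl κ W) {n : RR} (hn : n ≠ 0) {ι : Type*} (s : Finset ι) (φ : ι → RR → ℂ) :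
    W n (fun m => ∑ i ∈ s, φ i m) = ∑ i ∈ s, W n (φ i) := by
  classical
  induction s using Finset.induction_on with
  | empty =>
    have h1 := hW.smul n hn 0 (fun _ => 0)
    simp only [mul_zero, zero_mul] at h1
    simpa using h1
  | insert a s ha ih =>
    rw [Finset.sum_insert ha, ← ih]
    have h1 := hW.add n hn (φ a) (fun m => ∑ i ∈ s, φ i m)
    rw [← h1]
    congr 1
    funext m
    rw [Finset.sum_insert ha]

open Classical in
/-- removing a prime -/
theorem Fl.rem (hW : Fl κ W) {n q : RR} (hn : Go n) (hq : Go q) {c : ℂ} {φ : RR → ℂ}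
    (hφ : Pe n φ) (hφq : ∀ m : RR, φ (q * m) = c * φ m) :
    W (q * n) (fun m => if m ∈ sp q then 0 else φ m) = (κ q - c) * W n φ := by
  have hqn0 : q * n ≠ 0 := (hq.mul hn).gd.ne
  have h1 := hW.dist n q hn hq φ hφ
  have h2 := hW.mult n q hn hq φ hφ
  have h3 := hW.smul n hn.gd.ne c φ
  have e1 : (fun m => φ (q * m)) = fun m => c * φ m := funext hφq
  rw [e1, h3] at h2
  have h4 := hW.add (q * n) hqn0 (fun m => if m ∈ sp q then 0 else φ m)
    (fun m => if m ∈ sp q then φ m else 0)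
  have e2 : (fun m : RR => (if m ∈ sp q then 0 else φ m) + (if m ∈ sp q then φ m else 0)) = φ := by
    funext m
    split_ifs <;> ring
  rw [e2, h1, h2] at h4
  linear_combination -h4

/-- removing several primes -/
theorem Fl.rems {ι : Type} (hW : Fl κ W) {n : RR} (hn : Go n) {φ : RR → ℂ}
    (hφ : Pe n φ) {π : ι → RR} (c : ι → ℂ) (B : Finset ι) (hB : Fam B π)
    (hc : ∀ i ∈ B, Mu (π i) φ (c i)) :
    W ((∏ i ∈ B, π i) * n) (fun m => φ m * ∏ i ∈ B, tr (π i) m) =
      (∏ i ∈ B, (κ (π i) - c i)) * W n φ := by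
  classical
  induction B using Finset.induction_on with
  | empty => simp
  | insert q B hq ih =>
    have hBs : Fam B π := hB.mono (Finset.subset_insert _ _)
    have ih' := ih hBs fun p hp => hc p (Finset.mem_insert_of_mem hp)
    have h1 := hB.pd q (Finset.mem_insert_self _ _)
    rw [Finset.prod_insert hq, mul_assoc, Finset.prod_insert hq, mul_assoc, ← ih']
    have hBg : Go ((∏ i ∈ B, π i) * n) := (Go.prod fun i hi => (hBs.pd i hi).go).mul hn
    have e : (fun m : RR => φ m * ∏ i ∈ insert q B, tr (π i) m) =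
        fun m : RR => if m ∈ sp (π q) then 0 else φ m * ∏ i ∈ B, tr (π i) m := by
      funext m
      rw [Finset.prod_insert hq]
      unfold tr
      split_ifs <;> ring
    rw [e]
    have hne : ∀ p ∈ B, p ≠ q := fun p hp h => hq (h ▸ hp)
    refine hW.rem hBg h1.go ?_ ?_
    · exact (hφ.mono (Dvd.intro_left _ rfl)).mul ((Pe.prod fun p _ => tr_per (π p)).mono
        (Dvd.intro _ rfl))
    · have h2 : Mu (π q) (fun m => φ m * ∏ i ∈ B, tr (π i) m) (c q * ∏ i ∈ B, (1 : ℂ)) := by
        refine (hc q (Finset.mem_insert_self _ _)).mul (Mu.prod fun p hp m => ?_)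
        rw [one_mul]
        exact tr_mul (hBs.pd p hp).pr (hB.ne q (Finset.mem_insert_self _ _) p
          (Finset.mem_insert_of_mem hp) (hne p hp).symm) m
      intro m
      have h3 := h2 m
      rw [Finset.prod_const_one, mul_one] at h3
      exact h3

/-- the product of the factors -/
noncomputable def Pk {ι : Type} [DecidableEq ι] (κ : RR → ℂ) (π : ι → RR) (S A : Finset ι) : ℂ :=
  ∏ i ∈ S \ A, (κ (π i) - ∏ j ∈ A, sy (π j) (π i))

/-- the sum over the subsets -/
theorem Fl.subsets {ι : Type} [DecidableEq ι] (hW : Fl κ W) {π : ι → RR} (S : Finset ι)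
    (hS : Fam S π) :
    ∑ A ∈ S.powerset, Pk κ π S A * W (∏ i ∈ A, π i) (fun m => ∏ i ∈ A, sy (π i) m) =
    2 ^ S.card * W (∏ i ∈ S, π i) (fun m => ∏ i ∈ S, hc (π i) m) := by
  have hSg : Go (∏ i ∈ S, π i) := Go.prod fun i hi => (hS.pd i hi).go
  have h1 : ∀ A ∈ S.powerset, Pk κ π S A *
      W (∏ i ∈ A, π i) (fun m => ∏ i ∈ A, sy (π i) m) =
      W (∏ i ∈ S, π i) (fun m => (∏ i ∈ A, sy (π i) m) * ∏ i ∈ S \ A, tr (π i) m) := by
    intro A hA
    rw [Finset.mem_powerset] at hA
    have hAg : Go (∏ i ∈ A, π i) := Go.prod fun i hi => (hS.pd i (hA hi)).go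
    unfold Pk
    rw [← hW.rems hAg ?_ _ (S \ A) (hS.mono Finset.sdiff_subset) ?_]
    · rw [Finset.prod_sdiff hA]
    · exact Pe.prod fun p _ => sy_per (π p)
    · intro i hi
      rw [Finset.mem_sdiff] at hi
      exact Mu.prod (q := π i) (S := A) (f := fun j => sy (π j))
        (κ := fun j => sy (π j) (π i)) fun j hj m => (hS.pd j (hA hj)).mul _ _
  rw [Finset.sum_congr rfl h1, ← hW.sum hSg.gd.ne, ← hW.smul _ hSg.gd.ne]
  congr 1
  funext m
  have h2 : ∏ i ∈ S, (sy (π i) m + tr (π i) m) =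
      ∑ A ∈ S.powerset, (∏ i ∈ A, sy (π i) m) * ∏ i ∈ S \ A, tr (π i) m :=
    Finset.prod_add _ _ _
  have h3 : ∏ i ∈ S, (sy (π i) m + tr (π i) m) = 2 ^ S.card * ∏ i ∈ S, hc (π i) m := by
    rw [← Finset.prod_const, ← Finset.prod_mul_distrib]
    refine Finset.prod_congr rfl fun q _ => ?_
    unfold hc
    ring
  rw [← h2, h3]

variable {Γ : Type*} [LinearOrderedCommGroupWithZero Γ] {v : Valuation ℂ Γ}

/-- the factors are divisible by two -/
lemma v_Pk {ι : Type} [DecidableEq ι] {π : ι → RR} {S A : Finset ι} (hA : A ⊆ S) (hS : Fam S π)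
    (hk : ∀ i ∈ S, v (κ (π i) - 1) ≤ v 2) :
    v (Pk κ π S A) ≤ v 2 ^ (S \ A).card := by
  unfold Pk
  rw [map_prod, ← Finset.prod_const]
  refine Finset.prod_le_prod' fun i hi => ?_
  rw [Finset.mem_sdiff] at hi
  have h7 := (sgn_prod (s := A) (f := fun j => sy (π j) (π i)) fun j hj => sy_sgn
      (hS.ne i hi.1 j (hA hj) fun h => hi.2 (h ▸ hj))).1
  rcases h7 with h | h
  · rw [h]
    exact hk i hi.1
  · rw [h]
    have e : κ (π i) - -1 = (κ (π i) - 1) + 2 := by ring
    rw [e]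
    exact v.map_add_le (hk i hi.1) le_rfl

/-- the difference of the products of the factors -/
lemma v_Pk_sub {ι : Type} [DecidableEq ι] {κ' : RR → ℂ} {π : ι → RR} {S A : Finset ι} (hA : A ⊆ S)
    (hS : Fam S π) (hk : ∀ i ∈ S, v (κ (π i) - 1) ≤ v 2)
    (hk' : ∀ i ∈ S, v (κ (π i) - κ' (π i)) ≤ v 2 ^ 3) (hv : v 2 < 1) :
    v (Pk κ π S A - Pk κ' π S A) * v 2 ≤ v 2 ^ 3 * v 2 ^ (S \ A).card := by
  have hk1 : ∀ i ∈ S, v (κ' (π i) - 1) ≤ v 2 := by
    intro i hi
    have e : κ' (π i) - 1 = (κ (π i) - 1) - (κ (π i) - κ' (π i)) := by ring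
    rw [e]
    refine v.map_sub_le (hk i hi) ((hk' i hi).trans ?_)
    exact pow_le_of_le_one zero_le hv.le (by norm_num)
  have key : ∀ B : Finset ι, B ⊆ S \ A → v (∏ i ∈ B, (κ (π i) - ∏ j ∈ A, sy (π j) (π i)) -
      ∏ i ∈ B, (κ' (π i) - ∏ j ∈ A, sy (π j) (π i))) * v 2 ≤ v 2 ^ 3 * v 2 ^ B.card := by
    intro B
    induction B using Finset.induction_on with
    | empty =>
      intro _
      rw [Finset.prod_empty, Finset.prod_empty, sub_self, map_zero, zero_mul]
      exact zero_le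
    | insert a B ha ih =>
      intro hB
      have hBs : B ⊆ S \ A := (Finset.subset_insert _ _).trans hB
      have ih' := ih hBs
      have haS : a ∈ S := (Finset.mem_sdiff.1 (hB (Finset.mem_insert_self _ _))).1
      have haA : a ∉ A := (Finset.mem_sdiff.1 (hB (Finset.mem_insert_self _ _))).2
      rw [Finset.prod_insert ha, Finset.prod_insert ha, Finset.card_insert_of_notMem ha]
      set P := ∏ i ∈ B, (κ (π i) - ∏ j ∈ A, sy (π j) (π i))
      set P' := ∏ i ∈ B, (κ' (π i) - ∏ j ∈ A, sy (π j) (π i)) with hP'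
      have hs : ∀ i ∈ S, i ∉ A → v (κ' (π i) - ∏ j ∈ A, sy (π j) (π i)) ≤ v 2 := by
        intro i hi hiA
        have h7 := (sgn_prod (s := A) (f := fun j => sy (π j) (π i)) fun j hj => sy_sgn
          (hS.ne i hi j (hA hj) fun h => hiA (h ▸ hj))).1
        rcases h7 with h | h
        · rw [h]
          exact hk1 i hi
        · rw [h]
          have e : κ' (π i) - -1 = (κ' (π i) - 1) + 2 := by ring
          rw [e]
          exact v.map_add_le (hk1 i hi) le_rfl
      have hs' : v (κ (π a) - ∏ j ∈ A, sy (π j) (π a)) ≤ v 2 := by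
        have e : κ (π a) - ∏ j ∈ A, sy (π j) (π a) = (κ (π a) - κ' (π a)) +
          (κ' (π a) - ∏ j ∈ A, sy (π j) (π a)) := by ring
        rw [e]
        refine v.map_add_le ((hk' a haS).trans ?_) (hs a haS haA)
        exact pow_le_of_le_one zero_le hv.le (by norm_num)
      have hP'v : v P' ≤ v 2 ^ B.card := by
        rw [hP', map_prod, ← Finset.prod_const]
        refine Finset.prod_le_prod' fun i hi => ?_
        have := Finset.mem_sdiff.1 (hBs hi)
        exact hs i this.1 this.2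
      have e : (κ (π a) - ∏ j ∈ A, sy (π j) (π a)) * P -
          (κ' (π a) - ∏ j ∈ A, sy (π j) (π a)) * P' =
          (κ (π a) - ∏ j ∈ A, sy (π j) (π a)) * (P - P') + (κ (π a) - κ' (π a)) * P' := by ring
      rw [e, ← map_mul, add_mul]
      refine v.map_add_le ?_ ?_
      · rw [mul_assoc, map_mul, map_mul v (P - P'), mul_comm, pow_succ (v 2) B.card, ← mul_assoc]
        exact mul_le_mul' ih' hs'
      · rw [map_mul, map_mul, mul_assoc]
        refine mul_le_mul' (hk' a haS) ?_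
        rw [pow_succ]
        exact mul_le_mul_left hP'v _
  exact key _ le_rfl

end Pool.Agent.J4.H67.AW
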