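import Pool.Agent.J4.H67.AW.Rh
import Pool.Agent.J4.H67.AW.Bl
import Pool.Agent.Y698.Tw

/-!
# The local coordinate `-x / y` and the expansions of the coordinates
-/

set_option autoImplicit false
set_option linter.unusedSectionVars false

open Filter
open scoped Topology PeriodPair

namespace Pool.Agent.J4.H67.AW

open Pool.Agent.Y698
open H667R3 Pool.Agent.W192.HK Pool.Agent.TH936.CM Pool.Agent.TH936.PU
open Pool.Agent.TH936.CW (Rw Rw_eq Rw_an near hasDerivAt_wp'_all)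

variable {Γ : Type*} [LinearOrderedCommGroupWithZero Γ] {v : Valuation ℂ Γ} {τ : ℂ → ℂ}

/-! ### expansions of a fixed order -/

lemma IN.cst {N : ℕ} {a : ℂ} (ha : v a ≤ 1) : IN v τ N (fun _ => a) := II.const ha N

lemma IN.add {N : ℕ} {f f' : ℂ → ℂ} (h : IN v τ N f) (h' : IN v τ N f') :
    IN v τ N (fun w => f w + f' w) := by
  obtain ⟨P, hP, g, hg, h1⟩ := h
  obtain ⟨P', hP', g', hg', h1'⟩ := h'
  refine ⟨P + P', hP.add hP', fun w => g w + g' w, hg.add hg', ?_⟩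
  filter_upwards [h1, h1'] with w hw hw'
  rw [hw, hw', Polynomial.eval_add]
  ring

lemma IN.mul (hτ : Co τ) {N : ℕ} {f f' : ℂ → ℂ} (h : IN v τ N f) (h' : IN v τ N f') :
    IN v τ N (fun w => f w * f' w) := by
  obtain ⟨P, hP, g, hg, h1⟩ := h
  obtain ⟨P', hP', g', hg', h1'⟩ := h'
  refine ⟨P * P', hP.mul hP', fun w => P.eval (τ w) * g' w + g w * P'.eval (τ w) +
    τ w ^ N * g w * g' w, ?_, ?_⟩
  · exact (((eval_an hτ.an P).mul hg').add (hg.mul (eval_an hτ.an P'))).add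
      (((hτ.an.pow N).mul hg).mul hg')
  · filter_upwards [h1, h1'] with w hw hw'
    rw [hw, hw', Polynomial.eval_mul]
    ring

lemma IN.tmul {N : ℕ} {f : ℂ → ℂ} (h : IN v τ N f) :
    IN v τ (N + 1) (fun w => τ w * f w) := by
  obtain ⟨P, hP, g, hg, h1⟩ := h
  refine ⟨Polynomial.X * P, PI.X.mul hP, g, hg, ?_⟩
  filter_upwards [h1] with w hw
  rw [hw, Polynomial.eval_mul, Polynomial.eval_X]
  ring

/-! ### the coordinates -/

variable {L : PeriodPair} {Ω : ℂ}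

lemma deriv_x {z : ℂ} (hz : z ∉ L.lattice) : HasDerivAt (Xx L) (2 * Yy L z + Xx L z) z := by
  have h1 := (hasDerivAt_weierstrassP L hz).add_const (1 / 4)
  refine h1.congr_deriv ?_
  unfold Yy
  ring

lemma deriv_y (h : LD L Ω) {z : ℂ} (hz : z ∉ L.lattice) :
    HasDerivAt (Yy L) (3 * Xx L z ^ 2 - 2 * Xx L z - 2 - Yy L z) z := by
  have h1 := ((hasDerivAt_wp'_all L hz).sub (deriv_x hz)).div_const 2
  refine h1.congr_deriv ?_
  rw [h.g2]
  unfold Yy Xx
  ring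

/-- the regular part of `x` -/
noncomputable def ar (L : PeriodPair) (w : ℂ) : ℂ := Rw L w + 1 / 4

lemma ar_an (L : PeriodPair) : AnalyticAt ℂ (ar L) 0 := (Rw_an L).add analyticAt_const

/-- the factor of `x` -/
noncomputable def fx (L : PeriodPair) (w : ℂ) : ℂ := 1 + w ^ 2 * ar L w

/-- the factor of `y` -/
noncomputable def fy (L : PeriodPair) (w : ℂ) : ℂ :=
  1 + w / 2 + w ^ 3 * ar L w / 2 - w ^ 3 * deriv (ar L) w / 2

lemma fx_an (L : PeriodPair) : AnalyticAt ℂ (fx L) 0 := by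
  have := ar_an L
  unfold fx
  fun_prop

lemma fy_an (L : PeriodPair) : AnalyticAt ℂ (fy L) 0 := by
  have h1 := ar_an L
  have h2 := h1.deriv
  unfold fy
  fun_prop

lemma fx_zero (L : PeriodPair) : fx L 0 = 1 := by simp [fx]
lemma fy_zero (L : PeriodPair) : fy L 0 = 1 := by simp [fy]

lemma fx_ne (L : PeriodPair) : ∀ᶠ w in 𝓝 (0 : ℂ), fx L w ≠ 0 :=
  (fx_an L).continuousAt.eventually_ne (by rw [fx_zero]; exact one_ne_zero)

lemma fy_ne (L : PeriodPair) : ∀ᶠ w in 𝓝 (0 : ℂ), fy L w ≠ 0 :=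
  (fy_an L).continuousAt.eventually_ne (by rw [fy_zero]; exact one_ne_zero)

lemma x_eq {w : ℂ} (hw : w ≠ 0) : Xx L w = fx L w / w ^ 2 := by
  unfold Xx fx ar
  rw [Rw_eq]
  field_simp
  ring

lemma y_eq : ∀ᶠ w in 𝓝[≠] (0 : ℂ), Yy L w = -fy L w / w ^ 3 := by
  filter_upwards [near L, self_mem_nhdsWithin, an_ne (ar_an L)] with z hz hz0 hza
  have hz0' : z ≠ 0 := hz0
  have h3 := deriv_x hz
  have h4 : HasDerivAt (fun z => ar L z + 1 / z ^ 2) (deriv (ar L) z - 2 / z ^ 3) z := by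
    have h5 := hza.differentiableAt.hasDerivAt
    have h6 : HasDerivAt (fun z : ℂ => 1 / z ^ 2) (-2 / z ^ 3) z := by
      have h7 := (hasDerivAt_pow 2 z).inv (pow_ne_zero 2 hz0')
      have h8 : (fun z : ℂ => 1 / z ^ 2) = (fun z : ℂ => z ^ 2)⁻¹ := by
        funext z
        simp
      rw [h8]
      refine h7.congr_deriv ?_
      push_cast
      field_simp
    refine (h5.add h6).congr_deriv ?_
    ring
  have h5 : Xx L = fun z => ar L z + 1 / z ^ 2 := funext fun z => by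
    unfold Xx ar
    rw [Rw_eq]
    ring
  have h6 : Xx L z = ar L z + 1 / z ^ 2 := congrFun h5 z
  have h7 := h3
  rw [h5] at h7
  have h8 := h7.unique h4
  rw [← h5, h6] at h8
  have h9 : Yy L z = (deriv (ar L) z - 2 / z ^ 3 - (ar L z + 1 / z ^ 2)) / 2 := by
    linear_combination (1 / 2 : ℂ) * h8
  rw [h9]
  unfold fy
  field_simp
  ring

/-- the local coordinate -/
noncomputable def tt (L : PeriodPair) (w : ℂ) : ℂ := w * (fx L w / fy L w)

/-- the unit `y ^ 2 / x ^ 3` -/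
noncomputable def uu (L : PeriodPair) (w : ℂ) : ℂ := fy L w ^ 2 / fx L w ^ 3

lemma tt_an (L : PeriodPair) : AnalyticAt ℂ (tt L) 0 :=
  analyticAt_id.mul ((fx_an L).div (fy_an L) (by rw [fy_zero]; exact one_ne_zero))

lemma tt_zero (L : PeriodPair) : tt L 0 = 0 := by simp [tt]

lemma tt_der (L : PeriodPair) : deriv (tt L) 0 = 1 := by
  have h1 : AnalyticAt ℂ (fun w => fx L w / fy L w) 0 :=
    (fx_an L).div (fy_an L) (by rw [fy_zero]; exact one_ne_zero)
  have h2 := (hasDerivAt_id (0 : ℂ)).mul h1.differentiableAt.hasDerivAt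
  have h3 : deriv (tt L) 0 = _ := h2.deriv
  rw [h3]
  simp [fx_zero, fy_zero]

/-- `tt` is a local coordinate -/
lemma tt_co (L : PeriodPair) : Co (tt L) :=
  ⟨tt_an L, tt_zero L, by rw [tt_der]; exact one_ne_zero⟩

lemma uu_an (L : PeriodPair) : AnalyticAt ℂ (uu L) 0 :=
  ((fy_an L).pow 2).div ((fx_an L).pow 3) (by rw [fx_zero]; norm_num)

lemma uu_zero (L : PeriodPair) : uu L 0 = 1 := by simp [uu, fx_zero, fy_zero]

lemma uu_ne (L : PeriodPair) : ∀ᶠ w in 𝓝 (0 : ℂ), uu L w ≠ 0 :=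
  (uu_an L).continuousAt.eventually_ne (by rw [uu_zero]; exact one_ne_zero)

/-- the coordinates in terms of `tt` and `uu` -/
lemma xy_tu : ∀ᶠ w in 𝓝[≠] (0 : ℂ), tt L w ≠ 0 ∧ uu L w ≠ 0 ∧
    Xx L w = 1 / (tt L w ^ 2 * uu L w) ∧ Yy L w = -(1 / (tt L w ^ 3 * uu L w)) := by
  filter_upwards [y_eq (L := L), self_mem_nhdsWithin, (fx_ne L).filter_mono nhdsWithin_le_nhds,
    (fy_ne L).filter_mono nhdsWithin_le_nhds] with w h1 h0 h2 h3
  have hw : w ≠ 0 := h0
  rw [h1, x_eq hw]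
  unfold tt uu
  refine ⟨mul_ne_zero hw (div_ne_zero h2 h3), div_ne_zero (pow_ne_zero 2 h3) (pow_ne_zero 3 h2),
    ?_, ?_⟩
  · field_simp
  · field_simp

lemma uu_rel (h : LD L Ω) : ∀ᶠ w in 𝓝[≠] (0 : ℂ), uu L w = 1 + tt L w *
    (uu L w - tt L w * uu L w - 2 * tt L w ^ 3 * uu L w ^ 2 - tt L w ^ 5 * uu L w ^ 3) := by
  filter_upwards [xy_tu (L := L), near L] with w h1 hw
  obtain ⟨h2, h3, h4, h5⟩ := h1
  have h6 := h.wei hw
  rw [h4, h5] at h6
  field_simp at h6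
  linear_combination h6

/-- the expansion of `uu` -/
theorem uu_int (v : Valuation ℂ Γ) (h : LD L Ω) : II v (tt L) (uu L) := by
  intro N
  induction N with
  | zero =>
    refine ⟨0, PI.zero, uu L, uu_an L, Eventually.of_forall fun w => ?_⟩
    simp
  | succ N ih =>
    have hτ := tt_co L
    have iτ : IN v (tt L) N (tt L) := II.tau N
    have i2 : IN v (tt L) N (fun _ => (-2 : ℂ)) := IN.cst (by
      rw [Valuation.map_neg]
      exact_mod_cast v_nat v 2)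
    have i1 : IN v (tt L) N (fun _ => (-1 : ℂ)) := IN.cst (by rw [Valuation.map_neg, map_one])
    have i0 : IN v (tt L) (N + 1) (fun _ => (1 : ℂ)) := IN.cst (by rw [map_one])
    have p2 := iτ.mul hτ iτ
    have p3 := p2.mul hτ iτ
    have p5 := p3.mul hτ p2
    have u2 := ih.mul hτ ih
    have u3 := u2.mul hτ ih
    have k := i0.add (((ih.add (i1.mul hτ (iτ.mul hτ ih))).add
      ((i2.mul hτ (p3.mul hτ u2)).add (i1.mul hτ (p5.mul hτ u3)))).tmul)
    refine k.congr ?_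
    filter_upwards [uu_rel h] with w hw
    rw [hw]
    conv_rhs => rw [← hw]
    ring

/-- the derivative of the coordinate -/
lemma tt_deriv (h : LD L Ω) : deriv (tt L) =ᶠ[𝓝[≠] 0] fun w => 1 - tt L w + tt L w ^ 2 +
    4 * (tt L w ^ 4 * uu L w) + 3 * (tt L w ^ 6 * uu L w ^ 2) := by
  have h0 : tt L =ᶠ[𝓝[≠] 0] fun w => -Xx L w / Yy L w := by
    filter_upwards [xy_tu (L := L)] with w h1
    obtain ⟨h2, h3, h4, h5⟩ := h1
    rw [h4, h5]
    field_simp
  refine (ev_deriv h0).trans ?_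
  filter_upwards [xy_tu (L := L), near L, uu_rel h] with w h1 hw hu
  obtain ⟨h2, h3, h4, h5⟩ := h1
  have hy : Yy L w ≠ 0 := by
    rw [h5]
    exact neg_ne_zero.2 (div_ne_zero one_ne_zero (mul_ne_zero (pow_ne_zero _ h2) h3))
  have d := ((deriv_x hw).neg.div (deriv_y h hw) hy).deriv
  refine Eq.trans ?_ (d.trans ?_)
  · rfl
  · rw [Pi.neg_apply, h4, h5]
    field_simp
    linear_combination (-3 : ℂ) * hu

lemma tt_dint (v : Valuation ℂ Γ) (h : LD L Ω) : II v (tt L) (deriv (tt L)) := by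
  have hτ := tt_co L
  have iu := uu_int v h
  have c3 : v (3 : ℂ) ≤ 1 := by exact_mod_cast v_nat v 3
  have c4 : v (4 : ℂ) ≤ 1 := by exact_mod_cast v_nat v 4
  refine II.congr ?_ (tt_deriv h)
  exact (((((II.const (by rw [map_one])).sub hτ II.tau).add (II.tau.pow hτ 2))).add
    (((II.tau.pow hτ 4).mul hτ iu).cmul hτ c4)).add (((II.tau.pow hτ 6).mul hτ (iu.pow hτ 2)).cmul hτ c3)

lemma tt_ddint (v : Valuation ℂ Γ) (h : LD L Ω) :
    II v (tt L) (fun w => (deriv (deriv (tt L)) w - deriv (tt L) w) / 2) := by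
  have hτ := tt_co L
  have iu := uu_int v h
  have id := tt_dint v h
  have idu := iu.deriv hτ id
  have c2 : v (2 : ℂ) ≤ 1 := by exact_mod_cast v_nat v 2
  have c3 : v (3 : ℂ) ≤ 1 := by exact_mod_cast v_nat v 3
  have c8 : v (8 : ℂ) ≤ 1 := by exact_mod_cast v_nat v 8
  have c9 : v (9 : ℂ) ≤ 1 := by exact_mod_cast v_nat v 9
  have e2 : deriv (deriv (tt L)) =ᶠ[𝓝[≠] 0] fun w => -deriv (tt L) w +
      2 * tt L w * deriv (tt L) w + 4 * (4 * tt L w ^ 3 * deriv (tt L) w * uu L w +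
        tt L w ^ 4 * deriv (uu L) w) + 3 * (6 * tt L w ^ 5 * deriv (tt L) w * uu L w ^ 2 +
        tt L w ^ 6 * (2 * uu L w * deriv (uu L) w)) := by
    refine (ev_deriv (tt_deriv h)).trans ?_
    filter_upwards [an_ne (tt_an L), an_ne (uu_an L)] with w h1 h2
    have d1 := h1.differentiableAt.hasDerivAt
    have d2 := h2.differentiableAt.hasDerivAt
    have d3 := ((((hasDerivAt_const w (1 : ℂ)).sub d1).add (d1.pow 2)).add
      (((d1.pow 4).mul d2).const_mul 4)).add (((d1.pow 6).mul (d2.pow 2)).const_mul 3)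
    refine Eq.trans ?_ (d3.deriv.trans ?_)
    · rfl
    · simp only [Pi.pow_apply]
      push_cast
      ring
  refine II.congr (f := fun w => -deriv (tt L) w + tt L w * deriv (tt L) w +
    8 * (tt L w ^ 3 * (deriv (tt L) w * uu L w)) + 2 * (tt L w ^ 4 * deriv (uu L) w) +
    9 * (tt L w ^ 5 * (deriv (tt L) w * uu L w ^ 2)) + 3 * (tt L w ^ 6 * (uu L w * deriv (uu L) w)))
    ?_ ?_
  · exact ((((((id.neg hτ).add (II.tau.mul hτ id)).add (((II.tau.pow hτ 3).mul hτ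
      (id.mul hτ iu)).cmul hτ c8)).add (((II.tau.pow hτ 4).mul hτ idu).cmul hτ c2))).add
      (((II.tau.pow hτ 5).mul hτ (id.mul hτ (iu.pow hτ 2))).cmul hτ c9)).add
      (((II.tau.pow hτ 6).mul hτ (iu.mul hτ idu)).cmul hτ c3)
  · filter_upwards [e2] with w hw
    rw [hw]
    ring

/-! ### multiplication by `β` -/

lemma deriv_bl (h : LD L Ω) {z : ℂ} (hz : bl * z ∉ L.lattice) :
    ℘'[L] (bl * z) * (bl ^ 2 * Xx L z - al) ^ 2 =
      ℘'[L] z * (bl * Xx L z ^ 2 - al ^ 2 * Xx L z + bl ^ 2) := by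
  have hL := h.lat
  have hz0 := (tB_pts hL hz).1
  obtain ⟨h1, h2⟩ := mul_bl_x h hz
  have hd1 : HasDerivAt (fun w => Xx L w) (℘'[L] z) z := by
    unfold Xx
    exact (hasDerivAt_weierstrassP L hz0).add_const _
  have hd2 : HasDerivAt (fun w => Xx L (bl * w)) (℘'[L] (bl * z) * bl) z := by
    unfold Xx
    have h3 : HasDerivAt (fun w : ℂ => bl * w) bl z := by
      simpa using (hasDerivAt_id z).const_mul bl
    exact ((hasDerivAt_weierstrassP L hz).comp z h3).add_const _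
  have hd3 := (hd2.mul ((hd1.const_mul (bl ^ 2)).sub_const al)).sub ((hd1.pow 2).sub_const bl)
  have hopen : ∀ᶠ w in 𝓝 z, bl * w ∉ L.lattice := by
    have hc : Continuous (fun w : ℂ => bl * w) := by fun_prop
    have h4 : IsOpen ((fun w : ℂ => bl * w) ⁻¹' (L.lattice : Set ℂ)ᶜ) :=
      (L.isClosed_lattice.isOpen_compl).preimage hc
    exact h4.mem_nhds hz
  have hzero : (fun w => Xx L (bl * w) * (bl ^ 2 * Xx L w - al) - (Xx L w ^ 2 - bl)) =ᶠ[𝓝 z]
      fun _ => (0 : ℂ) := by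
    filter_upwards [hopen] with w hw
    rw [(mul_bl_x h hw).1, sub_self]
  have hd4 : HasDerivAt (fun w => Xx L (bl * w) * (bl ^ 2 * Xx L w - al) - (Xx L w ^ 2 - bl)) 0 z :=
    (hasDerivAt_const z (0 : ℂ)).congr_of_eventuallyEq hzero
  have h5 := HasDerivAt.unique hd3 hd4
  simp only [Nat.cast_ofNat, Nat.add_one_sub_one, pow_one] at h5
  have hal := bl_ne
  have key : bl * (℘'[L] (bl * z) * (bl ^ 2 * Xx L z - al) ^ 2) =
      bl * (℘'[L] z * (bl * Xx L z ^ 2 - al ^ 2 * Xx L z + bl ^ 2)) := by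
    rw [al_eq] at h1 h5 ⊢
    linear_combination (bl ^ 2 * Xx L z - (1 - bl)) * h5 - bl ^ 2 * ℘'[L] z * h1 +
      (bl - 1) * ℘'[L] z * Xx L z * bl_sq
  exact mul_left_cancel₀ hal key

/-- the coordinate `y` at `β z` -/
lemma y_bl (h : LD L Ω) {z : ℂ} (hz : bl * z ∉ L.lattice) :
    Yy L (bl * z) * (bl ^ 2 * Xx L z - al) ^ 2 =
      Yy L z * (bl * Xx L z ^ 2 - al ^ 2 * Xx L z + bl ^ 2) + Xx L z ^ 3 + Xx L z ^ 2 -
        2 * Xx L z - 1 := by
  have h1 := deriv_bl h hz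
  obtain ⟨h2, h3⟩ := mul_bl_x h hz
  unfold Yy
  rw [al_eq] at h1 h2 ⊢
  linear_combination (1 / 2 : ℂ) * h1 - (1 / 2 : ℂ) * (bl ^ 2 * Xx L z - (1 - bl)) * h2 +
    (1 / 2 : ℂ) * (1 - Xx L z ^ 2 - Xx L z ^ 3 + (bl + 2) * Xx L z) * bl_sq

/-- points near `0` -/
lemma near_bl (L : PeriodPair) : ∀ᶠ w in 𝓝[≠] (0 : ℂ), bl * w ∉ L.lattice :=
  (tend_mul bl_ne).eventually (near L)

/-- the denominator -/
noncomputable def nb (t u : ℂ) : ℂ := -bl + al ^ 2 * (t ^ 2 * u) - bl ^ 2 * (t ^ 4 * u ^ 2) + t +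
  t ^ 3 * u - 2 * (t ^ 5 * u ^ 2) - t ^ 7 * u ^ 3

/-- the ratio -/
noncomputable def rb (L : PeriodPair) (w : ℂ) : ℂ :=
  -((1 - bl * (tt L w ^ 4 * uu L w ^ 2)) * (bl ^ 2 - al * (tt L w ^ 2 * uu L w))) *
    (nb (tt L w) (uu L w))⁻¹

lemma nb_an (L : PeriodPair) : AnalyticAt ℂ (fun w => nb (tt L w) (uu L w)) 0 := by
  have h1 := tt_an L
  have h2 := uu_an L
  unfold nb
  fun_prop

lemma nb_zero (L : PeriodPair) : nb (tt L 0) (uu L 0) = -bl := by
  simp [nb, tt_zero]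

/-- scaling by `β` -/
theorem sc_bl (h : LD L Ω) (hv : v al < 1) : Sc v (tt L) bl (rb L) := by
  have hτ := tt_co L
  have iu := uu_int v h
  have h1 := tt_an L
  have h2 := uu_an L
  have vb : v bl = 1 := v_bl hv
  have c2 : v (2 : ℂ) ≤ 1 := by exact_mod_cast v_nat v 2
  have hn0 : nb (tt L 0) (uu L 0) ≠ 0 := by
    rw [nb_zero]
    exact neg_ne_zero.2 bl_ne
  have hnI : II v (tt L) (fun w => nb (tt L w) (uu L w)) := by
    unfold nb
    refine II.sub hτ (II.sub hτ (II.add (II.add (II.sub hτ (II.add (II.const ?_)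
      (II.cmul hτ ?_ ((II.tau.pow hτ 2).mul hτ iu))) (II.cmul hτ ?_
      ((II.tau.pow hτ 4).mul hτ (iu.pow hτ 2)))) II.tau) ((II.tau.pow hτ 3).mul hτ iu))
      (II.cmul hτ c2 ((II.tau.pow hτ 5).mul hτ (iu.pow hτ 2))))
      ((II.tau.pow hτ 7).mul hτ (iu.pow hτ 3))
    · rw [Valuation.map_neg, vb]
    · rw [map_pow]
      exact pow_le_one' hv.le 2
    · rw [map_pow, vb, one_pow]
  have hnv := hnI.inv hτ (nb_an L) (EventuallyEq.refl _ _) (by rw [nb_zero, Valuation.map_neg, vb])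
  refine ⟨bl_ne, ?_, ?_, ?_, ?_⟩
  · unfold rb
    refine AnalyticAt.mul (by fun_prop) ((nb_an L).inv hn0)
  · unfold rb
    refine II.mul hτ (II.neg hτ (II.mul hτ (II.sub hτ (II.const ?_) (II.cmul hτ ?_
      ((II.tau.pow hτ 4).mul hτ (iu.pow hτ 2)))) (II.sub hτ (II.const ?_) (II.cmul hτ hv.le
      ((II.tau.pow hτ 2).mul hτ iu))))) hnv
    · rw [map_one]
    · rw [vb]
    · rw [map_pow, vb, one_pow]
  · filter_upwards [xy_tu (L := L), near L, near_bl L, (tend_mul bl_ne).eventually (xy_tu (L := L)),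
      ((nb_an L).continuousAt.eventually_ne hn0).filter_mono nhdsWithin_le_nhds] with w a1 a2 a3 a4 a5
    obtain ⟨b1, b2, b3, b4⟩ := a1
    obtain ⟨c1, c2, c3, c4⟩ := a4
    obtain ⟨d1, d2⟩ := mul_bl_x h a3
    have d3 := y_bl h a3
    rw [c3, b3] at d1
    rw [c4, b3, b4] at d3
    have d4 : bl ^ 2 - al * (tt L w ^ 2 * uu L w) ≠ 0 := by
      intro hc
      apply d2
      rw [b3]
      field_simp
      linear_combination hc
    unfold rb
    rw [← mul_assoc, eq_mul_inv_iff_mul_eq₀ a5]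
    have e1 : tt L (bl * w) ^ 2 * uu L (bl * w) * ((1 - bl * (tt L w ^ 4 * uu L w ^ 2))) =
        tt L w ^ 2 * uu L w * (bl ^ 2 - al * (tt L w ^ 2 * uu L w)) := by
      field_simp at d1
      linear_combination -d1
    have e2 : -(bl ^ 2 - al * (tt L w ^ 2 * uu L w)) ^ 2 * tt L w ^ 3 * uu L w =
        nb (tt L w) (uu L w) * (tt L (bl * w) ^ 3 * uu L (bl * w)) := by
      unfold nb
      field_simp at d3
      linear_combination d3
    have e3 : tt L (bl * w) ^ 2 * uu L (bl * w) ≠ 0 := mul_ne_zero (pow_ne_zero _ c1) c2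
    apply mul_right_cancel₀ e3
    have e4 : tt L (bl * w) * nb (tt L w) (uu L w) * (tt L (bl * w) ^ 2 * uu L (bl * w)) =
        -(bl ^ 2 - al * (tt L w ^ 2 * uu L w)) ^ 2 * tt L w ^ 3 * uu L w := by
      rw [e2]
      ring
    rw [e4]
    linear_combination (tt L w * (bl ^ 2 - al * (tt L w ^ 2 * uu L w))) * e1
  · unfold rb
    rw [tt_zero]
    have e1 : nb 0 (uu L 0) = -bl := by simp [nb]
    rw [e1]
    simp [vb]

end Pool.Agent.J4.H67.AW
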