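import Pool.Agent.R384.Y.Kdt
import Pool.Agent.Results.MP_6e2fc3_nt.CMFormsAllWeights

/-!
# The invariants of the induced representations
-/

set_option autoImplicit false
set_option linter.unusedSectionVars false

namespace Pool.Agent.J4.H67.AW

open Pool.Agent.Results.MP_787500_nt.AllWeightsMultiquadraticX49
open Pool.Agent.Results.MP_6e2fc3_nt.CMFormsAllWeights

/-- The group of the invariants of the induced representation over `F` is zero. -/
def NoInv {w : QBar} {n : ℕ} (s : Fin n → QBar) (χ : Chr w) (c₀ : GQ) : Prop :=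
  ∀ y : ℚ_[2] × ℚ_[2], (∀ σ ∈ GF s, ind χ c₀ σ y = y) → y = 0

lemma exists_neg {x : QBar} {c : ℚ} (hx : x ^ 2 = (c : QBar)) (hc : ¬ IsSquare c) :
    ∃ σ : GQ, σ x = -x := by
  by_contra h
  push Not at h
  have h1 : ∀ σ : GQ, σ x = x := by
    intro σ
    have h2 : (σ x) ^ 2 = x ^ 2 := by rw [← map_pow, hx, map_ratCast]
    rcases sq_eq_sq_iff_eq_or_eq_neg.1 h2 with h3 | h3
    · exact h3
    · exact absurd h3 (h σ)
  have h2 : x ∈ (⊥ : IntermediateField ℚ QBar) := by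
    rw [InfiniteGalois.mem_bot_iff_fixed]
    exact h1
  rw [IntermediateField.mem_bot] at h2
  obtain ⟨q, rfl⟩ := h2
  apply hc
  refine ⟨q, ?_⟩
  have h3 : ((q ^ 2 : ℚ) : QBar) = (c : QBar) := by
    rw [← hx]
    push_cast
    rfl
  rw [← pow_two]
  exact_mod_cast h3.symm

lemma not_sq_seven : ¬ IsSquare (7 : ℚ) := by
  intro h
  have h1 : IsSquare ((7 : ℕ) : ℚ) := by exact_mod_cast h
  rw [Rat.isSquare_natCast_iff] at h1
  obtain ⟨r, hr⟩ := h1
  have h2 : r ≤ 2 := by nlinarith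
  interval_cases r <;> omega

lemma not_sq_neg : ¬ IsSquare (-7 : ℚ) := by
  rintro ⟨r, hr⟩
  nlinarith [mul_self_nonneg r]

/-- an automorphism which fixes `I` and not `K` -/
theorem exists_tau {w I : QBar} (hw : w ^ 2 = w - 2) (hI : I ^ 2 = -1) :
    ∃ τ : GQ, τ w = 1 - w ∧ τ I = I := by
  have hs : (2 * w - 1) ^ 2 = ((-7 : ℚ) : QBar) := by
    push_cast
    linear_combination 4 * hw
  have ht : (I * (2 * w - 1)) ^ 2 = ((7 : ℚ) : QBar) := by
    push_cast
    rw [mul_pow, hI, hs]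
    push_cast
    ring
  have hsg : ∀ σ : GQ, σ I = I ∨ σ I = -I := by
    intro σ
    have h2 : (σ I) ^ 2 = I ^ 2 := by rw [← map_pow, hI, map_neg, map_one]
    exact sq_eq_sq_iff_eq_or_eq_neg.1 h2
  have hww : ∀ σ : GQ, σ w = w ∨ σ w = 1 - w := or_w hw
  obtain ⟨τ₁, h1⟩ := exists_neg hs not_sq_neg
  obtain ⟨τ₂, h2⟩ := exists_neg ht not_sq_seven
  have h20 : (2 : QBar) ≠ 0 := two_ne_zero
  have hne := w_ne hw
  have hI0 : I ≠ 0 := by
    rintro rfl
    norm_num at hI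
  have hs0 : 2 * w - 1 ≠ 0 := by
    intro h
    rw [h] at hs
    push_cast at hs
    norm_num at hs
  have e1 : τ₁ w = 1 - w := by
    rw [map_sub, map_mul, map_ofNat, map_one] at h1
    have : (2 : QBar) * (τ₁ w - (1 - w)) = 0 := by linear_combination h1
    exact sub_eq_zero.1 ((mul_eq_zero.1 this).resolve_left h20)
  rcases hsg τ₁ with h3 | h3
  · exact ⟨τ₁, e1, h3⟩
  · rcases hww τ₂ with h4 | h4
    · have h5 : τ₂ I = -I := by
        rw [map_mul, map_sub, map_mul, map_ofNat, map_one, h4] at h2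
        have : (τ₂ I + I) * (2 * w - 1) = 0 := by linear_combination h2
        exact eq_neg_of_add_eq_zero_left ((mul_eq_zero.1 this).resolve_right hs0)
      refine ⟨τ₁ * τ₂, ?_, ?_⟩
      · rw [AlgEquiv.mul_apply, h4, e1]
      · rw [AlgEquiv.mul_apply, h5, map_neg, h3, neg_neg]
    · have h5 : τ₂ I = I := by
        rw [map_mul, map_sub, map_mul, map_ofNat, map_one, h4] at h2
        have : (τ₂ I - I) * (2 * w - 1) = 0 := by linear_combination -h2
        exact sub_eq_zero.1 ((mul_eq_zero.1 this).resolve_right hs0)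
      exact ⟨τ₂, h4, h5⟩

section

variable {w : QBar} {hw : w ^ 2 = w - 2} {M : ℕ} {κ κ' : Chr w} {r I : QBar}

lemma tau_sq (kd : Pool.Agent.R384.KD hw κ κ' (tw M) r I) {τ : GQ} (h1 : τ w = 1 - w)
    (h2 : τ I = I) : (τ * τ) (I * r) = -(I * r) := by
  have hr : r ^ 2 = (M : QBar) - 2 * M * w := by
    rw [kd.hr, Pool.Agent.R384.em_apply]
    unfold tw
    push_cast
    ring
  have hx : (I * r) ^ 2 = M * (2 * w - 1) := by
    rw [mul_pow, kd.hI, hr]
    ring
  have h3 : (τ (I * r)) ^ 2 = (I * (I * r)) ^ 2 := by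
    rw [← map_pow, hx, map_mul, map_sub, map_mul, map_ofNat, map_one, map_natCast, h1, mul_pow I,
      hx, kd.hI]
    ring
  rw [AlgEquiv.mul_apply]
  rcases sq_eq_sq_iff_eq_or_eq_neg.1 h3 with h4 | h4
  · rw [h4, map_mul, h2, h4]
    linear_combination (I * r) * kd.hI
  · rw [h4, map_neg, map_mul, h2, h4]
    linear_combination (I * r) * kd.hI

lemma tau_w {τ : GQ} (h1 : τ w = 1 - w) : (τ * τ) w = w := by
  rw [AlgEquiv.mul_apply, h1, map_sub, map_one, h1]
  ring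

lemma val_ne_one (kd : Pool.Agent.R384.KD hw κ κ' (tw M) r I) {τ : GQ} (h1 : τ w = 1 - w)
    (h2 : τ I = I) {k : ℤ} (hk : Odd k) : val (chi κ κ' k) (τ * τ) ≠ 1 := by
  have h3 := tau_sq kd h1 h2
  have h4 : (up w (τ * τ)) (I * r) = -(I * r) := by
    rw [up_apply (tau_w h1)]
    exact h3
  have h5 := kd.neg _ h4
  set σ := up w (τ * τ) with hσ
  have h6 : Pool.Agent.R384.ph ((chi κ κ' k) σ) = -1 := by
    have e : (chi κ κ' k) σ = (κ σ) ^ k * (κ' σ) ^ (1 - k) := rfl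
    obtain ⟨m, hm⟩ := hk
    rw [e, map_mul, map_zpow, map_zpow, h5, hm, zpow_add, zpow_one,
      Pool.Agent.R384.zpow_even (Pool.Agent.R384.sq_four _),
      show (1 : ℤ) - (2 * m + 1) = 2 * (-m) by ring,
      Pool.Agent.R384.zpow_even (Pool.Agent.R384.sq_four _), one_mul, mul_one]
  intro h7
  have h8 : (chi κ κ' k) σ = 1 := by
    apply Units.ext
    have h9 : (((((chi κ κ' k) σ : ℤ_[2]ˣ) : ℤ_[2])) : ℚ_[2]) = ((1 : ℤ_[2]) : ℚ_[2]) := by
      rw [PadicInt.coe_one]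
      exact h7
    exact Subtype.ext h9
  rw [h8, map_one] at h6
  exact absurd h6 (by decide)

/-- **There are no invariants.** -/
theorem noInv (kd : Pool.Agent.R384.KD hw κ κ' (tw M) r I) {n : ℕ} {d : Fin n → ℕ}
    {s : Fin n → QBar} (hs : ∀ i, s i ^ 2 = (d i : QBar)) {c₀ : GQ} (hc₀ : c₀ w = 1 - w) {k : ℤ}
    (hk : Odd k) : NoInv s (chi κ κ' k) c₀ := by
  intro y hy
  obtain ⟨τ, h1, h2⟩ := exists_tau hw kd.hI
  have hmem : τ * τ ∈ GF s := by
    rw [mem_GF]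
    intro i
    rw [AlgEquiv.mul_apply]
    rcases sgn hs τ i with h3 | h3
    · rw [h3, h3]
    · rw [h3, map_neg, h3, neg_neg]
  have h3 := hy _ hmem
  unfold ind at h3
  rw [if_pos (tau_w h1)] at h3
  have hinv : c₀⁻¹ w = 1 - w := inv_w hc₀
  have h4 : (c₀ * τ * c₀⁻¹) w = 1 - w := by
    rw [AlgEquiv.mul_apply, AlgEquiv.mul_apply, hinv, map_sub, map_one, h1,
      show 1 - (1 - w) = w by ring, hc₀]
  have h5 : (c₀ * τ * c₀⁻¹) I = I := by
    have hsg : c₀⁻¹ I = I ∨ c₀⁻¹ I = -I := by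
      have h2 : (c₀⁻¹ I) ^ 2 = I ^ 2 := by rw [← map_pow, kd.hI, map_neg, map_one]
      exact sq_eq_sq_iff_eq_or_eq_neg.1 h2
    have h6 : τ (c₀⁻¹ I) = c₀⁻¹ I := by
      rcases hsg with h | h
      · rw [h, h2]
      · rw [h, map_neg, h2]
    rw [AlgEquiv.mul_apply, AlgEquiv.mul_apply, h6, ← AlgEquiv.mul_apply, mul_inv_cancel,
      AlgEquiv.one_apply]
  have e1 := val_ne_one kd h1 h2 hk
  have e2 := val_ne_one kd h4 h5 hk
  rw [show c₀ * τ * c₀⁻¹ * (c₀ * τ * c₀⁻¹) = c₀ * (τ * τ) * c₀⁻¹ by group] at e2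
  have f1 := congrArg Prod.fst h3
  have f2 := congrArg Prod.snd h3
  simp only at f1 f2
  ext
  · have : (val (chi κ κ' k) (τ * τ) - 1) * y.1 = 0 := by linear_combination f1
    exact (mul_eq_zero.1 this).resolve_left (sub_ne_zero.2 e1)
  · have : (val (chi κ κ' k) (c₀ * (τ * τ) * c₀⁻¹) - 1) * y.2 = 0 := by linear_combination f2
    exact (mul_eq_zero.1 this).resolve_left (sub_ne_zero.2 e2)

end

end Pool.Agent.J4.H67.AW
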