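import Pool.Agent.J4.H67.AW.Sm
import Pool.Agent.Y698.SG.Wo

/-!
# The 2-adic valuation of the weighted sums of the Eisenstein-Kronecker numbers
-/

set_option autoImplicit false
set_option linter.unusedSectionVars false

open Filter
open scoped Topology PeriodPair

namespace Pool.Agent.J4.H67.AW

open Pool.Agent.Y698 (al bl RR aR bR fR nR cj cX cY e7 e7_mul e7_neg e7_one e7_per e7_eq_zero e7_sq
  fR_ne fin_quot nR_nonneg mul_cj irr_fR not_mem_of_cop LD Gv GG v_two_lt v_bl bl_ne aR_coe bR_coe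
  al_mul_bl r7)
open Pool.Agent.Y698.SG
open H667R3 Pool.Agent.W192.HK Pool.Agent.TH936.CM Pool.Agent.TH936.PU
open Pool.Agent.TH936.CW (E1 E1_per' ek ek_per)

variable {L : PeriodPair} {Ω p q : ℂ} {Γ : Type*} [LinearOrderedCommGroupWithZero Γ]
  {v : Valuation ℂ Γ}

lemma e7_aR : e7 aR = 1 := by
  unfold e7
  rw [Pool.Agent.Y698.r7_aR]
  have : quadraticChar (ZMod 7) 4 = 1 := by decide
  rw [this]
  norm_num

lemma e7_bR : e7 bR = 1 := by
  unfold e7 bR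
  rw [map_sub, map_one, Pool.Agent.Y698.r7_aR]
  have : quadraticChar (ZMod 7) (1 - 4) = 1 := by decide
  rw [this]
  norm_num

lemma ab_two : aR * bR = 2 := by
  apply Subtype.ext
  push_cast
  rw [aR_coe, bR_coe, al_mul_bl]
  rfl

lemma e7_two : e7 (2 : RR) = 1 := by
  rw [← ab_two, e7_mul, e7_aR, e7_bR, one_mul]

lemma cop_of_e7 {c : RR} (h : e7 c = 1) : IsCoprime fR c := by
  have h1 : c ∉ sp fR := by
    intro h2
    rw [e7_eq_zero.2 h2] at h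
    exact zero_ne_one h
  have h2 : ¬ fR ∣ c := fun h3 => h1 (Ideal.mem_span_singleton.2 h3)
  exact irr_fR.coprime_iff_not_dvd.2 h2

lemma v_al_eq (hv : v al < 1) : v al = v 2 := by
  have h1 := congrArg v al_mul_bl
  rwa [map_mul, v_bl hv, mul_one] at h1

/-- the first factor -/
lemma v_fac_sub (hv : v al < 1) : v (1 - bl⁻¹) = v 2 := by
  have e : 1 - bl⁻¹ = -(al * bl⁻¹) := by
    have := bl_ne
    rw [al_eq]
    field_simp
    ring
  rw [e, Valuation.map_neg, map_mul, map_inv₀, v_bl hv, inv_one, mul_one, v_al_eq hv]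

/-- the second factor -/
lemma v_fac_add (hv : v al < 1) : v (1 + bl⁻¹) ≤ v 2 := by
  have e : 1 + bl⁻¹ = (1 - bl⁻¹) + 2 * bl⁻¹ := by ring
  rw [e]
  refine v.map_add_le (v_fac_sub hv).le ?_
  rw [map_mul, map_inv₀, v_bl hv, inv_one, mul_one]

lemma v_fac (hv : v al < 1) {s : ℂ} (hs : s = 1 ∨ s = -1) : v (1 - bl⁻¹ * s) ≤ v 2 := by
  rcases hs with h | h
  · rw [h, mul_one]
    exact (v_fac_sub hv).le
  · rw [h]
    have e : 1 - bl⁻¹ * -1 = 1 + bl⁻¹ := by ring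
    rw [e]
    exact v_fac_add hv

/-! ### the multipliers -/

/-- the multiplier for the order `e` -/
noncomputable def ke (e : ℕ) (c : RR) : ℂ := mu e c * e7 c

/-- the multiplier for the order `0` -/
noncomputable def k0 (c : RR) : ℂ := c * e7 c

lemma v_one_four (hv : v al < 1) {x : RR} : v (1 + 4 * (x : ℂ)) = 1 := by
  have t2 := v_two_lt hv
  rw [Valuation.map_add_eq_of_lt_left v, map_one]
  rw [map_one]
  have e4 : (4 : ℂ) * (x : ℂ) = 2 * (2 * (x : ℂ)) := by ring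
  rw [e4, map_mul, map_mul]
  exact mul_lt_one_of_lt_of_le t2 (mul_le_one' t2.le (v_RR hv x))

lemma v_k0 (hv : v al < 1) {ϖ : RR} (h : PD ϖ) : v (k0 ϖ - 1) ≤ v 2 := by
  obtain ⟨u, hu⟩ := h.m4
  have t2 := v_two_lt hv
  have hc : (ϖ : ℂ) = 1 + 4 * (u : ℂ) := by
    rw [hu]
    push_cast
    rfl
  have h4 : v (4 * (u : ℂ)) ≤ v 2 := by
    have e4 : (4 : ℂ) * (u : ℂ) = 2 * (2 * (u : ℂ)) := by ring
    rw [e4, map_mul, map_mul]
    exact mul_le_of_le_one_right' (mul_le_one' t2.le (v_RR hv u))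
  unfold k0
  rcases e7_sgn h.cop with he | he
  · rw [he, hc]
    have e : (1 + 4 * (u : ℂ)) * 1 - 1 = 4 * u := by ring
    rw [e]
    exact h4
  · rw [he, hc]
    have e : (1 + 4 * (u : ℂ)) * -1 - 1 = -(4 * u + 2) := by ring
    rw [e, Valuation.map_neg]
    exact v.map_add_le h4 le_rfl

lemma v_ke_sub (hv : v al < 1) {ϖ : RR} (h : PD ϖ) (m : ℕ) :
    v (ke (2 * m + 2) ϖ - k0 ϖ) ≤ v 2 ^ 3 := by
  obtain ⟨u, hu⟩ := h.m4
  have t2 := v_two_lt hv
  have hc : (ϖ : ℂ) = 1 + 4 * (u : ℂ) := by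
    rw [hu]
    push_cast
    rfl
  have hcc : (starRingEnd ℂ) (ϖ : ℂ) = 1 + 4 * ((cj u : RR) : ℂ) := by
    rw [hc, map_add, map_mul, map_one, Pool.Agent.Y698.cj_coe, map_ofNat]
  have v1 : v (ϖ : ℂ) = 1 := by rw [hc]; exact v_one_four hv
  have v2 : v ((starRingEnd ℂ) (ϖ : ℂ)) = 1 := by rw [hcc]; exact v_one_four hv
  have n1 : (ϖ : ℂ) ≠ 0 := coe_ne h.pr.ne_zero
  have n2 : (starRingEnd ℂ) (ϖ : ℂ) ≠ 0 := (map_ne_zero _).2 n1
  set r : ℂ := ϖ / (starRingEnd ℂ) (ϖ : ℂ) with hr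
  have vr : v r = 1 := by rw [hr, map_div₀, v1, v2, div_one]
  have e1 : ke (2 * m + 2) ϖ - k0 ϖ = e7 ϖ * ϖ * ((r ^ 2) ^ (m + 1) - 1) := by
    have e2 : mu (2 * m + 2) ϖ = ϖ * r ^ (2 * m + 2) := by
      rw [mu_eq, pow_succ', mul_div_assoc, ← div_pow]
    unfold ke k0
    rw [e2]
    ring
  have h1 : v (r - 1) ≤ v 2 ^ 2 := by
    have e : r - 1 = 2 ^ 2 * ((u : ℂ) - ((cj u : RR) : ℂ)) / (starRingEnd ℂ) (ϖ : ℂ) := by
      rw [eq_div_iff n2, hr, sub_mul, div_mul_cancel₀ _ n2, one_mul, hcc]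
      rw [hc]
      ring
    rw [e, map_div₀, v2, div_one, map_mul, map_pow]
    exact mul_le_of_le_one_right' (v_sub_le (v_RR hv _) (v_RR hv _))
  have h2 : v (r + 1) ≤ v 2 := by
    have e : r + 1 = (r - 1) + 2 := by ring
    rw [e]
    refine v.map_add_le (h1.trans ?_) le_rfl
    rw [pow_two]
    exact mul_le_of_le_one_left' t2.le
  have h3 : v (r ^ 2 - 1) ≤ v 2 ^ 3 := by
    have e : r ^ 2 - 1 = (r - 1) * (r + 1) := by ring
    rw [e, map_mul, pow_succ]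
    exact mul_le_mul' h1 h2
  have h4 : ∀ n : ℕ, v ((r ^ 2) ^ n - 1) ≤ v 2 ^ 3 := by
    intro n
    induction n with
    | zero => rw [pow_zero, sub_self, map_zero]; exact zero_le
    | succ n ih =>
      have e : (r ^ 2) ^ (n + 1) - 1 = (r ^ 2) ^ n * (r ^ 2 - 1) + ((r ^ 2) ^ n - 1) := by ring
      rw [e]
      refine v.map_add_le ?_ ih
      rw [map_mul, map_pow, map_pow, vr, one_pow, one_pow, one_mul]
      exact h3
  rw [e1, map_mul, map_mul, v1, mul_one]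
  refine (mul_le_of_le_one_left' ?_).trans (h4 _)
  rcases e7_sgn h.cop with he | he
  · rw [he, map_one]
  · rw [he, Valuation.map_neg, map_one]

lemma v_ke (hv : v al < 1) {ϖ : RR} (h : PD ϖ) (m : ℕ) : v (ke (2 * m + 2) ϖ - 1) ≤ v 2 := by
  have e : ke (2 * m + 2) ϖ - 1 = (ke (2 * m + 2) ϖ - k0 ϖ) + (k0 ϖ - 1) := by ring
  rw [e]
  refine v.map_add_le ((v_ke_sub hv h m).trans ?_) (v_k0 hv h)
  exact pow_le_of_le_one zero_le (v_two_lt hv).le (by norm_num)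

section
variable [Fintype (RR ⧸ sp fR)]

/-- the weighted sum of the numbers of order `e` -/
noncomputable def LE (L : PeriodPair) (Ω p q : ℂ) (e : ℕ) (n : RR) (φ : RR → ℂ) : ℂ :=
  Wg Ω (Gx Ω (ek L p q e)) n φ

/-- the weighted sum of the combination -/
noncomputable def LV (L : PeriodPair) (Ω p q : ℂ) (n : RR) (φ : RR → ℂ) : ℂ :=
  Wg Ω (Gx Ω (Vv L p q)) n (fun m => φ (bR * m))

lemma fl_LE (hL : IsLat L RR Ω) (hpq : ∀ l ∈ L.lattice, eta L l = p * l + q * (starRingEnd ℂ) l)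
    {e : ℕ} (he : 0 < e) : Fl (ke e) (LE L Ω p q e) := ((os_ek hL hpq he).gs hL).fl

lemma fl_LV (hL : IsLat L RR Ω) (hpq : ∀ l ∈ L.lattice, eta L l = p * l + q * (starRingEnd ℂ) l) :
    Fl k0 (LV L Ω p q) := ((os_V hL hpq).gs hL).flb bR_dvd

/-- **The difference of the weighted sums.** -/
theorem LE_LV (h : LD L Ω) (hv : v al < 1)
    (hpq : ∀ l ∈ L.lattice, eta L l = p * l + q * (starRingEnd ℂ) l) (m : ℕ)
    {n : RR} (hn : Go n) {φ : RR → ℂ} (hφ : Pe n φ) (hφe : ∀ x, φ (-x) = φ x)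
    (hφb : ∀ x, v (φ x) ≤ 1) :
    v (((2 * m + 2).factorial : ℂ) * LE L Ω p q (2 * m + 2) n φ - LV L Ω p q n φ) ≤ v 2 ^ 3 := by
  have hL := h.lat
  have he : 0 < 2 * m + 2 := by omega
  have o1 := os_ek hL hpq he
  have o2 := os_V hL hpq
  have h1 := Wg_change hL o1 bR_dvd (cop_of_e7 e7_bR) hn hφ
  rw [e7_bR, one_mul] at h1
  have h2 : ((2 * m + 2).factorial : ℂ) * LE L Ω p q (2 * m + 2) n φ - LV L Ω p q n φ =
      Wg Ω (Gx Ω (fun z => ((2 * m + 2).factorial : ℂ) * ek L p q (2 * m + 2) ((bR : ℂ) * z) +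
        (-1) * Vv L p q z)) n (fun x => φ (bR * x)) := by
    rw [Wx_add _ _ hn.gd.ne, Wx_smul _ _ hn.gd.ne, Wx_smul _ _ hn.gd.ne]
    unfold LE LV
    rw [h1]
    ring
  have e8 : (4 : ℂ) = 2 ^ 2 := by norm_num
  have e9 : v 2 ^ 3 = v 4 * v 2 := by rw [e8, map_pow, ← pow_succ]
  rw [h2, e9]
  refine pair_le hL ?_ ?_ (by norm_num) ?_ hn (Pe.comp_mul hφ bR) (fun x => ?_) (fun x => hφb _)
  · intro z w hz hzw
    have f1 := (o1.comp hL bR_dvd).per z w hz hzw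
    have f2 := o2.per z w hz hzw
    beta_reduce at f1
    rw [f1, f2]
  · intro z hz
    have f1 := ek_neg (p := p) (q := q) (hz.mul_dvd hL bR_dvd).ne he
    have f2 : Vv L p q (-z) = -Vv L p q z := by
      unfold Vv
      rw [mul_neg, mul_neg, mul_neg, E1_neg, E1_neg, E1_neg, E1_neg]
      ring
    rw [mul_neg, f1, f2]
    ring
  · intro z hz
    have f1 := ek_mod h hv hpq (hz.mul_dvd hL bR_dvd) m
    have f2 := ek2_mod h hv hpq hz
    rw [← bR_coe] at f2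
    have e : ((2 * m + 2).factorial : ℂ) * ek L p q (2 * m + 2) ((bR : ℂ) * z) +
        (-1) * Vv L p q z = (((2 * m + 2).factorial : ℂ) * ek L p q (2 * m + 2) ((bR : ℂ) * z) -
          2 * ek L p q 2 ((bR : ℂ) * z)) + (2 * ek L p q 2 ((bR : ℂ) * z) - Vv L p q z) := by
      ring
    rw [e]
    exact v.map_add_le f1 f2
  · rw [mul_neg, hφe]

/-- the weighted sum with a multiplication -/
lemma W_mul (hL : IsLat L RR Ω) (hpq : ∀ l ∈ L.lattice, eta L l = p * l + q * (starRingEnd ℂ) l)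
    {n : RR} (hn : Go n) {φ : RR → ℂ} (hφ : Pe n φ) (hm : ∀ x y, φ (x * y) = φ x * φ y)
    {c : RR} (hc : c ∣ 2) (he : e7 c = 1) (h1 : φ c ^ 2 = 1) :
    Wg Ω (Gx Ω (fun z => E1 L p q ((c : ℂ) * z))) n φ = φ c * Wg Ω (Gx Ω (E1 L p q)) n φ := by
  have h2 := Wg_change hL (os_E1 hL hpq) hc (cop_of_e7 he) hn hφ
  rw [he, one_mul] at h2
  have e : (fun m => φ (c * m)) = fun m => φ c * φ m := funext fun m => hm c m
  rw [e, Wg_smul _ hn.gd.ne] at h2
  rw [h2]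
  linear_combination -(Wg Ω (Gx Ω (fun z => E1 L p q ((c : ℂ) * z))) n φ) * h1

/-- **The weighted sum of the combination for a character.** -/
theorem LV_eq (hL : IsLat L RR Ω) (hpq : ∀ l ∈ L.lattice, eta L l = p * l + q * (starRingEnd ℂ) l)
    {n : RR} (hn : Go n) {φ : RR → ℂ} (hφ : Pe n φ) (hm : ∀ x y, φ (x * y) = φ x * φ y)
    (ha : φ aR ^ 2 = 1) (hb : φ bR ^ 2 = 1) :
    LV L Ω p q n φ = (1 - bl⁻¹ * φ aR) * (1 - bl⁻¹ * φ bR) * Wg Ω (Gx Ω (E1 L p q)) n φ := by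
  have e2 : φ 2 = φ aR * φ bR := by rw [← hm, ab_two]
  have h2 : φ 2 ^ 2 = 1 := by rw [e2, mul_pow, ha, hb, one_mul]
  have w1 := W_mul hL hpq hn hφ hm bR_dvd e7_bR hb
  have w2 := W_mul hL hpq hn hφ hm aR_dvd e7_aR ha
  have w3 := W_mul hL hpq hn hφ hm (dvd_refl 2) e7_two h2
  unfold LV
  have e : (fun m => φ (bR * m)) = fun m => φ bR * φ m := funext fun m => hm bR m
  rw [e, Wg_smul _ hn.gd.ne]
  have eV : Vv L p q = fun z => (E1 L p q ((bR : ℂ) * z) + (-bl⁻¹) * E1 L p q (((2 : RR) : ℂ) * z)) +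
      ((-bl⁻¹) * E1 L p q z + bl⁻¹ ^ 2 * E1 L p q ((aR : ℂ) * z)) := by
    funext z
    have e2 : ((2 : RR) : ℂ) = 2 := rfl
    unfold Vv
    rw [aR_coe, bR_coe, e2]
    ring
  rw [eV, Wx_add _ _ hn.gd.ne, Wx_add _ _ hn.gd.ne, Wx_add _ _ hn.gd.ne, Wx_smul _ _ hn.gd.ne,
    Wx_smul _ _ hn.gd.ne, Wx_smul _ _ hn.gd.ne, w1, w2, w3, e2]
  generalize Wg Ω (Gx Ω (E1 L p q)) n φ = W
  linear_combination (W * (1 - bl⁻¹ * φ aR)) * hb

/-! ### the induction -/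

omit [Fintype (RR ⧸ sp fR)] in
lemma prod_sy_facts {ι : Type} {A : Finset ι} {π : ι → RR} (hA : Fam A π) :
    Pe (∏ i ∈ A, π i) (fun m => ∏ i ∈ A, sy (π i) m) ∧
    (∀ x y, ∏ i ∈ A, sy (π i) (x * y) = (∏ i ∈ A, sy (π i) x) * ∏ i ∈ A, sy (π i) y) ∧
    ∀ c : RR, c ∣ 2 → (∏ i ∈ A, sy (π i) c = 1 ∨ ∏ i ∈ A, sy (π i) c = -1) := by
  refine ⟨Pe.prod fun p _ => sy_per (π p), fun x y => ?_, fun c hc => ?_⟩
  · rw [← Finset.prod_mul_distrib]
    exact Finset.prod_congr rfl fun i hi => (hA.pd i hi).mul x y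
  · refine (sgn_prod fun i hi => sy_sgn ?_).1
    intro hm
    have h1 := go_two (hA.pd i hi).go hc
    have h2 := (hA.pd i hi).pr.not_isUnit
    apply h2
    rw [Ideal.mem_span_singleton] at hm
    exact h1.symm.isUnit_of_dvd' dvd_rfl hm

theorem v_LV (hrec : S_REC) (h : LD L Ω) (hv : v al < 1)
    (hpq : ∀ l ∈ L.lattice, eta L l = p * l + q * (starRingEnd ℂ) l) {T : ℂ}
    (hT : Tendsto (fun δ : ℝ => GG Ω δ 1) (𝓝[>] 0) (𝓝 T)) (hvT : v T = 1)
    {ι : Type} [DecidableEq ι] {A : Finset ι} {π : ι → RR} (hA : Fam A π) :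
    v (LV L Ω p q (∏ i ∈ A, π i) (fun m => ∏ i ∈ A, sy (π i) m)) ≤ v 2 ^ 2 * v 2 ^ A.card := by
  have hL := h.lat
  obtain ⟨f1, f2, f3⟩ := prod_sy_facts hA
  have hn : Go (∏ i ∈ A, π i) := Go.prod fun i hi => (hA.pd i hi).go
  have sq1 : ∀ c : RR, c ∣ 2 → (∏ i ∈ A, sy (π i) c) ^ 2 = 1 := fun c hc =>
    sq_eq_one_iff.2 (f3 c hc)
  rw [LV_eq hL hpq hn f1 f2 (sq1 _ aR_dvd) (sq1 _ bR_dvd), ← Bg_eq_Wg hL hpq hT hn, map_mul, map_mul,
    pow_two]
  refine mul_le_mul' (mul_le_mul' (v_fac hv (f3 _ aR_dvd)) (v_fac hv (f3 _ bR_dvd))) ?_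
  by_cases hg : gd (mc π) (mr π) A = 0
  · exact (v_quad0 hrec h hv hT hvT hA hg).le
  · exact (v_quad hrec h hv hT hvT hA hg).le

/-- **The congruence.** -/
theorem LE_congr (hrec : S_REC) (h : LD L Ω) (hv : v al < 1)
    (hpq : ∀ l ∈ L.lattice, eta L l = p * l + q * (starRingEnd ℂ) l) {T : ℂ}
    (hT : Tendsto (fun δ : ℝ => GG Ω δ 1) (𝓝[>] 0) (𝓝 T)) (hvT : v T = 1) (m : ℕ)
    {ι : Type} [DecidableEq ι] {S0 : Finset ι} {π : ι → RR} (hS0 : Fam S0 π) (S : Finset ι)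
    (hSS : S ⊆ S0) :
    v (((2 * m + 2).factorial : ℂ) *
      LE L Ω p q (2 * m + 2) (∏ i ∈ S, π i) (fun x => ∏ i ∈ S, sy (π i) x) -
      LV L Ω p q (∏ i ∈ S, π i) (fun x => ∏ i ∈ S, sy (π i) x)) ≤ v 2 ^ 3 * v 2 ^ S.card := by
  have hL := h.lat
  have t2 := v_two_lt hv
  have he : 0 < 2 * m + 2 := by omega
  set E : ℂ := ((2 * m + 2).factorial : ℂ) with hE
  induction S using Finset.strongInduction with
  | H S ih =>
    have hS := hS0.mono hSS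
    have s1 := (fl_LE (Ω := Ω) (p := p) (q := q) hL hpq he).subsets S hS
    have s2 := (fl_LV (Ω := Ω) (p := p) (q := q) hL hpq).subsets S hS
    set a : Finset ι → ℂ := fun A => LE L Ω p q (2 * m + 2) (∏ i ∈ A, π i)
      (fun x => ∏ i ∈ A, sy (π i) x) with ha
    set b : Finset ι → ℂ := fun A => LV L Ω p q (∏ i ∈ A, π i)
      (fun x => ∏ i ∈ A, sy (π i) x) with hb
    have pS : ∀ κ : RR → ℂ, Pk κ π S S = 1 := by
      intro κ
      unfold Pk
      rw [Finset.sdiff_self, Finset.prod_empty]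
    rw [← Finset.add_sum_erase _ _ (Finset.mem_powerset_self S), pS, one_mul] at s1 s2
    have hSg : Go (∏ i ∈ S, π i) := Go.prod fun i hi => (hS.pd i hi).go
    have hYb := LE_LV (p := p) (q := q) (φ := fun x => ∏ i ∈ S, hc (π i) x) h hv hpq m hSg
      (Pe.prod fun q _ => hc_per (π q))
      (fun x => Finset.prod_congr rfl fun i hi => hc_neg (hS.pd i hi) x)
      (fun x => (hcprod S π x).1)
    rw [← hE] at hYb
    set Y1 := LE L Ω p q (2 * m + 2) (∏ i ∈ S, π i) (fun x => ∏ i ∈ S, hc (π i) x) with hY1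
    set Y2 := LV L Ω p q (∏ i ∈ S, π i) (fun x => ∏ i ∈ S, hc (π i) x) with hY2
    have s1' : a S + ∑ A ∈ S.powerset.erase S, Pk (ke (2 * m + 2)) π S A * a A =
        2 ^ S.card * Y1 := s1
    have s2' : b S + ∑ A ∈ S.powerset.erase S, Pk k0 π S A * b A = 2 ^ S.card * Y2 := s2
    have key : E * a S - b S = 2 ^ S.card * (E * Y1 - Y2) -
        ∑ A ∈ S.powerset.erase S, (Pk (ke (2 * m + 2)) π S A * (E * a A - b A) +
          (Pk (ke (2 * m + 2)) π S A - Pk k0 π S A) * b A) := by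
      have e : ∑ A ∈ S.powerset.erase S, (Pk (ke (2 * m + 2)) π S A * (E * a A - b A) +
          (Pk (ke (2 * m + 2)) π S A - Pk k0 π S A) * b A) =
          E * ∑ A ∈ S.powerset.erase S, Pk (ke (2 * m + 2)) π S A * a A -
          ∑ A ∈ S.powerset.erase S, Pk k0 π S A * b A := by
        rw [Finset.mul_sum, ← Finset.sum_sub_distrib]
        exact Finset.sum_congr rfl fun A _ => by ring
      rw [e]
      linear_combination E * s1' - s2'
    show v (E * a S - b S) ≤ _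
    rw [key]
    refine v.map_sub_le ?_ (v.map_sum_le fun A hA => ?_)
    · rw [map_mul, map_pow, mul_comm]
      exact mul_le_mul_left hYb _
    · rw [Finset.mem_erase, Finset.mem_powerset] at hA
      have hss : A ⊂ S := hA.2.ssubset_of_ne hA.1
      have hcs : S.card = (S \ A).card + A.card := (Finset.card_sdiff_add_card_eq_card hA.2).symm
      have hA' : Fam A π := hS.mono hA.2
      have hk : ∀ i ∈ S, v (ke (2 * m + 2) (π i) - 1) ≤ v 2 := fun i hi => v_ke hv (hS.pd i hi) m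
      have hk' : ∀ i ∈ S, v (ke (2 * m + 2) (π i) - k0 (π i)) ≤ v 2 ^ 3 := fun i hi =>
        v_ke_sub hv (hS.pd i hi) m
      refine v.map_add_le ?_ ?_
      · rw [map_mul, hcs, pow_add, ← mul_assoc, mul_comm (v 2 ^ 3), mul_assoc]
        exact mul_le_mul' (v_Pk hA.2 hS hk) (ih A hss (hA.2.trans hSS))
      · have h5 := v_Pk_sub hA.2 hS hk hk' t2
        have h6 := v_LV hrec h hv hpq hT hvT hA'
        rw [map_mul]
        calc v (Pk (ke (2 * m + 2)) π S A - Pk k0 π S A) * v (b A)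
            ≤ v (Pk (ke (2 * m + 2)) π S A - Pk k0 π S A) * (v 2 * v 2 ^ A.card) := by
              refine mul_le_mul' le_rfl (h6.trans (mul_le_mul' ?_ le_rfl))
              rw [pow_two]
              exact mul_le_of_le_one_left' t2.le
          _ = (v (Pk (ke (2 * m + 2)) π S A - Pk k0 π S A) * v 2) * v 2 ^ A.card := by
              rw [mul_assoc]
          _ ≤ v 2 ^ 3 * v 2 ^ (S \ A).card * v 2 ^ A.card := mul_le_mul' h5 le_rfl
          _ = v 2 ^ 3 * v 2 ^ S.card := by rw [hcs, pow_add, mul_assoc]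

/-- **The valuation.** -/
theorem v_LE (hrec : S_REC) (h : LD L Ω) (hv : v al < 1)
    (hpq : ∀ l ∈ L.lattice, eta L l = p * l + q * (starRingEnd ℂ) l) {T : ℂ}
    (hT : Tendsto (fun δ : ℝ => GG Ω δ 1) (𝓝[>] 0) (𝓝 T)) (hvT : v T = 1) (m : ℕ)
    {ι : Type} [DecidableEq ι] {S : Finset ι} {π : ι → RR} (hS : Fam S π)
    (hg : gd (mc π) (mr π) S ≠ 0) (ha : ∏ i ∈ S, sy (π i) aR = 1) (hb : ∏ i ∈ S, sy (π i) bR = 1) :
    v (((2 * m + 2).factorial : ℂ) *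
      LE L Ω p q (2 * m + 2) (∏ i ∈ S, π i) (fun x => ∏ i ∈ S, sy (π i) x)) =
      v 2 ^ 2 * v 2 ^ S.card := by
  have hL := h.lat
  have t2 := v_two_lt hv
  have h20 : v 2 ≠ 0 := (Valuation.ne_zero_iff v).2 two_ne_zero
  have h1 := LE_congr hrec h hv hpq hT hvT m hS S le_rfl
  obtain ⟨f1, f2, f3⟩ := prod_sy_facts hS
  have hn : Go (∏ i ∈ S, π i) := Go.prod fun i hi => (hS.pd i hi).go
  have h2 : v (LV L Ω p q (∏ i ∈ S, π i) (fun x => ∏ i ∈ S, sy (π i) x)) =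
      v 2 ^ 2 * v 2 ^ S.card := by
    rw [LV_eq hL hpq hn f1 f2 (by rw [ha, one_pow]) (by rw [hb, one_pow]),
      ← Bg_eq_Wg hL hpq hT hn, map_mul, map_mul, ha, hb, mul_one, v_fac_sub hv,
      v_quad hrec h hv hT hvT hS hg, pow_two]
  set X := ((2 * m + 2).factorial : ℂ) *
      LE L Ω p q (2 * m + 2) (∏ i ∈ S, π i) (fun x => ∏ i ∈ S, sy (π i) x)
  set Y := LV L Ω p q (∏ i ∈ S, π i) (fun x => ∏ i ∈ S, sy (π i) x)
  have h3 : v (X - Y) < v Y := by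
    rw [h2]
    refine lt_of_le_of_lt h1 ?_
    refine mul_lt_mul_of_pos_right ?_ (zero_lt_iff.2 (pow_ne_zero _ h20))
    rw [pow_succ]
    exact mul_lt_of_lt_one_right (zero_lt_iff.2 (pow_ne_zero _ h20)) t2
  have e : X = (X - Y) + Y := by ring
  rw [e, Valuation.map_add_eq_of_lt_right v h3, h2]

end

end Pool.Agent.J4.H67.AW
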