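import Pool.Agent.J4.H67.AW.Ind
import Pool.Agent.TH936.CW.Fin
import Pool.Agent.Y698.SG.Wc

/-!
# The central value as a weighted sum of the Eisenstein-Kronecker numbers
-/

set_option autoImplicit false
set_option linter.unusedSectionVars false

open Filter
open scoped Topology PeriodPair

namespace Pool.Agent.J4.H67.AW

open Pool.Agent.Y698 (al bl RR aR bR fR nR cj cX cY e7 e7_mul e7_neg e7_one e7_per e7_eq_zero e7_sq
  fR_ne fin_quot nR_nonneg mul_cj irr_fR not_mem_of_cop LD psi psi_sp psi_HC nI nI_sp' qch nR_mul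
  nR_nat qr e7_conj maximal_sp qch_conj)
open Pool.Agent.Y698.SG
open H667R3 Pool.Agent.W192.HK Pool.Agent.TH936.CM Pool.Agent.TH936.PU
open Pool.Agent.TH936.CW (E1 ek ek_per Dk Dk_zero ck cenK)

variable {L : PeriodPair} {Ω p q : ℂ}

/-! ### the Hecke character -/

/-- the Hecke character -/
noncomputable def tht (e : ℕ) (S : Finset ℕ) (I : Ideal RR) : ℂ :=
  psi I ^ (2 * e + 1) * ∏ q ∈ S, qch q (nI I)

lemma psi_pow_HC (e : ℕ) : HC (2 * e + 1) (sp fR) (fun I => psi I ^ (2 * e + 1)) := by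
  have h := psi_HC
  refine ⟨h.ne, fun I J => ?_, fun I => ?_, fun α hα h1 => ?_, fun q' hq' => ?_⟩
  · rw [h.mul, mul_pow]
  · rw [pow_eq_zero_iff (by omega)]
    exact h.zero I
  · rw [h.princ α hα h1, pow_one]
  · have htop : q' = ⊤ := (maximal_sp irr_fR).out.2 _ hq'
    refine ⟨-1, by norm_num, by rw [htop]; trivial, ?_, ?_⟩
    · rw [Ideal.isCoprime_span_singleton_iff]
      exact ⟨-1, 0, by ring⟩
    · have h1 : psi (sp (-1 : RR)) = 1 := by
        rw [psi_sp, e7_neg, e7_one]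
        push_cast
        norm_num
      have h2 : (((-1 : RR) : ℂ)) ^ (2 * e + 1) = -1 := by
        push_cast
        rw [pow_succ, pow_mul]
        norm_num
      rw [h1, one_pow, h2]
      norm_num

theorem tht_HC (hcs : S_HCS) (e : ℕ) {S : Finset ℕ} (hS : ∀ q ∈ S, Gp q) :
    HC (2 * e + 1) (sp (fR * ((∏ q ∈ S, q : ℕ) : RR))) (tht e S) := by
  classical
  have hbasic := Pool.Agent.W287.HK.h_basic
  have hcls := Pool.Agent.W571.HK.h_cls hbasic
  have hfp := Pool.Agent.W53.HK.h_fp hbasic hcls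
  have hprod := Pool.Agent.W29.HK.h_prod hbasic hfp
  induction S using Finset.induction_on with
  | empty =>
    have h1 := psi_pow_HC e
    have e1 : tht e ∅ = fun I => psi I ^ (2 * e + 1) := by
      funext I
      unfold tht
      rw [Finset.prod_empty, mul_one]
    rw [e1, Finset.prod_empty, Nat.cast_one, mul_one]
    exact h1
  | insert q S hq ih =>
    have ih' := ih fun p hp => hS p (Finset.mem_insert_of_mem hp)
    have h1 := hS q (Finset.mem_insert_self _ _)
    have hcop : Nat.Coprime (∏ p ∈ S, p) q := by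
      refine Nat.Coprime.prod_left fun p hp => ?_
      refine (Nat.coprime_primes (hS p (Finset.mem_insert_of_mem hp)).pr h1.pr).2 ?_
      exact fun h => hq (h ▸ hp)
    have hcop2 : IsCoprime (fR * ((∏ p ∈ S, p : ℕ) : RR)) (q : RR) :=
      h1.gn.cop.mul_left (Pool.Agent.Y698.cop_cast hcop)
    have h3 := hprod RR al qr (2 * e + 1) _ _ _ _ ih' (quad_HC' hcs h1)
      ((Ideal.isCoprime_span_singleton_iff _ _).2 hcop2)
    rw [Ideal.span_singleton_mul_span_singleton] at h3
    have e1 : fR * ((∏ p ∈ S, p : ℕ) : RR) * (q : RR) = fR * ((∏ p ∈ insert q S, p : ℕ) : RR) := by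
      rw [Finset.prod_insert hq]
      push_cast
      ring
    rw [e1] at h3
    convert h3 using 1
    funext I
    unfold tht
    rw [Finset.prod_insert hq]
    ring

lemma e7_odd_pow (g : RR) (e : ℕ) : e7 g ^ (2 * e + 1) = e7 g := by
  by_cases hg : g ∈ sp fR
  · rw [e7_eq_zero.2 hg]
    exact zero_pow (by omega)
  · rw [pow_succ, pow_mul, e7_sq hg, one_pow, one_mul]

lemma ck_tht (e : ℕ) (S : Finset ℕ) (x : RR) :
    ck e (tht e S) ⊤ x = e7 x * ∏ q ∈ S, qch q (nR x) := by
  unfold ck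
  rw [if_pos Submodule.mem_top]
  unfold fp tht
  rw [psi_sp, nI_sp', mul_pow, e7_odd_pow]
  by_cases hx : x = 0
  · have h0 : e7 x = 0 := by
      rw [e7_eq_zero, hx]
      exact Submodule.zero_mem _
    rw [h0]
    simp
  · have hx' := coe_ne hx
    have e1 : e7 x * (x : ℂ) ^ (2 * e + 1) * (∏ q ∈ S, qch q (nR x)) / (x : ℂ) ^ (2 * e + 1) =
        e7 x * ∏ q ∈ S, qch q (nR x) := by
      field_simp
    rw [e1, map_mul, e7_conj, map_prod]
    congr 1
    exact Finset.prod_congr rfl fun q _ => qch_conj q _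

/-! ### the sums -/

section
variable [Fintype (RR ⧸ sp fR)]

/-- **The combination of values as a weighted sum.** -/
theorem BB_LE (hL : IsLat L RR Ω) (hpq : ∀ l ∈ L.lattice, eta L l = p * l + q * (starRingEnd ℂ) l)
    {e : ℕ} (he : 0 < e) {N : ℕ} (hN : Go (N : RR)) {φ : RR → ℂ} (hφ : Pe (N : RR) φ)
    (hm : ∀ x y, φ (x * y) = φ x * φ y) {n k : ℕ} (hn : n = 7 * N) (hk : k = n + 1)
    [Fintype (RR ⧸ sp (n : RR))] [Fintype (RR ⧸ sp (k : RR))] :
    Pool.Agent.TH936.CW.BB L p q e Ω n k (fun x => e7 x * φ x) =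
      2 * ((k : ℂ) - (k : ℂ) ^ 2) * (-mu e fR) * (e7 (N : RR) * φ fR) *
        LE L Ω p q e (N : RR) φ := by
  classical
  have hN0 : N ≠ 0 := by
    rintro rfl
    exact hN.gd.ne (by simp)
  have hn0 : 0 < n := by omega
  have hk0 : 0 < k := by omega
  have hnR0 : ((n : ℕ) : RR) ≠ 0 := by exact_mod_cast hn0.ne'
  have hkR0 : ((k : ℕ) : RR) ≠ 0 := by exact_mod_cast hk0.ne'
  have hnC : (n : ℂ) ≠ 0 := by exact_mod_cast hn0.ne'
  have hkC : (k : ℂ) ≠ 0 := by exact_mod_cast hk0.ne'
  have hNC : (N : ℂ) ≠ 0 := by exact_mod_cast hN0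
  have hf0 := coe_ne fR_ne
  have hf2 : (fR : ℂ) * (fR : ℂ) = -7 := by
    have := congrArg (fun t : RR => (t : ℂ)) Pool.Agent.Y698.fR_sq
    push_cast at this
    have e7' : ((7 : RR) : ℂ) = 7 := rfl
    rw [e7'] at this
    linear_combination this
  set c : RR → ℂ := fun x => e7 x * φ x with hc
  have hcf : ∀ x : RR, c x ≠ 0 → x ∉ sp fR := by
    intro x hx hm
    apply hx
    rw [hc]
    beta_reduce
    rw [e7_eq_zero.2 hm, zero_mul]
  -- the points are not in the lattice
  have hzn : ∀ x : RR, x ∉ sp fR → Ω * x / (n : ℂ) ∉ L.lattice := by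
    intro x hx h
    apply hx
    have e1 : (n : ℂ) = (((n : ℕ) : RR) : ℂ) := by push_cast; rfl
    rw [e1, div_mem_iff hL hnR0, Ideal.mem_span_singleton] at h
    rw [Ideal.mem_span_singleton]
    refine dvd_trans ?_ h
    refine ⟨-fR * N, ?_⟩
    rw [hn]
    push_cast
    linear_combination (N : RR) * Pool.Agent.Y698.fR_sq
  -- step one
  have hcard : (Fintype.card (RR ⧸ sp (k : RR)) : ℂ) = (k : ℂ) ^ 2 := by
    have h6 := (Pool.Agent.W287.HK.h_basic RR al qr).2.2.2.2.1 (k : RR)
    unfold nm at h6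
    rw [Nat.card_eq_fintype_card] at h6
    have h7 : (((k : RR) : ℂ)) = (k : ℂ) := by push_cast; rfl
    rw [h7, Complex.normSq_natCast] at h6
    have h8 : ((Fintype.card (RR ⧸ sp (k : RR)) : ℝ) : ℂ) = ((k : ℝ) * (k : ℝ) : ℝ) := by
      rw [h6]
    push_cast at h8
    rw [h8]
    ring
  have st1 : ∀ x : RR, x ∉ sp fR → (∑ y : RR ⧸ sp (k : RR), if y = 0 then 0 else
      Dk L p q e (Ω * x / n) (Ω * y.out / k)) =
      2 * ((k : ℂ) - (k : ℂ) ^ 2) * ek L p q e (Ω * x / n) := by
    intro x hx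
    have hz := hzn x hx
    set z : ℂ := Ω * x / n with hzd
    have a1 : ∀ y : RR ⧸ sp (k : RR), (if y = 0 then 0 else Dk L p q e z (Ω * y.out / k)) =
        ek L p q e (z + Ω * y.out / ((k : RR) : ℂ)) + ek L p q e (z - Ω * y.out / ((k : RR) : ℂ)) -
          2 * ek L p q e z := by
      intro y
      have e1 : (((k : ℕ) : RR) : ℂ) = (k : ℂ) := by push_cast; rfl
      rw [e1]
      split_ifs with hy
      · have h1 := Dk_zero hpq e hz (t := Ω * y.out / k) (by
          rw [← e1, div_mem_iff hL hkR0, ← Ideal.Quotient.eq_zero_iff_mem, Ideal.Quotient.mk_out, hy])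
        rw [← h1]
        rfl
      · rfl
    have hkz : ((k : RR) : ℂ) * z = z + Ω * x := by
      have e1 : (((k : ℕ) : RR) : ℂ) = (n : ℂ) + 1 := by rw [hk]; push_cast; rfl
      rw [e1, hzd]
      field_simp
      ring
    have hkz' : ((k : RR) : ℂ) * z ∉ L.lattice := by
      rw [hkz]
      intro h
      apply hz
      have := sub_mem h (hL.mem_mul x)
      rwa [add_sub_cancel_right] at this
    have a2 := ek_dist hL hpq he (k : RR) hkR0 hkz' hn0 (by
      rw [hzd]
      have : (n : ℂ) * (Ω * x / n) = Ω * x := by field_simp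
      rw [this]
      exact hL.mem_mul _)
    have a3 : ek L p q e (((k : RR) : ℂ) * z) = ek L p q e z := by
      refine ek_per hpq e hz ?_
      rw [hkz, add_sub_cancel_left]
      exact hL.mem_mul _
    have a4 : mu e ((k : RR) : ℂ) = k := by
      have e1 : (((k : ℕ) : RR) : ℂ) = (k : ℂ) := by push_cast; rfl
      rw [e1, mu_eq, Complex.conj_natCast, pow_succ]
      field_simp
    rw [a3, a4] at a2
    have a5 : ∑ y : RR ⧸ sp (k : RR), ek L p q e (z - Ω * y.out / ((k : RR) : ℂ)) =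
        ∑ y : RR ⧸ sp (k : RR), ek L p q e (z + Ω * y.out / ((k : RR) : ℂ)) := by
      rw [← Equiv.sum_comp (Equiv.neg (RR ⧸ sp (k : RR)))
        (fun y => ek L p q e (z + Ω * y.out / ((k : RR) : ℂ)))]
      refine Finset.sum_congr rfl fun y _ => ?_
      have h1 : (-y).out - (-y.out) ∈ sp (k : RR) := by
        rw [← Ideal.Quotient.mk_eq_mk_iff_sub_mem, Ideal.Quotient.mk_out, map_neg,
          Ideal.Quotient.mk_out]
      have h2 := (div_mem_iff hL hkR0 _).2 (neg_mem h1)
      refine ek_per hpq e ?_ ?_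
      · exact mul_notMem hL hkR0 hkz' _
      · rw [Equiv.neg_apply]
        convert h2 using 1
        push_cast
        ring
    rw [Finset.sum_congr rfl (fun y _ => a1 y), Finset.sum_sub_distrib, Finset.sum_add_distrib, a5,
      a2, Finset.sum_const, Finset.card_univ, nsmul_eq_mul, hcard]
    ring
  have st2 : Pool.Agent.TH936.CW.BB L p q e Ω n k c = 2 * ((k : ℂ) - (k : ℂ) ^ 2) *
      ∑ x : RR ⧸ sp (n : RR), c x.out * ek L p q e (Ω * x.out / n) := by
    unfold Pool.Agent.TH936.CW.BB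
    rw [Finset.mul_sum]
    refine Finset.sum_congr rfl fun x _ => ?_
    by_cases hx : c x.out = 0
    · rw [hx]
      ring
    · rw [st1 _ (hcf _ hx)]
      ring
  -- step two
  have hP0 : fR * (N : RR) ≠ 0 := mul_ne_zero fR_ne hN.gd.ne
  have f1 := fin_quot hP0
  let _ : Fintype (RR ⧸ sp (fR * (N : RR))) := Fintype.ofFinite _
  have hI : sp ((n : ℕ) : RR) = sp (fR * (fR * (N : RR))) := by
    have e1 : fR * (fR * (N : RR)) = -((n : ℕ) : RR) := by
      rw [hn]
      push_cast
      linear_combination (N : RR) * Pool.Agent.Y698.fR_sq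
    rw [e1]
    exact (Ideal.span_singleton_neg _).symm
  have hper : ∀ x y : RR, x - y ∈ sp (n : RR) →
      c x * ek L p q e (Ω * x / n) = c y * ek L p q e (Ω * y / n) := by
    intro x y hxy
    have hxf : x - y ∈ sp fR := by
      rw [hI] at hxy
      rw [Ideal.mem_span_singleton] at hxy ⊢
      exact (Dvd.intro _ rfl).trans hxy
    have hxN : x - y ∈ sp (N : RR) := by
      rw [hn] at hxy
      rw [Ideal.mem_span_singleton] at hxy ⊢
      refine dvd_trans ?_ hxy
      push_cast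
      exact Dvd.intro_left _ rfl
    have e1 : c x = c y := by
      rw [hc]
      beta_reduce
      rw [e7_per hxf, hφ _ _ hxN]
    rw [e1]
    by_cases hy : c y = 0
    · rw [hy, zero_mul, zero_mul]
    · congr 1
      refine ek_per hpq e (hzn y (hcf _ hy)) ?_
      have e2 : (n : ℂ) = (((n : ℕ) : RR) : ℂ) := by push_cast; rfl
      have h1 := (div_mem_iff hL hnR0 (x - y)).2 hxy
      rw [e2]
      convert h1 using 1
      push_cast
      ring
  have hb1 := bij_mul (R := RR) (a := fR) (f := fR * (N : RR)) hP0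
  rw [← hI] at hb1
  have st3 : ∑ x : RR ⧸ sp (n : RR), c x.out * ek L p q e (Ω * x.out / n) =
      -mu e fR * ∑ x : RR ⧸ sp (fR * (N : RR)), c x.out * ek L p q e (Ω * x.out / (fR * N)) := by
    rw [sum_rep _ hb1 (fun x : RR => c x * ek L p q e (Ω * x / n)) hper, Fintype.sum_prod_type,
      Finset.mul_sum]
    refine Finset.sum_congr rfl fun x _ => ?_
    have h1 : ∀ t : RR, c (x.out + fR * (N : RR) * t) = c x.out := by
      intro t
      rw [hc]
      beta_reduce
      have i1 : x.out + fR * (N : RR) * t - x.out ∈ sp fR := by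
        rw [add_sub_cancel_left, Ideal.mem_span_singleton, mul_assoc]
        exact Dvd.intro _ rfl
      have i2 : x.out + fR * (N : RR) * t - x.out ∈ sp (N : RR) := by
        rw [add_sub_cancel_left, Ideal.mem_span_singleton, mul_comm fR, mul_assoc]
        exact Dvd.intro _ rfl
      rw [e7_per i1, hφ _ _ i2]
    by_cases hx : c x.out = 0
    · simp only [h1, hx, zero_mul, Finset.sum_const_zero, mul_zero]
    · have hxf := hcf _ hx
      simp only [h1]
      rw [← Finset.mul_sum]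
      have hz := hzn _ hxf
      have e3 : (fR : ℂ) * (Ω * x.out / n) = -(Ω * x.out / (fR * N)) := by
        rw [hn]
        push_cast
        field_simp
        linear_combination (Ω * x.out : ℂ) * hf2
      have hz2 : Ω * x.out / ((fR : ℂ) * N) ∉ L.lattice := by
        intro h
        apply hxf
        have e1 : ((fR : ℂ) * (N : ℂ)) = ((fR * (N : RR) : RR) : ℂ) := by push_cast; rfl
        rw [e1, div_mem_iff hL hP0] at h
        rw [Ideal.mem_span_singleton] at h ⊢
        exact (Dvd.intro _ rfl).trans h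
      have hz3 : (fR : ℂ) * (Ω * x.out / n) ∉ L.lattice := by
        rw [e3]
        exact fun h => hz2 (by simpa using neg_mem h)
      have d1 := ek_dist hL hpq he fR fR_ne hz3 hn0 (by
        have : (n : ℂ) * (Ω * x.out / n) = Ω * x.out := by field_simp
        rw [this]
        exact hL.mem_mul _)
      rw [e3, ek_neg hz2 he] at d1
      have d2 : ∑ t : RR ⧸ sp fR, ek L p q e (Ω * ((x.out + fR * (N : RR) * t.out : RR) : ℂ) / n) =
          ∑ t : RR ⧸ sp fR, ek L p q e (Ω * x.out / n + Ω * t.out / fR) := by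
        rw [← Equiv.sum_comp (Equiv.neg (RR ⧸ sp fR))
          (fun t => ek L p q e (Ω * ((x.out + fR * (N : RR) * t.out : RR) : ℂ) / n))]
        refine Finset.sum_congr rfl fun t _ => ?_
        have h2 : (-t).out - (-t.out) ∈ sp fR := by
          rw [← Ideal.Quotient.mk_eq_mk_iff_sub_mem, Ideal.Quotient.mk_out, map_neg,
            Ideal.Quotient.mk_out]
        rw [Equiv.neg_apply]
        refine ek_per hpq e (mul_notMem hL fR_ne hz3 _) ?_
        rw [Ideal.mem_span_singleton'] at h2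
        obtain ⟨b, hb⟩ := h2
        have hb' : (((-t : RR ⧸ sp fR).out : RR) : ℂ) = b * fR - t.out := by
          have := congrArg (fun r : RR => (r : ℂ)) hb
          push_cast at this
          linear_combination -this
        have e4 : Ω * ((x.out + fR * (N : RR) * (-t : RR ⧸ sp fR).out : RR) : ℂ) / n -
            (Ω * x.out / n + Ω * t.out / fR) = Ω * ((-b : RR) : ℂ) := by
          push_cast
          rw [hb', hn]
          push_cast
          field_simp
          linear_combination (Ω * N * (-(t.out : ℂ) + b * fR)) * hf2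
        rw [e4]
        exact hL.mem_mul _
      rw [d2, d1]
      ring
  -- step three
  have hb2 := bij_crt (R := RR) (f := fR) (c := (N : RR)) hN.gd.cop
  have f2 := fin_quot hN.gd.ne
  let _ : Fintype (RR ⧸ sp (N : RR)) := Fintype.ofFinite _
  have hper2 : ∀ x y : RR, x - y ∈ sp (fR * (N : RR)) →
      c x * ek L p q e (Ω * x / (fR * N)) = c y * ek L p q e (Ω * y / (fR * N)) := by
    intro x y hxy
    have hxf : x - y ∈ sp fR := by
      rw [Ideal.mem_span_singleton] at hxy ⊢
      exact (Dvd.intro _ rfl).trans hxy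
    have hxN : x - y ∈ sp (N : RR) := by
      rw [Ideal.mem_span_singleton] at hxy ⊢
      exact (Dvd.intro_left _ rfl).trans hxy
    have e1 : c x = c y := by
      rw [hc]
      beta_reduce
      rw [e7_per hxf, hφ _ _ hxN]
    rw [e1]
    by_cases hy : c y = 0
    · rw [hy, zero_mul, zero_mul]
    · congr 1
      have e2 : ((fR : ℂ) * (N : ℂ)) = ((fR * (N : RR) : RR) : ℂ) := by push_cast; rfl
      rw [e2]
      refine ek_per hpq e ?_ ?_
      · intro h
        apply hcf _ hy
        rw [div_mem_iff hL hP0] at h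
        rw [Ideal.mem_span_singleton] at h ⊢
        exact (Dvd.intro _ rfl).trans h
      · have h1 := (div_mem_iff hL hP0 (x - y)).2 hxy
        convert h1 using 1
        push_cast
        ring
  have st4 : ∑ x : RR ⧸ sp (fR * (N : RR)), c x.out * ek L p q e (Ω * x.out / (fR * N)) =
      e7 (N : RR) * φ fR * LE L Ω p q e (N : RR) φ := by
    rw [sum_rep _ hb2 (fun x : RR => c x * ek L p q e (Ω * x / (fR * N))) hper2,
      Fintype.sum_prod_type]
    unfold LE
    rw [Wg_eq, Finset.mul_sum]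
    refine Finset.sum_congr rfl fun x _ => ?_
    unfold Gx
    rw [Finset.mul_sum, Finset.mul_sum]
    refine Finset.sum_congr rfl fun y _ => ?_
    have i1 : x.out * fR + y.out * (N : RR) - y.out * (N : RR) ∈ sp fR := by
      rw [add_sub_cancel_right, Ideal.mem_span_singleton]
      exact Dvd.intro_left _ rfl
    have i2 : x.out * fR + y.out * (N : RR) - fR * x.out ∈ sp (N : RR) := by
      rw [Ideal.mem_span_singleton]
      exact ⟨y.out, by ring⟩
    have e5 : c (x.out * fR + y.out * (N : RR)) = e7 y.out * e7 (N : RR) * (φ fR * φ x.out) := by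
      rw [hc]
      beta_reduce
      rw [e7_per i1, hφ _ _ i2, e7_mul, hm]
    have e6 : Ω * ((x.out * fR + y.out * (N : RR) : RR) : ℂ) / (fR * N) =
        Ω * y.out / fR + Ω * x.out / ((N : RR) : ℂ) := by
      push_cast
      field_simp
      ring
    rw [e5, e6]
    ring
  rw [st2, st3, st4]
  ring

end

lemma Go.of_gp {q : ℕ} (h : Gp q) : Go (q : RR) := by
  refine ⟨⟨h.gn.ne, h.gn.cop⟩, ((q / 4 : ℕ) : RR), ?_⟩
  have h1 : q = 1 + 4 * (q / 4) := by have := h.m4; omega
  have h2 : ((q : ℕ) : RR) = ((1 + 4 * (q / 4) : ℕ) : RR) := congrArg _ h1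
  rw [h2]
  push_cast
  rfl

lemma go_prod {S : Finset ℕ} (hS : ∀ q ∈ S, Gp q) : Go ((∏ q ∈ S, q : ℕ) : RR) := by
  rw [Nat.cast_prod]
  exact Go.prod fun q hq => Go.of_gp (hS q hq)

lemma qprod_facts {S : Finset ℕ} (hS : ∀ q ∈ S, Gp q) :
    Pe ((∏ q ∈ S, q : ℕ) : RR) (fun x => ∏ q ∈ S, qch q (nR x)) ∧
    (∀ x y : RR, ∏ q ∈ S, qch q (nR (x * y)) = (∏ q ∈ S, qch q (nR x)) * ∏ q ∈ S, qch q (nR y)) ∧
    (∏ q ∈ S, qch q (nR fR) : ℂ) ≠ 0 := by
  refine ⟨fun x y hxy => Finset.prod_congr rfl fun q hq => ?_, fun x y => ?_, ?_⟩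
  · have h1 := Pool.Agent.Y698.nR_cong hxy
    have h2 : (q : ℤ) ∣ nR x - nR y := by
      refine dvd_trans ?_ h1
      exact_mod_cast Finset.dvd_prod_of_mem (fun q => q) hq
    unfold qch
    congr 1
    rw [jacobiSym.mod_left (nR x), jacobiSym.mod_left (nR y)]
    congr 1
    exact (Int.emod_emod_of_dvd _ dvd_rfl).symm.trans
      ((Int.emod_emod_of_dvd _ dvd_rfl).trans (Int.ModEq.symm (Int.modEq_iff_dvd.2 (by
        have := h2
        rwa [← dvd_neg, neg_sub] at this))).symm)
  · rw [← Finset.prod_mul_distrib]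
    refine Finset.prod_congr rfl fun q _ => ?_
    rw [nR_mul, Pool.Agent.Y698.qch_mul]
  · rw [Pool.Agent.Y698.nR_fR]
    have h1 := Pool.Agent.Y698.qprod_sq (S := S) (m := 7) (fun q hq => (hS q hq).pr)
      fun q hq => (hS q hq).not_seven
    intro h0
    rw [h0] at h1
    norm_num at h1

/-- **The central value.** -/
theorem val_LE (hcs : S_HCS) {S : Finset ℕ} (hS : ∀ q ∈ S, Gp q) {e : ℕ} (he : 0 < e)
    [Fintype (RR ⧸ sp fR)] (hL : IsLat L RR Ω)
    (hpq : ∀ l ∈ L.lattice, eta L l = p * l + q * (starRingEnd ℂ) l) :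
    ∃ F : ℂ → ℂ, Differentiable ℂ F ∧
      (∀ z : ℂ, ((e + 1 : ℕ) : ℝ) + 1 / 2 < z.re →
        HasSum (fun I : Ideal RR => tht e S I * (nm I : ℂ) ^ (-z)) (F z)) ∧
      (F ((e + 1 : ℕ) : ℂ) = 0 ↔
        LE L Ω p q e ((∏ q ∈ S, q : ℕ) : RR) (fun x => ∏ q ∈ S, qch q (nR x)) = 0) := by
  classical
  have hbasic := Pool.Agent.W287.HK.h_basic
  have hcls := Pool.Agent.W571.HK.h_cls hbasic
  have hfp := Pool.Agent.W53.HK.h_fp hbasic hcls
  have hfpr := Pool.Agent.W366.HK.h_fpr hbasic hcls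
  have hlat := Pool.Agent.W585.HK.h_lat hbasic
  have hker := Pool.Agent.W692.HK.h_ker hbasic hcls hfpr
  have hcnt := Pool.Agent.W584.HK.h_cnt hbasic hcls hfpr hlat hker
  have hdec := Pool.Agent.W856.HK.h_dec hbasic
  have hgauss := Pool.Agent.W636.HK.h_gauss hbasic hfp
  have hpois := Pool.Agent.W348.HK.h_pois hbasic
  have htheta := Pool.Agent.TH936.HK.h_theta hbasic hfp hdec hgauss hpois hcnt
  have hafe := Pool.Agent.TH936.HK.h_afe hbasic hfp hcnt hgauss htheta
  set N : ℕ := ∏ q ∈ S, q with hNd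
  have hN : Go (N : RR) := go_prod hS
  have hP0 : fR * (N : RR) ≠ 0 := mul_ne_zero fR_ne hN.gd.ne
  have hN0 : 0 < N := by
    rcases Nat.eq_zero_or_pos N with h | h
    · exfalso
      apply hN.gd.ne
      rw [h, Nat.cast_zero]
    · exact h
  have hθ := tht_HC hcs e hS
  rw [← hNd] at hθ
  have hSys := sys_pid (R := RR) (fin_quot hP0)
  have hn0 : 0 < 7 * N := by omega
  have hnR0 : ((7 * N : ℕ) : RR) ≠ 0 := by exact_mod_cast hn0.ne'
  have hkR0 : ((7 * N + 1 : ℕ) : RR) ≠ 0 := by exact_mod_cast (7 * N).succ_ne_zero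
  have i1 := fin_quot hnR0
  have i2 := fin_quot hkR0
  let _ : Fintype (RR ⧸ sp ((7 * N : ℕ) : RR)) := Fintype.ofFinite _
  let _ : Fintype (RR ⧸ sp ((7 * N + 1 : ℕ) : RR)) := Fintype.ofFinite _
  obtain ⟨F, g1, g2, g3⟩ := cenK hbasic hfp hcnt hdec hafe qr hL hpq hSys (n := 7 * N) hn0
    (by
      rw [Ideal.mem_span_singleton]
      refine ⟨-fR, ?_⟩
      push_cast
      linear_combination (N : RR) * Pool.Agent.Y698.fR_sq)
    (fun b hb => by
      rw [Finset.mem_singleton.1 hb]
      exact Submodule.mem_top) (k := 7 * N + 1) rfl hθ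
  refine ⟨F, g1, g2, ?_⟩
  rw [g3, Finset.sum_singleton]
  have t1 : tht e S ⊤ = 1 := by
    have e1 : (⊤ : Ideal RR) = sp 1 := by
      rw [eq_comm, Ideal.span_singleton_eq_top]
      exact isUnit_one
    rw [e1, hθ.princ 1 one_ne_zero (by rw [sub_self]; exact Submodule.zero_mem _)]
    simp
  have t2 : nm (⊤ : Ideal RR) = 1 := ((hbasic RR al qr).2.2.2.2.2.2.1 ⊤).2 rfl
  have eC : ck e (tht e S) (⊤ : Ideal RR) = fun x => e7 x * ∏ q ∈ S, qch q (nR x) :=
    funext fun x => ck_tht e S x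
  obtain ⟨q1, q2, q3⟩ := qprod_facts hS
  rw [← hNd] at q1
  rw [t1, t2, eC, BB_LE hL hpq he hN q1 q2 rfl rfl]
  have hk1 : (2 * (((7 * N + 1 : ℕ) : ℂ) - ((7 * N + 1 : ℕ) : ℂ) ^ 2)) ≠ 0 := by
    have e1 : (2 * (((7 * N + 1 : ℕ) : ℂ) - ((7 * N + 1 : ℕ) : ℂ) ^ 2)) =
        -((2 * ((7 * N + 1) * (7 * N)) : ℕ) : ℂ) := by
      push_cast
      ring
    rw [e1, neg_ne_zero, Nat.cast_ne_zero]
    have : 0 < 2 * ((7 * N + 1) * (7 * N)) := by positivity
    exact this.ne'
  have hk2 : -mu e (fR : ℂ) ≠ 0 := neg_ne_zero.2 (mu_ne e (coe_ne fR_ne))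
  have hk3 : e7 (N : RR) ≠ 0 := fun h0 => not_mem_of_cop hN.gd.cop (e7_eq_zero.1 h0)
  have hk4 := mul_ne_zero (mul_ne_zero hk1 hk2) (mul_ne_zero hk3 q3)
  constructor
  · intro h0
    simp only [Complex.ofReal_one, one_pow, inv_one, one_mul] at h0
    exact (mul_eq_zero.1 h0).resolve_left hk4
  · intro h0
    rw [h0]
    ring

end Pool.Agent.J4.H67.AW
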