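import Pool.Agent.J4.H67.AW.Lv
import Pool.Agent.Y698.SG.Inp

/-!
# The central values of the powers of the Hecke characters are not zero
-/

set_option autoImplicit false
set_option linter.unusedSectionVars false

open Filter
open scoped Topology PeriodPair

namespace Pool.Agent.J4.H67.AW

open Pool.Agent.Y698 (al bl RR aR bR fR nR cj cX cY e7 e7_mul e7_neg e7_one e7_per e7_eq_zero e7_sq
  fR_ne fin_quot nR_nonneg mul_cj irr_fR not_mem_of_cop LD psi psi_sp psi_HC nI nI_sp' qch nR_mul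
  nR_nat qr e7_conj maximal_sp qch_conj exists_LD val_one irr_of_prime_norm aR_nR aR_coe GG
  exists_gen Inq)
open Pool.Agent.Y698.SG
open H667R3 Pool.Agent.W192.HK Pool.Agent.TH936.CM Pool.Agent.TH936.PU
open Pool.Agent.TH936.CW (E1 ek ek_per)

lemma qprod_jac {S : Finset ℕ} (hS : ∀ q ∈ S, q ≠ 0) (m : ℤ) :
    ∏ q ∈ S, qch q m = ((jacobiSym m (∏ q ∈ S, q) : ℤ) : ℂ) := by
  classical
  induction S using Finset.induction_on with
  | empty => simp
  | insert q S hq ih =>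
    have h1 : q ≠ 0 := hS q (Finset.mem_insert_self _ _)
    have h2 : ∏ p ∈ S, p ≠ 0 := Finset.prod_ne_zero_iff.2 fun p hp =>
      hS p (Finset.mem_insert_of_mem hp)
    rw [Finset.prod_insert hq, Finset.prod_insert hq, ih fun p hp =>
      hS p (Finset.mem_insert_of_mem hp), jacobiSym.mul_right' m h1 h2]
    unfold qch
    push_cast
    rfl

lemma qprod_two {S : Finset ℕ} (hS : ∀ q ∈ S, Gp q) (h8 : (∏ q ∈ S, q) % 8 = 1) :
    ∏ q ∈ S, qch q 2 = 1 := by
  rw [qprod_jac (fun q hq => (hS q hq).pr.ne_zero), jacobiSym.at_two, ZMod.χ₈_nat_eq_if_mod_eight]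
  · rw [if_neg (by omega), if_pos (Or.inl h8), Int.cast_one]
  · rw [Nat.odd_iff]
    omega

/-- **The central values for the odd weights `k = 2 m + 3` are not zero.** -/
theorem nonvan (hin : Inp) {Q P : Finset ℕ} (hQ : ∀ q ∈ Q, Inq q) (hP : ∀ p ∈ P, Spl p)
    (hdet : (mat Q P).det ≠ 0) (h8 : (∏ q ∈ Q ∪ P, q) % 8 = 1) (m : ℕ) :
    ∃ F : ℂ → ℂ, Differentiable ℂ F ∧
      (∀ z : ℂ, ((2 * m + 2 + 1 : ℕ) : ℝ) + 1 / 2 < z.re →
        HasSum (fun I : Ideal RR => tht (2 * m + 2) (Q ∪ P) I * (nm I : ℂ) ^ (-z)) (F z)) ∧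
      F ((2 * m + 2 + 1 : ℕ) : ℂ) ≠ 0 := by
  classical
  have hS : ∀ q ∈ Q ∪ P, Gp q := by
    intro q hq
    rcases Finset.mem_union.1 hq with h | h
    · exact Gp.of_inq (hQ q h)
    · exact Gp.of_spl (hP q h)
  have := fin_quot fR_ne
  let _ : Fintype (RR ⧸ sp fR) := Fintype.ofFinite _
  obtain ⟨L, Ω, h⟩ := exists_LD
  have hL := h.lat
  obtain ⟨p, q, hpq⟩ := Pool.Agent.TH936.CW.exists_pq L
  obtain ⟨F, g1, g2, g3⟩ := val_LE hin.hcs hS (e := 2 * m + 2) (by omega) hL hpq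
  refine ⟨F, g1, g2, fun h0 => ?_⟩
  have hz := g3.1 h0
  have hirrA : Irreducible aR := irr_of_prime_norm (by rw [aR_nR]; norm_num)
  have hp : (sp aR).IsPrime := (maximal_sp hirrA).isPrime
  obtain ⟨B, hB⟩ := Pool.Agent.Y698.exists_vs (sp aR)
  have hv := hB aR (Ideal.mem_span_singleton_self _)
  rw [aR_coe] at hv
  obtain ⟨F0, -, -, k3⟩ := val_one
  have hT := k3 L Ω hL
  have hvT := h.v_T hv hT
  obtain ⟨ϖ, hc⟩ := exists_cho hin.pi hP
  have hfam := fam hin.pd1 hin.pd2 hQ hP hc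
  have hgd := gd_ne hin.ns1 hin.pd1 hin.pd2 hin.rc hQ hP hc hdet
  have hsy : ∀ x : RR, ∏ i ∈ ix Q P, sy (pf Q ϖ i) x = ∏ q ∈ Q ∪ P, qch q (nR x) :=
    fun x => prod_sy hin.pd1 hin.pd2 hQ hP hc x
  have ha : ∏ i ∈ ix Q P, sy (pf Q ϖ i) aR = 1 := by
    rw [hsy, aR_nR]
    exact qprod_two hS h8
  have hb : ∏ i ∈ ix Q P, sy (pf Q ϖ i) bR = 1 := by
    have e : nR bR = 2 := by
      have h1 : cX bR = 1 ∧ cY bR = -1 := by
        apply Pool.Agent.Y698.cXY_of
        unfold bR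
        push_cast
        rw [aR_coe]
        ring
      unfold nR
      rw [h1.1, h1.2]
      norm_num
    rw [hsy, e]
    exact qprod_two hS h8
  have h1 := v_LE hin.rec' h hv hpq hT hvT m hfam hgd ha hb
  rw [prod_pf hQ hP hc] at h1
  simp only [hsy] at h1
  rw [hz, mul_zero, map_zero] at h1
  have h20 : B.valuation 2 ≠ 0 := (Valuation.ne_zero_iff B.valuation).2 two_ne_zero
  exact mul_ne_zero (pow_ne_zero _ h20) (pow_ne_zero _ h20) h1.symm

end Pool.Agent.J4.H67.AW
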