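import Pool.Agent.J4.H67.AW.Pw

/-!
# The central values of the powers of the Hecke characters of the twists are not zero
-/

set_option autoImplicit false
set_option linter.unusedSectionVars false

namespace Pool.Agent.J4.H67.AW

open Pool.Agent.Y698 (al aR bR fR nR bc ec qch irr_of_prime_norm aR_nR aR_coe LD exists_LD
  maximal_sp qprod_sq Inq RR bc_seven AP EX bc_zero)
open Pool.Agent.Y698.SG
open H667R3 Pool.Agent.W192.HK Pool.Agent.TH936.CM Pool.Agent.TH936.PU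

lemma nonvan_zero (hin : Inp) {Q P : Finset ℕ} (hQ : ∀ q ∈ Q, Inq q) (hP : ∀ p ∈ P, Spl p)
    (hdet : (mat Q P).det ≠ 0) :
    ∃ F : ℂ → ℂ, Differentiable ℂ F ∧
      (∀ z : ℂ, (3 : ℝ) / 2 < z.re → HasProd (fun p : Nat.Primes =>
        (1 - lv (Xp (Q ∪ P) p * bc p) (Xp (Q ∪ P) p ^ 2 * ec p) 1 * ((p : ℕ) : ℂ) ^ (-z) +
        (Xp (Q ∪ P) p ^ 2 * ec p ^ 1) * (((p : ℕ) : ℂ) ^ (-z)) ^ 2)⁻¹) (F z)) ∧
      F 1 ≠ 0 := by
  obtain ⟨F, g1, g2, g3⟩ := val_quad' hin hQ hP hdet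
  refine ⟨F, g1, fun z hz => ?_, fun h0 => ?_⟩
  · convert g2 z hz using 3 with p
    rw [lv_eq (α := Xp (Q ∪ P) p * bc p / 2 + (IsAlgClosed.exists_pow_nat_eq
      ((Xp (Q ∪ P) p * bc p / 2) ^ 2 - Xp (Q ∪ P) p ^ 2 * ec p) two_pos).choose)
      (β := Xp (Q ∪ P) p * bc p / 2 - (IsAlgClosed.exists_pow_nat_eq
      ((Xp (Q ∪ P) p * bc p / 2) ^ 2 - Xp (Q ∪ P) p ^ 2 * ec p) two_pos).choose) (by ring)
      (by linear_combination -(IsAlgClosed.exists_pow_nat_eq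
      ((Xp (Q ∪ P) p * bc p / 2) ^ 2 - Xp (Q ∪ P) p ^ 2 * ec p) two_pos).choose_spec)]
    unfold Xp
    ring
  · obtain ⟨L, Ω, h⟩ := exists_LD
    have hirrA : Irreducible aR := irr_of_prime_norm (by rw [aR_nR]; norm_num)
    have hp : (sp aR).IsPrime := (maximal_sp hirrA).isPrime
    obtain ⟨B, hB⟩ := Pool.Agent.Y698.exists_vs (sp aR)
    have h1 := hB aR (Ideal.mem_span_singleton_self _)
    rw [aR_coe] at h1
    have h2 := g3 _ B.valuation L Ω h h1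
    rw [h0, map_zero, zero_div, map_zero, mul_zero] at h2
    exact pow_ne_zero _ ((Valuation.ne_zero_iff B.valuation).2 two_ne_zero) h2.symm

/-- **The central values for all odd weights `k = 2 m + 1` are not zero.** -/
theorem nonvan_all (hin : Inp) {Q P : Finset ℕ} (hQ : ∀ q ∈ Q, Inq q) (hP : ∀ p ∈ P, Spl p)
    (hdet : (mat Q P).det ≠ 0) (h8 : (∏ q ∈ Q ∪ P, q) % 8 = 1) (m : ℕ) :
    ∃ F : ℂ → ℂ, Differentiable ℂ F ∧
      (∀ z : ℂ, ((2 * m + 1 : ℕ) : ℝ) + 1 / 2 < z.re → HasProd (fun p : Nat.Primes =>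
        (1 - lv (Xp (Q ∪ P) p * bc p) (Xp (Q ∪ P) p ^ 2 * ec p) (4 * m + 1) *
          ((p : ℕ) : ℂ) ^ (-z) +
        (Xp (Q ∪ P) p ^ 2 * ec p ^ (4 * m + 1)) * (((p : ℕ) : ℂ) ^ (-z)) ^ 2)⁻¹) (F z)) ∧
      F ((2 * m + 1 : ℕ) : ℂ) ≠ 0 := by
  rcases m with _ | m
  · obtain ⟨F, g1, g2, g3⟩ := nonvan_zero hin hQ hP hdet
    refine ⟨F, g1, fun z hz => ?_, ?_⟩
    · refine g2 z ?_
      norm_num at hz
      norm_num
      linarith
    · simpa using g3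
  · obtain ⟨F, g1, g2, g3⟩ := nonvan hin hQ hP hdet h8 m
    refine ⟨F, g1, fun z hz => ?_, ?_⟩
    · have h1 := prod_tht (g2 z (by
        have e : 2 * (m + 1) + 1 = 2 * m + 2 + 1 := by ring
        rw [← e]
        exact hz))
      have e : 4 * (m + 1) + 1 = 2 * (2 * m + 2) + 1 := by ring
      rw [e]
      exact h1
    · have e : 2 * (m + 1) + 1 = 2 * m + 2 + 1 := by ring
      rw [e]
      exact g3

/-! ### in terms of the numbers of points -/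

open Classical in
/-- the trace of Frobenius -/
noncomputable def trc (S : Finset ℕ) (j p : ℕ) : ℤ :=
  if p ∣ 7 * ∏ q ∈ S, q then 0 else (p : ℤ) - Nat.card (AP (EX (ZMod p) (j : ZMod p)))

/-- the norm -/
def nrm (N p : ℕ) : ℕ := if p ∣ 7 * N then 0 else p

lemma Xp_trc {S : Finset ℕ} (hS : ∀ q ∈ S, Gp q) {j : ℕ} (hj : ∏ q ∈ S, q = 1 + 4 * j) {p : ℕ}
    (hp : p.Prime) : Xp S p * bc p = ((trc S j p : ℤ) : ℂ) ∧
      Xp S p ^ 2 * ec p = ((nrm (∏ q ∈ S, q) p : ℕ) : ℂ) := by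
  classical
  unfold trc nrm
  by_cases h : p ∣ 7 * ∏ q ∈ S, q
  · rw [if_pos h, if_pos h]
    rcases (hp.dvd_mul).1 h with h1 | h1
    · have h7 : p = 7 := (Nat.prime_dvd_prime_iff_eq hp (by norm_num)).1 h1
      have h2 := bc_seven 0
      rw [zero_add, pow_one] at h2
      have h3 : ec p = 0 := if_pos h7
      rw [h3, h7, h2]
      simp
    · obtain ⟨q, hq, hd⟩ := (Prime.dvd_finsetProd_iff hp.prime _).1 h1
      have h2 : p = q := (Nat.prime_dvd_prime_iff_eq hp (hS q hq).pr).1 hd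
      have h3 : Xp S p = 0 := by
        unfold Xp
        refine Finset.prod_eq_zero hq ?_
        have : Fact q.Prime := ⟨(hS q hq).pr⟩
        unfold qch
        rw [h2, ← jacobiSym.legendreSym.to_jacobiSym, (legendreSym.eq_zero_iff q (q : ℤ)).2
          (by simp)]
        simp
      rw [h3]
      simp
  · rw [if_neg h, if_neg h]
    have h7 : p ≠ 7 := fun h7 => h (h7 ▸ dvd_mul_right _ _)
    have hpS : p ∉ S := fun hS1 => h ((Finset.dvd_prod_of_mem (fun q : ℕ => q) hS1).trans (dvd_mul_left _ _))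
    have : Fact p.Prime := ⟨hp⟩
    have h1 := trace_tw (ZMod p) hp h7 (f := 1) one_ne_zero (by simp) hS hpS hj
    have h2 : W165.CE.pw (bc p) (ec p) 1 = bc p := rfl
    rw [h2, pow_one, Nat.card_zmod] at h1
    have h3 : ec p = p := if_neg h7
    have h4 : Xp S p ^ 2 = 1 := qprod_sq (fun q hq => (hS q hq).pr) fun q hq hd => by
      have h1 : q ∣ p := by exact_mod_cast hd
      exact hpS (((Nat.prime_dvd_prime_iff_eq (hS q hq).pr hp).1 h1) ▸ hq)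
    exact ⟨h1.symm, by rw [h3, h4, one_mul]⟩

/-- the Lucas sequence -/
def luc (a e : ℤ) : ℕ → ℤ
  | 0 => 2
  | 1 => a
  | n + 2 => a * luc a e (n + 1) - e * luc a e n

lemma lv_luc (t u : ℤ) : ∀ n : ℕ, lv (t : ℂ) (u : ℂ) n = ((luc t u n : ℤ) : ℂ)
  | 0 => by simp [lv, W165.CE.pw, luc]
  | 1 => by simp [lv, W165.CE.pw, luc]
  | n + 2 => by
    have h1 := lv_luc t u (n + 1)
    have h2 := lv_luc t u n
    unfold lv at h1 h2 ⊢
    rw [W165.CE.pw, luc, h1, h2]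
    push_cast
    ring

/-- **Nonvanishing, in terms of the numbers of points.** -/
theorem nonvan_pts (hin : Inp) {Q P : Finset ℕ} (hQ : ∀ q ∈ Q, Inq q) (hP : ∀ p ∈ P, Spl p)
    (hdet : (mat Q P).det ≠ 0) (h8 : (∏ q ∈ Q ∪ P, q) % 8 = 1) {j : ℕ}
    (hj : ∏ q ∈ Q ∪ P, q = 1 + 4 * j) (m : ℕ) :
    ∃ F : ℂ → ℂ, Differentiable ℂ F ∧
      (∀ z : ℂ, ((2 * m + 1 : ℕ) : ℝ) + 1 / 2 < z.re → HasProd (fun p : Nat.Primes =>
        (1 - ((luc (trc (Q ∪ P) j p) (nrm (∏ q ∈ Q ∪ P, q) p : ℕ) (4 * m + 1) : ℤ) : ℂ) *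
          ((p : ℕ) : ℂ) ^ (-z) +
        ((nrm (∏ q ∈ Q ∪ P, q) p : ℕ) : ℂ) ^ (4 * m + 1) * (((p : ℕ) : ℂ) ^ (-z)) ^ 2)⁻¹) (F z)) ∧
      F ((2 * m + 1 : ℕ) : ℂ) ≠ 0 := by
  have hS : ∀ q ∈ Q ∪ P, Gp q := by
    intro q hq
    rcases Finset.mem_union.1 hq with h | h
    · exact Gp.of_inq (hQ q h)
    · exact Gp.of_spl (hP q h)
  obtain ⟨F, g1, g2, g3⟩ := nonvan_all hin hQ hP hdet h8 m
  refine ⟨F, g1, fun z hz => ?_, g3⟩
  convert g2 z hz using 4 with p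
  · obtain ⟨h1, h2⟩ := Xp_trc hS hj p.2
    congr 2
    rw [h1, h2]
    have h3 := lv_luc (trc (Q ∪ P) j p) ((nrm (∏ q ∈ Q ∪ P, q) p : ℕ) : ℤ) (4 * m + 1)
    rw [Int.cast_natCast] at h3
    exact h3.symm
  · obtain ⟨h1, h2⟩ := Xp_trc hS hj p.2
    congr 1
    rw [← h2, mul_pow, ← pow_mul, show 2 * (4 * m + 1) = (2 * (2 * m) + 1) * 2 by ring, pow_mul,
      Xp_pow]

end Pool.Agent.J4.H67.AW
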