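import Pool.Agent.J4.H67.AW.Fl
import Pool.Agent.J4.H67.AW.E2
import Pool.Agent.J4.H67.AW.Dst

/-!
# Odd functions with a distribution relation and the sums over the points of order `√-7`
-/

set_option autoImplicit false
set_option linter.unusedSectionVars false

open Filter
open scoped Topology PeriodPair

namespace Pool.Agent.J4.H67.AW

open Pool.Agent.Y698 (al bl RR aR bR fR nR cj cX cY e7 e7_mul e7_neg e7_one e7_per e7_eq_zero e7_sq
  fR_ne fin_quot nR_nonneg mul_cj irr_fR not_mem_of_cop LD)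
open Pool.Agent.Y698.SG
open H667R3 Pool.Agent.W192.HK Pool.Agent.TH936.CM Pool.Agent.TH936.PU

variable {L : PeriodPair} {Ω : ℂ}

/-- the norm of `n` is odd -/
lemma go_norm {n : RR} (h : Go n) : ∃ N : ℕ, Odd N ∧ ∃ d : RR, n * d = (N : RR) := by
  obtain ⟨u, hu⟩ := h.m4
  refine ⟨(nR n).natAbs, ?_, cj n, ?_⟩
  · have h1 : cX n = 1 + 4 * cX u ∧ cY n = 4 * cY u := by
      apply Pool.Agent.Y698.cXY_of
      rw [hu]
      have e4 : ((4 : RR) : ℂ) = 4 := rfl
      push_cast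
      rw [Pool.Agent.Y698.co u, e4]
      ring
    have h2 : Odd (nR n) := by
      unfold nR
      rw [h1.1, h1.2]
      refine ⟨4 * cX u + 8 * cX u ^ 2 + 2 * (1 + 4 * cX u) * cY u + 16 * cY u ^ 2, by ring⟩
    exact Int.natAbs_odd.2 h2
  · rw [mul_cj]
    have h3 : (((nR n).natAbs : ℕ) : ℤ) = nR n := Int.natAbs_of_nonneg (nR_nonneg n)
    have h4 := congrArg (fun t : ℤ => (t : RR)) h3
    simpa using h4.symm

/-- the points used have odd order -/
lemma od_pt (hL : IsLat L RR Ω) {n : RR} (hn : Go n) {y : RR} (hy : y ∉ sp fR) (x : RR) :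
    Od L (Ω * y / fR + Ω * x / n) := by
  have hf0 := coe_ne fR_ne
  have hn0 := coe_ne hn.gd.ne
  have e : Ω * y / fR + Ω * x / n = Ω * ((y * n + x * fR : RR) : ℂ) / ((fR * n : RR) : ℂ) := by
    push_cast
    field_simp
  refine ⟨?_, ?_⟩
  · intro h
    rw [e, div_mem_iff hL (mul_ne_zero fR_ne hn.gd.ne), Ideal.mem_span_singleton'] at h
    obtain ⟨a, ha⟩ := h
    apply hy
    rw [Ideal.mem_span_singleton]
    have h1 : fR ∣ y * n := ⟨a * n - x, by linear_combination -ha⟩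
    exact hn.gd.cop.dvd_of_dvd_mul_right h1
  · obtain ⟨N, hN, d, hd⟩ := go_norm hn
    refine ⟨7 * N, (by decide : Odd 7).mul hN, ?_⟩
    have h7 : fR * (-fR) = (7 : RR) := by
      linear_combination -Pool.Agent.Y698.fR_sq
    have e2 : ((7 * N : ℕ) : ℂ) * (Ω * y / fR + Ω * x / n) =
        Ω * ((-fR * N * y + 7 * d * x : RR) : ℂ) := by
      have h1 : (fR : ℂ) * (-(fR : ℂ)) = 7 := by
        have := congrArg (fun t : RR => (t : ℂ)) h7
        push_cast at this
        exact this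
      have h2 : (n : ℂ) * (d : ℂ) = N := by
        have := congrArg (fun t : RR => (t : ℂ)) hd
        push_cast at this
        exact this
      have c7 : ((7 : RR) : ℂ) = 7 := rfl
      push_cast
      rw [c7]
      field_simp
      linear_combination (-(n : ℂ) * N * y * Ω) * h1 - (7 * (fR : ℂ) * x * Ω) * h2
    rw [e2]
    exact hL.mem_mul _

/-- periodic functions with a distribution relation, at the points of odd order -/
structure Os (L : PeriodPair) (Ω : ℂ) (μ : RR → ℂ) (f : ℂ → ℂ) : Prop where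
  per : ∀ z w : ℂ, Od L z → w - z ∈ L.lattice → f w = f z
  dist : ∀ c : RR, Go c → ∀ [Fintype (RR ⧸ sp c)] (z : ℂ), Od L (c * z) →
    (∃ N : ℕ, Odd N ∧ (N : ℂ) * z ∈ L.lattice) →
    ∑ t : RR ⧸ sp c, f (z + Ω * t.out / c) = μ c * f (c * z)

lemma Od.of_sub (hL : IsLat L RR Ω) {z w : ℂ} (hz : Od L z) (h : w - z ∈ L.lattice) : Od L w := by
  have _ := hL
  refine ⟨fun hw => hz.ne ?_, ?_⟩
  · have := sub_mem hw h
    rwa [sub_sub_cancel] at this
  · obtain ⟨N, hN, h2⟩ := hz.tor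
    refine ⟨N, hN, ?_⟩
    have e : (N : ℂ) * w = N * z + N * (w - z) := by ring
    rw [e]
    refine add_mem h2 ?_
    have := L.lattice.nsmul_mem h N
    rwa [nsmul_eq_mul] at this

lemma Os.add {μ : RR → ℂ} {f g : ℂ → ℂ} (hf : Os L Ω μ f) (hg : Os L Ω μ g) :
    Os L Ω μ (fun z => f z + g z) := by
  refine ⟨fun z w hz h => ?_, fun c hc _ z h1 h2 => ?_⟩
  · show f w + g w = f z + g z
    rw [hf.per z w hz h, hg.per z w hz h]
  · rw [Finset.sum_add_distrib, hf.dist c hc z h1 h2, hg.dist c hc z h1 h2]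
    ring

lemma Os.smul {μ : RR → ℂ} {f : ℂ → ℂ} (hf : Os L Ω μ f) (a : ℂ) :
    Os L Ω μ (fun z => a * f z) := by
  refine ⟨fun z w hz h => ?_, fun c hc _ z h1 h2 => ?_⟩
  · show a * f w = a * f z
    rw [hf.per z w hz h]
  · rw [← Finset.mul_sum, hf.dist c hc z h1 h2]
    ring

/-- the elements used are prime to two -/
lemma go_two {n : RR} (h : Go n) {b : RR} (hb : b ∣ 2) : IsCoprime b n := by
  obtain ⟨u, hu⟩ := h.m4
  obtain ⟨d, hd⟩ := hb
  refine ⟨-(2 * d * u), 1, ?_⟩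
  rw [hu]
  linear_combination (2 * u) * hd

/-- multiplication by a unit modulo `n` -/
lemma bij_unit {b n : RR} (h : IsCoprime b n) :
    Function.Bijective (fun y : RR ⧸ sp n => Ideal.Quotient.mk (sp n) (b * y.out)) := by
  have hu : IsUnit (Ideal.Quotient.mk (sp n) b) := by
    obtain ⟨a, c, hab⟩ := h
    refine IsUnit.of_mul_eq_one (Ideal.Quotient.mk (sp n) a) ?_
    rw [← map_mul, ← map_one (Ideal.Quotient.mk (sp n)), Ideal.Quotient.mk_eq_mk_iff_sub_mem,
      Ideal.mem_span_singleton']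
    exact ⟨-c, by linear_combination -hab⟩
  obtain ⟨u, hu⟩ := hu
  have e1 : (fun y : RR ⧸ sp n => Ideal.Quotient.mk (sp n) (b * y.out)) =
      fun y => (Units.mulLeft u) y := by
    funext y
    rw [map_mul, Ideal.Quotient.mk_out, Units.mulLeft_apply, hu]
  rw [e1]
  exact (Units.mulLeft u).bijective

lemma Od.mul_dvd (hL : IsLat L RR Ω) {z : ℂ} (hz : Od L z) {b : RR} (hb : b ∣ 2) :
    Od L (b * z) := by
  obtain ⟨d, hd⟩ := hb
  refine ⟨fun h => hz.two.ne ?_, ?_⟩
  · have h1 := hL.mul d _ h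
    have e : (d : ℂ) * (b * z) = 2 * z := by
      have := congrArg (fun t : RR => (t : ℂ)) hd
      have e2 : ((2 : RR) : ℂ) = 2 := rfl
      push_cast at this
      rw [e2] at this
      linear_combination (-z) * this
    rwa [e] at h1
  · obtain ⟨N, hN, h2⟩ := hz.tor
    refine ⟨N, hN, ?_⟩
    have e : (N : ℂ) * (b * z) = b * (N * z) := by ring
    rw [e]
    exact hL.mul b _ h2

/-- composition with a multiplication -/
lemma Os.comp (hL : IsLat L RR Ω) {μ : RR → ℂ} {f : ℂ → ℂ} (hf : Os L Ω μ f) {b : RR}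
    (hb : b ∣ 2) : Os L Ω μ (fun z => f (b * z)) := by
  refine ⟨fun z w hz h => ?_, fun c hc _ z h1 h2 => ?_⟩
  · refine hf.per _ _ (hz.mul_dvd hL hb) ?_
    rw [← mul_sub]
    exact hL.mul b _ h
  · have hc0 := coe_ne hc.gd.ne
    have h3 := h1.mul_dvd hL hb
    have e0 : (b : ℂ) * (c * z) = c * (b * z) := by ring
    rw [e0] at h3
    have h4 := hf.dist c hc (b * z) h3 (by
      obtain ⟨N, hN, h2⟩ := h2
      refine ⟨N, hN, ?_⟩
      have e : (N : ℂ) * (b * z) = b * (N * z) := by ring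
      rw [e]
      exact hL.mul b _ h2)
    show ∑ t : RR ⧸ sp c, f (b * (z + Ω * t.out / c)) = μ c * f (b * (c * z))
    rw [e0, ← h4]
    have hod : ∀ x : RR, Od L (b * z + Ω * x / c) := by
      intro x
      refine ⟨fun hm => h3.ne ?_, ?_⟩
      · have h5 := hL.mul c _ hm
        have e : (c : ℂ) * (b * z + Ω * x / c) = c * (b * z) + Ω * x := by field_simp
        rw [e] at h5
        have := sub_mem h5 (hL.mem_mul x)
        rwa [add_sub_cancel_right] at this
      · obtain ⟨N, hN, h2⟩ := h2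
        obtain ⟨N', hN', d, hd⟩ := go_norm hc
        refine ⟨N * N', hN.mul hN', ?_⟩
        have hd' : (c : ℂ) * (d : ℂ) = N' := by
          have := congrArg (fun t : RR => (t : ℂ)) hd
          push_cast at this
          exact this
        have e : ((N * N' : ℕ) : ℂ) * (b * z + Ω * x / c) =
            ((N' * b : RR) : ℂ) * (N * z) + Ω * ((N * d * x : RR) : ℂ) := by
          push_cast
          field_simp
          linear_combination (-(x : ℂ) * Ω * N) * hd'
        rw [e]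
        exact add_mem (hL.mul _ _ h2) (hL.mem_mul _)
    rw [sum_rep _ (bij_unit (go_two hc hb)) (fun x : RR => f (b * z + Ω * x / c))
      (fun x y hxy => by
        refine hf.per _ _ (hod y) ?_
        have e : b * z + Ω * (x : ℂ) / c - (b * z + Ω * (y : ℂ) / c) =
            Ω * ((x - y : RR) : ℂ) / c := by
          push_cast
          ring
        rw [e, div_mem_iff hL hc.gd.ne]
        exact hxy)]
    refine Finset.sum_congr rfl fun t _ => ?_
    congr 1
    push_cast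
    ring

variable [Fintype (RR ⧸ sp fR)]

/-- the sum over the points of order `√-7` -/
noncomputable def Gx (Ω : ℂ) (f : ℂ → ℂ) (u : ℂ) : ℂ :=
  ∑ y : RR ⧸ sp fR, e7 y.out * f (Ω * y.out / fR + u)

omit [Fintype (RR ⧸ sp fR)] in
/-- functions on the points of order `n` with a distribution relation -/
structure Gs (Ω : ℂ) (κ : RR → ℂ) (G : ℂ → ℂ) : Prop where
  per : ∀ n : RR, Go n → ∀ x y : RR, x - y ∈ sp n → G (Ω * x / n) = G (Ω * y / n)
  dist : ∀ n c : RR, Go n → Go c → ∀ [Fintype (RR ⧸ sp c)] (y : RR),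
    ∑ t : RR ⧸ sp c, G (Ω * ((y + n * t.out : RR) : ℂ) / ((c * n : RR) : ℂ)) =
      κ c * G (Ω * y / n)

/-- change of variables in the sum over the points of order `√-7` -/
lemma Gx_mul (hL : IsLat L RR Ω) {μ : RR → ℂ} {f : ℂ → ℂ} (hf : Os L Ω μ f) {c : RR}
    (hc : IsCoprime fR c) {n : RR} (hn : Go n) (x : RR) :
    ∑ y : RR ⧸ sp fR, e7 y.out * f (c * (Ω * y.out / fR) + Ω * x / n) =
      e7 c * Gx Ω f (Ω * x / n) := by
  have hcm := not_mem_of_cop hc
  have hper : ∀ x' y : RR, x' - y ∈ sp fR →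
      e7 x' * f (Ω * x' / fR + Ω * x / n) = e7 y * f (Ω * y / fR + Ω * x / n) := by
    intro x' y hxy
    rw [e7_per hxy]
    by_cases hy : y ∈ sp fR
    · rw [e7_eq_zero.2 hy, zero_mul, zero_mul]
    · congr 1
      refine hf.per _ _ (od_pt hL hn hy x) ?_
      have h1 := (div_mem_iff hL fR_ne (x' - y)).2 hxy
      convert h1 using 1
      push_cast
      ring
  unfold Gx
  rw [sum_rep _ (bij_unit hc.symm) (fun r : RR => e7 r * f (Ω * r / fR + Ω * x / n)) hper,
    Finset.mul_sum]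
  refine Finset.sum_congr rfl fun y _ => ?_
  rw [e7_mul]
  have e2 : (Ω * ((c * y.out : RR) : ℂ) / fR + Ω * x / n) = c * (Ω * y.out / fR) + Ω * x / n := by
    push_cast
    ring
  rw [e2]
  linear_combination -(e7 y.out * f (c * (Ω * y.out / fR) + Ω * x / n)) * e7_sq hcm

theorem Os.gs (hL : IsLat L RR Ω) {μ : RR → ℂ} {f : ℂ → ℂ} (hf : Os L Ω μ f) :
    Gs Ω (fun c => μ c * e7 c) (Gx Ω f) := by
  refine ⟨fun n hn x y hxy => ?_, fun n c hn hc _ y => ?_⟩
  · unfold Gx
    refine Finset.sum_congr rfl fun z _ => ?_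
    by_cases hz : z.out ∈ sp fR
    · rw [e7_eq_zero.2 hz, zero_mul, zero_mul]
    · congr 1
      refine hf.per _ _ (od_pt hL hn hz y) ?_
      have h1 := (div_mem_iff hL hn.gd.ne (x - y)).2 hxy
      convert h1 using 1
      push_cast
      ring
  · have hc0 := coe_ne hc.gd.ne
    have hn0 := coe_ne hn.gd.ne
    show ∑ t : RR ⧸ sp c, ∑ z : RR ⧸ sp fR, e7 z.out *
      f (Ω * z.out / fR + Ω * ((y + n * t.out : RR) : ℂ) / ((c * n : RR) : ℂ)) = _
    rw [Finset.sum_comm]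
    have h1 : ∀ z : RR ⧸ sp fR, ∑ t : RR ⧸ sp c, e7 z.out *
        f (Ω * z.out / fR + Ω * ((y + n * t.out : RR) : ℂ) / ((c * n : RR) : ℂ)) =
        μ c * (e7 z.out * f (c * (Ω * z.out / fR) + Ω * y / n)) := by
      intro z
      by_cases hz : z.out ∈ sp fR
      · simp only [e7_eq_zero.2 hz, zero_mul, Finset.sum_const_zero, mul_zero]
      · rw [← Finset.mul_sum]
        have hp := od_pt hL (hc.mul hn) hz y
        have e1 : (c : ℂ) * (Ω * z.out / fR + Ω * y / ((c * n : RR) : ℂ)) =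
            Ω * ((c * z.out : RR) : ℂ) / fR + Ω * y / n := by
          have hf0 := coe_ne fR_ne
          push_cast
          field_simp
        have hcz : c * z.out ∉ sp fR := by
          intro hm
          apply hz
          rw [Ideal.mem_span_singleton] at hm ⊢
          exact hc.gd.cop.dvd_of_dvd_mul_left hm
        have h2 := hf.dist c hc (Ω * z.out / fR + Ω * y / ((c * n : RR) : ℂ))
          (by rw [e1]; exact od_pt hL hn hcz y) hp.tor
        have e2 : (c : ℂ) * (Ω * z.out / fR + Ω * y / ((c * n : RR) : ℂ)) =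
            c * (Ω * z.out / fR) + Ω * y / n := by
          push_cast
          field_simp
        rw [e2] at h2
        have h3 : ∑ t : RR ⧸ sp c, f (Ω * z.out / fR + Ω * ((y + n * t.out : RR) : ℂ) /
            ((c * n : RR) : ℂ)) = ∑ t : RR ⧸ sp c, f (Ω * z.out / fR + Ω * y / ((c * n : RR) : ℂ) +
            Ω * t.out / c) := by
          refine Finset.sum_congr rfl fun t _ => ?_
          congr 1
          push_cast
          field_simp
          ring
        rw [h3, h2]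
        ring
    rw [Finset.sum_congr rfl (fun z _ => h1 z), ← Finset.mul_sum, Gx_mul hL hf hc.gd.cop hn y]
    ring

/-- the weighted sums -/
noncomputable def Wg (Ω : ℂ) (G : ℂ → ℂ) (n : RR) (φ : RR → ℂ) : ℂ :=
  ∑ᶠ x : RR ⧸ sp n, φ x.out * G (Ω * x.out / (n : ℂ))

omit [Fintype (RR ⧸ sp fR)] in
lemma Wg_eq (G : ℂ → ℂ) (n : RR) [Fintype (RR ⧸ sp n)] (φ : RR → ℂ) :
    Wg Ω G n φ = ∑ x : RR ⧸ sp n, φ x.out * G (Ω * x.out / (n : ℂ)) :=
  finsum_eq_sum_of_fintype _

omit [Fintype (RR ⧸ sp fR)] in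
lemma Wg_term {κ : RR → ℂ} {G : ℂ → ℂ} (hG : Gs Ω κ G) {n : RR} (hn : Go n)
    {φ : RR → ℂ} (hφ : Pe n φ) {x y : RR} (h : x - y ∈ sp n) :
    φ x * G (Ω * x / (n : ℂ)) = φ y * G (Ω * y / (n : ℂ)) := by
  rw [hφ _ _ h, hG.per n hn x y h]

omit [Fintype (RR ⧸ sp fR)] in
theorem Wg_dist {κ : RR → ℂ} {G : ℂ → ℂ} (hG : Gs Ω κ G) {n q : RR} (hn : Go n) (hq : Go q)
    {φ : RR → ℂ} (hφ : Pe n φ) : Wg Ω G (q * n) φ = κ q * Wg Ω G n φ := by
  have hqn := hq.mul hn
  have f1 := fin_quot hn.gd.ne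
  have f2 := fin_quot hq.gd.ne
  have f3 := fin_quot hqn.gd.ne
  let _ : Fintype (RR ⧸ sp n) := Fintype.ofFinite _
  let _ : Fintype (RR ⧸ sp q) := Fintype.ofFinite _
  let _ : Fintype (RR ⧸ sp (q * n)) := Fintype.ofFinite _
  have hφ' : Pe (q * n) φ := hφ.mono (Dvd.intro_left q rfl)
  rw [Wg_eq, Wg_eq]
  have hb := bij_mul (R := RR) (a := q) (f := n) hn.gd.ne
  rw [sum_rep _ hb (fun x : RR => φ x * G (Ω * x / ((q * n : RR) : ℂ)))
    (fun x y h => Wg_term hG hqn hφ' h), Fintype.sum_prod_type, Finset.mul_sum]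
  refine Finset.sum_congr rfl fun y _ => ?_
  have h1 := hG.dist n q hn hq y.out
  have h2 : ∀ t : RR ⧸ sp q, φ (y.out + n * t.out) = φ y.out := by
    intro t
    apply hφ
    rw [add_sub_cancel_left, Ideal.mem_span_singleton']
    exact ⟨t.out, mul_comm _ _⟩
  simp only [h2]
  rw [← Finset.mul_sum, h1]
  ring

omit [Fintype (RR ⧸ sp fR)] in
open Classical in
/-- the multiples of `q` -/
theorem Wg_mult {κ : RR → ℂ} {G : ℂ → ℂ} (hG : Gs Ω κ G) {n q : RR} (hn : Go n) (hq : Go q)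
    {φ : RR → ℂ} (hφ : Pe n φ) :
    Wg Ω G (q * n) (fun m => if m ∈ sp q then φ m else 0) = Wg Ω G n (fun m => φ (q * m)) := by
  have hqn := hq.mul hn
  have f1 := fin_quot hn.gd.ne
  have f3 := fin_quot hqn.gd.ne
  let _ : Fintype (RR ⧸ sp n) := Fintype.ofFinite _
  let _ : Fintype (RR ⧸ sp (q * n)) := Fintype.ofFinite _
  have hφ' : Pe (q * n) φ := hφ.mono (Dvd.intro_left q rfl)
  have hq0' : (q : ℂ) ≠ 0 := coe_ne hq.gd.ne
  have hn0' : (n : ℂ) ≠ 0 := coe_ne hn.gd.ne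
  rw [Wg_eq, Wg_eq]
  -- the injection
  set g : RR ⧸ sp n → RR ⧸ sp (q * n) := fun y => Ideal.Quotient.mk _ (q * y.out) with hg
  have hginj : Function.Injective g := by
    intro y y' h
    have h1 : q * y.out - q * y'.out ∈ sp (q * n) := by
      rw [← Ideal.Quotient.mk_eq_mk_iff_sub_mem]
      exact h
    rw [Ideal.mem_span_singleton'] at h1
    obtain ⟨b, hb⟩ := h1
    apply mk_eq
    rw [Ideal.mem_span_singleton']
    refine ⟨b, ?_⟩
    apply mul_left_cancel₀ hq.gd.ne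
    linear_combination hb
  have hterm : ∀ y : RR ⧸ sp n, (if (g y).out ∈ sp q then φ (g y).out else 0) *
      G (Ω * (g y).out / ((q * n : RR) : ℂ)) =
      φ (q * y.out) * G (Ω * y.out / (n : ℂ)) := by
    intro y
    have h1 : (g y).out - q * y.out ∈ sp (q * n) := by
      have := neg_mem (out_mk (sp (q * n)) (q * y.out))
      rwa [neg_sub] at this
    have h2 : (g y).out ∈ sp q := by
      have h3 : (g y).out - q * y.out ∈ sp q := by
        rw [Ideal.mem_span_singleton'] at h1 ⊢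
        obtain ⟨b, hb⟩ := h1
        exact ⟨b * n, by linear_combination hb⟩
      have h4 := add_mem h3 (Ideal.mul_mem_right y.out (sp q) (Ideal.mem_span_singleton_self q))
      rwa [sub_add_cancel] at h4
    rw [if_pos h2, Wg_term hG hqn hφ' h1]
    congr 2
    push_cast
    field_simp
  rw [← Finset.sum_congr rfl (fun y _ => hterm y)]
  rw [← Finset.sum_image (s := Finset.univ) (g := g) (f := fun x : RR ⧸ sp (q * n) =>
    (if x.out ∈ sp q then φ x.out else 0) *
      G (Ω * x.out / ((q * n : RR) : ℂ))) (fun a _ b _ h => hginj h)]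
  symm
  refine Finset.sum_subset (Finset.subset_univ _) fun x _ hx => ?_
  rw [if_neg, zero_mul]
  intro hd
  apply hx
  rw [Ideal.mem_span_singleton'] at hd
  obtain ⟨c, hc⟩ := hd
  rw [Finset.mem_image]
  refine ⟨Ideal.Quotient.mk _ c, Finset.mem_univ _, ?_⟩
  show Ideal.Quotient.mk _ (q * (Ideal.Quotient.mk (sp n) c).out) = x
  conv_rhs => rw [← Ideal.Quotient.mk_out x]
  rw [Ideal.Quotient.mk_eq_mk_iff_sub_mem]
  have h1 := out_mk (sp n) c
  rw [Ideal.mem_span_singleton'] at h1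
  obtain ⟨b, hb⟩ := h1
  rw [Ideal.mem_span_singleton']
  exact ⟨-b, by linear_combination -q * hb - hc⟩

omit [Fintype (RR ⧸ sp fR)] in
lemma Wg_add (G : ℂ → ℂ) {n : RR} (hn : n ≠ 0) (φ φ' : RR → ℂ) :
    Wg Ω G n (fun m => φ m + φ' m) = Wg Ω G n φ + Wg Ω G n φ' := by
  have f1 := fin_quot hn
  let _ : Fintype (RR ⧸ sp n) := Fintype.ofFinite _
  rw [Wg_eq, Wg_eq, Wg_eq, ← Finset.sum_add_distrib]
  exact Finset.sum_congr rfl fun x _ => by ring

omit [Fintype (RR ⧸ sp fR)] in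
lemma Wg_smul (G : ℂ → ℂ) {n : RR} (hn : n ≠ 0) (c : ℂ) (φ : RR → ℂ) :
    Wg Ω G n (fun m => c * φ m) = c * Wg Ω G n φ := by
  have f1 := fin_quot hn
  let _ : Fintype (RR ⧸ sp n) := Fintype.ofFinite _
  rw [Wg_eq, Wg_eq, Finset.mul_sum]
  exact Finset.sum_congr rfl fun x _ => by ring

omit [Fintype (RR ⧸ sp fR)] in
theorem Gs.fl {κ : RR → ℂ} {G : ℂ → ℂ} (hG : Gs Ω κ G) : Fl κ (Wg Ω G) :=
  ⟨fun _ hn φ φ' => Wg_add G hn φ φ', fun _ hn c φ => Wg_smul G hn c φ,
    fun _ _ hn hq _ hφ => Wg_dist hG hn hq hφ, fun _ _ hn hq _ hφ => Wg_mult hG hn hq hφ⟩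

omit [Fintype (RR ⧸ sp fR)] in
lemma Pe.comp_mul {n : RR} {φ : RR → ℂ} (hφ : Pe n φ) (b : RR) : Pe n (fun m => φ (b * m)) := by
  intro x y h
  refine hφ _ _ ?_
  rw [← mul_sub]
  exact Ideal.mul_mem_left _ _ h

omit [Fintype (RR ⧸ sp fR)] in
theorem Gs.flb {κ : RR → ℂ} {G : ℂ → ℂ} (hG : Gs Ω κ G) {b : RR} (hb : b ∣ 2) :
    Fl κ (fun n φ => Wg Ω G n (fun m => φ (b * m))) := by
  classical
  refine ⟨fun n hn φ φ' => Wg_add G hn _ _, fun n hn c φ => Wg_smul G hn c _,
    fun n q hn hq φ hφ => Wg_dist hG hn hq (Pe.comp_mul hφ b), fun n q hn hq φ hφ => ?_⟩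
  have h1 := Wg_mult hG hn hq (Pe.comp_mul hφ b)
  have e1 : (fun m : RR => if b * m ∈ sp q then φ (b * m) else 0) =
      fun m : RR => if m ∈ sp q then φ (b * m) else 0 := by
    funext m
    have hcop := go_two hq hb
    have : b * m ∈ sp q ↔ m ∈ sp q := by
      rw [Ideal.mem_span_singleton, Ideal.mem_span_singleton]
      exact ⟨fun h => hcop.symm.dvd_of_dvd_mul_left h, fun h => Dvd.dvd.mul_left h _⟩
    by_cases hm : m ∈ sp q
    · rw [if_pos hm, if_pos (this.2 hm)]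
    · rw [if_neg hm, if_neg (fun h => hm (this.1 h))]
  have e2 : (fun m : RR => φ (b * (q * m))) = fun m : RR => φ (q * (b * m)) := by
    funext m
    congr 1
    ring
  have h2 : Wg Ω G (q * n) (fun m : RR => if b * m ∈ sp q then φ (b * m) else 0) =
      Wg Ω G n (fun m => φ (q * (b * m))) := by
    rw [e1, ← e2]
    exact h1
  convert h2 using 1

/-- change of variables in the weighted sums -/
theorem Wg_change (hL : IsLat L RR Ω) {μ : RR → ℂ} {f : ℂ → ℂ} (hf : Os L Ω μ f) {b : RR}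
    (hb : b ∣ 2) (hbf : IsCoprime fR b) {n : RR} (hn : Go n) {φ : RR → ℂ} (hφ : Pe n φ) :
    Wg Ω (Gx Ω f) n φ = e7 b * Wg Ω (Gx Ω (fun z => f (b * z))) n (fun m => φ (b * m)) := by
  have f1 := fin_quot hn.gd.ne
  let _ : Fintype (RR ⧸ sp n) := Fintype.ofFinite _
  have hg := hf.gs hL
  rw [Wg_eq, Wg_eq, Finset.mul_sum]
  rw [sum_rep _ (bij_unit (go_two hn hb)) (fun r : RR => φ r * Gx Ω f (Ω * r / (n : ℂ)))
    (fun x y h => Wg_term hg hn hφ h)]
  refine Finset.sum_congr rfl fun x _ => ?_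
  have h1 := Gx_mul hL hf hbf hn (b * x.out)
  have h2 : Gx Ω (fun z => f (b * z)) (Ω * x.out / (n : ℂ)) =
      ∑ y : RR ⧸ sp fR, e7 y.out * f (b * (Ω * y.out / fR) + Ω * ((b * x.out : RR) : ℂ) / n) := by
    unfold Gx
    refine Finset.sum_congr rfl fun y _ => ?_
    have e : (b : ℂ) * (Ω * y.out / fR + Ω * x.out / (n : ℂ)) =
        b * (Ω * y.out / fR) + Ω * ((b * x.out : RR) : ℂ) / n := by
      push_cast
      ring
    show e7 y.out * f (b * (Ω * y.out / fR + Ω * x.out / (n : ℂ))) = _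
    rw [e]
  rw [h2, h1]
  linear_combination (-φ (b * x.out) * Gx Ω f (Ω * ((b * x.out : RR) : ℂ) / n)) *
    e7_sq (not_mem_of_cop hbf)

end Pool.Agent.J4.H67.AW
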