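import Pool.Agent.J4.H67.AW.Dst

/-!
# Polynomial identities for the Eisenstein-Kronecker number of order two
-/

set_option autoImplicit false
set_option linter.unusedSectionVars false
set_option linter.style.longLine false

namespace Pool.Agent.J4.H67.AW

open Pool.Agent.Y698 (bl al)

/-- the remainder -/
noncomputable def tE (bl s x Y : ℂ) : ℂ :=
  (161 / 512) + (245 / 128) * Y + (-229 / 64) * Y ^ 2 + (-83 / 128) * x + (-13 / 8) * x * Y +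
  (43 / 32) * x * Y ^ 2 + (-801 / 256) * s + (-129 / 32) * s * Y + (-303 / 32) * s * Y ^ 2 +
  (-153 / 64) * s * x + (-39 / 16) * s * x * Y + (33 / 16) * s * x * Y ^ 2 +
  (-117 / 64) * s ^ 2 + (-29 / 8) * s ^ 2 * Y + (-111 / 16) * s ^ 2 * Y ^ 2 +
  (-153 / 16) * s ^ 2 * x + (-71 / 8) * s ^ 2 * x * Y + (-15 / 8) * s ^ 2 * x * Y ^ 2 +
  (-199 / 32) * s ^ 3 + (-71 / 8) * s ^ 3 * Y + (-37 / 8) * s ^ 3 * Y ^ 2 +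
  (-69 / 8) * s ^ 3 * x + (-25 / 4) * s ^ 3 * x * Y + (-5 / 4) * s ^ 3 * x * Y ^ 2 +
  (-119 / 32) * s ^ 4 + (-17 / 8) * s ^ 4 * Y + (-35 / 8) * s ^ 4 * x +
  (-5 / 2) * s ^ 4 * x * Y + (-17 / 16) * s ^ 5 + (-5 / 4) * s ^ 5 * x + (1101 / 512) * bl +
  (273 / 128) * bl * Y + (-65 / 64) * bl * Y ^ 2 + (-151 / 128) * bl * x +
  (-9 / 8) * bl * x * Y + (15 / 32) * bl * x * Y ^ 2 + (-205 / 256) * bl * s +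
  (-173 / 32) * bl * s * Y + (-67 / 32) * bl * s * Y ^ 2 + (27 / 64) * bl * s * x +
  (37 / 16) * bl * s * x * Y + (13 / 16) * bl * s * x * Y ^ 2 + (-145 / 64) * bl * s ^ 2 +
  (-25 / 8) * bl * s ^ 2 * Y + (-3 / 16) * bl * s ^ 2 * Y ^ 2 + (27 / 16) * bl * s ^ 2 * x +
  (5 / 8) * bl * s ^ 2 * x * Y + (-3 / 8) * bl * s ^ 2 * x * Y ^ 2 + (5 / 32) * bl * s ^ 3 +
  (5 / 8) * bl * s ^ 3 * Y + (-1 / 8) * bl * s ^ 3 * Y ^ 2 + (-1 / 8) * bl * s ^ 3 * x +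
  (-5 / 4) * bl * s ^ 3 * x * Y + (-1 / 4) * bl * s ^ 3 * x * Y ^ 2 + (21 / 32) * bl * s ^ 4 +
  (3 / 8) * bl * s ^ 4 * Y + (-7 / 8) * bl * s ^ 4 * x + (-1 / 2) * bl * s ^ 4 * x * Y +
  (3 / 16) * bl * s ^ 5 + (-1 / 4) * bl * s ^ 5 * x

/-- the integral form -/
noncomputable def tI {A : Type*} [CommRing A] (bl s x Y : A) : A :=
  (-23) + (-14) * Y + (-8) * Y ^ 2 + 10 * x + 4 * x * Y + 2 * x * Y ^ 2 + (-8) * s +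
  40 * s * Y + (-28) * s * Y ^ 2 + (-18) * s * x + (-40) * s * x * Y + 2 * s * x * Y ^ 2 +
  16 * s ^ 2 + 16 * s ^ 2 * Y + (-36) * s ^ 2 * Y ^ 2 + (-72) * s ^ 2 * x +
  (-56) * s ^ 2 * x * Y + (-6) * s ^ 2 * x * Y ^ 2 + (-36) * s ^ 3 + (-56) * s ^ 3 * Y +
  (-24) * s ^ 3 * Y ^ 2 + (-46) * s ^ 3 * x + (-20) * s ^ 3 * x * Y +
  (-4) * s ^ 3 * x * Y ^ 2 + (-28) * s ^ 4 + (-16) * s ^ 4 * Y + (-14) * s ^ 4 * x +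
  (-8) * s ^ 4 * x * Y + (-8) * s ^ 5 + (-4) * s ^ 5 * x + 26 * bl + 35 * bl * Y +
  (-32) * bl * Y ^ 2 + (-17) * bl * x + (-22) * bl * x * Y + 13 * bl * x * Y ^ 2 +
  (-27) * bl * s + (-84) * bl * s * Y + (-78) * bl * s * Y ^ 2 + (-9) * bl * s * x +
  12 * bl * s * x * Y + 21 * bl * s * x * Y ^ 2 + (-36) * bl * s ^ 2 + (-56) * bl * s ^ 2 * Y +
  (-42) * bl * s ^ 2 * Y ^ 2 + (-36) * bl * s ^ 2 * x + (-44) * bl * s ^ 2 * x * Y +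
  (-15) * bl * s ^ 2 * x * Y ^ 2 + (-34) * bl * s ^ 3 + (-44) * bl * s ^ 3 * Y +
  (-28) * bl * s ^ 3 * Y ^ 2 + (-51) * bl * s ^ 3 * x + (-50) * bl * s ^ 3 * x * Y +
  (-10) * bl * s ^ 3 * x * Y ^ 2 + (-14) * bl * s ^ 4 + (-8) * bl * s ^ 4 * Y +
  (-35) * bl * s ^ 4 * x + (-20) * bl * s ^ 4 * x * Y + (-4) * bl * s ^ 5 +
  (-10) * bl * s ^ 5 * x

set_option maxHeartbeats 4000000 in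
lemma tE_eq (s x Y : ℂ) : bl ^ 11 * tE bl s x Y = 4 * tI bl s x Y := by
  unfold tE tI
  linear_combination (
    46 + 28 * Y + 16 * Y ^ 2 + (-20) * x + (-8) * x * Y + (-4) * x * Y ^ 2 + 16 * s +
    (-80) * s * Y + 56 * s * Y ^ 2 + 36 * s * x + 80 * s * x * Y + (-4) * s * x * Y ^ 2 +
    (-32) * s ^ 2 + (-32) * s ^ 2 * Y + 72 * s ^ 2 * Y ^ 2 + 144 * s ^ 2 * x +
    112 * s ^ 2 * x * Y + 12 * s ^ 2 * x * Y ^ 2 + 72 * s ^ 3 + 112 * s ^ 3 * Y +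
    48 * s ^ 3 * Y ^ 2 + 92 * s ^ 3 * x + 40 * s ^ 3 * x * Y + 8 * s ^ 3 * x * Y ^ 2 +
    56 * s ^ 4 + 32 * s ^ 4 * Y + 28 * s ^ 4 * x + 16 * s ^ 4 * x * Y + 16 * s ^ 5 +
    8 * s ^ 5 * x + (-29) * bl + (-56) * bl * Y + 72 * bl * Y ^ 2 + 24 * bl * x +
    40 * bl * x * Y + (-28) * bl * x * Y ^ 2 + 62 * bl * s + 128 * bl * s * Y +
    184 * bl * s * Y ^ 2 + 36 * bl * s * x + 16 * bl * s * x * Y + (-44) * bl * s * x * Y ^ 2 +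
    56 * bl * s ^ 2 + 96 * bl * s ^ 2 * Y + 120 * bl * s ^ 2 * Y ^ 2 + 144 * bl * s ^ 2 * x +
    144 * bl * s ^ 2 * x * Y + 36 * bl * s ^ 2 * x * Y ^ 2 + 104 * bl * s ^ 3 +
    144 * bl * s ^ 3 * Y + 80 * bl * s ^ 3 * Y ^ 2 + 148 * bl * s ^ 3 * x +
    120 * bl * s ^ 3 * x * Y + 24 * bl * s ^ 3 * x * Y ^ 2 + 56 * bl * s ^ 4 +
    32 * bl * s ^ 4 * Y + 84 * bl * s ^ 4 * x + 48 * bl * s ^ 4 * x * Y + 16 * bl * s ^ 5 +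
    24 * bl * s ^ 5 * x + (-75 / 2) * bl ^ 2 + (-42) * bl ^ 2 * Y + 28 * bl ^ 2 * Y ^ 2 +
    22 * bl ^ 2 * x + 24 * bl ^ 2 * x * Y + (-12) * bl ^ 2 * x * Y ^ 2 + 23 * bl ^ 2 * s +
    104 * bl ^ 2 * s * Y + 64 * bl ^ 2 * s * Y ^ 2 + (-32) * bl ^ 2 * s * x * Y +
    (-20) * bl ^ 2 * s * x * Y ^ 2 + 44 * bl ^ 2 * s ^ 2 + 64 * bl ^ 2 * s ^ 2 * Y +
    24 * bl ^ 2 * s ^ 2 * Y ^ 2 + 16 * bl ^ 2 * s ^ 2 * x * Y +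
    12 * bl ^ 2 * s ^ 2 * x * Y ^ 2 + 16 * bl ^ 2 * s ^ 3 + 16 * bl ^ 2 * s ^ 3 * Y +
    16 * bl ^ 2 * s ^ 3 * Y ^ 2 + 28 * bl ^ 2 * s ^ 3 * x + 40 * bl ^ 2 * s ^ 3 * x * Y +
    8 * bl ^ 2 * s ^ 3 * x * Y ^ 2 + 28 * bl ^ 2 * s ^ 4 * x + 16 * bl ^ 2 * s ^ 4 * x * Y +
    8 * bl ^ 2 * s ^ 5 * x + (-17 / 4) * bl ^ 3 + 7 * bl ^ 3 * Y + (-22) * bl ^ 3 * Y ^ 2 +
    (-1) * bl ^ 3 * x + (-8) * bl ^ 3 * x * Y + 8 * bl ^ 3 * x * Y ^ 2 +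
    (-39 / 2) * bl ^ 3 * s + (-12) * bl ^ 3 * s * Y + (-60) * bl ^ 3 * s * Y ^ 2 +
    (-18) * bl ^ 3 * s * x + (-24) * bl ^ 3 * s * x * Y + 12 * bl ^ 3 * s * x * Y ^ 2 +
    (-6) * bl ^ 3 * s ^ 2 + (-16) * bl ^ 3 * s ^ 2 * Y + (-48) * bl ^ 3 * s ^ 2 * Y ^ 2 +
    (-72) * bl ^ 3 * s ^ 2 * x + (-64) * bl ^ 3 * s ^ 2 * x * Y +
    (-12) * bl ^ 3 * s ^ 2 * x * Y ^ 2 + (-44) * bl ^ 3 * s ^ 3 + (-64) * bl ^ 3 * s ^ 3 * Y +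
    (-32) * bl ^ 3 * s ^ 3 * Y ^ 2 + (-60) * bl ^ 3 * s ^ 3 * x +
    (-40) * bl ^ 3 * s ^ 3 * x * Y + (-8) * bl ^ 3 * s ^ 3 * x * Y ^ 2 +
    (-28) * bl ^ 3 * s ^ 4 + (-16) * bl ^ 3 * s ^ 4 * Y + (-28) * bl ^ 3 * s ^ 4 * x +
    (-16) * bl ^ 3 * s ^ 4 * x * Y + (-8) * bl ^ 3 * s ^ 5 + (-8) * bl ^ 3 * s ^ 5 * x +
    (133 / 8) * bl ^ 4 + (49 / 2) * bl ^ 4 * Y + (-25) * bl ^ 4 * Y ^ 2 +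
    (-23 / 2) * bl ^ 4 * x + (-16) * bl ^ 4 * x * Y + 10 * bl ^ 4 * x * Y ^ 2 +
    (-85 / 4) * bl ^ 4 * s + (-58) * bl ^ 4 * s * Y + (-62) * bl ^ 4 * s * Y ^ 2 +
    (-9) * bl ^ 4 * s * x + 4 * bl ^ 4 * s * x * Y + 16 * bl ^ 4 * s * x * Y ^ 2 +
    (-25) * bl ^ 4 * s ^ 2 + (-40) * bl ^ 4 * s ^ 2 * Y + (-36) * bl ^ 4 * s ^ 2 * Y ^ 2 +
    (-36) * bl ^ 4 * s ^ 2 * x + (-40) * bl ^ 4 * s ^ 2 * x * Y +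
    (-12) * bl ^ 4 * s ^ 2 * x * Y ^ 2 + (-30) * bl ^ 4 * s ^ 3 + (-40) * bl ^ 4 * s ^ 3 * Y +
    (-24) * bl ^ 4 * s ^ 3 * Y ^ 2 + (-44) * bl ^ 4 * s ^ 3 * x +
    (-40) * bl ^ 4 * s ^ 3 * x * Y + (-8) * bl ^ 4 * s ^ 3 * x * Y ^ 2 +
    (-14) * bl ^ 4 * s ^ 4 + (-8) * bl ^ 4 * s ^ 4 * Y + (-28) * bl ^ 4 * s ^ 4 * x +
    (-16) * bl ^ 4 * s ^ 4 * x * Y + (-4) * bl ^ 4 * s ^ 5 + (-8) * bl ^ 4 * s ^ 5 * x +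
    (167 / 16) * bl ^ 5 + (35 / 4) * bl ^ 5 * Y + (-3 / 2) * bl ^ 5 * Y ^ 2 +
    (-21 / 4) * bl ^ 5 * x + (-4) * bl ^ 5 * x * Y + 1 * bl ^ 5 * x * Y ^ 2 +
    (-7 / 8) * bl ^ 5 * s + (-23) * bl ^ 5 * s * Y + (-1) * bl ^ 5 * s * Y ^ 2 +
    (9 / 2) * bl ^ 5 * s * x + 14 * bl ^ 5 * s * x * Y + 2 * bl ^ 5 * s * x * Y ^ 2 +
    (-19 / 2) * bl ^ 5 * s ^ 2 + (-12) * bl ^ 5 * s ^ 2 * Y + 6 * bl ^ 5 * s ^ 2 * Y ^ 2 +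
    18 * bl ^ 5 * s ^ 2 * x + 12 * bl ^ 5 * s ^ 2 * x * Y + 7 * bl ^ 5 * s ^ 3 +
    12 * bl ^ 5 * s ^ 3 * Y + 4 * bl ^ 5 * s ^ 3 * Y ^ 2 + 8 * bl ^ 5 * s ^ 3 * x +
    7 * bl ^ 5 * s ^ 4 + 4 * bl ^ 5 * s ^ 4 * Y + 2 * bl ^ 5 * s ^ 5 + (-99 / 32) * bl ^ 6 +
    (-63 / 8) * bl ^ 6 * Y + (47 / 4) * bl ^ 6 * Y ^ 2 + (25 / 8) * bl ^ 6 * x +
    6 * bl ^ 6 * x * Y + (-9 / 2) * bl ^ 6 * x * Y ^ 2 + (163 / 16) * bl ^ 6 * s +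
    (35 / 2) * bl ^ 6 * s * Y + (61 / 2) * bl ^ 6 * s * Y ^ 2 + (27 / 4) * bl ^ 6 * s * x +
    5 * bl ^ 6 * s * x * Y + (-7) * bl ^ 6 * s * x * Y ^ 2 + (31 / 4) * bl ^ 6 * s ^ 2 +
    14 * bl ^ 6 * s ^ 2 * Y + 21 * bl ^ 6 * s ^ 2 * Y ^ 2 + 27 * bl ^ 6 * s ^ 2 * x +
    26 * bl ^ 6 * s ^ 2 * x * Y + 6 * bl ^ 6 * s ^ 2 * x * Y ^ 2 + (37 / 2) * bl ^ 6 * s ^ 3 +
    26 * bl ^ 6 * s ^ 3 * Y + 14 * bl ^ 6 * s ^ 3 * Y ^ 2 + 26 * bl ^ 6 * s ^ 3 * x +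
    20 * bl ^ 6 * s ^ 3 * x * Y + 4 * bl ^ 6 * s ^ 3 * x * Y ^ 2 + (21 / 2) * bl ^ 6 * s ^ 4 +
    6 * bl ^ 6 * s ^ 4 * Y + 14 * bl ^ 6 * s ^ 4 * x + 8 * bl ^ 6 * s ^ 4 * x * Y +
    3 * bl ^ 6 * s ^ 5 + 4 * bl ^ 6 * s ^ 5 * x + (-433 / 64) * bl ^ 7 +
    (-133 / 16) * bl ^ 7 * Y + (53 / 8) * bl ^ 7 * Y ^ 2 + (67 / 16) * bl ^ 7 * x +
    5 * bl ^ 7 * x * Y + (-11 / 4) * bl ^ 7 * x * Y ^ 2 + (177 / 32) * bl ^ 7 * s +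
    (81 / 4) * bl ^ 7 * s * Y + (63 / 4) * bl ^ 7 * s * Y ^ 2 + (9 / 8) * bl ^ 7 * s * x +
    (-9 / 2) * bl ^ 7 * s * x * Y + (-9 / 2) * bl ^ 7 * s * x * Y ^ 2 +
    (69 / 8) * bl ^ 7 * s ^ 2 + 13 * bl ^ 7 * s ^ 2 * Y + (15 / 2) * bl ^ 7 * s ^ 2 * Y ^ 2 +
    (9 / 2) * bl ^ 7 * s ^ 2 * x + 7 * bl ^ 7 * s ^ 2 * x * Y +
    3 * bl ^ 7 * s ^ 2 * x * Y ^ 2 + (23 / 4) * bl ^ 7 * s ^ 3 + 7 * bl ^ 7 * s ^ 3 * Y +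
    5 * bl ^ 7 * s ^ 3 * Y ^ 2 + 9 * bl ^ 7 * s ^ 3 * x + 10 * bl ^ 7 * s ^ 3 * x * Y +
    2 * bl ^ 7 * s ^ 3 * x * Y ^ 2 + (7 / 4) * bl ^ 7 * s ^ 4 + 1 * bl ^ 7 * s ^ 4 * Y +
    7 * bl ^ 7 * s ^ 4 * x + 4 * bl ^ 7 * s ^ 4 * x * Y + (1 / 2) * bl ^ 7 * s ^ 5 +
    2 * bl ^ 7 * s ^ 5 * x + (-235 / 128) * bl ^ 8 + (-7 / 32) * bl ^ 8 * Y +
    (-41 / 16) * bl ^ 8 * Y ^ 2 + (17 / 32) * bl ^ 8 * x + (-1 / 2) * bl ^ 8 * x * Y +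
    (7 / 8) * bl ^ 8 * x * Y ^ 2 + (-149 / 64) * bl ^ 8 * s + (11 / 8) * bl ^ 8 * s * Y +
    (-59 / 8) * bl ^ 8 * s * Y ^ 2 + (-45 / 16) * bl ^ 8 * s * x +
    (-19 / 4) * bl ^ 8 * s * x * Y + (5 / 4) * bl ^ 8 * s * x * Y ^ 2 +
    (7 / 16) * bl ^ 8 * s ^ 2 + (-1 / 2) * bl ^ 8 * s ^ 2 * Y +
    (-27 / 4) * bl ^ 8 * s ^ 2 * Y ^ 2 + (-45 / 4) * bl ^ 8 * s ^ 2 * x +
    (-19 / 2) * bl ^ 8 * s ^ 2 * x * Y + (-3 / 2) * bl ^ 8 * s ^ 2 * x * Y ^ 2 +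
    (-51 / 8) * bl ^ 8 * s ^ 3 + (-19 / 2) * bl ^ 8 * s ^ 3 * Y +
    (-9 / 2) * bl ^ 8 * s ^ 3 * Y ^ 2 + (-17 / 2) * bl ^ 8 * s ^ 3 * x +
    (-5) * bl ^ 8 * s ^ 3 * x * Y + (-1) * bl ^ 8 * s ^ 3 * x * Y ^ 2 +
    (-35 / 8) * bl ^ 8 * s ^ 4 + (-5 / 2) * bl ^ 8 * s ^ 4 * Y +
    (-7 / 2) * bl ^ 8 * s ^ 4 * x + (-2) * bl ^ 8 * s ^ 4 * x * Y + (-5 / 4) * bl ^ 8 * s ^ 5 +
    (-1) * bl ^ 8 * s ^ 5 * x + (631 / 256) * bl ^ 9 + (259 / 64) * bl ^ 9 * Y +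
    (-147 / 32) * bl ^ 9 * Y ^ 2 + (-117 / 64) * bl ^ 9 * x + (-11 / 4) * bl ^ 9 * x * Y +
    (29 / 16) * bl ^ 9 * x * Y ^ 2 + (-503 / 128) * bl ^ 9 * s + (-151 / 16) * bl ^ 9 * s * Y +
    (-185 / 16) * bl ^ 9 * s * Y ^ 2 + (-63 / 32) * bl ^ 9 * s * x +
    (-1 / 8) * bl ^ 9 * s * x * Y + (23 / 8) * bl ^ 9 * s * x * Y ^ 2 +
    (-131 / 32) * bl ^ 9 * s ^ 2 + (-27 / 4) * bl ^ 9 * s ^ 2 * Y +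
    (-57 / 8) * bl ^ 9 * s ^ 2 * Y ^ 2 + (-63 / 8) * bl ^ 9 * s ^ 2 * x +
    (-33 / 4) * bl ^ 9 * s ^ 2 * x * Y + (-9 / 4) * bl ^ 9 * s ^ 2 * x * Y ^ 2 +
    (-97 / 16) * bl ^ 9 * s ^ 3 + (-33 / 4) * bl ^ 9 * s ^ 3 * Y +
    (-19 / 4) * bl ^ 9 * s ^ 3 * Y ^ 2 + (-35 / 4) * bl ^ 9 * s ^ 3 * x +
    (-15 / 2) * bl ^ 9 * s ^ 3 * x * Y + (-3 / 2) * bl ^ 9 * s ^ 3 * x * Y ^ 2 +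
    (-49 / 16) * bl ^ 9 * s ^ 4 + (-7 / 4) * bl ^ 9 * s ^ 4 * Y +
    (-21 / 4) * bl ^ 9 * s ^ 4 * x + (-3) * bl ^ 9 * s ^ 4 * x * Y +
    (-7 / 8) * bl ^ 9 * s ^ 5 + (-3 / 2) * bl ^ 9 * s ^ 5 * x + (1101 / 512) * bl ^ 10 +
    (273 / 128) * bl ^ 10 * Y + (-65 / 64) * bl ^ 10 * Y ^ 2 + (-151 / 128) * bl ^ 10 * x +
    (-9 / 8) * bl ^ 10 * x * Y + (15 / 32) * bl ^ 10 * x * Y ^ 2 + (-205 / 256) * bl ^ 10 * s +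
    (-173 / 32) * bl ^ 10 * s * Y + (-67 / 32) * bl ^ 10 * s * Y ^ 2 +
    (27 / 64) * bl ^ 10 * s * x + (37 / 16) * bl ^ 10 * s * x * Y +
    (13 / 16) * bl ^ 10 * s * x * Y ^ 2 + (-145 / 64) * bl ^ 10 * s ^ 2 +
    (-25 / 8) * bl ^ 10 * s ^ 2 * Y + (-3 / 16) * bl ^ 10 * s ^ 2 * Y ^ 2 +
    (27 / 16) * bl ^ 10 * s ^ 2 * x + (5 / 8) * bl ^ 10 * s ^ 2 * x * Y +
    (-3 / 8) * bl ^ 10 * s ^ 2 * x * Y ^ 2 + (5 / 32) * bl ^ 10 * s ^ 3 +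
    (5 / 8) * bl ^ 10 * s ^ 3 * Y + (-1 / 8) * bl ^ 10 * s ^ 3 * Y ^ 2 +
    (-1 / 8) * bl ^ 10 * s ^ 3 * x + (-5 / 4) * bl ^ 10 * s ^ 3 * x * Y +
    (-1 / 4) * bl ^ 10 * s ^ 3 * x * Y ^ 2 + (21 / 32) * bl ^ 10 * s ^ 4 +
    (3 / 8) * bl ^ 10 * s ^ 4 * Y + (-7 / 8) * bl ^ 10 * s ^ 4 * x +
    (-1 / 2) * bl ^ 10 * s ^ 4 * x * Y + (3 / 16) * bl ^ 10 * s ^ 5 +
    (-1 / 4) * bl ^ 10 * s ^ 5 * x) * bl_sq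

set_option maxHeartbeats 4000000 in
lemma alg_id {s x Y : ℂ} (hrel : x ^ 2 + ((bl - 3) / 4 - 1 - s ^ 2 - s) * x +
    (((bl - 3) / 4) ^ 2 - (bl - 3) / 4 / 2 - 2 + (s ^ 2 + s) * ((bl - 3) / 4)) = 0)
    {xb pb Yb : ℂ} (hx : xb = (s ^ 2 + s + 1 - (bl - 3) / 4) * ((1 - bl) / 2) ^ 2)
    (hp : pb = (2 * s + 1) * (2 * x + (bl - 3) / 4 - 1 - s ^ 2 - s) * ((1 - bl) / 2) ^ 3)
    (hY : Yb = (1 - bl) / 2 * (2 * Y + s) + (1 + bl) * ((1 - bl) / 2) ^ 2) :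
    (-4 * Yb * xb ^ 2 - 2 * xb ^ 2 + 3 * Yb * xb + 3 / 2 * xb + pb / 2 + 4 * Yb + 2 -
      (Yb ^ 2 + Yb) * pb - xb * pb) * (x - 2) + (1 - 2 * bl) * ((1 - bl) / 2) ^ 5 * (2 * s + 1) =
      tE bl s x Y := by
  rw [hx, hp, hY]
  unfold tE
  linear_combination (
    (-1 / 16) + (-3 / 8) * Y + (-1 / 4) * Y ^ 2 + (-3 / 8) * s + (-1) * s * Y +
    (-1 / 2) * s * Y ^ 2 + (-5 / 8) * s ^ 2 + (-1 / 2) * s ^ 2 * Y + (-1 / 4) * s ^ 3 +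
    (33 / 64) * bl + (13 / 8) * bl * Y + (5 / 4) * bl * Y ^ 2 + (69 / 32) * bl * s +
    (9 / 2) * bl * s * Y + (5 / 2) * bl * s * Y ^ 2 + (23 / 8) * bl * s ^ 2 +
    (5 / 2) * bl * s ^ 2 * Y + (5 / 4) * bl * s ^ 3 + (-79 / 64) * bl ^ 2 +
    (-21 / 8) * bl ^ 2 * Y + (-5 / 2) * bl ^ 2 * Y ^ 2 + (-141 / 32) * bl ^ 2 * s +
    (-31 / 4) * bl ^ 2 * s * Y + (-5) * bl ^ 2 * s * Y ^ 2 + (-41 / 8) * bl ^ 2 * s ^ 2 +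
    (-5) * bl ^ 2 * s ^ 2 * Y + (-5 / 2) * bl ^ 2 * s ^ 3 + (9 / 8) * bl ^ 3 +
    (13 / 8) * bl ^ 3 * Y + (5 / 2) * bl ^ 3 * Y ^ 2 + (59 / 16) * bl ^ 3 * s +
    (23 / 4) * bl ^ 3 * s * Y + 5 * bl ^ 3 * s * Y ^ 2 + (33 / 8) * bl ^ 3 * s ^ 2 +
    5 * bl ^ 3 * s ^ 2 * Y + (5 / 2) * bl ^ 3 * s ^ 3 + (-11 / 64) * bl ^ 4 +
    (3 / 8) * bl ^ 4 * Y + (-5 / 4) * bl ^ 4 * Y ^ 2 + (-15 / 32) * bl ^ 4 * s +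
    (-1 / 2) * bl ^ 4 * s * Y + (-5 / 2) * bl ^ 4 * s * Y ^ 2 + (-7 / 8) * bl ^ 4 * s ^ 2 +
    (-5 / 2) * bl ^ 4 * s ^ 2 * Y + (-5 / 4) * bl ^ 4 * s ^ 3 + (-9 / 32) * bl ^ 5 +
    (-9 / 8) * bl ^ 5 * Y + (1 / 4) * bl ^ 5 * Y ^ 2 + (-17 / 16) * bl ^ 5 * s +
    (-2) * bl ^ 5 * s * Y + (1 / 2) * bl ^ 5 * s * Y ^ 2 + (-7 / 8) * bl ^ 5 * s ^ 2 +
    (1 / 2) * bl ^ 5 * s ^ 2 * Y + (1 / 4) * bl ^ 5 * s ^ 3 + (3 / 64) * bl ^ 6 +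
    (5 / 8) * bl ^ 6 * Y + (13 / 32) * bl ^ 6 * s + (5 / 4) * bl ^ 6 * s * Y +
    (5 / 8) * bl ^ 6 * s ^ 2 + (1 / 8) * bl ^ 7 + (-1 / 8) * bl ^ 7 * Y +
    (3 / 16) * bl ^ 7 * s + (-1 / 4) * bl ^ 7 * s * Y + (-1 / 8) * bl ^ 7 * s ^ 2 +
    (-5 / 64) * bl ^ 8 + (-5 / 32) * bl ^ 8 * s + (1 / 64) * bl ^ 9 + (1 / 32) * bl ^ 9 * s) * hrel + (
    (-3727 / 1024) + (-193 / 32) * Y + (23 / 16) * Y ^ 2 + (1057 / 512) * x +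
    (211 / 64) * x * Y + (-17 / 32) * x * Y ^ 2 + (-597 / 512) * s + (13 / 32) * s * Y +
    (61 / 16) * s * Y ^ 2 + (635 / 256) * s * x + (13 / 8) * s * x * Y +
    (-13 / 16) * s * x * Y ^ 2 + (-1 / 256) * s ^ 2 + (9 / 32) * s ^ 2 * Y +
    (45 / 16) * s ^ 2 * Y ^ 2 + (621 / 128) * s ^ 2 * x + (67 / 16) * s ^ 2 * x * Y +
    (3 / 4) * s ^ 2 * x * Y ^ 2 + (313 / 128) * s ^ 3 + (29 / 8) * s ^ 3 * Y +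
    (15 / 8) * s ^ 3 * Y ^ 2 + (251 / 64) * s ^ 3 * x + (5 / 2) * s ^ 3 * x * Y +
    (1 / 2) * s ^ 3 * x * Y ^ 2 + (49 / 32) * s ^ 4 + (7 / 8) * s ^ 4 * Y +
    (7 / 4) * s ^ 4 * x + 1 * s ^ 4 * x * Y + (7 / 16) * s ^ 5 + (1 / 2) * s ^ 5 * x +
    (-769 / 512) * bl + (143 / 64) * bl * Y + (189 / 64) * bl * Y ^ 2 + (483 / 512) * bl * x +
    (-23 / 32) * bl * x * Y + (-19 / 16) * bl * x * Y ^ 2 + (885 / 256) * bl * s +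
    (533 / 64) * bl * s * Y + (241 / 32) * bl * s * Y ^ 2 + (-61 / 256) * bl * s * x +
    (-41 / 32) * bl * s * x * Y + (-15 / 8) * bl * s * x * Y ^ 2 + (1005 / 256) * bl * s ^ 2 +
    (115 / 16) * bl * s ^ 2 * Y + (39 / 8) * bl * s ^ 2 * Y ^ 2 + (157 / 64) * bl * s ^ 2 * x +
    (59 / 16) * bl * s ^ 2 * x * Y + (3 / 2) * bl * s ^ 2 * x * Y ^ 2 +
    (515 / 128) * bl * s ^ 3 + (85 / 16) * bl * s ^ 3 * Y + (13 / 4) * bl * s ^ 3 * Y ^ 2 +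
    (137 / 32) * bl * s ^ 3 * x + (39 / 8) * bl * s ^ 3 * x * Y + 1 * bl * s ^ 3 * x * Y ^ 2 +
    (67 / 32) * bl * s ^ 4 + (5 / 4) * bl * s ^ 4 * Y + (27 / 8) * bl * s ^ 4 * x +
    2 * bl * s ^ 4 * x * Y + (5 / 8) * bl * s ^ 5 + 1 * bl * s ^ 5 * x +
    (3905 / 1024) * bl ^ 2 + (315 / 64) * bl ^ 2 * Y + (-83 / 32) * bl ^ 2 * Y ^ 2 +
    (-499 / 256) * bl ^ 2 * x + (-177 / 64) * bl ^ 2 * x * Y + 1 * bl ^ 2 * x * Y ^ 2 +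
    (1157 / 512) * bl ^ 2 * s + (-55 / 32) * bl ^ 2 * s * Y +
    (-115 / 16) * bl ^ 2 * s * Y ^ 2 + (-161 / 64) * bl ^ 2 * s * x +
    (-51 / 32) * bl ^ 2 * s * x * Y + (3 / 2) * bl ^ 2 * s * x * Y ^ 2 +
    (-129 / 128) * bl ^ 2 * s ^ 2 + (-111 / 32) * bl ^ 2 * s ^ 2 * Y +
    (-6) * bl ^ 2 * s ^ 2 * Y ^ 2 + (-143 / 32) * bl ^ 2 * s ^ 2 * x +
    (-5) * bl ^ 2 * s ^ 2 * x * Y + (-3 / 2) * bl ^ 2 * s ^ 2 * x * Y ^ 2 +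
    (-131 / 32) * bl ^ 2 * s ^ 3 + (-99 / 16) * bl ^ 2 * s ^ 3 * Y +
    (-4) * bl ^ 2 * s ^ 3 * Y ^ 2 + (-147 / 32) * bl ^ 2 * s ^ 3 * x +
    (-9 / 2) * bl ^ 2 * s ^ 3 * x * Y + (-1) * bl ^ 2 * s ^ 3 * x * Y ^ 2 +
    (-99 / 32) * bl ^ 2 * s ^ 4 + (-2) * bl ^ 2 * s ^ 4 * Y + (-3) * bl ^ 2 * s ^ 4 * x +
    (-2) * bl ^ 2 * s ^ 4 * x * Y + (-1) * bl ^ 2 * s ^ 5 + (-1) * bl ^ 2 * s ^ 5 * x +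
    (-1593 / 1024) * bl ^ 3 + (-307 / 64) * bl ^ 3 * Y + (25 / 64) * bl ^ 3 * Y ^ 2 +
    (295 / 512) * bl ^ 3 * x + (9 / 4) * bl ^ 3 * x * Y + (-5 / 32) * bl ^ 3 * x * Y ^ 2 +
    (-1909 / 512) * bl ^ 3 * s + (-355 / 64) * bl ^ 3 * s * Y +
    (47 / 32) * bl ^ 3 * s * Y ^ 2 + (331 / 256) * bl ^ 3 * s * x +
    (17 / 8) * bl ^ 3 * s * x * Y + (-3 / 16) * bl ^ 3 * s * x * Y ^ 2 +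
    (-459 / 256) * bl ^ 3 * s ^ 2 + (-3) * bl ^ 3 * s ^ 2 * Y +
    (33 / 16) * bl ^ 3 * s ^ 2 * Y ^ 2 + (51 / 128) * bl ^ 3 * s ^ 2 * x +
    (7 / 8) * bl ^ 3 * s ^ 2 * x * Y + (3 / 8) * bl ^ 3 * s ^ 2 * x * Y ^ 2 +
    (-47 / 128) * bl ^ 3 * s ^ 3 + (1 / 4) * bl ^ 3 * s ^ 3 * Y +
    (11 / 8) * bl ^ 3 * s ^ 3 * Y ^ 2 + (1 / 64) * bl ^ 3 * s ^ 3 * x +
    (1 / 2) * bl ^ 3 * s ^ 3 * x * Y + (1 / 4) * bl ^ 3 * s ^ 3 * x * Y ^ 2 +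
    (27 / 32) * bl ^ 3 * s ^ 4 + (7 / 8) * bl ^ 3 * s ^ 4 * Y + (1 / 8) * bl ^ 3 * s ^ 4 * x +
    (1 / 2) * bl ^ 3 * s ^ 4 * x * Y + (7 / 16) * bl ^ 3 * s ^ 5 +
    (1 / 4) * bl ^ 3 * s ^ 5 * x + (-1085 / 1024) * bl ^ 4 + (31 / 16) * bl ^ 4 * Y +
    (1 / 8) * bl ^ 4 * Y ^ 2 + (41 / 64) * bl ^ 4 * x + (-51 / 64) * bl ^ 4 * x * Y +
    (-1 / 32) * bl ^ 4 * x * Y ^ 2 + (379 / 512) * bl ^ 4 * s + (131 / 32) * bl ^ 4 * s * Y +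
    (3 / 16) * bl ^ 4 * s * Y ^ 2 + (31 / 128) * bl ^ 4 * s * x +
    (-15 / 16) * bl ^ 4 * s * x * Y + (-1 / 16) * bl ^ 4 * s * x * Y ^ 2 +
    (53 / 64) * bl ^ 4 * s ^ 2 + (107 / 32) * bl ^ 4 * s ^ 2 * Y +
    (-3 / 16) * bl ^ 4 * s ^ 2 * Y ^ 2 + (133 / 128) * bl ^ 4 * s ^ 2 * x +
    (9 / 16) * bl ^ 4 * s ^ 2 * x * Y + (45 / 32) * bl ^ 4 * s ^ 3 +
    (7 / 4) * bl ^ 4 * s ^ 3 * Y + (-1 / 8) * bl ^ 4 * s ^ 3 * Y ^ 2 +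
    (63 / 64) * bl ^ 4 * s ^ 3 * x + (1 / 2) * bl ^ 4 * s ^ 3 * x * Y +
    (11 / 32) * bl ^ 4 * s ^ 4 + (-1 / 8) * bl ^ 4 * s ^ 4 * Y + (1 / 2) * bl ^ 4 * s ^ 4 * x +
    (-1 / 16) * bl ^ 4 * s ^ 5 + (1015 / 1024) * bl ^ 5 + (-15 / 64) * bl ^ 5 * Y +
    (-1 / 64) * bl ^ 5 * Y ^ 2 + (-247 / 512) * bl ^ 5 * x + (3 / 32) * bl ^ 5 * x * Y +
    (443 / 512) * bl ^ 5 * s + (-49 / 64) * bl ^ 5 * s * Y + (-1 / 32) * bl ^ 5 * s * Y ^ 2 +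
    (-103 / 256) * bl ^ 5 * s * x + (3 / 32) * bl ^ 5 * s * x * Y +
    (111 / 256) * bl ^ 5 * s ^ 2 + (-17 / 16) * bl ^ 5 * s ^ 2 * Y +
    (-5 / 16) * bl ^ 5 * s ^ 2 * x + (-3 / 16) * bl ^ 5 * s ^ 2 * x * Y +
    (-35 / 128) * bl ^ 5 * s ^ 3 + (-11 / 16) * bl ^ 5 * s ^ 3 * Y +
    (-3 / 16) * bl ^ 5 * s ^ 3 * x + (-1 / 8) * bl ^ 5 * s ^ 3 * x * Y +
    (-7 / 32) * bl ^ 5 * s ^ 4 + (-1 / 8) * bl ^ 5 * s ^ 4 * x + (-329 / 1024) * bl ^ 6 +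
    (-1 / 16) * bl ^ 6 * Y + (35 / 256) * bl ^ 6 * x + (1 / 64) * bl ^ 6 * x * Y +
    (-293 / 512) * bl ^ 6 * s + (-3 / 32) * bl ^ 6 * s * Y + (9 / 64) * bl ^ 6 * s * x +
    (1 / 32) * bl ^ 6 * s * x * Y + (-59 / 128) * bl ^ 6 * s ^ 2 +
    (3 / 32) * bl ^ 6 * s ^ 2 * Y + (-3 / 64) * bl ^ 6 * s ^ 2 * x +
    (-3 / 16) * bl ^ 6 * s ^ 3 + (1 / 16) * bl ^ 6 * s ^ 3 * Y +
    (-1 / 16) * bl ^ 6 * s ^ 3 * x + (1 / 32) * bl ^ 6 * s ^ 4 + (35 / 1024) * bl ^ 7 +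
    (1 / 128) * bl ^ 7 * Y + (-7 / 512) * bl ^ 7 * x + (51 / 512) * bl ^ 7 * s +
    (1 / 64) * bl ^ 7 * s * Y + (-3 / 256) * bl ^ 7 * s * x + (35 / 256) * bl ^ 7 * s ^ 2 +
    (3 / 128) * bl ^ 7 * s ^ 2 * x + (11 / 128) * bl ^ 7 * s ^ 3 +
    (1 / 64) * bl ^ 7 * s ^ 3 * x + (1 / 128) * bl ^ 8 + (-1 / 512) * bl ^ 8 * x +
    (3 / 256) * bl ^ 8 * s + (-1 / 256) * bl ^ 8 * s * x + (-3 / 256) * bl ^ 8 * s ^ 2 +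
    (-1 / 128) * bl ^ 8 * s ^ 3 + (-1 / 1024) * bl ^ 9 + (-1 / 512) * bl ^ 9 * s) * bl_sq

end Pool.Agent.J4.H67.AW
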