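import Pool.Agent.J4.H67.AW.Th

/-!
# The polynomials of the derivatives of the Kronecker theta function
-/

set_option autoImplicit false
set_option linter.unusedSectionVars false

open Filter
open scoped Topology PeriodPair

namespace Pool.Agent.J4.H67.AW

open Pool.Agent.Y698
open H667R3 Pool.Agent.W192.HK Pool.Agent.TH936.CM Pool.Agent.TH936.PU
open Pool.Agent.TH936.CW (Rw Rw_eq Rw_an near hasDerivAt_wp'_all zreg_an zreg_zero)

/-- the ring of polynomials -/
abbrev PZ := MvPolynomial (Fin 5) ℤ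

open MvPolynomial in
/-- the derivation -/
noncomputable def Dz : Derivation ℤ PZ PZ :=
  MvPolynomial.mkDerivation ℤ ![2 * X 1 + X 0, 3 * X 0 ^ 2 - 2 * X 0 - 2 - X 1,
    2 * X 0 + 2 * X 4 - X 3 ^ 2 + X 3 - X 2 ^ 2 - X 2, 0, 0]

open MvPolynomial in
lemma Dz_X0 : Dz (X 0) = 2 * X 1 + X 0 := mkDerivation_X _ _ _
open MvPolynomial in
lemma Dz_X1 : Dz (X 1) = 3 * X 0 ^ 2 - 2 * X 0 - 2 - X 1 := mkDerivation_X _ _ _
open MvPolynomial in
lemma Dz_X2 : Dz (X 2) = 2 * X 0 + 2 * X 4 - X 3 ^ 2 + X 3 - X 2 ^ 2 - X 2 := mkDerivation_X _ _ _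
open MvPolynomial in
lemma Dz_X3 : Dz (X 3) = 0 := mkDerivation_X _ _ _
open MvPolynomial in
lemma Dz_X4 : Dz (X 4) = 0 := mkDerivation_X _ _ _

lemma Dz_C (n : ℤ) : Dz (MvPolynomial.C n) = 0 := by
  have := Dz.map_algebraMap n
  rwa [MvPolynomial.algebraMap_eq] at this

lemma Dz_mul (f g : PZ) : Dz (f * g) = Dz f * g + f * Dz g := by
  rw [Derivation.leibniz, smul_eq_mul, smul_eq_mul]
  ring

lemma Dz_two (f : PZ) : Dz (2 * f) = 2 * Dz f := by
  rw [two_mul, two_mul, map_add]

lemma Dz_num (n : ℕ) [n.AtLeastTwo] : Dz (OfNat.ofNat n : PZ) = 0 := by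
  have : (OfNat.ofNat n : PZ) = ((OfNat.ofNat n : ℕ) : PZ) := by norm_num
  rw [this]
  exact Dz.map_natCast _

open MvPolynomial in
/-- the square of the derivation modulo two -/
lemma Dz_mod (f : PZ) : ∃ g : PZ, Dz (Dz f) = Dz f + 2 * g := by
  induction f using MvPolynomial.induction_on with
  | C n => exact ⟨0, by rw [Dz_C, map_zero, mul_zero, add_zero]⟩
  | add f g hf hg =>
    obtain ⟨a, ha⟩ := hf
    obtain ⟨b, hb⟩ := hg
    exact ⟨a + b, by rw [map_add, map_add, ha, hb]; ring⟩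
  | mul_X f i hf =>
    obtain ⟨a, ha⟩ := hf
    have hX : ∃ b : PZ, Dz (Dz (X i)) = Dz (X i) + 2 * b := by
      fin_cases i
      · refine ⟨Dz (X 1), ?_⟩
        show Dz (Dz (X 0)) = Dz (X 0) + 2 * Dz (X 1)
        conv_lhs => rw [Dz_X0]
        rw [map_add, Dz_two]
        ring
      · refine ⟨3 * X 0 * Dz (X 0) - Dz (X 0) - Dz (X 1), ?_⟩
        show Dz (Dz (X 1)) = Dz (X 1) + 2 * (3 * X 0 * Dz (X 0) - Dz (X 0) - Dz (X 1))
        conv_lhs => rw [Dz_X1]
        have h2 : Dz (2 : PZ) = 0 := Dz_num 2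
        have h3 : Dz (3 : PZ) = 0 := Dz_num 3
        rw [map_sub, map_sub, map_sub, Dz_two, Dz_mul, pow_two, Dz_mul, h3, h2]
        ring
      · refine ⟨Dz (X 0) - X 2 * Dz (X 2) - Dz (X 2), ?_⟩
        show Dz (Dz (X 2)) = Dz (X 2) + 2 * (Dz (X 0) - X 2 * Dz (X 2) - Dz (X 2))
        conv_lhs => rw [Dz_X2]
        rw [map_sub, map_sub, map_add, map_sub, map_add, Dz_two, Dz_two, pow_two, Dz_mul, pow_two, Dz_mul,
          Dz_X3, Dz_X4]
        ring
      · refine ⟨0, ?_⟩
        show Dz (Dz (X 3)) = Dz (X 3) + 2 * 0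
        rw [Dz_X3, map_zero]
        ring
      · refine ⟨0, ?_⟩
        show Dz (Dz (X 4)) = Dz (X 4) + 2 * 0
        rw [Dz_X4, map_zero]
        ring
    obtain ⟨b, hb⟩ := hX
    refine ⟨Dz f * Dz (X i) + f * b + a * X i, ?_⟩
    rw [Dz_mul, map_add, Dz_mul, Dz_mul, ha, hb]
    ring

/-- the operator -/
noncomputable def Pz (f : PZ) : PZ := Dz f + (MvPolynomial.X 3 + MvPolynomial.X 2) * f

lemma Pz_add (f g : PZ) : Pz (f + g) = Pz f + Pz g := by
  unfold Pz
  rw [map_add]
  ring

lemma Pz_two (f : PZ) : Pz (2 * f) = 2 * Pz f := by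
  unfold Pz
  rw [Dz_two]
  ring

open MvPolynomial in
lemma Pz_mod (f : PZ) : ∃ g : PZ, Pz (Pz f) = Pz f + 2 * g := by
  obtain ⟨a, ha⟩ := Dz_mod f
  refine ⟨a + (X 3 + X 2) * Dz f + (X 0 + X 4 - X 2 + X 3 * X 2) * f, ?_⟩
  unfold Pz
  rw [map_add, ha, Dz_mul, map_add, Dz_X3, Dz_X2]
  ring

lemma Pz_four (f : PZ) : ∃ g : PZ, Pz^[4] f = Pz^[2] f + 4 * g := by
  obtain ⟨a, ha⟩ := Pz_mod f
  obtain ⟨b, hb⟩ := Pz_mod a
  refine ⟨Pz a + b, ?_⟩
  show Pz (Pz (Pz (Pz f))) = Pz (Pz f) + 4 * (Pz a + b)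
  have h3 : Pz (Pz (Pz f)) = Pz (Pz f) + 2 * Pz a := by
    conv_lhs => rw [ha]
    rw [Pz_add, Pz_two]
  have h4 : Pz (Pz (Pz (Pz f))) = Pz (Pz (Pz f)) + 2 * Pz (Pz a) := by
    conv_lhs => rw [h3]
    rw [Pz_add, Pz_two]
  rw [h4, h3, hb]
  ring

/-- the polynomials of the derivatives -/
noncomputable def Bz (n : ℕ) : PZ := Pz^[n] 1

lemma Bz_even (m : ℕ) : ∃ C : PZ, Bz (2 * m + 2) = Bz 2 + 4 * C := by
  induction m with
  | zero => exact ⟨0, by simp⟩
  | succ m ih =>
    obtain ⟨C, hC⟩ := ih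
    obtain ⟨g, hg⟩ := Pz_four (Bz (2 * m))
    refine ⟨C + g, ?_⟩
    have e1 : Bz (2 * (m + 1) + 2) = Pz^[4] (Bz (2 * m)) := by
      unfold Bz
      rw [← Function.iterate_add_apply]
      congr 1
      ring
    have e2 : Bz (2 * m + 2) = Pz^[2] (Bz (2 * m)) := by
      unfold Bz
      rw [← Function.iterate_add_apply]
      congr 1
      ring
    rw [e1, hg, ← e2, hC]
    ring

/-! ### values -/

variable {Γ : Type*} [LinearOrderedCommGroupWithZero Γ] {v : Valuation ℂ Γ}
variable {L : PeriodPair} {Ω p q : ℂ}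

/-- the value of a polynomial -/
noncomputable def evp (L : PeriodPair) (z w : ℂ) : PZ →+* ℂ :=
  MvPolynomial.eval₂Hom (Int.castRingHom ℂ) ![Xx L z, Yy L z, lam L z w, zh L w + 1, ka L w]

lemma evp_C (z w : ℂ) (n : ℤ) : evp L z w (MvPolynomial.C n) = n := by
  unfold evp
  simp

lemma evp_X0 (z w : ℂ) : evp L z w (MvPolynomial.X 0) = Xx L z := by simp [evp]
lemma evp_X1 (z w : ℂ) : evp L z w (MvPolynomial.X 1) = Yy L z := by simp [evp]
lemma evp_X2 (z w : ℂ) : evp L z w (MvPolynomial.X 2) = lam L z w := by simp [evp]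
lemma evp_X3 (z w : ℂ) : evp L z w (MvPolynomial.X 3) = zh L w + 1 := by simp [evp]
lemma evp_X4 (z w : ℂ) : evp L z w (MvPolynomial.X 4) = ka L w := by simp [evp]

lemma evp_zero (z w : ℂ) : evp L z w 0 = 0 := map_zero _

/-- the derivative of the slope -/
lemma lam_deriv (h : LD L Ω) {z w : ℂ} (hz : z ∉ L.lattice) (hw : w ∉ L.lattice)
    (h1 : z + w ∉ L.lattice) (h2 : z - w ∉ L.lattice) :
    HasDerivAt (fun z => lam L z w) (2 * Xx L z + Xx L w - 1 - lam L z w ^ 2 - lam L z w) z := by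
  have d := x_ne hz hw h1 h2
  have d1 := (((deriv_y h hz).sub_const (Yy L w)).div ((deriv_x hz).sub_const (Xx L w)) d)
  refine d1.congr_deriv ?_
  have e1 := h.wei hz
  have e2 := h.wei hw
  unfold lam
  field_simp
  linear_combination e2 - e1

/-- the derivative of the value -/
theorem evp_deriv (h : LD L Ω) {z w : ℂ} (hz : z ∉ L.lattice) (hw : w ∉ L.lattice)
    (h1 : z + w ∉ L.lattice) (h2 : z - w ∉ L.lattice) (f : PZ) :
    HasDerivAt (fun z => evp L z w f) (evp L z w (Dz f)) z := by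
  induction f using MvPolynomial.induction_on with
  | C n =>
    simp only [evp_C, Dz_C, evp_zero]
    exact hasDerivAt_const _ _
  | add f g hf hg =>
    simp only [map_add]
    exact hf.add hg
  | mul_X f i hf =>
    have hX : HasDerivAt (fun z => evp L z w (MvPolynomial.X i))
        (evp L z w (Dz (MvPolynomial.X i))) z := by
      fin_cases i
      · show HasDerivAt (fun z => evp L z w (MvPolynomial.X 0))
          (evp L z w (Dz (MvPolynomial.X 0))) z
        simp only [evp_X0, Dz_X0]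
        refine (deriv_x hz).congr_deriv ?_
        simp only [map_add, map_mul, evp_X0, evp_X1, map_ofNat]
      · show HasDerivAt (fun z => evp L z w (MvPolynomial.X 1))
          (evp L z w (Dz (MvPolynomial.X 1))) z
        simp only [evp_X1, Dz_X1]
        refine (deriv_y h hz).congr_deriv ?_
        simp only [map_sub, map_mul, map_pow, evp_X0, evp_X1, map_ofNat]
      · show HasDerivAt (fun z => evp L z w (MvPolynomial.X 2))
          (evp L z w (Dz (MvPolynomial.X 2))) z
        simp only [evp_X2, Dz_X2]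
        refine (lam_deriv h hz hw h1 h2).congr_deriv ?_
        simp only [map_add, map_sub, map_mul, map_pow, evp_X0, evp_X2, evp_X3, evp_X4, map_ofNat]
        unfold ka
        ring
      · show HasDerivAt (fun z => evp L z w (MvPolynomial.X 3))
          (evp L z w (Dz (MvPolynomial.X 3))) z
        simp only [evp_X3, Dz_X3, evp_zero]
        exact hasDerivAt_const _ _
      · show HasDerivAt (fun z => evp L z w (MvPolynomial.X 4))
          (evp L z w (Dz (MvPolynomial.X 4))) z
        simp only [evp_X4, Dz_X4, evp_zero]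
        exact hasDerivAt_const _ _
    simp only [map_mul]
    refine (hf.mul hX).congr_deriv ?_
    rw [Dz_mul, map_add, map_mul, map_mul]

/-- the values have integral expansions -/
theorem evp_ll (h : LD L Ω) (hv : v al < 1) {z : ℂ} (hx : v (Xx L z) ≤ 1) (hy : v (Yy L z) ≤ 1)
    (f : PZ) : LL v (tt L) (fun w => evp L z w f) := by
  have hτ := tt_co L
  induction f using MvPolynomial.induction_on with
  | C n =>
    simp only [evp_C]
    exact LL.const (intCast_mem v.integer n)
  | add f g hf hg =>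
    simp only [map_add]
    exact hf.add hτ hg
  | mul_X f i hf =>
    simp only [map_mul]
    refine hf.mul hτ ?_
    fin_cases i
    · show LL v (tt L) (fun w => evp L z w (MvPolynomial.X 0))
      simp only [evp_X0]
      exact LL.const hx
    · show LL v (tt L) (fun w => evp L z w (MvPolynomial.X 1))
      simp only [evp_X1]
      exact LL.const hy
    · show LL v (tt L) (fun w => evp L z w (MvPolynomial.X 2))
      simp only [evp_X2]
      exact lam_ll' h hx hy
    · show LL v (tt L) (fun w => evp L z w (MvPolynomial.X 3))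
      simp only [evp_X3]
      refine LL.add hτ ⟨1, (zh_int h hv).congr (Eventually.of_forall fun w => by simp)⟩
        (LL.const (by rw [map_one]))
    · show LL v (tt L) (fun w => evp L z w (MvPolynomial.X 4))
      simp only [evp_X4]
      exact ⟨2, ka_int h hv⟩

/-- the derivative of the theta function -/
lemma th_deriv (hp : p = 1 / 4) (c : ℂ) {z w : ℂ} (hz : z ∉ L.lattice)
    (hw : w ∉ L.lattice) (h1 : z + w ∉ L.lattice) (h2 : z - w ∉ L.lattice) :
    HasDerivAt (fun z => th L p q c z w)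
      (th L p q c z w * evp L z w (MvPolynomial.X 3 + MvPolynomial.X 2)) z := by
  have s1 := sigma_ne_zero L hz
  have s2 := sigma_ne_zero L hw
  have d1 : HasDerivAt (fun z : ℂ => Complex.exp (-((q * c + p * z) * w)))
      (Complex.exp (-((q * c + p * z) * w)) * (-(p * w))) z := by
    refine HasDerivAt.cexp ?_
    have h3 := ((((hasDerivAt_id z).const_mul p).const_add (q * c)).mul_const w).neg
    refine h3.congr_deriv ?_
    ring
  have d2 : HasDerivAt (fun z => sigma L (z + w)) (zeta L (z + w) * sigma L (z + w)) z :=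
    (hasDerivAt_sigma L h1).comp_add_const z w
  have d3 := (d1.mul d2).div ((hasDerivAt_sigma L hz).mul_const (sigma L w)) (mul_ne_zero s1 s2)
  refine d3.congr_deriv ?_
  rw [map_add, evp_X3, evp_X2, add_zeta hz hw h1 h2]
  unfold th zh
  rw [hp]
  simp only [Pi.mul_apply]
  field_simp
  ring

/-- the iterated derivatives of the theta function -/
theorem th_iter (h : LD L Ω) (hp : p = 1 / 4) (c : ℂ) {w : ℂ} (hw : w ∉ L.lattice) (n : ℕ) :
    ∀ z, z ∉ L.lattice → z + w ∉ L.lattice → z - w ∉ L.lattice →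
      iteratedDeriv n (fun z => th L p q c z w) z = th L p q c z w * evp L z w (Bz n) := by
  induction n with
  | zero =>
    intro z _ _ _
    rw [iteratedDeriv_zero]
    simp [Bz]
  | succ n ih =>
    intro z hz h1 h2
    rw [iteratedDeriv_succ]
    have ho : ∀ᶠ u in 𝓝 z, u ∉ L.lattice ∧ u + w ∉ L.lattice ∧ u - w ∉ L.lattice := by
      have a1 : ∀ᶠ u in 𝓝 z, u ∉ L.lattice := (L.isClosed_lattice.isOpen_compl).mem_nhds hz
      have c2 : Continuous (fun u : ℂ => u + w) := by fun_prop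
      have c3 : Continuous (fun u : ℂ => u - w) := by fun_prop
      have a2 : ∀ᶠ u in 𝓝 z, u + w ∉ L.lattice :=
        ((L.isClosed_lattice.isOpen_compl).preimage c2).mem_nhds h1
      have a3 : ∀ᶠ u in 𝓝 z, u - w ∉ L.lattice :=
        ((L.isClosed_lattice.isOpen_compl).preimage c3).mem_nhds h2
      filter_upwards [a1, a2, a3] with u b1 b2 b3
      exact ⟨b1, b2, b3⟩
    have he : iteratedDeriv n (fun z => th L p q c z w) =ᶠ[𝓝 z]
        fun z => th L p q c z w * evp L z w (Bz n) := by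
      filter_upwards [ho] with u hu
      exact ih u hu.1 hu.2.1 hu.2.2
    rw [he.deriv_eq]
    have d := (th_deriv (q := q) hp c hz hw h1 h2).mul (evp_deriv h hz hw h1 h2 (Bz n))
    refine Eq.trans (d.deriv) ?_
    have e : Bz (n + 1) = Pz (Bz n) := by
      unfold Bz
      rw [Function.iterate_succ_apply']
    rw [e]
    unfold Pz
    simp only [map_add, map_mul]
    ring

end Pool.Agent.J4.H67.AW
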