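import Mathlib

/-!
# Germs at `0` with integral expansions with respect to a local coordinate

`τ` is a local coordinate at `0`, `v` a valuation of `ℂ`. `II v τ f`: for every `N` the function `f` is
`P(τ) + τ ^ N g` near `0` with a polynomial `P` with integral coefficients and an analytic function `g`.
-/

set_option autoImplicit false

open Filter
open scoped Topology

namespace Pool.Agent.J4.H67.AW

variable {Γ : Type*} [LinearOrderedCommGroupWithZero Γ]

/-- polynomials with integral coefficients -/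
def PI (v : Valuation ℂ Γ) (P : Polynomial ℂ) : Prop := ∀ i, v (P.coeff i) ≤ 1

section
variable {v : Valuation ℂ Γ}

lemma PI_iff {P : Polynomial ℂ} : PI v P ↔ P ∈ Polynomial.lifts v.integer.subtype := by
  rw [Polynomial.lifts_iff_coeff_lifts]
  refine forall_congr' fun i => ?_
  constructor
  · intro h
    exact ⟨⟨P.coeff i, h⟩, rfl⟩
  · rintro ⟨a, ha⟩
    rw [← ha]
    exact a.2

lemma PI.add {P Q : Polynomial ℂ} (h : PI v P) (h' : PI v Q) : PI v (P + Q) :=
  PI_iff.2 (add_mem (PI_iff.1 h) (PI_iff.1 h'))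

lemma PI.mul {P Q : Polynomial ℂ} (h : PI v P) (h' : PI v Q) : PI v (P * Q) :=
  PI_iff.2 (mul_mem (PI_iff.1 h) (PI_iff.1 h'))

lemma PI.C {a : ℂ} (h : v a ≤ 1) : PI v (Polynomial.C a) := by
  intro i
  rw [Polynomial.coeff_C]
  split_ifs
  · exact h
  · rw [map_zero]; exact zero_le

lemma PI.X : PI v (Polynomial.X : Polynomial ℂ) := by
  intro i
  rw [Polynomial.coeff_X]
  split_ifs
  · rw [map_one]
  · rw [map_zero]; exact zero_le

lemma PI.pow {P : Polynomial ℂ} (h : PI v P) (n : ℕ) : PI v (P ^ n) :=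
  PI_iff.2 (pow_mem (PI_iff.1 h) n)

lemma PI.neg {P : Polynomial ℂ} (h : PI v P) : PI v (-P) := by
  intro i
  rw [Polynomial.coeff_neg, Valuation.map_neg]
  exact h i

lemma PI.sub {P Q : Polynomial ℂ} (h : PI v P) (h' : PI v Q) : PI v (P - Q) := by
  rw [sub_eq_add_neg]
  exact h.add h'.neg

lemma PI.zero : PI v (0 : Polynomial ℂ) := by
  intro i
  rw [Polynomial.coeff_zero, map_zero]
  exact zero_le

lemma PI.of_X_pow {N : ℕ} {P : Polynomial ℂ} (h : PI v (Polynomial.X ^ N * P)) : PI v P := by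
  intro i
  have := h (i + N)
  rwa [Polynomial.coeff_X_pow_mul] at this

end

/-- local coordinate at `0` -/
structure Co (τ : ℂ → ℂ) : Prop where
  an : AnalyticAt ℂ τ 0
  zero : τ 0 = 0
  der : deriv τ 0 ≠ 0

lemma dsl {f : ℂ → ℂ} (h : AnalyticAt ℂ f 0) : AnalyticAt ℂ (dslope f 0) 0 := by
  obtain ⟨P, hP⟩ := h
  exact ⟨_, hP.has_fpower_series_dslope_fslope⟩

lemma dsl_eq {f : ℂ → ℂ} (z : ℂ) : f z = f 0 + z * dslope f 0 z := by
  by_cases hz : z = 0
  · rw [hz]
    ring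
  · rw [dslope_of_ne _ hz, slope_def_field, sub_zero]
    field_simp
    ring

lemma Co.fac {τ : ℂ → ℂ} (hτ : Co τ) {g : ℂ → ℂ} (hg : AnalyticAt ℂ g 0) :
    ∃ k : ℂ → ℂ, AnalyticAt ℂ k 0 ∧ ∀ᶠ w in 𝓝 0, g w = g 0 + τ w * k w := by
  have h1 : dslope τ 0 0 ≠ 0 := by
    rw [dslope_same]
    exact hτ.der
  have h2 := dsl hτ.an
  refine ⟨fun w => dslope g 0 w / dslope τ 0 w, (dsl hg).div h2 h1, ?_⟩
  filter_upwards [h2.continuousAt.eventually_ne h1] with w hw
  have h3 := dsl_eq (f := τ) w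
  rw [hτ.zero, zero_add] at h3
  rw [dsl_eq (f := g) w, h3]
  field_simp

lemma Co.ne {τ : ℂ → ℂ} (hτ : Co τ) : ∀ᶠ w in 𝓝[≠] (0 : ℂ), τ w ≠ 0 := by
  have h1 : dslope τ 0 0 ≠ 0 := by
    rw [dslope_same]
    exact hτ.der
  have h2 := dsl hτ.an
  filter_upwards [(h2.continuousAt.eventually_ne h1).filter_mono nhdsWithin_le_nhds,
    self_mem_nhdsWithin] with w hw hw0
  have h3 := dsl_eq (f := τ) w
  rw [hτ.zero, zero_add] at h3
  rw [h3]
  exact mul_ne_zero hw0 hw

lemma eval_an {τ : ℂ → ℂ} (hτ : AnalyticAt ℂ τ 0) (P : Polynomial ℂ) :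
    AnalyticAt ℂ (fun w => P.eval (τ w)) 0 := by
  have h1 : AnalyticAt ℂ (fun z : ℂ => P.eval z) (τ 0) := by
    have := (AnalyticOnNhd.aeval_polynomial (𝕜 := ℂ) (f := fun z : ℂ => z) (s := Set.univ)
      (fun z _ => analyticAt_id) P) (τ 0) (Set.mem_univ _)
    simpa [Polynomial.coe_aeval_eq_eval] using this
  exact AnalyticAt.fun_comp (f := τ) (g := fun z : ℂ => P.eval z) h1 hτ

lemma eq_zero_of {f g : ℂ → ℂ} (hf : ContinuousAt f 0) (hg : ContinuousAt g 0)
    (h : f =ᶠ[𝓝[≠] 0] g) : f 0 = g 0 := by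
  have h1 := hf.tendsto.mono_left (nhdsWithin_le_nhds (s := {0}ᶜ))
  have h2 := hg.tendsto.mono_left (nhdsWithin_le_nhds (s := {0}ᶜ))
  exact tendsto_nhds_unique h1 (h2.congr' h.symm)

/-- extraction of the lowest coefficients -/
lemma Co.ce0 {τ : ℂ → ℂ} (hτ : Co τ) (N : ℕ) : ∀ {D : Polynomial ℂ} {h : ℂ → ℂ},
    AnalyticAt ℂ h 0 → (fun w => D.eval (τ w)) =ᶠ[𝓝[≠] 0] (fun w => τ w ^ N * h w) →
    ∃ D1 : Polynomial ℂ, D = Polynomial.X ^ N * D1 ∧ D1.coeff 0 = h 0 := by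
  induction N with
  | zero =>
    intro D h hh he
    refine ⟨D, by rw [pow_zero, one_mul], ?_⟩
    have h1 := eq_zero_of (eval_an hτ.an D).continuousAt hh.continuousAt
      (he.trans (Eventually.of_forall fun w => by simp))
    rw [hτ.zero] at h1
    rw [Polynomial.coeff_zero_eq_eval_zero]
    exact h1
  | succ N ih =>
    intro D h hh he
    obtain ⟨D1, h1, h2⟩ := ih (D := D) (h := fun w => τ w * h w) (hτ.an.mul hh)
      (he.trans (Eventually.of_forall fun w => by ring))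
    rw [hτ.zero, zero_mul] at h2
    obtain ⟨D2, hD2⟩ : Polynomial.X ∣ D1 := Polynomial.X_dvd_iff.2 h2
    refine ⟨D2, by rw [h1, hD2]; ring, ?_⟩
    have h3 : (fun w => D2.eval (τ w)) =ᶠ[𝓝[≠] 0] h := by
      filter_upwards [he, hτ.ne] with w hw hw0
      rw [h1, hD2] at hw
      simp only [Polynomial.eval_mul, Polynomial.eval_pow, Polynomial.eval_X] at hw
      have h4 : τ w ^ (N + 1) ≠ 0 := pow_ne_zero _ hw0
      apply mul_left_cancel₀ h4
      rw [← hw]
      ring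
    have h4 := eq_zero_of (eval_an hτ.an D2).continuousAt hh.continuousAt h3
    rw [hτ.zero] at h4
    rw [Polynomial.coeff_zero_eq_eval_zero]
    exact h4

variable (v : Valuation ℂ Γ) (τ : ℂ → ℂ)

/-- integral expansion of order `N` -/
def IN (N : ℕ) (f : ℂ → ℂ) : Prop := ∃ P : Polynomial ℂ, PI v P ∧ ∃ g : ℂ → ℂ, AnalyticAt ℂ g 0 ∧
  f =ᶠ[𝓝[≠] 0] fun w => P.eval (τ w) + τ w ^ N * g w

/-- integral expansion -/
def II (f : ℂ → ℂ) : Prop := ∀ N, IN v τ N f

variable {v τ}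

/-- comparison of two expansions -/
lemma Co.ce (hτ : Co τ) {N : ℕ} {P Q : Polynomial ℂ} (hP : PI v P) (hQ : PI v Q) {g k : ℂ → ℂ}
    (hg : AnalyticAt ℂ g 0) (hk : AnalyticAt ℂ k 0)
    (he : (fun w => P.eval (τ w) + τ w ^ N * g w) =ᶠ[𝓝[≠] 0]
      fun w => Q.eval (τ w) + τ w ^ (N + 1) * k w) : v (g 0) ≤ 1 := by
  obtain ⟨D1, h1, h2⟩ := hτ.ce0 N (D := Q - P) (h := fun w => g w - τ w * k w)
    (hg.sub (hτ.an.mul hk)) (by
      filter_upwards [he] with w hw
      rw [Polynomial.eval_sub]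
      linear_combination -hw)
  rw [hτ.zero, zero_mul, sub_zero] at h2
  rw [← h2]
  have h3 := hQ.sub hP
  rw [h1] at h3
  exact h3.of_X_pow 0

lemma IN.congr {N : ℕ} {f f' : ℂ → ℂ} (h : IN v τ N f) (he : f' =ᶠ[𝓝[≠] 0] f) : IN v τ N f' := by
  obtain ⟨P, hP, g, hg, h1⟩ := h
  exact ⟨P, hP, g, hg, he.trans h1⟩

lemma II.congr {f f' : ℂ → ℂ} (h : II v τ f) (he : f' =ᶠ[𝓝[≠] 0] f) : II v τ f' :=
  fun N => (h N).congr he

/-- agreement with an analytic function -/
lemma II.an (hτ : Co τ) {f : ℂ → ℂ} (h : II v τ f) : ∃ F : ℂ → ℂ, AnalyticAt ℂ F 0 ∧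
    f =ᶠ[𝓝[≠] 0] F ∧ v (F 0) ≤ 1 := by
  obtain ⟨P, hP, g, hg, h1⟩ := h 1
  refine ⟨fun w => P.eval (τ w) + τ w ^ 1 * g w, (eval_an hτ.an P).add ((hτ.an.pow 1).mul hg), h1, ?_⟩
  simp only [hτ.zero, pow_one, zero_mul, add_zero]
  rw [← Polynomial.coeff_zero_eq_eval_zero]
  exact hP 0

lemma II.value (hτ : Co τ) {f F : ℂ → ℂ} (h : II v τ f) (hF : AnalyticAt ℂ F 0)
    (he : f =ᶠ[𝓝[≠] 0] F) : v (F 0) ≤ 1 := by
  obtain ⟨G, h1, h2, h3⟩ := h.an hτ
  rw [eq_zero_of hF.continuousAt h1.continuousAt (he.symm.trans h2)]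
  exact h3

/-- the induction -/
lemma II.of_step (hτ : Co τ) {f F : ℂ → ℂ} (hF : AnalyticAt ℂ F 0) (he : f =ᶠ[𝓝[≠] 0] F)
    (hs : ∀ (N : ℕ) (P : Polynomial ℂ) (g : ℂ → ℂ), PI v P → AnalyticAt ℂ g 0 →
      f =ᶠ[𝓝[≠] 0] (fun w => P.eval (τ w) + τ w ^ N * g w) → v (g 0) ≤ 1) : II v τ f := by
  intro N
  induction N with
  | zero =>
    refine ⟨0, PI.zero, F, hF, he.trans (Eventually.of_forall fun w => ?_)⟩
    simp
  | succ N ih =>
    obtain ⟨P, hP, g, hg, h1⟩ := ih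
    have h2 := hs N P g hP hg h1
    obtain ⟨k, hk, h3⟩ := hτ.fac hg
    refine ⟨P + Polynomial.C (g 0) * Polynomial.X ^ N, hP.add ((PI.C h2).mul (PI.X.pow N)), k, hk, ?_⟩
    filter_upwards [h1, h3.filter_mono nhdsWithin_le_nhds] with w hw hw'
    rw [hw, hw']
    simp only [Polynomial.eval_add, Polynomial.eval_mul, Polynomial.eval_C, Polynomial.eval_pow,
      Polynomial.eval_X]
    ring

lemma II.const {a : ℂ} (ha : v a ≤ 1) : II v τ (fun _ => a) := fun N =>
  ⟨Polynomial.C a, PI.C ha, fun _ => 0, analyticAt_const, Eventually.of_forall fun w => by simp⟩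

lemma II.tau : II v τ τ := fun N =>
  ⟨Polynomial.X, PI.X, fun _ => 0, analyticAt_const, Eventually.of_forall fun w => by simp⟩

lemma II.add {f f' : ℂ → ℂ} (h : II v τ f) (h' : II v τ f') : II v τ (fun w => f w + f' w) := by
  intro N
  obtain ⟨P, hP, g, hg, h1⟩ := h N
  obtain ⟨P', hP', g', hg', h1'⟩ := h' N
  refine ⟨P + P', hP.add hP', fun w => g w + g' w, hg.add hg', ?_⟩
  filter_upwards [h1, h1'] with w hw hw'
  rw [hw, hw', Polynomial.eval_add]
  ring

lemma II.mul (hτ : Co τ) {f f' : ℂ → ℂ} (h : II v τ f) (h' : II v τ f') :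
    II v τ (fun w => f w * f' w) := by
  intro N
  obtain ⟨P, hP, g, hg, h1⟩ := h N
  obtain ⟨P', hP', g', hg', h1'⟩ := h' N
  refine ⟨P * P', hP.mul hP', fun w => P.eval (τ w) * g' w + g w * P'.eval (τ w) +
    τ w ^ N * g w * g' w, ?_, ?_⟩
  · exact (((eval_an hτ.an P).mul hg').add (hg.mul (eval_an hτ.an P'))).add
      (((hτ.an.pow N).mul hg).mul hg')
  · filter_upwards [h1, h1'] with w hw hw'
    rw [hw, hw', Polynomial.eval_mul]
    ring

lemma II.cmul (hτ : Co τ) {a : ℂ} (ha : v a ≤ 1) {f : ℂ → ℂ} (h : II v τ f) :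
    II v τ (fun w => a * f w) := (II.const ha).mul hτ h

lemma II.neg (hτ : Co τ) {f : ℂ → ℂ} (h : II v τ f) : II v τ (fun w => -f w) :=
  (h.cmul hτ (a := -1) (by rw [Valuation.map_neg, map_one])).congr
    (Eventually.of_forall fun w => by ring)

lemma II.sub (hτ : Co τ) {f f' : ℂ → ℂ} (h : II v τ f) (h' : II v τ f') :
    II v τ (fun w => f w - f' w) :=
  (h.add (h'.neg hτ)).congr (Eventually.of_forall fun w => by ring)

lemma II.pow (hτ : Co τ) {f : ℂ → ℂ} (h : II v τ f) (n : ℕ) : II v τ (fun w => f w ^ n) := by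
  induction n with
  | zero =>
    exact (II.const (a := 1) (by rw [map_one])).congr (Eventually.of_forall fun w => by simp)
  | succ n ih => exact (ih.mul hτ h).congr (Eventually.of_forall fun w => by simp [pow_succ])

lemma II.eval (hτ : Co τ) {P : Polynomial ℂ} (hP : PI v P) {f : ℂ → ℂ} (h : II v τ f) :
    II v τ (fun w => P.eval (f w)) := by
  have h1 : ∀ n : ℕ, II v τ (fun w => ∑ i ∈ Finset.range n, P.coeff i * f w ^ i) := by
    intro n
    induction n with
    | zero =>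
      exact (II.const (a := 0) (by rw [map_zero]; exact zero_le)).congr
        (Eventually.of_forall fun w => by simp)
    | succ n ih =>
      refine (ih.add ((h.pow hτ n).cmul hτ (hP n))).congr (Eventually.of_forall fun w => ?_)
      simp only [Finset.sum_range_succ]
  refine (h1 (P.natDegree + 1)).congr (Eventually.of_forall fun w => ?_)
  exact Polynomial.eval_eq_sum_range _

/-- division by powers of the coordinate -/
lemma II.of_tau_pow (hτ : Co τ) {f F : ℂ → ℂ} (hF : AnalyticAt ℂ F 0) (he : f =ᶠ[𝓝[≠] 0] F) {m : ℕ}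
    (h : II v τ (fun w => τ w ^ m * f w)) : II v τ f := by
  refine II.of_step hτ hF he fun N P g hP hg h1 => ?_
  obtain ⟨Q, hQ, k, hk, h2⟩ := h (N + m + 1)
  refine hτ.ce (N := N + m) (P := Polynomial.X ^ m * P) ((PI.X.pow m).mul hP) hQ hg hk ?_
  filter_upwards [h1, h2] with w hw hw'
  rw [← hw', hw]
  simp only [Polynomial.eval_mul, Polynomial.eval_pow, Polynomial.eval_X]
  ring

/-- inverses -/
lemma II.inv (hτ : Co τ) {f F : ℂ → ℂ} (hF : AnalyticAt ℂ F 0) (he : f =ᶠ[𝓝[≠] 0] F)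
    (h : II v τ f) (h0 : v (F 0) = 1) : II v τ (fun w => (f w)⁻¹) := by
  have hF0 : F 0 ≠ 0 := by
    intro h1
    rw [h1, map_zero] at h0
    exact zero_ne_one h0
  have he' : (fun w => (f w)⁻¹) =ᶠ[𝓝[≠] 0] fun w => (F w)⁻¹ := by
    filter_upwards [he] with w hw
    rw [hw]
  have hF' : AnalyticAt ℂ (fun w => (F w)⁻¹) 0 := hF.inv hF0
  refine II.of_step hτ hF' he' fun N P g hP hg h1 => ?_
  have h2 : II v τ (fun w => f w * P.eval (τ w)) := h.mul hτ (II.tau.eval hτ hP)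
  obtain ⟨Q, hQ, k, hk, h3⟩ := h2 (N + 1)
  have h4 : v (F 0 * g 0) ≤ 1 := by
    refine hτ.ce (N := N) (P := 0) (Q := 1 - Q) (g := fun w => F w * g w) (k := fun w => -k w)
      PI.zero ?_ (hF.mul hg) hk.neg ?_
    · exact PI.sub (by have := PI.C (v := v) (a := 1) (by rw [map_one]); simpa using this) hQ
    · filter_upwards [h1, h3, he, (hF.continuousAt.eventually_ne hF0).filter_mono
        nhdsWithin_le_nhds] with w a1 a2 a3 a4
      rw [a3] at a1 a2
      have a5 : F w * (F w)⁻¹ = 1 := mul_inv_cancel₀ a4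
      rw [a1] at a5
      simp only [Polynomial.eval_zero, Polynomial.eval_sub, Polynomial.eval_one]
      linear_combination a5 - a2
  rwa [map_mul, h0, one_mul] at h4

/-- roots of odd order -/
lemma II.root (hτ : Co τ) {f F : ℂ → ℂ} (hF : AnalyticAt ℂ F 0) (he : f =ᶠ[𝓝[≠] 0] F)
    (hF1 : v (F 0) = 1) {M : ℕ} (hM : v (M : ℂ) = 1) (h : II v τ (fun w => f w ^ M)) :
    II v τ f := by
  refine II.of_step hτ hF he fun N P g hP hg h1 => ?_
  rcases Nat.eq_zero_or_pos N with rfl | hN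
  · have h2 : II v τ (fun w => P.eval (τ w)) := II.tau.eval hτ hP
    have h3 := h2.value hτ (eval_an hτ.an P) (EventuallyEq.refl _ _)
    have h4 : F 0 = P.eval (τ 0) + g 0 := by
      refine eq_zero_of (g := fun w => P.eval (τ w) + g w) hF.continuousAt
        ((eval_an hτ.an P).add hg).continuousAt (he.symm.trans (h1.trans ?_))
      exact Eventually.of_forall fun w => by simp
    have h5 : g 0 = F 0 - P.eval (τ 0) := by rw [h4]; ring
    rw [h5]
    exact Valuation.map_sub_le v hF1.le h3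
  obtain ⟨Q, hQ, k, hk, h3⟩ := h (N + 1)
  have hP0 : P.eval 0 = F 0 := by
    have h4 : F 0 = P.eval (τ 0) + τ 0 ^ N * g 0 := by
      refine eq_zero_of (g := fun w => P.eval (τ w) + τ w ^ N * g w) hF.continuousAt
        ((eval_an hτ.an P).add ((hτ.an.pow N).mul hg)).continuousAt (he.symm.trans h1)
    rw [hτ.zero, zero_pow hN.ne', zero_mul, add_zero] at h4
    exact h4.symm
  -- the remainder of the power
  obtain ⟨K, hK, hK'⟩ : ∃ K : ℂ → ℂ, AnalyticAt ℂ K 0 ∧ ∀ w, (P.eval (τ w) + τ w ^ N * g w) ^ M =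
      P.eval (τ w) ^ M + τ w ^ N * (M * P.eval (τ w) ^ (M - 1) * g w + τ w * K w) := by
    have key : ∀ m : ℕ, ∃ K : ℂ → ℂ, AnalyticAt ℂ K 0 ∧ ∀ w, (P.eval (τ w) + τ w ^ N * g w) ^ m =
      P.eval (τ w) ^ m + τ w ^ N * (m * P.eval (τ w) ^ (m - 1) * g w + τ w * K w) := by
      intro m
      induction m with
      | zero => exact ⟨fun _ => 0, analyticAt_const, fun w => by simp⟩
      | succ m ih =>
        obtain ⟨K, hK, hK'⟩ := ih
        obtain ⟨N', rfl⟩ : ∃ N', N = N' + 1 := ⟨N - 1, by omega⟩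
        refine ⟨fun w => K w * P.eval (τ w) + τ w ^ N' * g w *
          (m * P.eval (τ w) ^ (m - 1) * g w + τ w * K w), ?_, fun w => ?_⟩
        · have a1 := eval_an hτ.an P
          exact (hK.mul a1).add (((hτ.an.pow N').mul hg).mul
            ((((analyticAt_const.mul (a1.pow (m - 1))).mul hg)).add (hτ.an.mul hK)))
        · rw [pow_succ, hK' w]
          rcases m with _ | m
          · simp
            ring
          · simp only [Nat.add_sub_cancel]
            push_cast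
            ring
    exact key M
  have h4 : v (M * P.eval (τ 0) ^ (M - 1) * g 0 + τ 0 * K 0) ≤ 1 := by
    refine hτ.ce (N := N) (P := P ^ M) (Q := Q)
      (g := fun w => M * P.eval (τ w) ^ (M - 1) * g w + τ w * K w) (k := k) (hP.pow M) hQ ?_ hk ?_
    · exact (((analyticAt_const.mul ((eval_an hτ.an P).pow (M - 1))).mul hg)).add (hτ.an.mul hK)
    · filter_upwards [h1, h3] with w a1 a2
      rw [← a2, a1, hK', Polynomial.eval_pow]
  rw [hτ.zero, zero_mul, add_zero, hP0, map_mul, map_mul, map_pow, hM, hF1, one_pow, one_mul,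
    one_mul] at h4
  exact h4

end Pool.Agent.J4.H67.AW
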