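import Pool.Agent.J4.H67.AW.Rg

/-!
# Germs with integral expansions: derivatives, rescaling, poles
-/

set_option autoImplicit false

open Filter
open scoped Topology

namespace Pool.Agent.J4.H67.AW

variable {Γ : Type*} [LinearOrderedCommGroupWithZero Γ] {v : Valuation ℂ Γ} {τ : ℂ → ℂ}

lemma v_nat (v : Valuation ℂ Γ) (n : ℕ) : v (n : ℂ) ≤ 1 := natCast_mem v.integer n

lemma ev_nhds {p : ℂ → Prop} (h : ∀ᶠ w in 𝓝[≠] (0 : ℂ), p w) :
    ∀ᶠ w in 𝓝[≠] (0 : ℂ), ∀ᶠ z in 𝓝 w, p z := by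
  have h1 := eventually_eventually_nhdsWithin.2 h
  filter_upwards [h1, self_mem_nhdsWithin] with w hw hw0
  rwa [isOpen_compl_singleton.nhdsWithin_eq hw0] at hw

lemma ev_deriv {f F : ℂ → ℂ} (he : f =ᶠ[𝓝[≠] 0] F) : deriv f =ᶠ[𝓝[≠] 0] deriv F := by
  filter_upwards [ev_nhds he] with w hw
  exact EventuallyEq.deriv_eq hw

lemma an_ne {f : ℂ → ℂ} (h : AnalyticAt ℂ f 0) : ∀ᶠ w in 𝓝[≠] (0 : ℂ), AnalyticAt ℂ f w :=
  h.eventually_analyticAt.filter_mono nhdsWithin_le_nhds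

/-- the sum of an integral germ and of a power of the coordinate -/
lemma II.of_approx {f : ℂ → ℂ} (h : ∀ N : ℕ, ∃ h g : ℂ → ℂ, II v τ h ∧
    AnalyticAt ℂ g 0 ∧ f =ᶠ[𝓝[≠] 0] fun w => h w + τ w ^ N * g w) : II v τ f := by
  intro N
  obtain ⟨k, g, hk, hg, he⟩ := h N
  obtain ⟨P, hP, g', hg', he'⟩ := hk N
  refine ⟨P, hP, fun w => g' w + g w, hg'.add hg, ?_⟩
  filter_upwards [he, he'] with w a b
  rw [a, b]
  ring

lemma PI.derivative {P : Polynomial ℂ} (h : PI v P) : PI v (Polynomial.derivative P) := by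
  intro i
  rw [Polynomial.coeff_derivative, map_mul]
  have h1 : v ((i : ℂ) + 1) ≤ 1 := by
    have := v_nat v (i + 1)
    push_cast at this
    exact this
  exact mul_le_one' (h _) h1

lemma PI.hasse {P : Polynomial ℂ} (h : PI v P) (k : ℕ) : PI v (Polynomial.hasseDeriv k P) := by
  intro i
  rw [Polynomial.hasseDeriv_coeff, map_mul]
  exact mul_le_one' (v_nat v _) (h _)

lemma hasse_two (P : Polynomial ℂ) : Polynomial.derivative (Polynomial.derivative P) =
    2 * Polynomial.hasseDeriv 2 P := by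
  have h1 := congrFun (Polynomial.factorial_smul_hasseDeriv (R := ℂ) 2) P
  have h2 : ((2 : ℕ).factorial • Polynomial.hasseDeriv (R := ℂ) 2) P =
      2 * Polynomial.hasseDeriv 2 P := by
    rw [LinearMap.smul_apply, Nat.factorial_two, two_nsmul, two_mul]
  rw [← h2]
  exact h1.symm

lemma hasDeriv_eval {w : ℂ} (hw : AnalyticAt ℂ τ w) (P : Polynomial ℂ) :
    HasDerivAt (fun w => P.eval (τ w)) ((Polynomial.derivative P).eval (τ w) * deriv τ w) w :=
  (P.hasDerivAt (τ w)).comp w hw.differentiableAt.hasDerivAt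

/-- first derivative of an expansion -/
lemma dexp (hτ : Co τ) {f : ℂ → ℂ} {P : Polynomial ℂ} {N : ℕ} {g : ℂ → ℂ} (hg : AnalyticAt ℂ g 0)
    (he : f =ᶠ[𝓝[≠] 0] fun w => P.eval (τ w) + τ w ^ (N + 1) * g w) :
    deriv f =ᶠ[𝓝[≠] 0] fun w => (Polynomial.derivative P).eval (τ w) * deriv τ w +
      τ w ^ N * (((N : ℂ) + 1) * deriv τ w * g w + τ w * deriv g w) := by
  refine (ev_deriv he).trans ?_
  filter_upwards [an_ne hτ.an, an_ne hg] with w h1 h2
  have h3 := (hasDeriv_eval h1 P).add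
    (((h1.differentiableAt.hasDerivAt).pow (N + 1)).mul h2.differentiableAt.hasDerivAt)
  have h4 := h3.deriv
  refine Eq.trans ?_ (h4.trans ?_)
  · rfl
  · simp only [Pi.pow_apply, Nat.add_sub_cancel]
    push_cast
    ring

lemma II.deriv {f : ℂ → ℂ} (h : II v τ f) (hτ : Co τ) (hd : II v τ (deriv τ)) :
    II v τ (deriv f) := by
  refine II.of_approx fun N => ?_
  obtain ⟨P, hP, g, hg, he⟩ := h (N + 1)
  refine ⟨_, _, (II.tau.eval hτ hP.derivative).mul hτ hd, ?_, dexp hτ hg he⟩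
  exact ((analyticAt_const.mul hτ.an.deriv).mul hg).add (hτ.an.mul hg.deriv)

/-- **The square of the derivation is congruent to the derivation modulo two.** -/
theorem II.dd {f : ℂ → ℂ} (h : II v τ f) (hτ : Co τ) (hd : II v τ (_root_.deriv τ))
    (hdd : II v τ (fun w => (_root_.deriv (_root_.deriv τ) w - _root_.deriv τ w) / 2)) :
    II v τ (fun w => (_root_.deriv (_root_.deriv f) w - _root_.deriv f w) / 2) := by
  refine II.of_approx fun N => ?_
  obtain ⟨P, hP, g, hg, he⟩ := h (N + 2)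
  have e1 := dexp hτ (N := N + 1) hg he
  set g1 : ℂ → ℂ := fun w => (((N + 1 : ℕ) : ℂ) + 1) * _root_.deriv τ w * g w +
    τ w * _root_.deriv g w with hg1
  have hg1a : AnalyticAt ℂ g1 0 :=
    ((analyticAt_const.mul hτ.an.deriv).mul hg).add (hτ.an.mul hg.deriv)
  have e2 : _root_.deriv (_root_.deriv f) =ᶠ[𝓝[≠] 0] fun w =>
      (Polynomial.derivative (Polynomial.derivative P)).eval (τ w) * _root_.deriv τ w ^ 2 +
      (Polynomial.derivative P).eval (τ w) * _root_.deriv (_root_.deriv τ) w +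
      τ w ^ N * (((N : ℂ) + 1) * _root_.deriv τ w * g1 w + τ w * _root_.deriv g1 w) := by
    refine (ev_deriv e1).trans ?_
    filter_upwards [an_ne hτ.an, an_ne hg1a, an_ne hτ.an.deriv] with w h1 h2 h5
    have h3 := ((hasDeriv_eval h1 (Polynomial.derivative P)).mul
      h5.differentiableAt.hasDerivAt).add
      (((h1.differentiableAt.hasDerivAt).pow (N + 1)).mul h2.differentiableAt.hasDerivAt)
    have h4 := h3.deriv
    refine Eq.trans ?_ (h4.trans ?_)
    · rfl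
    · simp only [Pi.pow_apply, Nat.add_sub_cancel]
      push_cast
      ring
  refine ⟨fun w => (Polynomial.hasseDeriv 2 P).eval (τ w) * _root_.deriv τ w ^ 2 +
    (Polynomial.derivative P).eval (τ w) * ((_root_.deriv (_root_.deriv τ) w - _root_.deriv τ w) / 2),
    fun w => (1 / 2) * ((((N : ℂ) + 1) * _root_.deriv τ w * g1 w + τ w * _root_.deriv g1 w) -
      τ w * g1 w), ?_, ?_, ?_⟩
  · exact ((II.tau.eval hτ (hP.hasse 2)).mul hτ (hd.pow hτ 2)).add
      ((II.tau.eval hτ hP.derivative).mul hτ hdd)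
  · exact analyticAt_const.mul ((((analyticAt_const.mul hτ.an.deriv).mul hg1a).add
      (hτ.an.mul hg1a.deriv)).sub (hτ.an.mul hg1a))
  · filter_upwards [e1, e2] with w a b
    rw [a, b, hasse_two]
    simp only [Polynomial.eval_mul, Polynomial.eval_ofNat, hg1]
    ring

/-! ### iterated derivatives -/

lemma iter_an {F : ℂ → ℂ} (hF : AnalyticAt ℂ F 0) (n : ℕ) :
    AnalyticAt ℂ (iteratedDeriv n F) 0 := by
  rw [iteratedDeriv_eq_iterate]
  exact hF.iterated_deriv n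

lemma II.iter {F : ℂ → ℂ} (h : II v τ F) (hτ : Co τ) (hd : II v τ (_root_.deriv τ)) (n : ℕ) :
    II v τ (iteratedDeriv n F) := by
  induction n with
  | zero => rw [iteratedDeriv_zero]; exact h
  | succ n ih => rw [iteratedDeriv_succ]; exact ih.deriv hτ hd

lemma II.iter4 {F : ℂ → ℂ} (h : II v τ F) (hF : AnalyticAt ℂ F 0) (hτ : Co τ)
    (hd : II v τ (_root_.deriv τ))
    (hdd : II v τ (fun w => (_root_.deriv (_root_.deriv τ) w - _root_.deriv τ w) / 2)) (n : ℕ) :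
    v (iteratedDeriv (n + 4) F 0 - iteratedDeriv (n + 2) F 0) ≤ v 4 := by
  have h0 := h.iter hτ hd n
  have h1 := h.iter hτ hd (n + 1)
  have h2 := h.iter hτ hd (n + 2)
  have hE := h0.dd hτ hd hdd
  rw [← iteratedDeriv_succ, ← iteratedDeriv_succ] at hE
  set G : ℂ → ℂ := fun w => (iteratedDeriv (n + 2) F w + iteratedDeriv (n + 1) F w) / 2 with hG
  have hGI : II v τ G := by
    refine (hE.add h1).congr (Eventually.of_forall fun w => ?_)
    simp only [hG]
    ring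
  have hE2 := hGI.dd hτ hd hdd
  have a1 := iter_an hF (n + 1)
  have a2 := iter_an hF (n + 2)
  have a3 := iter_an hF (n + 3)
  have a4 := iter_an hF (n + 4)
  have d1 : _root_.deriv G =ᶠ[𝓝[≠] 0]
      fun w => (iteratedDeriv (n + 3) F w + iteratedDeriv (n + 2) F w) / 2 := by
    filter_upwards [an_ne a1, an_ne a2] with w b1 b2
    have h3 := ((b2.differentiableAt.hasDerivAt).add b1.differentiableAt.hasDerivAt).div_const 2
    rw [← iteratedDeriv_succ, ← iteratedDeriv_succ] at h3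
    exact h3.deriv
  have d2 : _root_.deriv (_root_.deriv G) =ᶠ[𝓝[≠] 0]
      fun w => (iteratedDeriv (n + 4) F w + iteratedDeriv (n + 3) F w) / 2 := by
    refine (ev_deriv d1).trans ?_
    filter_upwards [an_ne a2, an_ne a3] with w b1 b2
    have h3 := ((b2.differentiableAt.hasDerivAt).add b1.differentiableAt.hasDerivAt).div_const 2
    rw [← iteratedDeriv_succ, ← iteratedDeriv_succ] at h3
    exact h3.deriv
  have h5 := hE2.value hτ (F := fun w => (iteratedDeriv (n + 4) F w - iteratedDeriv (n + 2) F w) / 4)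
    ((a4.sub a2).div_const (c := 4)) (by
      filter_upwards [d1, d2] with w b1 b2
      rw [b1, b2]
      ring)
  have h4 : v 4 ≠ 0 := (Valuation.ne_zero_iff v).2 (by norm_num)
  rw [map_div₀] at h5
  exact (div_le_one₀ (zero_lt_iff.2 h4)).1 h5

/-- the even derivatives at `0` are congruent modulo four -/
theorem II.even {F : ℂ → ℂ} (h : II v τ F) (hF : AnalyticAt ℂ F 0) (hτ : Co τ)
    (hd : II v τ (_root_.deriv τ))
    (hdd : II v τ (fun w => (_root_.deriv (_root_.deriv τ) w - _root_.deriv τ w) / 2)) (m : ℕ) :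
    v (iteratedDeriv (2 * m + 2) F 0 - iteratedDeriv 2 F 0) ≤ v 4 := by
  induction m with
  | zero =>
    rw [mul_zero, zero_add, sub_self, map_zero]
    exact zero_le
  | succ m ih =>
    have h1 := h.iter4 hF hτ hd hdd (2 * m)
    have e : iteratedDeriv (2 * (m + 1) + 2) F 0 - iteratedDeriv 2 F 0 =
        (iteratedDeriv (2 * m + 4) F 0 - iteratedDeriv (2 * m + 2) F 0) +
        (iteratedDeriv (2 * m + 2) F 0 - iteratedDeriv 2 F 0) := by
      have : 2 * (m + 1) + 2 = 2 * m + 4 := by ring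
      rw [this]
      ring
    rw [e]
    exact Valuation.map_add_le v h1 ih

/-! ### rescaling -/

/-- the coordinate at `b w` -/
structure Sc (v : Valuation ℂ Γ) (τ : ℂ → ℂ) (b : ℂ) (ρ : ℂ → ℂ) : Prop where
  ne : b ≠ 0
  an : AnalyticAt ℂ ρ 0
  int : II v τ ρ
  eq : (fun w => τ (b * w)) =ᶠ[𝓝[≠] 0] fun w => τ w * ρ w
  unit : v (ρ 0) = 1

variable {b : ℂ} {ρ : ℂ → ℂ}

lemma tend_mul (hb : b ≠ 0) : Tendsto (fun w : ℂ => b * w) (𝓝[≠] 0) (𝓝[≠] 0) := by
  rw [tendsto_nhdsWithin_iff]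
  constructor
  · have h : Continuous (fun w : ℂ => b * w) := by fun_prop
    have h2 := (h.tendsto 0).mono_left (nhdsWithin_le_nhds (s := {(0 : ℂ)}ᶜ))
    rwa [mul_zero] at h2
  · filter_upwards [self_mem_nhdsWithin] with w hw
    exact mul_ne_zero hb hw

lemma an_mul {g : ℂ → ℂ} (hg : AnalyticAt ℂ g 0) (b : ℂ) : AnalyticAt ℂ (fun w => g (b * w)) 0 := by
  refine AnalyticAt.fun_comp (f := fun w : ℂ => b * w) (g := g) ?_ (by fun_prop)
  rw [mul_zero]
  exact hg

lemma Sc.exp (hs : Sc v τ b ρ) {f : ℂ → ℂ} {P : Polynomial ℂ} {N : ℕ} {g : ℂ → ℂ}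
    (he : f =ᶠ[𝓝[≠] 0] fun w => P.eval (τ w) + τ w ^ N * g w) :
    (fun w => f (b * w)) =ᶠ[𝓝[≠] 0]
      fun w => P.eval (τ w * ρ w) + τ w ^ N * (ρ w ^ N * g (b * w)) := by
  filter_upwards [(tend_mul hs.ne).eventually he, hs.eq] with w h1 h2
  rw [h1, h2]
  ring

lemma II.comp (hτ : Co τ) (hs : Sc v τ b ρ) {f : ℂ → ℂ} (h : II v τ f) :
    II v τ (fun w => f (b * w)) := by
  refine II.of_approx fun N => ?_
  obtain ⟨P, hP, g, hg, he⟩ := h N
  exact ⟨_, _, (II.tau.mul hτ hs.int).eval hτ hP, (hs.an.pow N).mul (an_mul hg b), hs.exp he⟩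

/-- self-similar germs are integral -/
theorem II.self (hτ : Co τ) (hs : Sc v τ b ρ) {f F : ℂ → ℂ} (hF : AnalyticAt ℂ F 0)
    (hf : f =ᶠ[𝓝[≠] 0] F) {A B : ℂ → ℂ} (hA : II v τ A) (hB : II v τ B) {a : ℂ} (ha : v a < 1)
    (he : (fun w => f (b * w)) =ᶠ[𝓝[≠] 0] fun w => A w + a * (B w * f w)) : II v τ f := by
  refine II.of_step hτ hF hf fun N P g hP hg h1 => ?_
  have e1 := hs.exp h1
  have i1 : II v τ (fun w => A w + a * (B w * P.eval (τ w)) - P.eval (τ w * ρ w)) :=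
    (hA.add ((hB.mul hτ (II.tau.eval hτ hP)).cmul hτ ha.le)).sub hτ
      ((II.tau.mul hτ hs.int).eval hτ hP)
  obtain ⟨Q, hQ, k, hk, h2⟩ := i1 (N + 1)
  obtain ⟨B', hB', hBe, hB0⟩ := hB.an hτ
  have h3 : v (ρ 0 ^ N * g (b * 0) - a * (B' 0 * g 0)) ≤ 1 := by
    refine hτ.ce (N := N) (P := 0) (Q := Q)
      (g := fun w => ρ w ^ N * g (b * w) - a * (B' w * g w)) (k := k) PI.zero hQ ?_ hk ?_
    · exact ((hs.an.pow N).mul (an_mul hg b)).sub (analyticAt_const.mul (hB'.mul hg))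
    · filter_upwards [h1, e1, h2, hBe, he] with w a1 a2 a3 a4 a5
      rw [← a3]
      rw [a2, a1] at a5
      rw [← a4]
      simp only [Polynomial.eval_zero]
      linear_combination a5
  rw [mul_zero] at h3
  have h4 : ρ 0 ^ N * g 0 - a * (B' 0 * g 0) = (ρ 0 ^ N - a * B' 0) * g 0 := by ring
  have h5 : v (ρ 0 ^ N - a * B' 0) = 1 := by
    have h6 : v (a * B' 0) < 1 := by
      rw [map_mul]
      exact mul_lt_one_of_lt_of_le ha hB0
    have h7 : v (ρ 0 ^ N) = 1 := by rw [map_pow, hs.unit, one_pow]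
    rw [Valuation.map_sub_eq_of_lt_left v (by rw [h7]; exact h6), h7]
  rw [h4, map_mul, h5, one_mul] at h3
  exact h3

lemma II.of_comp (hτ : Co τ) (hs : Sc v τ b ρ) {f F : ℂ → ℂ} (hF : AnalyticAt ℂ F 0)
    (hf : f =ᶠ[𝓝[≠] 0] F) (h : II v τ (fun w => f (b * w))) : II v τ f :=
  II.self hτ hs hF hf h (B := fun _ => 0) (II.const (by rw [map_zero]; exact zero_le)) (a := 0)
    (by rw [map_zero]; exact zero_lt_one) (Eventually.of_forall fun w => by simp)

/-! ### poles -/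

variable (v τ) in
/-- integral expansions with a pole -/
def LL (f : ℂ → ℂ) : Prop := ∃ m : ℕ, II v τ (fun w => τ w ^ m * f w)

lemma LL.congr {f f' : ℂ → ℂ} (h : LL v τ f) (he : f' =ᶠ[𝓝[≠] 0] f) : LL v τ f' := by
  obtain ⟨m, hm⟩ := h
  refine ⟨m, hm.congr ?_⟩
  filter_upwards [he] with w hw
  rw [hw]

lemma II.ll {f : ℂ → ℂ} (h : II v τ f) : LL v τ f :=
  ⟨0, h.congr (Eventually.of_forall fun w => by simp)⟩

lemma LL.mul (hτ : Co τ) {f f' : ℂ → ℂ} (h : LL v τ f) (h' : LL v τ f') :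
    LL v τ (fun w => f w * f' w) := by
  obtain ⟨m, hm⟩ := h
  obtain ⟨m', hm'⟩ := h'
  exact ⟨m + m', (hm.mul hτ hm').congr (Eventually.of_forall fun w => by ring)⟩

lemma LL.add (hτ : Co τ) {f f' : ℂ → ℂ} (h : LL v τ f) (h' : LL v τ f') :
    LL v τ (fun w => f w + f' w) := by
  obtain ⟨m, hm⟩ := h
  obtain ⟨m', hm'⟩ := h'
  exact ⟨m + m', (((II.tau.pow hτ m').mul hτ hm).add ((II.tau.pow hτ m).mul hτ hm')).congr
    (Eventually.of_forall fun w => by ring)⟩

lemma LL.const {a : ℂ} (ha : v a ≤ 1) : LL v τ (fun _ => a) := (II.const ha).ll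

lemma LL.cmul (hτ : Co τ) {a : ℂ} (ha : v a ≤ 1) {f : ℂ → ℂ} (h : LL v τ f) :
    LL v τ (fun w => a * f w) := (LL.const ha).mul hτ h

lemma LL.neg (hτ : Co τ) {f : ℂ → ℂ} (h : LL v τ f) : LL v τ (fun w => -f w) :=
  (h.cmul hτ (a := -1) (by rw [Valuation.map_neg, map_one])).congr
    (Eventually.of_forall fun w => by ring)

lemma LL.sub (hτ : Co τ) {f f' : ℂ → ℂ} (h : LL v τ f) (h' : LL v τ f') :
    LL v τ (fun w => f w - f' w) :=
  (h.add hτ (h'.neg hτ)).congr (Eventually.of_forall fun w => by ring)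

lemma LL.pow (hτ : Co τ) {f : ℂ → ℂ} (h : LL v τ f) (n : ℕ) : LL v τ (fun w => f w ^ n) := by
  induction n with
  | zero =>
    exact (LL.const (a := 1) (by rw [map_one])).congr (Eventually.of_forall fun w => by simp)
  | succ n ih => exact (ih.mul hτ h).congr (Eventually.of_forall fun w => by simp [pow_succ])

lemma LL.reg (hτ : Co τ) {f F : ℂ → ℂ} (h : LL v τ f) (hF : AnalyticAt ℂ F 0)
    (he : f =ᶠ[𝓝[≠] 0] F) : II v τ f := by
  obtain ⟨m, hm⟩ := h
  exact II.of_tau_pow hτ hF he hm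

/-- the inverse of the coordinate -/
lemma LL.tau_inv (hτ : Co τ) (n : ℕ) : LL v τ (fun w => (τ w ^ n)⁻¹) := by
  refine ⟨n, (II.const (a := 1) (by rw [map_one])).congr ?_⟩
  filter_upwards [hτ.ne] with w hw
  exact mul_inv_cancel₀ (pow_ne_zero _ hw)

lemma LL.comp (hτ : Co τ) (hs : Sc v τ b ρ) {f : ℂ → ℂ} (h : LL v τ f) :
    LL v τ (fun w => f (b * w)) := by
  obtain ⟨m, hm⟩ := h
  have h1 := hm.comp hτ hs
  have h2 : II v τ (fun w => (ρ w)⁻¹) :=
    hs.int.inv hτ hs.an (EventuallyEq.refl _ _) hs.unit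
  refine ⟨m, ((h2.pow hτ m).mul hτ h1).congr ?_⟩
  have h3 : ρ 0 ≠ 0 := by
    intro h0
    have := hs.unit
    rw [h0, map_zero] at this
    exact zero_ne_one this
  filter_upwards [hs.eq, (hs.an.continuousAt.eventually_ne h3).filter_mono
    nhdsWithin_le_nhds] with w a1 a2
  have h4 : (ρ w)⁻¹ ^ m * (τ w * ρ w) ^ m = τ w ^ m := by
    rw [← mul_pow]
    congr 1
    field_simp
  rw [a1, ← h4]
  ring

end Pool.Agent.J4.H67.AW
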