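import Pool.Agent.J4.H67.AW.Os

/-!
# The weighted sums of the Eisenstein-Kronecker numbers modulo eight
-/

set_option autoImplicit false
set_option linter.unusedSectionVars false

open Filter
open scoped Topology PeriodPair

namespace Pool.Agent.J4.H67.AW

open Pool.Agent.Y698 (al bl RR aR bR fR nR cj cX cY e7 e7_mul e7_neg e7_one e7_per e7_eq_zero e7_sq
  fR_ne fin_quot nR_nonneg mul_cj irr_fR not_mem_of_cop LD Gv GG v_two_lt v_bl bl_ne)
open Pool.Agent.Y698.SG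
open H667R3 Pool.Agent.W192.HK Pool.Agent.TH936.CM Pool.Agent.TH936.PU
open Pool.Agent.TH936.CW (E1 E1_per' ek ek_per Aa rh Uu Pp evz PP ev Dv_X0)

variable {L : PeriodPair} {Ω p q : ℂ}

open MvPolynomial in
lemma Aa_one (L : PeriodPair) (p : ℂ) : Aa L p 1 = X 0 := by
  unfold Aa
  have e0 : rh L p (1 - 1) = 1 := rh_zero
  have e1 : rh L p (1 - 0) = 0 := rh_odd (by decide)
  rw [Finset.sum_range_succ, Finset.sum_range_one, e0, e1, Uu_one]
  simp

/-- the first of the Eisenstein-Kronecker numbers -/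
lemma ek_zero (z : ℂ) : ek L p q 0 z = E1 L p q z := by
  unfold ek Pp evz E1
  rw [Function.iterate_zero, id, zero_add, Aa_one]
  unfold ev
  simp

lemma E1_neg (z : ℂ) : E1 L p q (-z) = -E1 L p q z := by
  unfold E1 Pool.Agent.TH936.CW.Xx
  rw [zeta_neg, map_neg]
  ring

lemma os_ek (hL : IsLat L RR Ω) (hpq : ∀ l ∈ L.lattice, eta L l = p * l + q * (starRingEnd ℂ) l)
    {e : ℕ} (he : 0 < e) : Os L Ω (fun c => mu e c) (ek L p q e) :=
  ⟨fun _ _ hz h => ek_per hpq e hz.ne h, fun c hc _ _ h1 ⟨_, hN, h2⟩ =>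
    ek_dist hL hpq he c hc.gd.ne h1.ne hN.pos h2⟩

lemma os_E1 (hL : IsLat L RR Ω) (hpq : ∀ l ∈ L.lattice, eta L l = p * l + q * (starRingEnd ℂ) l) :
    Os L Ω (fun c => (c : ℂ)) (E1 L p q) := by
  refine ⟨fun _ _ hz h => E1_per' hpq hz.ne h, fun c hc _ z h1 ⟨N, hN, h2⟩ => ?_⟩
  have h3 := ek_dist' (e := 0) hL hpq (fun z _ => by rw [ek_zero, ek_zero, E1_neg]) c hc.gd.ne
    h1.ne hN.pos h2
  simp only [ek_zero] at h3
  rw [h3, mu_eq]
  simp

lemma bR_dvd : bR ∣ 2 := by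
  refine ⟨aR, ?_⟩
  apply Subtype.ext
  push_cast
  rw [Pool.Agent.Y698.aR_coe, Pool.Agent.Y698.bR_coe, mul_comm, Pool.Agent.Y698.al_mul_bl]
  rfl

lemma aR_dvd : aR ∣ 2 := by
  refine ⟨bR, ?_⟩
  apply Subtype.ext
  push_cast
  rw [Pool.Agent.Y698.aR_coe, Pool.Agent.Y698.bR_coe, Pool.Agent.Y698.al_mul_bl]
  rfl

lemma Os.congr {μ : RR → ℂ} {f g : ℂ → ℂ} (hf : Os L Ω μ f) (h : ∀ z, g z = f z) :
    Os L Ω μ g := by
  have : g = f := funext h
  rwa [this]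

lemma os_V (hL : IsLat L RR Ω) (hpq : ∀ l ∈ L.lattice, eta L l = p * l + q * (starRingEnd ℂ) l) :
    Os L Ω (fun c => (c : ℂ)) (Vv L p q) := by
  have h1 := os_E1 hL hpq
  refine (((h1.comp hL bR_dvd).add ((h1.comp hL (dvd_refl 2)).smul (-bl⁻¹))).add
    ((h1.smul (-bl⁻¹)).add ((h1.comp hL aR_dvd).smul (bl⁻¹ ^ 2)))).congr fun z => ?_
  have e2 : ((2 : RR) : ℂ) = 2 := rfl
  unfold Vv
  rw [Pool.Agent.Y698.aR_coe, Pool.Agent.Y698.bR_coe, e2]
  ring

variable [Fintype (RR ⧸ sp fR)]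

lemma Gx_add (f g : ℂ → ℂ) (u : ℂ) : Gx Ω (fun z => f z + g z) u = Gx Ω f u + Gx Ω g u := by
  unfold Gx
  rw [← Finset.sum_add_distrib]
  exact Finset.sum_congr rfl fun y _ => by ring

lemma Gx_smul (a : ℂ) (f : ℂ → ℂ) (u : ℂ) : Gx Ω (fun z => a * f z) u = a * Gx Ω f u := by
  unfold Gx
  rw [Finset.mul_sum]
  exact Finset.sum_congr rfl fun y _ => by ring

lemma Wx_add (f g : ℂ → ℂ) {n : RR} (hn : n ≠ 0) (φ : RR → ℂ) :
    Wg Ω (Gx Ω (fun z => f z + g z)) n φ = Wg Ω (Gx Ω f) n φ + Wg Ω (Gx Ω g) n φ := by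
  have f1 := fin_quot hn
  let _ : Fintype (RR ⧸ sp n) := Fintype.ofFinite _
  rw [Wg_eq, Wg_eq, Wg_eq, ← Finset.sum_add_distrib]
  exact Finset.sum_congr rfl fun x _ => by rw [Gx_add]; ring

lemma Wx_smul (a : ℂ) (f : ℂ → ℂ) {n : RR} (hn : n ≠ 0) (φ : RR → ℂ) :
    Wg Ω (Gx Ω (fun z => a * f z)) n φ = a * Wg Ω (Gx Ω f) n φ := by
  have f1 := fin_quot hn
  let _ : Fintype (RR ⧸ sp n) := Fintype.ofFinite _
  rw [Wg_eq, Wg_eq, Finset.mul_sum]
  exact Finset.sum_congr rfl fun x _ => by rw [Gx_smul]; ring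

/-! ### comparison with the regularized sums -/

lemma HH_eq (hL : IsLat L RR Ω) (hpq : ∀ l ∈ L.lattice, eta L l = p * l + q * (starRingEnd ℂ) l)
    {n : RR} (hn : Go n) (x : RR) (hx : Ω * x / (n : ℂ) ∉ L.lattice) :
    HH L Ω fR e7 (Ω * x / (n : ℂ)) = Gx Ω (E1 L p q) (Ω * x / (n : ℂ)) - Gx Ω (E1 L p q) 0 := by
  have hE := os_E1 hL hpq
  have h1 := Gx_mul hL hE (c := -1) ⟨0, -1, by ring⟩ hn x
  rw [e7_neg, e7_one] at h1
  have h2 : ∑ y : RR ⧸ sp fR, e7 y.out * E1 L p q (((-1 : RR) : ℂ) * (Ω * y.out / fR) +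
      Ω * x / n) = -∑ y : RR ⧸ sp fR, e7 y.out * E1 L p q (Ω * y.out / fR - Ω * x / n) := by
    rw [← Finset.sum_neg_distrib]
    refine Finset.sum_congr rfl fun y _ => ?_
    have e : ((-1 : RR) : ℂ) * (Ω * y.out / fR) + Ω * x / n =
        -(Ω * y.out / fR - Ω * x / n) := by
      push_cast
      ring
    rw [e, E1_neg]
    ring
  rw [h2] at h1
  have h3 : HH L Ω fR e7 (Ω * x / (n : ℂ)) = 1 / 2 * ∑ y : RR ⧸ sp fR,
      (e7 y.out * E1 L p q (Ω * y.out / fR + Ω * x / n) +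
        e7 y.out * E1 L p q (Ω * y.out / fR - Ω * x / n) -
        2 * (e7 y.out * E1 L p q (Ω * y.out / fR + 0))) := by
    unfold HH
    congr 1
    refine Finset.sum_congr rfl fun y _ => ?_
    by_cases hy : y.out ∈ sp fR
    · rw [e7_eq_zero.2 hy]
      ring
    · have p1 := od_pt hL hn hy x
      have p2 := od_pt hL hn hy (-x)
      have p3 := od_pt hL hn hy 0
      have e3 : Ω * y.out / (fR : ℂ) + Ω * ((0 : RR) : ℂ) / n = Ω * y.out / fR := by
        push_cast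
        ring
      have e2 : Ω * y.out / (fR : ℂ) + Ω * ((-x : RR) : ℂ) / n = Ω * y.out / fR - Ω * x / n := by
        push_cast
        ring
      rw [e2] at p2
      rw [e3] at p3
      rw [add_zero, ← zeta_sec p3.ne hx p1.ne p2.ne]
      unfold E1 Pool.Agent.TH936.CW.Xx
      rw [map_add, map_sub]
      ring
  rw [h3, Finset.sum_sub_distrib, Finset.sum_add_distrib, ← Finset.mul_sum]
  show 1 / 2 * (Gx Ω (E1 L p q) (Ω * x / n) + _ - 2 * Gx Ω (E1 L p q) 0) = _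
  linear_combination (-1 / 2 : ℂ) * h1

lemma go_five : Go (5 : RR) := by
  refine ⟨⟨?_, ?_⟩, 1, by norm_num⟩
  · intro h
    have := congrArg (fun t : RR => (t : ℂ)) h
    have e5 : ((5 : RR) : ℂ) = 5 := rfl
    rw [e5] at this
    norm_num at this
  · refine ⟨2 * fR, 3, ?_⟩
    linear_combination (2 : RR) * Pool.Agent.Y698.fR_sq

/-- **Comparison with the regularized sums.** -/
theorem Gv_eq (hL : IsLat L RR Ω) (hpq : ∀ l ∈ L.lattice, eta L l = p * l + q * (starRingEnd ℂ) l)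
    {T : ℂ} (hT : Tendsto (fun δ : ℝ => GG Ω δ 1) (𝓝[>] 0) (𝓝 T)) {n : RR} (hn : Go n) (x : RR) :
    Gv L Ω T (Ω * x / (n : ℂ)) = Gx Ω (E1 L p q) (Ω * x / (n : ℂ)) := by
  have hE := os_E1 hL hpq
  have hg := hE.gs hL
  have key : ∀ {n : RR}, Go n → ∀ x : RR, Gv L Ω T (Ω * x / (n : ℂ)) =
      Gx Ω (E1 L p q) (Ω * x / (n : ℂ)) + (T - Gx Ω (E1 L p q) 0) := by
    intro n hn x
    by_cases hx : Ω * x / (n : ℂ) ∈ L.lattice
    · have h1 : Gv L Ω T (Ω * x / (n : ℂ)) = T := if_pos hx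
      have h2 := hg.per n hn x 0 (by rw [sub_zero]; exact (div_mem_iff hL hn.gd.ne x).1 hx)
      have e : Ω * ((0 : RR) : ℂ) / (n : ℂ) = 0 := by push_cast; ring
      rw [e] at h2
      rw [h1, h2]
      ring
    · have h1 : Gv L Ω T (Ω * x / (n : ℂ)) = HH L Ω fR e7 (Ω * x / (n : ℂ)) + T := if_neg hx
      rw [h1, HH_eq hL hpq hn x hx]
      ring
  suffices hK : T - Gx Ω (E1 L p q) 0 = 0 by
    rw [key hn x, hK, add_zero]
  set K := T - Gx Ω (E1 L p q) 0 with hKd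
  have f1 := fin_quot go_five.gd.ne
  let _ : Fintype (RR ⧸ sp (5 : RR)) := Fintype.ofFinite _
  have h1 := Pool.Agent.Y698.G_dist hL hT (n := 1) (c := 5) one_ne_zero go_five.gd.ne
    isCoprime_one_right go_five.gd.cop 0
  have h2 := hg.dist 1 5 Go.one go_five 0
  have h3 : ∀ t : RR ⧸ sp (5 : RR), Gv L Ω T (Ω * ((0 + 1 * t.out : RR) : ℂ) /
      ((5 * 1 : RR) : ℂ)) = Gx Ω (E1 L p q) (Ω * ((0 + 1 * t.out : RR) : ℂ) /
      ((5 * 1 : RR) : ℂ)) + K := fun t => key (go_five.mul Go.one) _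
  rw [Finset.sum_congr rfl (fun t _ => h3 t), Finset.sum_add_distrib, h2, Finset.sum_const,
    Finset.card_univ, nsmul_eq_mul, key Go.one 0] at h1
  have h5 : (Fintype.card (RR ⧸ sp (5 : RR)) : ℂ) = 25 := by
    have h6 := (Pool.Agent.W287.HK.h_basic RR al Pool.Agent.Y698.qr).2.2.2.2.1 (5 : RR)
    unfold nm at h6
    rw [Nat.card_eq_fintype_card] at h6
    have h7 : (((5 : RR) : ℂ)) = 5 := rfl
    rw [h7] at h6
    have h8 : Complex.normSq (5 : ℂ) = 25 := by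
      simp
      norm_num
    rw [h8] at h6
    exact_mod_cast congrArg (fun r : ℝ => (r : ℂ)) h6
  rw [h5] at h1
  have c5 : ((5 : RR) : ℂ) = 5 := rfl
  rw [c5] at h1
  have h9 : e7 (5 : RR) ^ 2 = 1 := e7_sq (not_mem_of_cop go_five.gd.cop)
  have h10 : (25 - 5 * e7 (5 : RR)) * K = 0 := by linear_combination h1
  rcases mul_eq_zero.1 h10 with h | h
  · exfalso
    have h11 : e7 (5 : RR) = 5 := by linear_combination (-1 / 5 : ℂ) * h
    rw [h11] at h9
    norm_num at h9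
  · exact h

theorem Bg_eq_Wg (hL : IsLat L RR Ω)
    (hpq : ∀ l ∈ L.lattice, eta L l = p * l + q * (starRingEnd ℂ) l)
    {T : ℂ} (hT : Tendsto (fun δ : ℝ => GG Ω δ 1) (𝓝[>] 0) (𝓝 T)) {n : RR} (hn : Go n)
    (φ : RR → ℂ) : Bg L Ω T n φ = Wg Ω (Gx Ω (E1 L p q)) n φ := by
  unfold Bg Wg
  refine finsum_congr fun x => ?_
  rw [Gv_eq hL hpq hT hn]

/-! ### the pairing -/

variable {Γ : Type*} [LinearOrderedCommGroupWithZero Γ] {v : Valuation ℂ Γ}

theorem pair_le (hL : IsLat L RR Ω) {f : ℂ → ℂ}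
    (hf : ∀ z w : ℂ, Od L z → w - z ∈ L.lattice → f w = f z)
    (hodd : ∀ z, Od L z → f (-z) = -f z) {K : ℂ} (hK : K ≠ 0) (hb : ∀ z, Od L z → v (f z) ≤ v K)
    {n : RR} (hn : Go n) {φ : RR → ℂ} (hφ : Pe n φ) (hφe : ∀ x, φ (-x) = φ x)
    (hφb : ∀ x, v (φ x) ≤ 1) : v (Wg Ω (Gx Ω f) n φ) ≤ v K * v 2 := by
  classical
  have f1 := fin_quot hn.gd.ne
  let _ : Fintype (RR ⧸ sp n) := Fintype.ofFinite _
  set F : (RR ⧸ sp n) × (RR ⧸ sp fR) → ℂ := fun a =>
    φ a.1.out * (e7 a.2.out * f (Ω * a.2.out / fR + Ω * a.1.out / n)) / K with hF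
  have hKv : v K ≠ 0 := (Valuation.ne_zero_iff v).2 hK
  have h0 : Wg Ω (Gx Ω f) n φ = K * ∑ a : (RR ⧸ sp n) × (RR ⧸ sp fR), F a := by
    rw [Wg_eq, Fintype.sum_prod_type, Finset.mul_sum]
    refine Finset.sum_congr rfl fun x _ => ?_
    unfold Gx
    rw [Finset.mul_sum, Finset.mul_sum]
    refine Finset.sum_congr rfl fun y _ => ?_
    rw [hF]
    field_simp
  have h1 : ∑ a : (RR ⧸ sp n) × (RR ⧸ sp fR), F a =
      ∑ a ∈ Finset.univ.filter (fun a : (RR ⧸ sp n) × (RR ⧸ sp fR) => a.2 ≠ 0), F a := by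
    rw [Finset.sum_filter]
    refine Finset.sum_congr rfl fun a _ => ?_
    split_ifs with h
    · rfl
    · have h2 : a.2.out ∈ sp fR := by
        rw [← Ideal.Quotient.eq_zero_iff_mem, Ideal.Quotient.mk_out]
        exact not_not.1 h
      rw [hF]
      beta_reduce
      rw [e7_eq_zero.2 h2]
      ring
  have hne : ∀ y : RR ⧸ sp fR, y ≠ 0 → y.out ∉ sp fR := by
    intro y hy hm
    apply hy
    rw [← Ideal.Quotient.mk_out y]
    exact Ideal.Quotient.eq_zero_iff_mem.2 hm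
  rw [h0, map_mul, h1]
  refine mul_le_mul' le_rfl ?_
  refine Pool.Agent.Y698.v_sum_pair' _ ?_ ?_ F ?_ ?_
  · intro a ha
    rw [Finset.mem_filter] at ha ⊢
    refine ⟨Finset.mem_univ _, ?_⟩
    rw [Prod.snd_neg]
    exact neg_ne_zero.2 ha.2
  · intro a ha hcon
    rw [Finset.mem_filter] at ha
    have h2 : -a.2 = a.2 := congrArg Prod.snd hcon
    apply ha.2
    have h3 : (2 : RR ⧸ sp fR) * a.2 = 0 := by
      rw [two_mul]
      nth_rewrite 1 [← h2]
      rw [neg_add_cancel]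
    have h4 : Ideal.Quotient.mk (sp fR) (fR ^ 2) = 0 :=
      Ideal.Quotient.eq_zero_iff_mem.2 (Ideal.pow_mem_of_mem _ (Ideal.mem_span_singleton_self _) 2
        (by norm_num))
    rw [Pool.Agent.Y698.fR_sq, map_neg] at h4
    have h5 : (7 : RR ⧸ sp fR) = 0 := by
      have : Ideal.Quotient.mk (sp fR) (7 : RR) = (7 : RR ⧸ sp fR) := map_ofNat _ 7
      rw [← this]
      exact neg_eq_zero.1 h4
    linear_combination a.2 * h5 - 3 * h3
  · intro a ha
    rw [Finset.mem_filter] at ha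
    have hy := hne _ ha.2
    have n1 : (-a).1.out - -a.1.out ∈ sp n := by
      rw [Prod.fst_neg, ← Ideal.Quotient.mk_eq_mk_iff_sub_mem, Ideal.Quotient.mk_out, map_neg,
        Ideal.Quotient.mk_out]
    have n2 : (-a).2.out - -a.2.out ∈ sp fR := by
      rw [Prod.snd_neg, ← Ideal.Quotient.mk_eq_mk_iff_sub_mem, Ideal.Quotient.mk_out, map_neg,
        Ideal.Quotient.mk_out]
    have hod := od_pt hL hn hy a.1.out
    rw [hF]
    beta_reduce
    rw [hφ _ _ n1, hφe, e7_per n2, e7_neg]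
    have e2 : f (Ω * (-a).2.out / fR + Ω * (-a).1.out / n) =
        f (-(Ω * a.2.out / fR + Ω * a.1.out / n)) := by
      refine hf _ _ hod.neg ?_
      have m1 := (div_mem_iff hL hn.gd.ne _).2 n1
      have m2 := (div_mem_iff hL fR_ne _).2 n2
      convert add_mem m2 m1 using 1
      push_cast
      ring
    rw [e2, hodd _ hod]
    ring
  · intro a ha
    rw [Finset.mem_filter] at ha
    have hod := od_pt hL hn (hne _ ha.2) a.1.out
    rw [hF]
    beta_reduce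
    rw [map_div₀, map_mul, map_mul]
    refine (div_le_one₀ (zero_lt_iff.2 hKv)).2 ?_
    refine (mul_le_of_le_one_left' (hφb _)).trans ?_
    refine (mul_le_of_le_one_left' ?_).trans (hb _ hod)
    have h9 : e7 a.2.out ^ 2 = 1 := e7_sq (hne _ ha.2)
    rcases sq_eq_one_iff.1 h9 with h | h
    · rw [h, map_one]
    · rw [h, Valuation.map_neg, map_one]

end Pool.Agent.J4.H67.AW
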