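import Pool.Agent.J4.H67.AW.Zt

/-!
# The Kronecker theta function at points of odd order
-/

set_option autoImplicit false
set_option linter.unusedSectionVars false

open Filter
open scoped Topology PeriodPair

namespace Pool.Agent.J4.H67.AW

open Pool.Agent.Y698
open H667R3 Pool.Agent.W192.HK Pool.Agent.TH936.CM Pool.Agent.TH936.PU
open Pool.Agent.TH936.CW (Rw Rw_eq Rw_an near hasDerivAt_wp'_all zreg_an zreg_zero)

variable {Γ : Type*} [LinearOrderedCommGroupWithZero Γ] {v : Valuation ℂ Γ}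
variable {L : PeriodPair} {Ω p q : ℂ}

lemma v_odd (hv : v al < 1) {N : ℕ} (hN : Odd N) : v (N : ℂ) = 1 := by
  obtain ⟨k, rfl⟩ := hN
  have h1 : v ((2 * k : ℕ) : ℂ) < 1 := by
    push_cast
    rw [map_mul]
    exact mul_lt_one_of_lt_of_le (v_two_lt hv) (v_nat v k)
  have e : ((2 * k + 1 : ℕ) : ℂ) = 1 + ((2 * k : ℕ) : ℂ) := by push_cast; ring
  rw [e, Valuation.map_add_eq_of_lt_left v (by rwa [map_one]), map_one]

/-- points of odd order -/
structure Od (L : PeriodPair) (z : ℂ) : Prop where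
  ne : z ∉ L.lattice
  tor : ∃ N : ℕ, Odd N ∧ (N : ℂ) * z ∈ L.lattice

lemma Od.two {z : ℂ} (h : Od L z) : Od L (2 * z) := by
  obtain ⟨h1, N, hN, h2⟩ := h
  refine ⟨fun h3 => h1 ?_, N, hN, ?_⟩
  · obtain ⟨k, rfl⟩ := hN
    have h4 := intCast_mul_mem L h3 (k : ℤ)
    have h5 := sub_mem h2 h4
    have e : ((2 * k + 1 : ℕ) : ℂ) * z - ((k : ℤ) : ℂ) * (2 * z) = z := by push_cast; ring
    rwa [e] at h5
  · have h4 := intCast_mul_mem L h2 2
    have e : ((2 : ℤ) : ℂ) * ((N : ℂ) * z) = (N : ℂ) * (2 * z) := by push_cast; ring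
    rwa [e] at h4

lemma Od.pow {z : ℂ} (h : Od L z) (m : ℕ) : Od L (2 ^ m * z) := by
  induction m with
  | zero => simpa using h
  | succ m ih =>
    have := ih.two
    rwa [← mul_assoc, ← pow_succ'] at this

lemma Od.neg {z : ℂ} (h : Od L z) : Od L (-z) := by
  obtain ⟨h1, N, hN, h2⟩ := h
  refine ⟨fun h3 => h1 (by simpa using neg_mem h3), N, hN, ?_⟩
  rw [mul_neg]
  exact neg_mem h2

lemma Od.tb {z : ℂ} (h : Od L z) (hv : v al < 1) : Tb v L z := by
  obtain ⟨h1, N, hN, h2⟩ := h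
  refine ⟨h1, (N : RR), ?_, ?_⟩
  · push_cast
    exact v_odd hv hN
  · push_cast
    exact h2

/-- the period of the doubling map -/
lemma Od.per {z : ℂ} (h : Od L z) : ∃ m : ℕ, 0 < m ∧ ((2 : ℂ) ^ m - 1) * z ∈ L.lattice := by
  obtain ⟨h1, N, hN, h2⟩ := h
  have hN0 : N ≠ 0 := by
    rintro rfl
    simp at hN
  have hc : Nat.Coprime 2 N := Nat.coprime_two_left.2 hN
  have h3 := Nat.ModEq.pow_totient hc
  refine ⟨N.totient, Nat.totient_pos.2 (Nat.pos_of_ne_zero hN0), ?_⟩
  have h4 : (N : ℤ) ∣ 2 ^ N.totient - 1 := by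
    have := h3.symm.dvd
    push_cast at this
    exact this
  obtain ⟨k, hk⟩ := h4
  have h5 := intCast_mul_mem L h2 k
  have e : (k : ℂ) * ((N : ℂ) * z) = ((2 : ℂ) ^ N.totient - 1) * z := by
    have h6 : ((2 : ℂ) ^ N.totient - 1) = N * k := by exact_mod_cast congrArg (fun t : ℤ => (t : ℂ)) hk
    rw [h6]
    ring
  rwa [e] at h5

/-- the Kronecker theta function -/
noncomputable def th (L : PeriodPair) (p q c z w : ℂ) : ℂ :=
  Complex.exp (-((q * c + p * z) * w)) * sigma L (z + w) / (sigma L z * sigma L w)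

lemma th_ne (c : ℂ) {z w : ℂ} (hz : z ∉ L.lattice) (hw : w ∉ L.lattice)
    (hzw : z + w ∉ L.lattice) : th L p q c z w ≠ 0 := by
  unfold th
  exact div_ne_zero (mul_ne_zero (Complex.exp_ne_zero _) (sigma_ne_zero L hzw))
    (mul_ne_zero (sigma_ne_zero L hz) (sigma_ne_zero L hw))

/-- duplication -/
lemma th_sq (c : ℂ) {z w : ℂ} (hw : w ∉ L.lattice)
    (hzw : z + w ∉ L.lattice) (h2z : 2 * z ∉ L.lattice) (h2zw : 2 * z + w ∉ L.lattice) :
    th L p q c z w ^ 2 = th L p q (2 * c) (2 * z) w * (℘'[L] z / (Xx L (z + w) - Xx L z)) := by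
  have hz := two_mul_notMem_of L h2z
  have e1 := wp'_eq L hz
  have e2 := wp_sub_wp L hzw hz
  have e3 : Xx L (z + w) - Xx L z = ℘[L] (z + w) - ℘[L] z := by unfold Xx; ring
  have e4 : z + w + z = 2 * z + w := by ring
  have e5 : z + w - z = w := by ring
  rw [e4, e5] at e2
  rw [e3, e1, e2]
  unfold th
  have s1 := sigma_ne_zero L hz
  have s2 := sigma_ne_zero L hw
  have s3 := sigma_ne_zero L hzw
  have s4 := sigma_ne_zero L h2z
  have s5 := sigma_ne_zero L h2zw
  have e6 : Complex.exp (-((q * (2 * c) + p * (2 * z)) * w)) =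
      Complex.exp (-((q * c + p * z) * w)) ^ 2 := by
    rw [← Complex.exp_nat_mul]
    congr 1
    push_cast
    ring
  rw [e6]
  generalize sigma L (2 * z + w) = A at *
  generalize sigma L (2 * z) = B at *
  field_simp

/-- periodicity -/
lemma th_per (hpq : ∀ l ∈ L.lattice, eta L l = p * l + q * (starRingEnd ℂ) l) (c : ℂ) {z l : ℂ}
    (hz : z ∉ L.lattice) (hl : l ∈ L.lattice) (w : ℂ) :
    th L p q (c + (starRingEnd ℂ) l) (z + l) w = th L p q c z w := by
  obtain ⟨C, hC, hs⟩ := sigma_add_coe L hl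
  have e1 : z + l + w = (z + w) + l := by ring
  unfold th
  rw [e1, hs, hs, hpq l hl]
  have s1 := sigma_ne_zero L hz
  have e2 : Complex.exp (-((q * (c + (starRingEnd ℂ) l) + p * (z + l)) * w)) =
      Complex.exp (-((q * c + p * z) * w)) *
        (Complex.exp ((p * l + q * (starRingEnd ℂ) l) * w))⁻¹ := by
    rw [← Complex.exp_neg, ← Complex.exp_add]
    congr 1
    ring
  have e3 : Complex.exp ((p * l + q * (starRingEnd ℂ) l) * (z + w)) =
      Complex.exp ((p * l + q * (starRingEnd ℂ) l) * z) *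
        Complex.exp ((p * l + q * (starRingEnd ℂ) l) * w) := by
    rw [← Complex.exp_add]
    congr 1
    ring
  rw [e2, e3]
  have n1 := Complex.exp_ne_zero ((p * l + q * (starRingEnd ℂ) l) * w)
  have n2 := Complex.exp_ne_zero ((p * l + q * (starRingEnd ℂ) l) * z)
  field_simp

/-- the regular version -/
noncomputable def tf (L : PeriodPair) (p q c z w : ℂ) : ℂ :=
  fx L w / fy L w * (Complex.exp (-((q * c + p * z) * w)) * sigma L (z + w) / (sigma L z * Pi' L w))

lemma tf_an (c : ℂ) {z : ℂ} (hz : z ∉ L.lattice) : AnalyticAt ℂ (tf L p q c z) 0 := by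
  have h2 : AnalyticAt ℂ (fun w => fx L w / fy L w) 0 :=
    (fx_an L).div (fy_an L) (by rw [fy_zero]; exact one_ne_zero)
  have h3 : AnalyticAt ℂ (fun w => sigma L (z + w)) 0 := by
    have : Differentiable ℂ (fun w => sigma L (z + w)) :=
      (differentiable_sigma L).comp (by fun_prop)
    exact this.analyticAt 0
  have h4 : AnalyticAt ℂ (Pi' L) 0 := (differentiable_Pi' L).analyticAt 0
  unfold tf
  refine h2.mul (((AnalyticAt.mul (by fun_prop) h3)).div (analyticAt_const.mul h4) ?_)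
  rw [Pi'_zero, mul_one]
  exact sigma_ne_zero L hz

lemma tf_zero (c : ℂ) {z : ℂ} (hz : z ∉ L.lattice) : tf L p q c z 0 = 1 := by
  unfold tf
  rw [Pi'_zero, fx_zero, fy_zero, mul_zero, neg_zero, Complex.exp_zero, add_zero, mul_one, one_mul,
    div_self (sigma_ne_zero L hz)]
  norm_num

lemma tf_eq (c z : ℂ) : (fun w => tt L w * th L p q c z w) =ᶠ[𝓝[≠] 0] tf L p q c z := by
  filter_upwards [self_mem_nhdsWithin] with w h0
  have hw0 : w ≠ 0 := h0
  unfold tt th tf
  rw [sigma_eq_mul L w]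
  field_simp

/-! ### expansions of the shifted coordinate -/

lemma x_int (h : LD L Ω) : II v (tt L) (fun w => tt L w ^ 2 * Xx L w) := by
  have hτ := tt_co L
  have i1 := (uu_int v h).inv hτ (uu_an L) (EventuallyEq.refl _ _) (by rw [uu_zero, map_one])
  refine i1.congr ?_
  filter_upwards [xy_tu (L := L)] with w hw
  obtain ⟨h1, h2, h3, -⟩ := hw
  rw [h3]
  field_simp

lemma x_ll (h : LD L Ω) : LL v (tt L) (Xx L) := ⟨2, x_int h⟩

lemma near_add {z : ℂ} (hz : z ∉ L.lattice) : ∀ᶠ w in 𝓝 (0 : ℂ), z + w ∉ L.lattice := by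
  have hc : Continuous (fun w : ℂ => z + w) := by fun_prop
  have h4 : IsOpen ((fun w : ℂ => z + w) ⁻¹' (L.lattice : Set ℂ)ᶜ) :=
    (L.isClosed_lattice.isOpen_compl).preimage hc
  exact h4.mem_nhds (by simpa using hz)

lemma near_sub {z : ℂ} (hz : z ∉ L.lattice) : ∀ᶠ w in 𝓝 (0 : ℂ), z - w ∉ L.lattice := by
  have hc : Continuous (fun w : ℂ => z - w) := by fun_prop
  have h4 : IsOpen ((fun w : ℂ => z - w) ⁻¹' (L.lattice : Set ℂ)ᶜ) :=
    (L.isClosed_lattice.isOpen_compl).preimage hc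
  exact h4.mem_nhds (by simpa using hz)

lemma lam_ll' (h : LD L Ω) {z : ℂ} (hx : v (Xx L z) ≤ 1) (hy : v (Yy L z) ≤ 1) :
    LL v (tt L) (fun w => lam L z w) := by
  refine ⟨1, (lam_ll h hx hy).congr (Eventually.of_forall fun w => ?_)⟩
  simp only [pow_one]
  rw [lam_symm]
  rfl

/-- the inverse of the difference -/
lemma shift_ll (h : LD L Ω) (hv : v al < 1) {z : ℂ} (hz : Od L z) :
    LL v (tt L) (fun w => ℘'[L] z / (Xx L (z + w) - Xx L z)) := by
  have hτ := tt_co L
  have hT := hz.tb hv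
  have h2z := hz.two.ne
  have ix := hT.int h hv
  have iy := hT.y_int h hv
  obtain ⟨iu, -⟩ := hT.deriv h hv h2z
  have hd := deriv_x hz.ne
  have c2 : v (2 : ℂ) ≤ 1 := by exact_mod_cast v_nat v 2
  set F : ℂ → ℂ := fun w => Xx L (z + w) - Xx L z with hF
  have hFa : AnalyticAt ℂ F 0 := by
    have h1 : AnalyticAt ℂ (Xx L) z := by
      have := (L.analyticOnNhd_weierstrassP z hz.ne)
      exact this.add analyticAt_const
    have h2 : AnalyticAt ℂ (fun w => Xx L (z + w)) 0 := by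
      refine AnalyticAt.fun_comp (f := fun w : ℂ => z + w) (g := Xx L) ?_ (by fun_prop)
      rw [add_zero]
      exact h1
    exact h2.sub analyticAt_const
  have hF0 : F 0 = 0 := by simp [hF]
  obtain ⟨k, hk, hke⟩ := hτ.fac hFa
  -- the value of the quotient
  have hk0 : k 0 = ℘'[L] z := by
    have d1 : HasDerivAt F (2 * Yy L z + Xx L z) 0 := by
      have h3 : HasDerivAt (Xx L) (2 * Yy L z + Xx L z) (z + 0) := by rw [add_zero]; exact hd
      exact (h3.comp_const_add z 0).sub_const _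
    have d2 : HasDerivAt (fun w => F 0 + tt L w * k w) (deriv (tt L) 0 * k 0 + tt L 0 * deriv k 0) 0 :=
      ((hτ.an.differentiableAt.hasDerivAt).mul hk.differentiableAt.hasDerivAt).const_add _
    have d3 := (d2.congr_of_eventuallyEq hke).unique d1
    rw [tt_der, tt_zero, one_mul, zero_mul, add_zero] at d3
    rw [d3]
    unfold Yy
    ring
  have hLL : LL v (tt L) F := by
    have l1 := lam_ll' (v := v) h ix iy
    have l2 : LL v (tt L) (fun w => lam L z w ^ 2 + lam L z w + (1 - 2 * Xx L z) - Xx L w) := by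
      refine LL.sub hτ (LL.add hτ (LL.add hτ (l1.pow hτ 2) l1) (LL.const ?_)) (x_ll h)
      exact Valuation.map_sub_le v (by rw [map_one]) (by
        rw [map_mul]
        exact mul_le_one' c2 ix)
    refine l2.congr ?_
    filter_upwards [near L, (near_add hz.ne).filter_mono nhdsWithin_le_nhds,
      (near_sub hz.ne).filter_mono nhdsWithin_le_nhds] with w a1 a2 a3
    simp only [hF]
    rw [add_x h h2z a1 a2 a3]
    ring
  have hI : II v (tt L) k := by
    have l1 := hLL.mul hτ (LL.tau_inv (v := v) hτ 1)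
    refine (l1.congr (f' := k) ?_).reg hτ hk (EventuallyEq.refl _ _)
    filter_upwards [hke.filter_mono nhdsWithin_le_nhds, hτ.ne] with w a1 a2
    rw [a1, hF0]
    field_simp
    ring
  have hI2 := hI.inv hτ hk (EventuallyEq.refl _ _) (by rw [hk0, iu])
  have hk00 : k 0 ≠ 0 := by
    intro h0
    rw [← hk0, h0, map_zero] at iu
    exact zero_ne_one iu
  refine (((hI2.ll).mul hτ (LL.tau_inv (v := v) hτ 1)).cmul hτ iu.le).congr ?_
  filter_upwards [hke.filter_mono nhdsWithin_le_nhds, hτ.ne,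
    (hk.continuousAt.eventually_ne hk00).filter_mono nhdsWithin_le_nhds] with w a1 a2 a3
  have a4 : Xx L (z + w) - Xx L z = tt L w * k w := by
    have : F w = tt L w * k w := by rw [a1, hF0, zero_add]
    exact this
  rw [a4]
  field_simp

/-- powers of the theta function -/
lemma th_pow (h : LD L Ω) (hv : v al < 1) {z : ℂ} (hz : Od L z) (c : ℂ) (m : ℕ) :
    ∃ G : ℂ → ℂ, LL v (tt L) G ∧ (fun w => th L p q c z w ^ (2 ^ m)) =ᶠ[𝓝[≠] 0]
      fun w => th L p q (2 ^ m * c) (2 ^ m * z) w * G w := by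
  have hτ := tt_co L
  induction m with
  | zero =>
    refine ⟨fun _ => 1, LL.const (by rw [map_one]), Eventually.of_forall fun w => ?_⟩
    simp
  | succ m ih =>
    obtain ⟨G, hG, he⟩ := ih
    have hm := hz.pow m
    have k1 := shift_ll h hv hm
    refine ⟨_, k1.mul hτ (hG.pow hτ 2), ?_⟩
    filter_upwards [he, near L, (near_add hm.ne).filter_mono nhdsWithin_le_nhds,
      (near_add hm.two.ne).filter_mono nhdsWithin_le_nhds] with w a1 a2 a3 a4
    have e1 := th_sq (p := p) (q := q) (2 ^ m * c) a2 a3 hm.two.ne a4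
    have e2 : (2 : ℂ) ^ (m + 1) * c = 2 * (2 ^ m * c) := by ring
    have e3 : (2 : ℂ) ^ (m + 1) * z = 2 * (2 ^ m * z) := by ring
    rw [pow_succ 2 m, pow_mul, a1, mul_pow, e1, e2, e3]
    ring

/-- **The Kronecker theta function at a point of odd order has an integral expansion.** -/
theorem th_int (h : LD L Ω) (hv : v al < 1)
    (hpq : ∀ l ∈ L.lattice, eta L l = p * l + q * (starRingEnd ℂ) l) {z : ℂ} (hz : Od L z) :
    II v (tt L) (fun w => tt L w * th L p q ((starRingEnd ℂ) z) z w) := by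
  have hτ := tt_co L
  obtain ⟨m, hm, hl⟩ := hz.per
  obtain ⟨G, hG, he⟩ := th_pow (p := p) (q := q) h hv hz ((starRingEnd ℂ) z) m
  have h1 : 1 ≤ 2 ^ m := Nat.one_le_two_pow
  have hMo : Odd (2 ^ m - 1) := by
    obtain ⟨k, rfl⟩ : ∃ k, m = k + 1 := ⟨m - 1, by omega⟩
    refine ⟨2 ^ k - 1, ?_⟩
    have : 1 ≤ 2 ^ k := Nat.one_le_two_pow
    rw [pow_succ]
    omega
  have hper : ∀ w, th L p q (2 ^ m * (starRingEnd ℂ) z) (2 ^ m * z) w =
      th L p q ((starRingEnd ℂ) z) z w := by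
    intro w
    have h2 := th_per (p := p) (q := q) hpq ((starRingEnd ℂ) z) hz.ne hl w
    have e1 : (2 : ℂ) ^ m * z = z + ((2 : ℂ) ^ m - 1) * z := by ring
    have e2 : (2 : ℂ) ^ m * (starRingEnd ℂ) z = (starRingEnd ℂ) z +
        (starRingEnd ℂ) (((2 : ℂ) ^ m - 1) * z) := by
      rw [map_mul, map_sub, map_pow, map_one]
      have : (starRingEnd ℂ) 2 = 2 := map_ofNat _ 2
      rw [this]
      ring
    rw [e1, e2, h2]
  refine II.root hτ (tf_an _ hz.ne) (tf_eq _ _) (by rw [tf_zero _ hz.ne, map_one])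
    (M := 2 ^ m - 1) (v_odd hv hMo) ?_
  have l1 : LL v (tt L) (fun w => (tt L w * th L p q ((starRingEnd ℂ) z) z w) ^ (2 ^ m - 1)) := by
    refine ((((II.tau (v := v) (τ := tt L)).ll).pow hτ (2 ^ m - 1)).mul hτ hG).congr ?_
    filter_upwards [he, near L, (near_add hz.ne).filter_mono nhdsWithin_le_nhds] with w a1 a2 a3
    rw [hper] at a1
    have hne := th_ne (p := p) (q := q) ((starRingEnd ℂ) z) hz.ne a2 a3
    have e1 : th L p q ((starRingEnd ℂ) z) z w ^ (2 ^ m) =
        th L p q ((starRingEnd ℂ) z) z w * th L p q ((starRingEnd ℂ) z) z w ^ (2 ^ m - 1) := by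
      rw [← pow_succ', Nat.sub_add_cancel h1]
    rw [e1] at a1
    have a4 := mul_left_cancel₀ hne a1
    rw [mul_pow, a4]
  refine l1.reg hτ ((tf_an ((starRingEnd ℂ) z) hz.ne (p := p) (q := q)).pow (2 ^ m - 1)) ?_
  filter_upwards [tf_eq (p := p) (q := q) (L := L) ((starRingEnd ℂ) z) z] with w a1
  rw [a1]
  rfl

end Pool.Agent.J4.H67.AW
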