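import Pool.Agent.J4.H67.AW.Fn

/-!
# The zeta function and its second companion
-/

set_option autoImplicit false
set_option linter.unusedSectionVars false

open Filter
open scoped Topology PeriodPair

namespace Pool.Agent.J4.H67.AW

open Pool.Agent.Y698
open H667R3 Pool.Agent.W192.HK Pool.Agent.TH936.CM Pool.Agent.TH936.PU
open Pool.Agent.TH936.CW (Rw Rw_eq Rw_an near hasDerivAt_wp'_all zreg_an zreg_zero)

variable {Γ : Type*} [LinearOrderedCommGroupWithZero Γ] {v : Valuation ℂ Γ}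
variable {L : PeriodPair} {Ω : ℂ}

/-- the slope -/
noncomputable def lam (L : PeriodPair) (z w : ℂ) : ℂ := (Yy L z - Yy L w) / (Xx L z - Xx L w)

lemma x_ne {z w : ℂ} (hz : z ∉ L.lattice) (hw : w ∉ L.lattice) (h1 : z + w ∉ L.lattice)
    (h2 : z - w ∉ L.lattice) : Xx L z - Xx L w ≠ 0 := by
  have h3 : ℘[L] z - ℘[L] w ≠ 0 := by
    rw [sub_ne_zero, Ne, wp_eq_iff L hz hw]
    tauto
  have e : Xx L z - Xx L w = ℘[L] z - ℘[L] w := by unfold Xx; ring
  rwa [e]

lemma lam_symm (L : PeriodPair) (z w : ℂ) : lam L z w = lam L w z := by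
  unfold lam
  rw [← neg_sub (Yy L w), ← neg_sub (Xx L w), neg_div_neg_eq]

/-- addition formula for `x` -/
theorem add_x (h : LD L Ω) {z w : ℂ} (h2z : 2 * z ∉ L.lattice) (hw : w ∉ L.lattice)
    (h1 : z + w ∉ L.lattice) (h2 : z - w ∉ L.lattice) :
    Xx L (z + w) = lam L z w ^ 2 + lam L z w + 1 - Xx L z - Xx L w := by
  have hz := two_mul_notMem_of L h2z
  have e := wp_add L h2z hw h1 h2
  have d := x_ne hz hw h1 h2
  have o1 := h.ode hz
  have o2 := h.ode hw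
  have f1 : ℘[L] z = Xx L z - 1 / 4 := by unfold Xx; ring
  have f2 : ℘[L] w = Xx L w - 1 / 4 := by unfold Xx; ring
  have f3 : Xx L (z + w) = ℘[L] (z + w) + 1 / 4 := rfl
  have f4 : Xx L z - 1 / 4 - (Xx L w - 1 / 4) = Xx L z - Xx L w := by ring
  rw [f3, e, f1, f2, f4, h.g2]
  unfold lam Yy
  set X := Xx L z
  set X' := Xx L w
  set P := ℘'[L] z
  set P' := ℘'[L] w
  field_simp
  linear_combination (16 : ℂ) * (o1 - o2)

/-- addition formula for `ζ` -/
theorem add_zeta {z w : ℂ} (hz : z ∉ L.lattice) (hw : w ∉ L.lattice)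
    (h1 : z + w ∉ L.lattice) (h2 : z - w ∉ L.lattice) :
    zeta L (z + w) = zeta L z + zeta L w + lam L z w + 1 / 2 := by
  have d := x_ne hz hw h1 h2
  have e : ℘[L] z - ℘[L] w = Xx L z - Xx L w := by unfold Xx; ring
  rw [zeta_add L hz hw h1 h2, e]
  unfold lam Yy
  field_simp
  ring

/-- slopes have integral expansions -/
lemma lam_ll (h : LD L Ω) {a b : ℂ} (ha : v a ≤ 1) (hb : v b ≤ 1) :
    II v (tt L) (fun w => tt L w * ((Yy L w - b) / (Xx L w - a))) := by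
  have hτ := tt_co L
  have iu := uu_int v h
  have h1 := tt_an L
  have h2 := uu_an L
  have i1 : II v (tt L) (fun w => 1 - a * (tt L w ^ 2 * uu L w)) :=
    (II.const (by rw [map_one])).sub hτ (((II.tau.pow hτ 2).mul hτ iu).cmul hτ ha)
  have a1 : AnalyticAt ℂ (fun w => 1 - a * (tt L w ^ 2 * uu L w)) 0 := by fun_prop
  have e1 : 1 - a * (tt L 0 ^ 2 * uu L 0) = 1 := by simp [tt_zero]
  have i2 := i1.inv hτ a1 (EventuallyEq.refl _ _) (by rw [e1, map_one])
  have i3 : II v (tt L) (fun w => -(1 + b * (tt L w ^ 3 * uu L w))) :=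
    ((II.const (by rw [map_one])).add (((II.tau.pow hτ 3).mul hτ iu).cmul hτ hb)).neg hτ
  refine (i3.mul hτ i2).congr ?_
  filter_upwards [xy_tu (L := L), (a1.continuousAt.eventually_ne (by
    rw [e1]; exact one_ne_zero)).filter_mono nhdsWithin_le_nhds] with w a2 a3
  obtain ⟨b1, b2, b3, b4⟩ := a2
  have f1 : 1 / (tt L w ^ 2 * uu L w) - a = (1 - a * (tt L w ^ 2 * uu L w)) /
      (tt L w ^ 2 * uu L w) := by
    field_simp
  have f2 : -(1 / (tt L w ^ 3 * uu L w)) - b = -(1 + b * (tt L w ^ 3 * uu L w)) /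
      (tt L w ^ 3 * uu L w) := by
    field_simp
    ring
  rw [eq_mul_inv_iff_mul_eq₀ a3, b3, b4, f1, f2]
  generalize 1 - a * (tt L w ^ 2 * uu L w) = D at a3 ⊢
  field_simp

/-! ### the point of order two -/

lemma x_tB (h : LD L Ω) : Xx L (tB Ω) = (bl - 3) / 4 := by
  unfold Xx
  rw [h.eb, al_eq]
  ring

lemma y_tB (h : LD L Ω) : Yy L (tB Ω) = -(bl - 3) / 8 := by
  unfold Yy
  rw [x_tB h, dwp_half (two_tB h.lat)]
  ring

lemma bl3 : bl ^ 3 = -bl - 2 := by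
  linear_combination (bl + 1) * bl_sq

lemma xR_eq : (bl - 3) / 4 = 2 / bl ^ 3 := by
  have h1 : bl ^ 3 ≠ 0 := pow_ne_zero _ bl_ne
  rw [eq_div_iff h1, bl3]
  linear_combination (-1 / 4 : ℂ) * bl_sq

lemma v_xR (hv : v al < 1) : v ((bl - 3) / 4) ≤ 1 := by
  rw [xR_eq, map_div₀, map_pow, v_bl hv, one_pow, div_one]
  exact_mod_cast v_nat v 2

lemma v_yR (hv : v al < 1) : v (-(bl - 3) / 8) ≤ 1 := by
  have e : -(bl - 3) / 8 = -(1 / bl ^ 3) := by
    have h1 : bl ^ 3 ≠ 0 := pow_ne_zero _ bl_ne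
    have h2 : -(bl - 3) / 8 = -(1 / 2) * ((bl - 3) / 4) := by ring
    rw [h2, xR_eq]
    field_simp
  rw [e, Valuation.map_neg, map_div₀, map_pow, v_bl hv, one_pow, map_one, div_one]

/-- the slope with the point of order two -/
noncomputable def ss (L : PeriodPair) (Ω w : ℂ) : ℂ := lam L w (tB Ω)

lemma ss_int (h : LD L Ω) (hv : v al < 1) : II v (tt L) (fun w => tt L w * ss L Ω w) := by
  unfold ss lam
  rw [x_tB h, y_tB h]
  exact lam_ll h (v_xR hv) (v_yR hv)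

lemma near_two (L : PeriodPair) : ∀ᶠ w in 𝓝[≠] (0 : ℂ), 2 * w ∉ L.lattice :=
  (tend_mul two_ne_zero).eventually (near L)

/-- the value of `x` at `β w` -/
lemma x_bl (h : LD L Ω) {w : ℂ} (hw : bl * w ∉ L.lattice) :
    bl ^ 2 * Xx L (bl * w) = ss L Ω w ^ 2 + ss L Ω w + 1 - (bl - 3) / 4 := by
  have hL := h.lat
  obtain ⟨hz0, hzm, hzp⟩ := tB_pts hL hw
  obtain ⟨h1, h2⟩ := mul_bl_x h hw
  have hd := x_ne hz0 (tB_notMem hL) hzp hzm
  have e := h.wei hz0
  have e2 : bl ^ 2 * Xx L w - al = bl ^ 2 * (Xx L w - (bl - 3) / 4) := by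
    rw [al_eq]
    linear_combination (1 / 4 : ℂ) * (bl - 2) * bl_sq
  have e3 : bl ^ 2 * Xx L (bl * w) * (Xx L w - (bl - 3) / 4) = Xx L w ^ 2 - bl := by
    rw [← h1, e2]
    ring
  rw [x_tB h] at hd
  unfold ss lam
  rw [x_tB h, y_tB h]
  apply mul_right_cancel₀ hd
  rw [e3]
  have key : (Xx L w ^ 2 - bl) * (Xx L w - (bl - 3) / 4) = (Yy L w - -(bl - 3) / 8) ^ 2 +
      (Yy L w - -(bl - 3) / 8) * (Xx L w - (bl - 3) / 4) +
      (1 - (bl - 3) / 4) * (Xx L w - (bl - 3) / 4) ^ 2 := by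
    linear_combination (-1 : ℂ) * e - (Xx L w / 8) * bl_sq + ((bl + 5) / 64) * bl_sq
  apply mul_right_cancel₀ hd
  rw [key]
  generalize -(bl - 3) / 8 = r' at *
  generalize (bl - 3) / 4 = r at *
  field_simp
  ring

/-- `ζ(β w)` -/
lemma zeta_bl' (h : LD L Ω) {w : ℂ} (hw : bl * w ∉ L.lattice) :
    bl * zeta L (bl * w) = 2 * zeta L w + ss L Ω w + 1 / 2 + (bl ^ 2 / 4 - 1 / 2) * w := by
  have hL := h.lat
  obtain ⟨hz0, hzm, hzp⟩ := tB_pts hL hw
  have h1 := zeta_bl h hw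
  have h2 := add_zeta hz0 (tB_notMem hL) hzp hzm
  unfold ss
  rw [h1, h2]
  ring

/-- the zeta function, shifted -/
noncomputable def zh (L : PeriodPair) (w : ℂ) : ℂ := zeta L w - w / 4 - 1 / 2

/-- the constant -/
noncomputable def cS : ℂ := (1 + bl) / bl ^ 2

lemma zh_bl (h : LD L Ω) {w : ℂ} (hw : bl * w ∉ L.lattice) :
    zh L (bl * w) = 2 * bl⁻¹ * zh L w + (bl⁻¹ * ss L Ω w + cS) := by
  have h1 := zeta_bl' h hw
  have hb := bl_ne
  unfold zh cS
  have e : zeta L (bl * w) = bl⁻¹ * (2 * zeta L w + ss L Ω w + 1 / 2 +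
      (bl ^ 2 / 4 - 1 / 2) * w) := by
    rw [← h1]
    field_simp
  rw [e]
  field_simp
  linear_combination (-4 : ℂ) * bl_sq

/-- the regular version -/
noncomputable def zf (L : PeriodPair) (w : ℂ) : ℂ :=
  fx L w / fy L w * (1 + w * (zreg L w - w / 4 - 1 / 2))

lemma zf_an (L : PeriodPair) : AnalyticAt ℂ (zf L) 0 := by
  have h1 := zreg_an L
  have h2 : AnalyticAt ℂ (fun w => fx L w / fy L w) 0 :=
    (fx_an L).div (fy_an L) (by rw [fy_zero]; exact one_ne_zero)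
  unfold zf
  fun_prop

lemma zf_eq (L : PeriodPair) : (fun w => tt L w * zh L w) =ᶠ[𝓝[≠] 0] zf L := by
  filter_upwards [near L, self_mem_nhdsWithin] with w hw h0
  have hw0 : w ≠ 0 := h0
  have h1 := zreg_eq hw
  unfold tt zh zf
  rw [h1]
  field_simp
  ring

lemma v_inv_bl (hv : v al < 1) : v (bl⁻¹) = 1 := by rw [map_inv₀, v_bl hv, inv_one]

lemma v_cS (hv : v al < 1) : v cS ≤ 1 := by
  unfold cS
  rw [map_div₀, map_pow, v_bl hv, one_pow, div_one]
  refine (Valuation.map_add v _ _).trans ?_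
  rw [map_one, v_bl hv, max_self]

/-- the zeta function has an integral expansion -/
theorem zh_int (h : LD L Ω) (hv : v al < 1) : II v (tt L) (fun w => tt L w * zh L w) := by
  have hτ := tt_co L
  have hs := sc_bl h hv
  have is := ss_int h hv
  have hA : II v (tt L) (fun w => rb L w * (bl⁻¹ * (tt L w * ss L Ω w) + cS * tt L w)) :=
    hs.int.mul hτ ((is.cmul hτ (v_inv_bl hv).le).add (II.tau.cmul hτ (v_cS hv)))
  have hB : II v (tt L) (fun w => bl⁻¹ * rb L w) := hs.int.cmul hτ (v_inv_bl hv).le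
  refine II.self hτ hs (zf_an L) (zf_eq L) hA hB (a := 2) (v_two_lt hv) ?_
  filter_upwards [near_bl L, hs.eq] with w h1 h2
  rw [h2, zh_bl h h1]
  ring

/-! ### the second function -/

/-- the second function -/
noncomputable def ka (L : PeriodPair) (w : ℂ) : ℂ := (zh L w ^ 2 + zh L w + Xx L w - 1) / 2

/-- the constant -/
noncomputable def cK : ℂ := (4 * bl - 5) / bl ^ 4

lemma ka_bl (h : LD L Ω) {w : ℂ} (hw : bl * w ∉ L.lattice) :
    ka L (bl * w) = 2 * bl⁻¹ ^ 2 * zh L w ^ 2 + 2 * bl⁻¹ * zh L w * (bl⁻¹ * ss L Ω w + cS) +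
      bl⁻¹ * zh L w + bl⁻¹ ^ 2 * ss L Ω w ^ 2 + 2 * bl⁻¹ ^ 2 * ss L Ω w + cK := by
  have h1 := zh_bl h hw
  have h2 := x_bl h hw
  have hb := bl_ne
  have e : Xx L (bl * w) = (ss L Ω w ^ 2 + ss L Ω w + 1 - (bl - 3) / 4) / bl ^ 2 := by
    rw [← h2]
    field_simp
  unfold ka
  rw [h1, e]
  unfold cS cK
  generalize zh L w = Z
  generalize ss L Ω w = s
  field_simp
  linear_combination (4 * bl * s + (-4 * bl ^ 2 - bl + 22)) * bl_sq

/-- the regular version -/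
noncomputable def kf (L : PeriodPair) (w : ℂ) : ℂ :=
  (fx L w / fy L w) ^ 2 * (((1 + w * (zreg L w - w / 4 - 1 / 2)) ^ 2 +
    w * (1 + w * (zreg L w - w / 4 - 1 / 2)) + fx L w - w ^ 2) / 2)

lemma kf_an (L : PeriodPair) : AnalyticAt ℂ (kf L) 0 := by
  have h1 := zreg_an L
  have h3 := fx_an L
  have h2 : AnalyticAt ℂ (fun w => fx L w / fy L w) 0 :=
    (fx_an L).div (fy_an L) (by rw [fy_zero]; exact one_ne_zero)
  unfold kf
  fun_prop

lemma kf_eq (L : PeriodPair) : (fun w => tt L w ^ 2 * ka L w) =ᶠ[𝓝[≠] 0] kf L := by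
  filter_upwards [near L, self_mem_nhdsWithin] with w hw h0
  have hw0 : w ≠ 0 := h0
  have h1 := zreg_eq hw
  unfold tt ka kf zh
  rw [h1, x_eq hw0]
  field_simp
  ring

lemma v_cK (hv : v al < 1) : v cK ≤ 1 := by
  unfold cK
  rw [map_div₀, map_pow, v_bl hv, one_pow, div_one]
  refine Valuation.map_sub_le v ?_ ?_
  · rw [map_mul, v_bl hv, mul_one]
    exact_mod_cast v_nat v 4
  · exact_mod_cast v_nat v 5

/-- the second function has an integral expansion -/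
theorem ka_int (h : LD L Ω) (hv : v al < 1) : II v (tt L) (fun w => tt L w ^ 2 * ka L w) := by
  have hτ := tt_co L
  have hs := sc_bl h hv
  have is := ss_int h hv
  have iz := zh_int h hv
  have vb := (v_inv_bl hv).le
  have vb2 : v (bl⁻¹ ^ 2) ≤ 1 := by rw [map_pow]; exact pow_le_one' vb 2
  have c2 : v (2 : ℂ) ≤ 1 := by exact_mod_cast v_nat v 2
  refine II.of_comp hτ hs (kf_an L) (kf_eq L) ?_
  have k1 := (iz.pow hτ 2).cmul hτ vb2 |>.cmul hτ c2
  have k2 := ((iz.mul hτ ((is.cmul hτ vb).add (II.tau.cmul hτ (v_cS hv)))).cmul hτ vb).cmul hτ c2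
  have k3 := (II.tau.mul hτ iz).cmul hτ vb
  have k4 := (is.pow hτ 2).cmul hτ vb2
  have k5 := ((II.tau.mul hτ is).cmul hτ vb2).cmul hτ c2
  have k6 := (II.tau.pow hτ 2).cmul hτ (v_cK hv)
  refine ((hs.int.pow hτ 2).mul hτ (((((k1.add k2).add k3).add k4).add k5).add k6)).congr ?_
  filter_upwards [near_bl L, hs.eq] with w h1 h2
  rw [h2, ka_bl h h1]
  ring

end Pool.Agent.J4.H67.AW
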